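import Pool.Agent.P.MP_29cb78_nt.E.KIface

/-!
Definitions for the rank one Stark conjecture over complex cubic fields.
-/

namespace Pool.Agent.P.MP_29cb78_nt.F

open Filter Topology E
open scoped Classical Real

noncomputable section

/-- A lattice of rank three in `ℂ` with a multiplier `ε` and a primitive linear form `a`. -/
structure Setup where
  L : AddSubgroup ℂ
  a : ℂ →+ ℚ
  ε : ℂ
  lam : ℂ
  γ : ℂ
  β : ℂ
  s : ℕ
  N : ℕ
  mem_L : ∀ z, z ∈ L ↔ ∃ i j k : ℤ, z = i * lam + j * γ + k * β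
  a_lam : a lam = 1
  a_γ : a γ = 0
  a_β : a β = 0
  ε_mul : ∀ z, ε * z ∈ L ↔ z ∈ L
  a_γε : a (γ / ε) = 0
  a_βε : a (β / ε) = -s
  s_pos : 0 < s
  hp_pos : 0 < (lam / γ + a (lam / ε) * (β / (s * γ))).im
  hp_lt : 6 * (lam / γ + a (lam / ε) * (β / (s * γ))).im < (β / (s * γ)).im
  odd : ∃ k : ℤ, a (ε * lam) = 2 * k + 1
  N_ne : N ≠ 0
  N_mul : ∀ z, (ε ^ 2 - 1) * z ∈ L → N * z ∈ L
  ε_im : ε.im ≠ 0
  ε_norm : ‖ε‖ < 1

namespace Setup

variable (S : Setup)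

lemma ε_ne : S.ε ≠ 0 := fun h => S.ε_im (by rw [h]; rfl)

lemma lam_mem : S.lam ∈ S.L := (S.mem_L _).2 ⟨1, 0, 0, by simp⟩

lemma a_int {z : ℂ} (hz : z ∈ S.L) : ((⌊S.a z⌋ : ℤ) : ℚ) = S.a z := by
  obtain ⟨i, j, k, rfl⟩ := (S.mem_L z).1 hz
  have : S.a (i * S.lam + j * S.γ + k * S.β) = i := by
    simp only [← zsmul_eq_mul, map_add, map_zsmul, S.a_lam, S.a_γ, S.a_β]
    simp
  rw [this, Int.floor_intCast]

lemma div_mem {z : ℂ} (hz : z ∈ S.L) : z / S.ε ∈ S.L := by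
  rw [← S.ε_mul, mul_div_cancel₀ _ S.ε_ne]
  exact hz

/-- The group of pairs `(x₁, x₂)` with `x₁ - ε x₂ ∈ L`. -/
def A : AddSubgroup (ℂ × ℂ) where
  carrier := {x | x.1 - S.ε * x.2 ∈ S.L}
  zero_mem' := by simp
  add_mem' := fun {x y} hx hy => by
    have := S.L.add_mem hx hy
    simp only [Set.mem_ofPred_eq, Prod.fst_add, Prod.snd_add]
    convert this using 1
    ring
  neg_mem' := fun {x} hx => by
    have := S.L.neg_mem hx
    simp only [Set.mem_ofPred_eq, Prod.fst_neg, Prod.snd_neg]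
    convert this using 1
    ring

/-- First coordinate. -/
def x₁ : S.A →+ ℂ := (AddMonoidHom.fst ℂ ℂ).comp S.A.subtype

/-- Second coordinate. -/
def x₂ : S.A →+ ℂ := (AddMonoidHom.snd ℂ ℂ).comp S.A.subtype

lemma diff_mem (x : S.A) : S.x₁ x - S.ε * S.x₂ x ∈ S.L := x.2

/-- The point with the given coordinates, if there is one. -/
def pt (u v : ℂ) : S.A := if h : u - S.ε * v ∈ S.L then ⟨(u, v), h⟩ else 0

/-- The complex direction. -/
def ι : ℂ →+ S.A where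
  toFun z := ⟨(S.ε * z, z), by change S.ε * z - S.ε * z ∈ S.L; simp⟩
  map_zero' := Subtype.ext (by simp)
  map_add' z u := Subtype.ext (by simp [mul_add])

/-- The kernel of `a` on `L`, a lattice in `ℂ`. -/
def M : AddSubgroup ℂ := S.L ⊓ S.a.ker

/-- The period group `M × M`. -/
def Ω : AddSubgroup S.A := S.M.comap S.x₁ ⊓ S.M.comap S.x₂

/-- The level. -/
def n : S.A →+ ℤ := AddMonoidHom.mk' (fun x => ⌊S.a (S.x₁ x - S.ε * S.x₂ x)⌋) fun x y => by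
  have h : ∀ x : S.A, ((⌊S.a (S.x₁ x - S.ε * S.x₂ x)⌋ : ℤ) : ℚ) = _ :=
    fun x => S.a_int (S.diff_mem x)
  apply Int.cast_injective (α := ℚ)
  push_cast
  rw [h, h, h, ← map_add, map_add S.x₁, map_add S.x₂]
  congr 1
  ring

/-- The second level. -/
def ν : S.A →+ ℤ := AddMonoidHom.mk' (fun x => ⌊S.a ((S.x₁ x - S.ε * S.x₂ x) / S.ε)⌋)
  fun x y => by
  have h : ∀ x : S.A, ((⌊S.a ((S.x₁ x - S.ε * S.x₂ x) / S.ε)⌋ : ℤ) : ℚ) = _ :=
    fun x => S.a_int (S.div_mem (S.diff_mem x))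
  apply Int.cast_injective (α := ℚ)
  push_cast
  rw [h, h, h, ← map_add, map_add S.x₁, map_add S.x₂]
  congr 1
  ring

/-- The first shift `(λ, 0)`. -/
def p : S.A := S.pt S.lam 0

/-- The second shift `(0, -λ)`. -/
def q : S.A := S.pt 0 (-S.lam)

/-- The modulus of `q`. -/
def τq : ℂ := S.β / (S.s * S.γ)

/-- The modulus of `p`. -/
def τp : ℂ := S.lam / S.γ + S.a (S.lam / S.ε) * S.τq

/-- The uniformising coordinate. -/
def w : S.A →+ ℂ := AddMonoidHom.mk' (fun x => S.x₁ x / S.γ + S.ν x * S.τq) fun x y => by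
  simp only [map_add]
  push_cast
  ring

/-- The height. -/
def h : S.A →+ ℝ := AddMonoidHom.mk' (fun x => (S.w x).im) fun x y => by
  simp only [map_add, Complex.add_im]

/-- The index in the direction of `q`. -/
def kk : S.A →+ ℚ := -(S.a.comp S.x₂)

/-- Points of `L × L`. -/
def Lat (x : S.A) : Prop := S.x₁ x ∈ S.L

/-- Points of the diagonal. -/
def Diag (x : S.A) : Prop := S.x₁ x = S.x₂ x

/-- Points of the antidiagonal. -/
def Anti (x : S.A) : Prop := S.x₁ x = -S.x₂ x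

/-- The poles of the gamma function. -/
def Pole (x : S.A) : Prop := ∃ i k : ℕ, x + i • S.p + k • S.q ∈ S.Ω

/-- The zeros of the gamma function. -/
def Zero (x : S.A) : Prop := S.Pole (S.p + S.q - x)

/-- The sign character. -/
def χ (x : S.A) : ℂ := (-1) ^ S.n x

/-! ### The gamma function -/

/-- The exponential on the identity component, extended by zero. -/
def Ex (x : S.A) : ℂ := if (S.s : ℤ) ∣ S.ν x then ee (S.w x) else 0

/-- The double product. -/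
def Den (x : S.A) : ℂ := ∏' ik : ℕ × ℕ, (1 - S.Ex (x + ik.1 • S.p + ik.2 • S.q))

/-- The single product in the direction of `c`. -/
def Rw (c x : S.A) : ℂ := ∏' k : ℕ, (1 - S.Ex (x + k • c))

/-- The theta product in the direction of `c`. -/
def θw (c x : S.A) : ℂ := S.Rw c x * S.Rw c (c - x)

/-- The elliptic gamma function. -/
def Gam (x : S.A) : ℂ := S.Den (S.p + S.q - x) / S.Den x

/-! ### Theta functions of `M` -/

/-- The odd theta function of `M`. -/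
def ϑ (z : ℂ) : ℂ := ee (-z / (2 * S.γ)) * th0 (z / S.γ) (S.β / S.γ)

/-- The quasi-periods. -/
def η : ℂ →+ ℂ := AddMonoidHom.mk'
  (fun m => 2 * π * Complex.I * S.a (m / S.ε) / (S.s * S.γ)) fun x y => by
  simp only [add_div, map_add]
  push_cast
  ring

/-- The multiplier of the theta function. -/
def mult (m z : ℂ) : ℂ := deriv S.ϑ m / deriv S.ϑ 0 * Complex.exp (S.η m * z)

/-- Entire functions with the `d`-th power of the multiplier. -/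
def Sec (d : ℕ) (f : ℂ → ℂ) : Prop :=
  Differentiable ℂ f ∧ ∀ m ∈ S.M, ∀ z, f (z + m) = S.mult m z ^ d * f z

/-- The logarithmic derivative. -/
def zt (z : ℂ) : ℂ := deriv S.ϑ z / S.ϑ z

/-- The product of the shifted theta functions. -/
def PP {d : ℕ} (σ : Fin d → ℂ) (y : ℂ) : ℂ := ∏ j, S.ϑ (σ j + y)

/-- The odd part. -/
def Pm {d : ℕ} (σ : Fin d → ℂ) (y : ℂ) : ℂ := S.PP σ y - S.PP σ (-y)

/-- The derivative of the even part, divided by the degree. -/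
def GG {d : ℕ} (σ : Fin d → ℂ) (y : ℂ) : ℂ := deriv (fun u => S.PP σ u + S.PP σ (-u)) y / d

/-- The kernel. -/
def BB {d : ℕ} (σ : Fin d → ℂ) (y₁ y₂ : ℂ) : ℂ :=
  (S.PP σ y₁ * S.PP σ (-y₂) - S.PP σ (-y₁) * S.PP σ y₂) * S.zt (y₁ - y₂) -
    (S.PP σ y₁ * S.PP σ y₂ - S.PP σ (-y₁) * S.PP σ (-y₂)) * S.zt (y₁ + y₂) +
    S.Pm σ y₁ * S.GG σ y₂ + S.GG σ y₁ * S.Pm σ y₂

/-- An odd section of degree six. -/
def ff (σ y : ℂ) : ℂ := S.ϑ (σ + y) * S.ϑ (σ - y) * S.ϑ (2 * y)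

/-- The properties of the theta function. -/
structure TH : Prop where
  diff : Differentiable ℂ S.ϑ
  odd : ∀ z, S.ϑ (-z) = -S.ϑ z
  zero_iff : ∀ z, S.ϑ z = 0 ↔ z ∈ S.M
  deriv_ne : ∀ m ∈ S.M, deriv S.ϑ m ≠ 0
  shift : ∀ m ∈ S.M, ∀ z, S.ϑ (z + m) = S.mult m z * S.ϑ z
  mult_ne : ∀ m ∈ S.M, ∀ z, S.mult m z ≠ 0
  mult_sq : ∀ m ∈ S.M, ∀ z, S.mult m z ^ 2 = Complex.exp (S.η m * (2 * z + m))
  mult_two : ∀ m ∈ S.M, ∀ z, S.mult (2 * m) (2 * z) = S.mult m z ^ 4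
  quad : ∃ B : ℂ →+ ℂ →+ ℂ, (∀ x y, B x y = B y x) ∧
    ∀ m ∈ S.M, ∀ z, S.mult m z = Complex.exp (S.η m * z + B m m)
  liou : ∀ f : ℂ → ℂ, Differentiable ℂ f → (∀ m ∈ S.M, ∀ z, f (z + m) = f z) → ∀ z u, f z = f u
  disc : ∀ z : ℂ, ∀ᶠ u in 𝓝[≠] z, u ∉ S.M

/-! ### The normalised gamma function -/

/-- The restriction to a complex line. -/
def sl (f : S.A → ℂ) (x : S.A) (z : ℂ) : ℂ := f (x + S.ι z)

/-- Polynomial of degree at most three on every arithmetic progression. -/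
def Cubic (f : S.A → ℂ) : Prop :=
  ∀ x y : S.A, ∃ c₀ c₁ c₂ c₃ : ℂ, ∀ j : ℤ, f (x + j • y) = c₀ + c₁ * j + c₂ * j ^ 2 + c₃ * j ^ 3

/-- The properties of the double product. -/
structure DN : Prop where
  diff : ∀ x, Differentiable ℂ (S.sl S.Den x)
  zero_iff : ∀ x, S.Den x = 0 ↔ S.Pole x
  per : ∀ ω ∈ S.Ω, ∀ x, S.Den (x + ω) = S.Den x
  θper : ∀ ω ∈ S.Ω, ∀ c x, S.θw c (x + ω) = S.θw c x
  shp : ∀ x, S.Den x = S.Den (x + S.p) * S.Rw S.q x
  shq : ∀ x, S.Den x = S.Den (x + S.q) * S.Rw S.p x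

/-- The exponential of a quadratic polynomial on every component. -/
def ExpQ (f : S.A → ℂ) : Prop :=
  ∀ x, ∃ c₀ c₁ c₂ : ℂ, ∀ z, f (x + S.ι z) = Complex.exp (c₀ + c₁ * z + c₂ * z ^ 2)

/-- The correcting factor that is trivial on the central level. -/
structure Psi (nc : ℤ) (ψ : S.A → ℂ) : Prop where
  cen : 2 * nc = 1 + S.n S.q
  expq : S.ExpQ ψ
  one : ∀ x, S.n x = nc → ψ x = 1
  shp : ∀ x, ψ (x + S.p) * S.θw S.q x = S.ϑ (S.x₁ x) * ψ x

/-- The properties of the normalised gamma function. -/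
structure GH (G : S.A → ℂ) : Prop where
  quot : ∃ Nu De : S.A → ℂ, (∀ x, G x = Nu x / De x) ∧ (∀ x, Differentiable ℂ (S.sl Nu x)) ∧
    (∀ x, Differentiable ℂ (S.sl De x)) ∧ (∀ x, De x = 0 ↔ S.Pole x) ∧ ∀ x, Nu x = 0 ↔ S.Zero x
  shp : ∀ x, ¬ S.Pole x → G (x + S.p) = S.ϑ (S.x₁ x) * G x
  shq : ∀ x, ¬ S.Pole x → G (x + S.q) = S.ϑ (S.x₂ x) * G x
  refl : ∀ x, ¬ S.Pole (x + S.p) → ¬ S.Zero (x + S.p) → G (x + S.p) * G (S.q - x) = S.χ x
  per : ∀ ω ∈ S.Ω, ∃ (b : S.A →+ S.A →+ ℂ) (l : S.A →+ ℂ) (c : ℂ), (∀ x y, b x y = b y x) ∧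
    (∀ x, G (x + ω) = Complex.exp (b x x + l x + c) * G x) ∧
    ∀ x, Differentiable ℂ (S.sl (fun y => Complex.exp (b y y + l y + c)) x)
  struct : ∃ (nc : ℤ) (P : S.A → ℂ), S.Cubic P ∧
    ∀ x, S.n x = nc → G x = S.Gam x * Complex.exp (P x)

/-- The multiplier of the normalised gamma function and its symmetries. -/
structure QD (G : S.A → ℂ) (ω : S.A) (Q : S.A → ℂ) : Prop where
  form : ∃ (b : S.A →+ S.A →+ ℂ) (l : S.A →+ ℂ) (c : ℂ), (∀ x y, b x y = b y x) ∧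
    ∀ x, Q x = b x x + l x + c
  per : ∀ x, G (x + ω) = Complex.exp (Q x) * G x
  sym : ∀ x, Complex.exp (Q x) = S.χ ω * Complex.exp (Q (S.p + S.q - ω - x))
  shp : ∀ x, Complex.exp (Q (x + S.p)) = S.mult (S.x₁ ω) (S.x₁ x) * Complex.exp (Q x)
  shq : ∀ x, Complex.exp (Q (x + S.q)) = S.mult (S.x₂ ω) (S.x₂ x) * Complex.exp (Q x)

/-! ### Contour integrals -/

/-- Meromorphic on every component. -/
def Mer (f : S.A → ℂ) : Prop := ∀ x, MeromorphicAt (S.sl f x) 0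

/-- Equality outside a discrete set. -/
def AE (f g : S.A → ℂ) : Prop := ∀ x, S.sl f x =ᶠ[𝓝[≠] 0] S.sl g x

/-- At most a removable singularity. -/
def Reg (f : S.A → ℂ) (x : S.A) : Prop := ∃ c, Tendsto (S.sl f x) (𝓝[≠] 0) (𝓝 c)

/-- At most a simple pole, with residue `r`. -/
def SRes (f : S.A → ℂ) (x : S.A) (r : ℂ) : Prop :=
  Tendsto (fun z => z * S.sl f x z) (𝓝[≠] 0) (𝓝 r)

/-- A periodic meromorphic function with a classification of its poles into upper poles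
(`cl` holds) and lower poles. -/
structure Tame (f : S.A → ℂ) (cl : S.A → Prop) : Prop where
  mer : S.Mer f
  per : ∀ ω ∈ S.Ω, S.AE (fun x => f (x + ω)) f
  clper : ∀ ω ∈ S.Ω, ∀ x, cl (x + ω) ↔ cl x
  bdd : ∃ R : ℝ, ∀ x, ¬ S.Reg f x → (cl x → -R < S.h x) ∧ (¬ cl x → S.h x < R)

/-- The integral over the points of height zero. -/
def Lin (f : S.A → ℂ) : ℂ :=
  ∑ j ∈ Finset.range S.s, ∫ u in (0 : ℝ)..1, f (j • S.q + S.ι (S.γ / S.ε * (u - j * S.τq)))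

/-- The constant in the residue formula. -/
def κ : ℂ := 2 * π * Complex.I * S.ε / S.γ

/-- The integral over a contour that separates the upper poles from the lower poles. -/
structure LamAPI (Λ : (S.A → ℂ) → (S.A → Prop) → ℂ) : Prop where
  congr : ∀ f g cl, S.Tame f cl → S.AE f g → Λ f cl = Λ g cl
  add : ∀ f g cl, S.Tame f cl → S.Tame g cl → Λ (fun x => f x + g x) cl = Λ f cl + Λ g cl
  smul : ∀ f cl (c : ℂ), S.Tame f cl → Λ (fun x => c * f x) cl = c * Λ f cl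
  shift : ∀ f cl (y : S.A), S.Tame f cl → Λ (fun x => f (x + y)) (fun x => cl (x + y)) = Λ f cl
  recl : ∀ f cl cl' (F : Finset S.A) (r : S.A → ℂ), S.Tame f cl → S.Tame f cl' →
    (∀ x ∈ F, ∀ y ∈ F, x - y ∈ S.Ω → x = y) →
    (∀ x, ¬ S.Reg f x → (cl x ↔ cl' x) ∨ ∃ y ∈ F, x - y ∈ S.Ω) →
    (∀ y ∈ F, cl y ∧ ¬ cl' y ∧ S.SRes f y (r y)) → Λ f cl - Λ f cl' = S.κ * ∑ y ∈ F, r y
  lin : ∀ f, S.Tame f (fun x => 0 < S.h x) → (∀ x, S.h x = 0 → AnalyticAt ℂ (S.sl f x) 0) →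
    Λ f (fun x => 0 < S.h x) = S.Lin f

/-- The product with parameters `t j + c` and `t j`. -/
def WW (G : S.A → ℂ) {d : ℕ} (t : Fin d → S.A) (c y : S.A) : ℂ :=
  ∏ j, (G (t j + c + y) * G (t j - y))

/-- Balanced parameters; the centre `c` is the diagonal point `(2 s, 2 s)`. -/
structure Bal {d : ℕ} (t : Fin d → S.A) (c : S.A) (s : ℂ) : Prop where
  c₁ : S.x₁ c = 2 * s
  c₂ : S.x₂ c = 2 * s
  sum : ∑ j, (t j + t j + c) = 0

/-- The classification separates the two families of poles. -/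
structure Sep {d : ℕ} (t : Fin d → S.A) (c : S.A) (cl : S.A → Prop) : Prop where
  clper : ∀ ω ∈ S.Ω, ∀ x, cl (x + ω) ↔ cl x
  lower : ∀ j y, S.Pole (t j + c + y) → ¬ cl y
  upper : ∀ j y, S.Pole (t j - y) → cl y

/-- A threshold for the index in the direction of `q`. -/
structure Thr {d : ℕ} (t : Fin d → S.A) (c : S.A) (θ : ℂ → ℚ) : Prop where
  per : ∀ z, ∀ m ∈ S.L, θ (z + m) = θ z
  bdd : ∃ R : ℚ, ∀ z, |θ z| ≤ R
  lower : ∀ j y, S.Lat (t j + c + y) → S.a (S.x₂ (t j + c)) < θ (S.x₂ y)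
  upper : ∀ j y, S.Lat (t j - y) → θ (S.x₂ y) ≤ -S.a (S.x₂ (t j))

/-- The classification attached to a threshold. -/
def clT (θ : ℂ → ℚ) (y : S.A) : Prop := θ (S.x₂ y) ≤ S.kk y

/-- `F` is a system of representatives of `B` modulo periods. -/
structure Reps (F : Finset S.A) (B : S.A → Prop) : Prop where
  mem : ∀ y ∈ F, B y
  inj : ∀ x ∈ F, ∀ y ∈ F, x - y ∈ S.Ω → x = y
  surj : ∀ x, B x → ∃ y ∈ F, x - y ∈ S.Ω

/-! ### The finite system -/

/-- Reduction of a lattice point to a period. -/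
def red (x : S.A) : S.A := x - ⌊S.a (S.x₁ x)⌋ • S.p + ⌊S.a (S.x₂ x)⌋ • S.q

/-- The value of the gamma function, with a convention at the lattice points. -/
def fb (G : S.A → ℂ) (x : S.A) : ℂ := if S.Lat x then G (S.red x + S.q) else G (x + S.p)

/-- The properties of these values. -/
structure FB (G : S.A → ℂ) : Prop where
  ne : ∀ x, S.fb G x ≠ 0
  shp : ∀ x, ¬ S.Lat x → S.fb G (x + S.p) = S.ϑ (S.x₁ x + S.lam) * S.fb G x
  shq : ∀ x, ¬ S.Lat x → S.fb G (x + S.q) = S.ϑ (S.x₂ x) * S.fb G x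
  latp : ∀ x, S.Lat x → S.fb G (x + S.p) = S.fb G x
  latq : ∀ x, S.Lat x → S.fb G (x + S.q) = S.fb G x
  refl : ∀ x, ¬ S.Lat x → S.fb G x * S.fb G (-x) * S.ϑ (S.x₂ x) = S.χ x * S.ϑ (S.x₁ x)
  reflL : ∀ x, S.Lat x → S.fb G x * S.fb G (-x) * (S.ε * deriv S.ϑ (S.x₁ (S.red x))) =
    S.χ (S.red x) * deriv S.ϑ (S.x₂ (S.red x))
  reflD : ∀ x, S.Diag x → S.fb G x * S.fb G (-x) = S.χ x * if S.Lat x then S.ε⁻¹ else 1
  raw : ∀ x, S.Diag x → (S.Lat x → S.a (S.x₁ x) < 0) → G (x + S.p) = S.fb G x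
  tshD : ∀ x (k : ℤ), S.Diag x → S.fb G (x + k • (S.p - S.q)) = S.fb G x
  tsh : ∀ x y (k : ℤ), S.x₁ y = S.x₂ x → S.x₂ y = S.x₁ x →
    S.fb G (x + k • (S.p - S.q)) * S.fb G (y + k • (S.p - S.q)) = S.fb G x * S.fb G y

/-- The points whose transpose is also a point. -/
def V : AddSubgroup S.A where
  carrier := {x | S.x₂ x - S.ε * S.x₁ x ∈ S.L}
  zero_mem' := by simp
  add_mem' := fun {x y} hx hy => by
    have := S.L.add_mem hx hy
    simp only [Set.mem_ofPred_eq, map_add]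
    convert this using 1
    ring
  neg_mem' := fun {x} hx => by
    have := S.L.neg_mem hx
    simp only [Set.mem_ofPred_eq, map_neg]
    convert this using 1
    ring

/-- The transpose. -/
def sw (x : S.A) : S.A := S.pt (S.x₂ x) (S.x₁ x)

/-- The product of the values at a point and at its transpose. -/
def UU (G : S.A → ℂ) (x : S.A) : ℂ := S.fb G x * S.fb G (S.sw x)

/-- Two pairs of points, stable under the transpose, with the same sum. -/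
structure Cfg (α₀ α₁ β₀ β₁ : S.A) : Prop where
  mem : α₀ ∈ S.V ∧ α₁ ∈ S.V ∧ β₀ ∈ S.V ∧ β₁ ∈ S.V
  sw : (S.Diag α₀ ∧ S.Diag α₁ ∧ S.Diag β₀ ∧ S.Diag β₁) ∨ (S.sw α₀ = α₁ ∧ S.sw β₀ = β₁)
  sum : α₀ + α₁ = β₀ + β₁
  cross : ¬ S.Lat (α₀ - β₀) ∧ ¬ S.Lat (α₀ - β₁) ∧ ¬ S.Lat (α₁ - β₀) ∧ ¬ S.Lat (α₁ - β₁)

/-- The function of rank two attached to two pairs of points. -/
def RR (G : S.A → ℂ) (α₀ α₁ β₀ β₁ z : S.A) : ℂ :=
  S.fb G (α₀ + z) * S.fb G (α₁ + z) * S.fb G (-β₀ - z) * S.fb G (-β₁ - z)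

/-- `F` is a system of representatives of the diagonal modulo lattice points. -/
structure DReps (F : Finset S.A) : Prop where
  mem : ∀ y ∈ F, S.Diag y
  inj : ∀ x ∈ F, ∀ y ∈ F, S.Lat (x - y) → x = y
  surj : ∀ x, S.Diag x → ∃ y ∈ F, S.Lat (x - y)

/-- The value on an edge. -/
def ed (G : S.A → ℂ) (u v : ℂ) : ℂ := G (S.pt u v + S.p)

end Setup

/-! ### The extrapolation functional -/

/-- The multiplicative functional that kills exponentials of cubic polynomials. -/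
def FF (N : ℕ) (f : ℤ → ℂ) : ℂ := ∏ j : Fin 4, (f (tt N j) / f (-tt N j)) ^ cc N j

/-- Cubic polynomials in one variable. -/
def Cub1 (P : ℤ → ℂ) : Prop :=
  ∃ c₀ c₁ c₂ c₃ : ℂ, ∀ t : ℤ, P t = c₀ + c₁ * t + c₂ * t ^ 2 + c₃ * t ^ 3

/-- Cubic polynomials in two variables. -/
def Cub2 (P : ℤ → ℤ → ℂ) : Prop :=
  ∃ c : Fin 10 → ℂ, ∀ t i : ℤ, P t i = c 0 + c 1 * t + c 2 * i + c 3 * t ^ 2 + c 4 * t * i +
    c 5 * i ^ 2 + c 6 * t ^ 3 + c 7 * t ^ 2 * i + c 8 * t * i ^ 2 + c 9 * i ^ 3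

namespace Setup

variable (S : Setup)

/-- One half of the normalised value. -/
def al (G : S.A → ℂ) (N : ℕ) (v : ℂ) : ℂ :=
  ∏ j : Fin 4, G (S.pt (tt N j * v) (tt N j * v) + S.p) ^ cc N j

/-- The normalised value at the class of `v`. -/
def AL (G : S.A → ℂ) (N : ℕ) (v : ℂ) : ℂ := FF N fun t => S.ed G (t * v) (t * v)

/-- The normalised symmetrised value. -/
def AU (G : S.A → ℂ) (N : ℕ) (x : S.A) : ℂ := FF N fun t => S.UU G (t • x)

/-- `τ` generates the `p`-torsion of the diagonal modulo lattice points. -/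
structure Tor (p : ℕ) (τ : S.A) : Prop where
  prime : p.Prime
  five : 5 ≤ p
  diag : S.Diag τ
  not_lat : ¬ S.Lat τ
  lat : S.Lat (p • τ)
  gen : ∀ x, S.Diag x → S.Lat (p • x) → ∃ j : ℤ, S.Lat (x - j • τ)

/-- The fourth difference in the direction of `τ`. -/
def D4 (G : S.A → ℂ) (τ x : S.A) : ℂ :=
  S.fb G (x + 4 • τ) * S.fb G (x + 2 • τ) ^ 6 * S.fb G x /
    (S.fb G (x + 3 • τ) ^ 4 * S.fb G (x + τ) ^ 4)

/-! ### Line sums -/

/-- The point of the line with indices `p`. -/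
def ln (ζ : ℂ) (p : ℤ × ℤ) : ℂ := ζ + p.1 * S.lam + p.2 * S.β

/-- The weight of the wedge with vertices `θ₁`, `θ₂`. -/
def wg (θ₁ θ₂ : ℝ) (b : ℂ) : ℝ := hs (S.a b - θ₁) - hs (S.a (b / S.ε) - θ₂)

/-- The sum over the lines of the wedge. -/
def LL (m : ℝ) (ζ : ℂ) (θ₁ θ₂ : ℝ) : ℝ :=
  ∑' p : ℤ × ℤ, S.wg θ₁ θ₂ (S.ln ζ p) * JJ m (S.ln ζ p / S.γ)

/-- The sum is absolutely convergent. -/
def LLs (m : ℝ) (ζ : ℂ) (θ₁ θ₂ : ℝ) : Prop :=
  Summable fun p : ℤ × ℤ => S.wg θ₁ θ₂ (S.ln ζ p) * JJ m (S.ln ζ p / S.γ)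

/-- The line sum of a point of `A`. -/
def LS (m : ℝ) (x : S.A) : ℝ :=
  S.LL m (S.x₁ x) (S.a (S.x₁ x) - 1 / 2) (S.a (S.x₂ x) + 1 / 2)

/-- The terms of the sum over the cone of the double product. -/
def hc (m : ℝ) (x : S.A) (p : ℤ × ℤ) : ℝ :=
  if 0 ≤ p.1 ∧ S.ν x + p.1 * S.ν S.p ≤ S.s * p.2 then JJ m (S.ln (S.x₁ x) p / S.γ) else 0

/-- The zero modes of the cone. -/
def SS (m : ℝ) (k : ℤ) : ℝ :=
  ∑' p : ℕ × ℕ, if (S.s : ℤ) ∣ k + p.1 * S.ν S.p + p.2 then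
    Real.exp (-(2 * π * m * (p.1 * S.h S.p + p.2 * S.h S.q))) else 0

/-- The sum over the lines of a row. -/
def RS (m : ℝ) (ζ : ℂ) : ℝ := ∑' k : ℤ, JJ m ((ζ + k * S.β) / S.γ)

/-- The zero modes and the linear terms of `k` consecutive rows. -/
def Phi (m y : ℝ) (k : ℤ) : ℝ :=
  (1 - Real.exp (-(2 * π * m * (S.β / S.γ).im)))⁻¹ *
    ((zm m y - zm m (y + k * (S.lam / S.γ).im)) *
        (1 - Real.exp (-(2 * π * m * (S.lam / S.γ).im)))⁻¹ +
      (zm m ((S.β / S.γ).im - y) - zm m ((S.β / S.γ).im - y - k * (S.lam / S.γ).im)) *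
        (1 - Real.exp (2 * π * m * (S.lam / S.γ).im))⁻¹) +
    2 * π * (k * y + k * (k - 1) / 2 * (S.lam / S.γ).im)

/-- The difference between the line sum and the logarithm of the gamma function. -/
def DD (G : S.A → ℂ) (m : ℝ) (x : S.A) : ℝ := S.LS m x - Real.log (‖G x‖ ^ 2)

/-- No line of `ζ + L` is real. -/
def Off (ζ : ℂ) : Prop := ∀ b, b - ζ ∈ S.L → (b / S.γ).im ≠ 0

/-- The real place, seen from the class of `v`. -/
structure RealStr (v : ℂ) (r : ℂ →+ ℝ) (ρ : ℝ) : Prop where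
  coord : ∃ x : Fin 3 → ℚ, v = x 0 * S.lam + x 1 * S.γ + x 2 * S.β
  fix : (S.ε - 1) * v ∈ S.L
  ρ_gt : 1 < ρ
  norm : ρ * ‖S.ε‖ ^ 2 = 1
  r_ε : ∀ b, b - v ∈ S.L → r (S.ε * b) = ρ * r b
  r_ne : ∀ b, b - v ∈ S.L → r b ≠ 0
  frm : ∃ (α : ℝ) (w : ℂ), Frm ![r S.lam, r S.γ, r S.β] ![S.lam, S.γ, S.β] α w
  off : S.Off v
  lam_im : (S.lam / S.γ).im ≠ 0

end Setup

end

end Pool.Agent.P.MP_29cb78_nt.F
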