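import Pool.Agent.P.MP_29cb78_nt.F.Ff

/-!
Basic properties of the normalised values.
-/

namespace Pool.Agent.P.MP_29cb78_nt.F

open E

namespace Alb

variable {S : Setup} {G : S.A → ℂ} {v : ℂ}

theorem int_mem {z : ℂ} (hz : z ∈ S.L) (t : ℤ) : (t : ℂ) * z ∈ S.L := by
  rw [← zsmul_eq_mul]
  exact S.L.zsmul_mem hz t

theorem ed_ne (hG : S.GH G) (hv : (S.ε - 1) * v ∈ S.L) {t : ℤ} (ht : t * v ∉ S.L) :
    S.ed G (t * v) (t * v) ≠ 0 := by
  have h : (t : ℂ) * v - S.ε * (t * v) ∈ S.L := by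
    have := int_mem hv (-t)
    rwa [show ((-t : ℤ) : ℂ) * ((S.ε - 1) * v) = t * v - S.ε * (t * v) by push_cast; ring] at this
  have h1 : ¬ S.Lat (S.pt (t * v) (t * v) + S.p) := fun e =>
    ht (by simpa [Setup.Lat, S.x₁_pt h] using (S.lat_add_iff S.lat_p).1 e)
  exact hG.ne_zero (fun e => h1 (S.pole_iff.1 e).1) fun e => h1 (S.zero_iff.1 e).1

theorem not_mem {N : ℕ} (hN : N * v ∈ S.L) (hv : v ∉ S.L) (j : ℤ) :
    ((1 + j * N : ℤ) : ℂ) * v ∉ S.L ∧ ((-(1 + j * N) : ℤ) : ℂ) * v ∉ S.L := by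
  have h : ((1 + j * N : ℤ) : ℂ) * v ∉ S.L := fun e => hv (by
    have := S.L.sub_mem e (int_mem hN j)
    rwa [show ((1 + j * N : ℤ) : ℂ) * v - j * (N * v) = v by push_cast; ring] at this)
  refine ⟨h, fun e => h ?_⟩
  have := S.L.neg_mem e
  rwa [Int.cast_neg, neg_mul, neg_neg] at this

theorem cfg1 (hcfg : S_CFG) (hG : S.GH G) (hv : (S.ε - 1) * v ∈ S.L) {l : ℂ} (hl : l ∈ S.L) :
    ∃ P, Cub2 P ∧ ∀ t i : ℤ, t * v ∉ S.L →
      S.ed G (t * v + i * l) (t * v + i * l) = Complex.exp (P t i) * S.ed G (t * v) (t * v) := by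
  obtain ⟨P, hP, h⟩ := hcfg S G Unit (fun _ => 0) (fun _ => l) (Equiv.refl _) hG
    (fun _ => by simp) (fun _ => hl) v hv
  exact ⟨P, hP, fun t i ht => by simpa using h t i fun _ => by simpa using ht⟩

end Alb

open Alb in
theorem alb_thm (hcfg : S_CFG) : S_ALB := by
  intro S G N v hG hv hN hL
  have hm : ∀ j : Fin 4, (tt N j : ℂ) * v ∉ S.L ∧ ((-tt N j : ℤ) : ℂ) * v ∉ S.L := fun j =>
    not_mem hN hL (j : ℕ)
  refine ⟨E2.FF_ne N fun j => ⟨ed_ne hG hv (hm j).1, ed_ne hG hv (hm j).2⟩, fun l hl => ?_, ?_,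
    fun N' => ?_⟩
  · obtain ⟨P, hP, h⟩ := cfg1 hcfg hG hv hl
    have e : S.AL G N (v + l) =
        FF N fun t => Complex.exp (P t t) * S.ed G (t * v) (t * v) :=
      E2.FF_congr N fun j => ⟨by rw [← h _ _ (hm j).1, mul_add], by rw [← h _ _ (hm j).2, mul_add]⟩
    rw [e, E2.FF_mul, ff_thm.2.2.1 N _ hP.diag, one_mul]
    rfl
  · rw [Setup.AL, Setup.AL, ← E2.FF_pre_neg]
    simp only [Int.cast_neg, neg_mul, mul_neg]
  · obtain ⟨P, hP, h⟩ := cfg1 hcfg hG hv hN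
    have h1 : ((1 : ℤ) : ℂ) * v ∉ S.L := by simpa using hL
    have h2 : ((-1 : ℤ) : ℂ) * v ∉ S.L := by simpa using hL
    refine ff_thm.2.2.2.2 N N' _ _ _
      ((hP.fix 1).add (Cub1.const (Complex.log (S.ed G (((1 : ℤ) : ℂ) * v) (((1 : ℤ) : ℂ) * v)))))
      ((hP.fix (-1)).pre_neg.add
        (Cub1.const (Complex.log (S.ed G (((-1 : ℤ) : ℂ) * v) (((-1 : ℤ) : ℂ) * v)))))
      fun j => ⟨?_, ?_⟩
    · rw [Complex.exp_add, Complex.exp_log (ed_ne hG hv h1), ← h _ _ h1,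
        show ((1 + j * N : ℤ) : ℂ) * v = ((1 : ℤ) : ℂ) * v + j * (N * v) by push_cast; ring]
    · rw [Complex.exp_add, Complex.exp_log (ed_ne hG hv h2), ← h _ _ h2,
        show ((-(1 + j * N) : ℤ) : ℂ) * v = ((-1 : ℤ) : ℂ) * v + (-j : ℤ) * (N * v) by
          push_cast; ring]

end Pool.Agent.P.MP_29cb78_nt.F
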