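import Pool.Agent.P.MP_29cb78_nt.F.Cnv

/-!
The values are cubic modulo the maximal ideal.
-/

namespace Pool.Agent.P.MP_29cb78_nt.F

open E E2 Finset Dgn
open scoped Classical

noncomputable section

namespace Cub

open IsLocalRing in
theorem const_mod' {K H : Type*} [Field K] [AddCommGroup H] [Fintype H] (O : ValuationSubring K)
    {p : ℕ} (hp : p.Prime) (hp2 : p ≠ 2) (hO : O.valuation p < 1) {τ : H}
    (hτ : addOrderOf τ = p) (hc : ∀ x : H, p • x = 0 → x ∈ AddSubgroup.zmultiples τ)
    {R R' : H → K} (hR : ∀ y, O.valuation (R y) ≤ 1) (hR' : ∀ y, O.valuation (R' y) ≤ 1)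
    (h1 : ∀ y, O.valuation (R y * R' y - 1) < 1)
    (h : ∀ σ, O.valuation (∑ y, R y * R (σ - y)) < 1)
    (h' : ∀ σ, O.valuation (∑ y, R' y * R' (σ - y)) < 1) (x : H) :
    O.valuation (R (x + τ) - R x) < 1 := by
  have := Fact.mk hp
  have := charP_res O hp hO
  have h2 := sqz_const p hp2 hτ hc (fun σ => rs_conv O hR σ (h σ))
    (fun σ => rs_conv O hR' σ (h' σ)) (fun y => ?_) x
  · lift R to H → O using fun x => (O.valuation_le_one_iff _).1 (hR x)
    rw [rs_coe, rs_coe, ← sub_eq_zero, ← map_sub, residue_eq_zero_iff, O.valuation_lt_one_iff] at h2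
    simpa using h2
  · lift R to H → O using fun x => (O.valuation_le_one_iff _).1 (hR x)
    lift R' to H → O using fun x => (O.valuation_le_one_iff _).1 (hR' x)
    rw [rs_coe, rs_coe, ← map_mul, ← sub_eq_zero, ← map_one (residue O), ← map_sub,
      residue_eq_zero_iff, O.valuation_lt_one_iff]
    simpa using h1 y

variable {S : Setup} {G : S.A → ℂ}

/-- The reflection defect. -/
def df (S : Setup) (y : Dg S) : Additive ℂˣ := lg (if S.Lat y then S.ε⁻¹ ^ 2 else 1)

theorem two_refl (hG : S.GH G) (y : Dg S) : 2 • (lf G y + lf G (-y)) = df S y := by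
  have hF := fbG hG
  rw [lf, lf, ← lg_mul (hF.ne _) (hF.ne _), ← lg_pow (mul_ne_zero (hF.ne _) (hF.ne _)),
    AddSubgroup.coe_neg, hF.reflD _ (diag y), mul_pow, pow_two (S.χ y), S.χ_sq, one_mul, df]
  split_ifs <;> simp

theorem df_mem {O : ValuationSubring ℂ} (hε : O.valuation (S.ε - 1) < 1) (y : Dg S) :
    df S y ∈ one1 O := by
  rw [df]
  split_ifs
  · rw [mem_one1, ex_lg (pow_ne_zero _ (inv_ne_zero S.ε_ne))]
    exact val_inv_pow O hε 2
  · rw [lg_one]
    exact (one1 O).zero_mem

theorem lr_eq (hG : S.GH G) (a b c d z : Dg S) :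
    lr G (inc S a) (inc S b) (inc S c) (inc S d) z =
      lf G (a + z) + lf G (b + z) + lf G (-(c + z)) + lf G (-(d + z)) := by
  have u := (fbG hG).ne
  rw [Dgn.lr, Setup.RR, lg_mul (mul_ne_zero (mul_ne_zero (u _) (u _)) (u _)) (u _),
    lg_mul (mul_ne_zero (u _) (u _)) (u _), lg_mul (u _) (u _), neg_add', neg_add']
  rfl

/-- The product of the function and of the inverse function. -/
theorem lr_add (hG : S.GH G) (t z : Dg S) :
    ex (lr G (inc S 0) (inc S (t + t)) (inc S t) (inc S t) z +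
      lr G (inc S t) (inc S t) (inc S 0) (inc S (t + t)) z) =
      (if S.Lat (z : S.A) then S.ε⁻¹ else 1) * (if S.Lat (t + t + z : S.A) then S.ε⁻¹ else 1) *
        (if S.Lat (t + z : S.A) then S.ε⁻¹ else 1) ^ 2 := by
  have hF := fbG hG
  have e1 := hF.reflD _ (diag z)
  have e2 := hF.reflD _ (diag (t + t + z))
  have e3 := hF.reflD _ (diag (t + z))
  have c1 := S.χ_sq t
  have c2 := S.χ_sq z
  simp only [AddSubgroup.coe_add, S.χ_add] at e2 e3
  simp only [lr_eq hG, ex_add, lf, ex_lg (hF.ne _), zero_add, AddSubgroup.coe_neg,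
    AddSubgroup.coe_add]
  calc _ = (S.fb G z * S.fb G (-z)) * (S.fb G (t + t + z) * S.fb G (-(t + t + z))) *
      (S.fb G (t + z) * S.fb G (-(t + z))) ^ 2 := by ring
    _ = _ := by
      rw [e1, e2, e3]
      generalize (if S.Lat (z : S.A) then S.ε⁻¹ else 1) = A
      generalize (if S.Lat (t + t + z : S.A) then S.ε⁻¹ else 1) = B
      generalize (if S.Lat (t + z : S.A) then S.ε⁻¹ else 1) = C
      calc _ = (S.χ t * S.χ t) ^ 2 * (S.χ z * S.χ z) ^ 2 * (A * B * C ^ 2) := by ring
        _ = _ := by rw [c1, c2, one_pow, one_mul, one_mul]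

end Cub

open Cub in
theorem cub_thm : S_CUB := by
  intro S G O p N τ hG hτ hO hε hN0 hN hu x hx
  have hF := fbG hG
  lift x to Dg S using mem_Dg.2 hx
  set t : Dg S := ⟨τ, mem_Dg.2 hτ.diag⟩ with ht
  have hp2 : p ≠ 2 := by have := hτ.five; omega
  have h2 : ¬ S.Lat (τ + τ) := fun e => hτ.not_lat (by
    obtain ⟨k, hk⟩ := hτ.prime.odd_of_ne_two hp2
    have := hτ.lat.sub (e.nsmul k)
    convert this using 1
    rw [hk]
    module)
  have hc : S.Cfg (inc S 0) (inc S (t + t)) (inc S t) (inc S t) :=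
    { mem := ⟨(inc S 0).2, (inc S (t + t)).2, (inc S t).2, (inc S t).2⟩
      sw := Or.inl ⟨diag 0, diag (t + t), diag t, diag t⟩
      sum := by simp [inc_coe]
      cross := by
        have e1 : ¬ S.Lat ((inc S 0 : S.A) - inc S t) := fun e =>
          hτ.not_lat (by simpa [inc_coe] using e.neg)
        have e2 : ¬ S.Lat ((inc S (t + t) : S.A) - inc S t) := fun e =>
          hτ.not_lat (by simpa [inc_coe] using e)
        exact ⟨e1, e1, e2, e2⟩ }
  obtain ⟨lam, κ, hn⟩ := exists_nrm hG hε hN0 hN hc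
  have hn' : Nrm O G N (inc S t) (inc S t) (inc S 0) (inc S (t + t)) (-lam) (-κ) :=
    { hn with
      cfg := cfg_symm hc
      per := fun z w hw => by
        have e0 := lr_add hG t (z + w)
        simp only [AddSubgroup.coe_add, ← add_assoc, S.lat_add_iff (mem_LD.1 hw)] at e0
        have e := ex_inj (e0.trans (lr_add hG t z).symm)
        rw [hn.per z w hw] at e
        rw [AddMonoidHom.neg_apply]
        linear_combination (norm := abel) e
      kap := by
        rw [map_neg, smul_neg, hn.kap, Dgn.sq, Dgn.sq]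
        abel }
  have hD : ∀ y : S.V, Dv O G N y = 0 := fun y => vx_inj O ((vx_Dv O hG N y).trans (hu y y.2))
  have hM2 : (0 : ℤ) < 24 * (N : ℤ) ^ 3 := by have := hn.pos; positivity
  have hv : ∀ {a₀ a₁ b₀ b₁ lam κ}, Nrm O G N a₀ a₁ b₀ b₁ lam κ → ∀ g,
      O.valuation (Rt G a₀ a₁ b₀ b₁ lam κ g) = 1 := fun h g => by
    obtain ⟨z, rfl⟩ := QuotientAddGroup.mk_surjective g
    rw [← vx_rt, ← vx_zero]
    congr 1
    refine canc O hM2 ?_
    simp [h.rt_mk, Dgn.sq, hD]
  have hi : ∀ (q : Prop) [Decidable q], lg (if q then S.ε⁻¹ else 1) ∈ one1 O := fun q _ => by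
    split_ifs
    · rw [mem_one1, ex_lg (inv_ne_zero S.ε_ne)]
      simpa using val_inv_pow O hε 1
    · rw [lg_one]
      exact (one1 O).zero_mem
  have hi0 : ∀ (q : Prop) [Decidable q], (if q then S.ε⁻¹ else 1) ≠ 0 := fun q _ => by
    split_ifs
    · exact inv_ne_zero S.ε_ne
    · exact one_ne_zero
  have key : ∀ z : Dg S, lr G (inc S 0) (inc S (t + t)) (inc S t) (inc S t) (z + t) -
      lr G (inc S 0) (inc S (t + t)) (inc S t) (inc S t) z - lam t ∈ one1 O := fun z => by
    have k := const_mod' O hτ.prime hp2 hO (tor_order hτ) (tor_gen hτ) (fun y => (hv hn y).le)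
      (fun y => (hv hn' y).le) (fun y => ?_)
      (hn.conv hτ hO (fun e => h2 (by simpa [inc_coe] using e.neg)) le_rfl fun y => by
        simp [Dgn.sq, hD])
      (hn'.conv hτ hO (fun e => h2 (by simpa [inc_coe] using e)) le_rfl fun y => by
        simp [Dgn.sq, hD]) z
    · have k0 := hv hn z
      rw [← ht, ← QuotientAddGroup.mk_add, hn.mk', hn.mk'] at k
      rw [hn.mk'] at k0
      rw [mem_one1, show lr G (inc S 0) (inc S (t + t)) (inc S t) (inc S t) (z + t) -
        lr G (inc S 0) (inc S (t + t)) (inc S t) (inc S t) z - lam t =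
        (lr G (inc S 0) (inc S (t + t)) (inc S t) (inc S t) (z + t) - lam (z + t) - κ) -
        (lr G (inc S 0) (inc S (t + t)) (inc S t) (inc S t) z - lam z - κ) by
          rw [map_add lam]; abel, ex_sub, div_sub_one (ex_ne _), map_div₀, k0, div_one]
      exact k
    · obtain ⟨z, rfl⟩ := QuotientAddGroup.mk_surjective y
      rw [hn.mk', hn'.mk', ← ex_add, ← mem_one1, AddMonoidHom.neg_apply,
        show ∀ a b c d : Additive ℂˣ, a - c - d + (b - -c - -d) = a + b from
          fun a b c d => by abel, ← lg_ex (_ + _), lr_add hG,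
        lg_mul (mul_ne_zero (hi0 _) (hi0 _)) (pow_ne_zero _ (hi0 _)), lg_mul (hi0 _) (hi0 _),
        lg_pow (hi0 _)]
      exact (one1 O).add_mem ((one1 O).add_mem (hi _) (hi _)) ((one1 O).nsmul_mem (hi _) 2)
  have k1 := (one1 O).sub_mem (key (x + t)) (key x)
  have k2 := (one1 O).add_mem ((one1 O).sub_mem (df_mem hε (x + 3 • t))
    ((one1 O).nsmul_mem (df_mem hε (x + 2 • t)) 2)) (df_mem hε (x + t))
  have k3 := (one1 O).sub_mem k1 k2
  simp only [lr_eq hG, ← two_refl hG, zero_add] at k3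
  rw [show t + t + (x + t + t) = x + 4 • t by module, show t + (x + t + t) = x + 3 • t by module,
    show t + t + (x + t) = x + 3 • t by module, show t + (x + t) = x + 2 • t by module,
    show x + t + t = x + 2 • t by module, show t + t + x = x + 2 • t by module,
    add_comm t x] at k3
  have k4 : lf G (x + 4 • t) + 6 • lf G (x + 2 • t) + lf G x -
      (4 • lf G (x + 3 • t) + 4 • lf G (x + t)) ∈ one1 O := by
    convert k3 using 1
    module
  rw [mem_one1] at k4
  simp only [ex_sub, ex_add, ex_nsmul, lf, ex_lg (hF.ne _)] at k4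
  exact k4

end

end Pool.Agent.P.MP_29cb78_nt.F
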