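import Pool.Agent.P.MP_29cb78_nt.F.KxIf

/-! Change of the level, and coordinates on a class modulo the lattice. -/

namespace Pool.Agent.P.MP_29cb78_nt.F.Kx

open E

open Filter Topology Set
open scoped Classical Real

noncomputable section

namespace KStep

lemma norm_theta (S : Setup) (z : ℂ) : ‖S.ϑ z‖ ^ 2 =
    Real.exp (2 * π * (z / S.γ).im) * ‖th0 (z / S.γ) (S.β / S.γ)‖ ^ 2 := by
  rw [Setup.ϑ, norm_mul, mul_pow, ee, Complex.norm_exp, sq (Real.exp _), ← Real.exp_add,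
    show -z / (2 * S.γ) = -(z / S.γ) / 2 by rw [neg_div, neg_div, div_div, mul_comm]]
  congr 2
  generalize z / S.γ = w
  simp
  ring

lemma one (h1 : K_GAMS) (h2 : K_RS) (h3 : K_LLB) {S : Setup} {G : S.A → ℂ} (hG : S.GH G)
    {y : S.A} (hy : S.Off (S.x₁ y)) :
    Tendsto (fun m => S.DD G m (y + S.p) - S.DD G m y +
      ((1 - Real.exp (-(2 * π * m * (S.β / S.γ).im)))⁻¹ *
        (zm m (S.x₁ y / S.γ).im + zm m ((S.β / S.γ).im - (S.x₁ y / S.γ).im)) +
        2 * π * (S.x₁ y / S.γ).im)) (𝓝[>] 0) (𝓝 0) := by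
  have hl : ¬ S.Lat y := fun h => hy 0 (by simpa [Setup.Lat] using h) (by simp)
  have hp : ¬ S.Pole y := fun h => hl (S.pole_iff.1 h).1
  have h0 := hG.ne_zero hp fun h => hl (S.zero_iff.1 h).1
  obtain ⟨r1, r2, r3⟩ := h2 S _ hy
  have r4 := (r2.add_const (Real.log (‖th0 (S.x₁ y / S.γ) (S.β / S.γ)‖ ^ 2))).neg
  rw [neg_add_cancel, neg_zero] at r4
  refine r4.congr' (eventually_nhdsWithin_of_forall fun m hm => ?_)
  simp only [Setup.DD]
  rw [(h3 S m).2.2 y ((h1 S y hy).1 m hm) (r1 m hm), hG.shp y hp, norm_mul, mul_pow, norm_theta,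
    Real.log_mul (by positivity) (by positivity), Real.log_mul (by positivity) (by positivity),
    Real.log_exp]
  ring

lemma phi (S : Setup) (hu : (S.lam / S.γ).im ≠ 0) {m : ℝ} (hm : 0 < m) (y : ℝ) (k : ℤ) :
    S.Phi m y (k + 1) = S.Phi m y k + ((1 - Real.exp (-(2 * π * m * (S.β / S.γ).im)))⁻¹ *
      (zm m (y + k * (S.lam / S.γ).im) + zm m ((S.β / S.γ).im - (y + k * (S.lam / S.γ).im))) +
      2 * π * (y + k * (S.lam / S.γ).im)) := by
  simp only [Setup.Phi]
  generalize (S.lam / S.γ).im = u at hu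
  generalize (S.β / S.γ).im = B
  have hc : 2 * π * m * u ≠ 0 := by have := Real.pi_pos; positivity
  have a1 : 1 - Real.exp (-(2 * π * m * u)) ≠ 0 := by
    rw [sub_ne_zero, ne_comm, Ne, Real.exp_eq_one_iff]; exact neg_ne_zero.2 hc
  have a2 : 1 - Real.exp (2 * π * m * u) ≠ 0 := by
    rw [sub_ne_zero, ne_comm, Ne, Real.exp_eq_one_iff]; exact hc
  have e1 : zm m (y + ((k + 1 : ℤ) : ℝ) * u) = zm m (y + k * u) * Real.exp (-(2 * π * m * u)) := by
    rw [zm, zm, div_mul_eq_mul_div, ← Real.exp_add]; congr 2; push_cast; ring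
  have e2 : zm m (B - y - ((k + 1 : ℤ) : ℝ) * u) =
      zm m (B - y - k * u) * Real.exp (2 * π * m * u) := by
    rw [zm, zm, div_mul_eq_mul_div, ← Real.exp_add]; congr 2; push_cast; ring
  rw [e1, e2, ← sub_sub]
  have a3 := mul_inv_cancel₀ a1
  have a4 := mul_inv_cancel₀ a2
  push_cast
  linear_combination (1 - Real.exp (-(2 * π * m * B)))⁻¹ *
    (zm m (y + k * u) * a3 + zm m (B - y - k * u) * a4)

variable (S : Setup) (v : ℂ)

/-- The point of the class with integer coordinates `n`. -/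
def pt (n : Z3) : ℂ := v + (n 0 * S.lam + n 1 * S.γ + n 2 * S.β)

lemma pt_mem (n : Z3) : pt S v n - v ∈ S.L := (S.mem_L _).2 ⟨n 0, n 1, n 2, by simp [pt]⟩

lemma pt_a (n : Z3) : S.a (pt S v n) = S.a v + n 0 := by rw [pt, map_add, S.a_comb]

lemma pt_inj : Function.Injective (pt S v) := fun n n' h => by
  have h0 : n 0 = n' 0 := by
    have := congrArg S.a h
    rw [pt_a, pt_a, add_right_inj] at this
    exact_mod_cast this
  rw [pt, pt, h0, add_right_inj, add_assoc, add_assoc, add_right_inj] at h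
  have h2 : n 2 = n' 2 := by
    have := congrArg (fun z => S.a (z / S.ε)) h
    simp only [add_div, mul_div_assoc, map_add, S.a_int_mul, S.a_γε, S.a_βε, mul_zero,
      zero_add] at this
    have hs : (-S.s : ℚ) ≠ 0 := neg_ne_zero.2 (by exact_mod_cast S.s_pos.ne')
    exact_mod_cast mul_right_cancel₀ hs this
  rw [h2, add_left_inj] at h
  have h1 : n 1 = n' 1 := by exact_mod_cast mul_right_cancel₀ S.γ_ne h
  funext i
  fin_cases i
  exacts [h0, h1, h2]

/-- The coordinates on the class. -/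
def eqv : Z3 ≃ {b // b - v ∈ S.L} :=
  Equiv.ofBijective (fun n => ⟨pt S v n, pt_mem S v n⟩)
    ⟨fun _ _ h => pt_inj S v (congrArg Subtype.val h), fun b => by
      obtain ⟨i, j, k, h⟩ := (S.mem_L _).1 b.2
      exact ⟨![i, j, k], Subtype.ext (by simp [pt, ← h])⟩⟩

/-- Multiplication by the unit. -/
def mul (h : (S.ε - 1) * v ∈ S.L) : Equiv.Perm {b // b - v ∈ S.L} where
  toFun b := ⟨S.ε * b, by convert S.L.add_mem (S.mul_mem b.2) h using 1; ring⟩
  invFun b := ⟨b / S.ε, by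
    have := S.ε_ne
    convert S.div_mem (S.L.sub_mem b.2 h) using 1; field_simp; ring⟩
  left_inv b := Subtype.ext (mul_div_cancel_left₀ _ S.ε_ne)
  right_inv b := Subtype.ext (mul_div_cancel₀ _ S.ε_ne)

end KStep

open KStep in
theorem k_step (h1 : K_GAMS) (h2 : K_RS) (h3 : K_LLB) : K_STEP := by
  intro S G hG hu x hx
  have step : ∀ k : ℤ, Tendsto (fun m =>
      (S.DD G m (x + (k + 1) • S.p) - S.DD G m x + S.Phi m (S.x₁ x / S.γ).im (k + 1)) -
      (S.DD G m (x + k • S.p) - S.DD G m x + S.Phi m (S.x₁ x / S.γ).im k)) (𝓝[>] 0) (𝓝 0) := by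
    intro k
    have e : S.x₁ (x + k • S.p) = S.x₁ x + k * S.lam := by simp
    have e2 : (S.x₁ (x + k • S.p) / S.γ).im = (S.x₁ x / S.γ).im + k * (S.lam / S.γ).im := by
      rw [e, add_div, mul_div_assoc]; simp
    have ho : S.Off (S.x₁ (x + k • S.p)) := fun b hb => hx b (by
      convert S.L.add_mem hb (S.L.zsmul_mem S.lam_mem k) using 1
      rw [e, zsmul_eq_mul]; ring)
    refine (one h1 h2 h3 hG ho).congr' (eventually_nhdsWithin_of_forall fun m hm => ?_)
    simp only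
    rw [phi S hu hm, e2, add_smul, one_smul, add_assoc x]
    ring
  intro k
  induction k using Int.induction_on with
  | zero => simp [Setup.Phi]
  | succ k ih => simpa using (step k).add ih
  | pred k ih =>
    have := step (-k - 1)
    rw [sub_add_cancel] at this
    simpa using ih.sub this

open KStep in
theorem k_dat : K_DAT := by
  intro S v r ρ H
  obtain ⟨x, hx⟩ := H.coord
  obtain ⟨α, w, hfrm⟩ := H.frm
  have hc : ∀ n, lc ![S.lam, S.γ, S.β] (fun i => (x i : ℝ)) n = pt S v n := fun n => by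
    simp [lc, Fin.sum_univ_three, pt, hx]; ring
  have q1 : ∀ (q : ℚ) (z : ℂ), r (q * z) = q * r z := fun q z => by
    rw [← Rat.smul_def, map_rat_smul, Rat.smul_def]
  have q2 : ∀ (q : ℤ) (z : ℂ), r (q * z) = q * r z := fun q z => by
    rw [← zsmul_eq_mul, map_zsmul, zsmul_eq_mul]
  have hr : ∀ n, lr ![r S.lam, r S.γ, r S.β] (fun i => (x i : ℝ)) n = r (pt S v n) := fun n => by
    simp [lr, Fin.sum_univ_three, pt, hx, q1, q2]; ring
  have ha : S.a v = x 0 := by
    simp only [hx, map_add, ← Rat.smul_def, map_rat_smul, S.a_lam, S.a_γ, S.a_β]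
    simp
  let e : Equiv.Perm Z3 := ((eqv S v).trans (mul S v H.fix)).trans (eqv S v).symm
  have he : ∀ n, pt S v (e n) = S.ε * pt S v n := fun n =>
    congrArg Subtype.val ((eqv S v).apply_symm_apply (mul S v H.fix (eqv S v n)))
  have he' : ∀ n, pt S v (e.symm n) = pt S v n / S.ε := fun n =>
    congrArg Subtype.val ((eqv S v).apply_symm_apply ((mul S v H.fix).symm (eqv S v n)))
  let D : Dat :=
    { r := ![r S.lam, r S.γ, r S.β], z := ![S.lam, S.γ, S.β], x := fun i => (x i : ℝ), α := α,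
      w := w, ρ := ρ, e := e, frm := hfrm, ρ_gt := H.ρ_gt
      R_e := fun n => by rw [hr, hr, he, H.r_ε _ (pt_mem S v n)]
      S_e := fun n => by rw [hc, hc, he, norm_mul, mul_pow, ← mul_assoc, H.norm, one_mul]
      R_ne := fun n => by rw [hr]; exact H.r_ne _ (pt_mem S v n)
      S_ne := fun n h => H.off _ (pt_mem S v n) (by rw [← hc, h]; simp) }
  have hS : ∀ n, D.S n = pt S v n := hc
  have hR : ∀ n, D.R n = r (pt S v n) := hr
  have hA : ∀ n, D.a n = S.a (pt S v n) := fun n => by rw [pt_a, ha]; simp [Dat.a, D]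
  have hw : ∀ θ n, D.wt θ n = S.wg θ θ (D.S n) := fun θ n => by
    rw [Dat.wt, hA, hA, hS, Setup.wg, ← he']
  refine ⟨D, rfl, by rw [ha], fun n => hS n ▸ pt_mem S v n, fun p => ?_, hw, fun θ n => ?_,
    fun s => ?_⟩
  · rw [hS]; simp [pt, Setup.ln, add_assoc]
  · have e1 : pt S v n = pt S v ![n 0, 0, n 2] + n 1 * S.γ := by simp [pt]; ring
    rw [hw, hw, hS, hS, e1]
    simp only [Setup.wg, add_div, mul_div_assoc, map_add, S.a_int_mul, S.a_γ, S.a_γε, mul_zero,
      add_zero]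
  · rw [Dat.Z, Zv, ← (((eqv S v).subtypeEquiv (p := fun n => 1 ≤ 1 * D.R n ∧ 1 * D.R n < D.ρ)
      (q := fun b : {b // b - v ∈ S.L} => 1 ≤ r b.1 ∧ r b.1 < ρ) fun n => by rw [one_mul, hR]; rfl).trans
      (Equiv.subtypeSubtypeEquivSubtypeInter (fun b => b - v ∈ S.L)
        fun b => 1 ≤ r b ∧ r b < ρ)).tsum_eq]
    refine tsum_congr fun n => ?_
    rw [one_mul, hR, hS]
    rfl

end

end Pool.Agent.P.MP_29cb78_nt.F.Kx
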