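import Pool.Agent.P.MP_29cb78_nt.F.Cnv

/-!
The extremal difference along an antidiagonal point.
-/

namespace Pool.Agent.P.MP_29cb78_nt.F

open E E2 Finset Dgn
open scoped Classical

theorem top_thm : S_TOP := by
  intro S G O p N τ w h Ω hG hτ hO hε hN0 hN hw hh hhh hb he h1
  lift w to S.V using hw
  have hsh : S.sw h = -h := Up.sw_anti hh
  lift h to S.V using Up.anti_V hh
  have hsh' : swV S h = -h := Subtype.ext hsh
  obtain ⟨ω, rfl⟩ : ∃ ω : Va O, vx O ω = Ω :=
    ⟨Additive.ofMul (Units.mk0 Ω (zero_lt_one.trans h1).ne'), rfl⟩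
  have h1' : 0 < ω := (vx_lt O).1 h1
  have hb' : ∀ x : S.V, Dv O G N (x + h) ≤ ω + Dv O G N x ∧ Dv O G N (x - h) ≤ ω + Dv O G N x :=
    fun x => by
      rw [← vx_le, ← vx_le, vx_add, vx_Dv O hG, vx_Dv O hG, vx_Dv O hG]
      exact hb x x.2
  have he' : Dv O G N (w + h) = ω + Dv O G N w := vx_inj O (by
    rw [vx_add, vx_Dv O hG, vx_Dv O hG]
    exact he)
  have hl : ¬ S.Lat (h : S.A) := fun e => hhh (e.add e)
  have hl' : ¬ S.Lat ((w + h - swV S w : S.V) : S.A) := fun e => by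
    have := Dv_per O hG N (swV S w) e
    rw [add_sub_cancel, Dv_sw, he'] at this
    exact h1'.ne' (by simpa using this)
  have hc : S.Cfg (w + h : S.V) (swV S w - h : S.V) w (swV S w) :=
    { mem := ⟨(w + h).2, (swV S w - h).2, w.2, (swV S w).2⟩
      sw := Or.inr ⟨congrArg Subtype.val (show swV S (w + h) = swV S w - h by
        rw [map_add, hsh', sub_eq_add_neg]), rfl⟩
      sum := by simp only [AddSubgroup.coe_add, AddSubgroup.coe_sub]; abel
      cross := ⟨by simpa using hl, hl', fun e => hl' (by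
        convert e.neg using 1
        simp only [AddSubgroup.coe_add, AddSubgroup.coe_sub]
        abel), fun e => hl (by simpa using e.neg)⟩ }
  obtain ⟨lam, κ, hn⟩ := exists_nrm hG hε hN0 hN hc
  obtain ⟨lam', κ', hn'⟩ := exists_nrm hG hε hN0 hN (cfg_symm hc)
  have hM : (0 : ℤ) < 12 * (N : ℤ) ^ 3 := by have := hn.pos; positivity
  have hM2 : (0 : ℤ) < 24 * (N : ℤ) ^ 3 := by have := hn.pos; positivity
  set r := rt O G (w + h) (swV S w - h) w (swV S w) lam κ with hr
  set r' := rt O G w (swV S w) (w + h) (swV S w - h) lam' κ' with hr'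
  have q1 : ∀ y, Dgn.sq (w + h) (swV S w - h) w (swV S w) (Dv O G N) y ≤ 2 • ω := fun y => by
    have a1 := (hb' (w + y)).1
    have a2 := (hb' (swV S w + y)).2
    rw [Dgn.sq, add_right_comm w h y, sub_add_eq_add_sub, sub_le_iff_le_add]
    exact (add_le_add a1 a2).trans_eq (by module)
  have q2 : ∀ y, Dgn.sq w (swV S w) (w + h) (swV S w - h) (Dv O G N) y ≤ 2 • ω := fun y => by
    have a1 := (hb' (w + h + y)).2
    have a2 := (hb' (swV S w - h + y)).1
    rw [show w + h + y - h = w + y by abel] at a1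
    rw [show swV S w - h + y + h = swV S w + y by abel] at a2
    rw [Dgn.sq, sub_le_iff_le_add]
    exact (add_le_add a1 a2).trans_eq (by module)
  have q3 : ∀ z : Dg S, Dgn.sq (w + h) (swV S w - h) w (swV S w) (Dv O G N) (inc S z) =
      2 • (Dv O G N (w + h + inc S z) - Dv O G N (w + inc S z)) := fun z => by
    rw [Dgn.sq, ← Dv_sw O N (swV S w - h + inc S z), ← Dv_sw O N (swV S w + inc S z), map_add, map_add,
      map_sub, swV_swV, swV_inc, hsh', sub_neg_eq_add]
    module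
  have r0 : (24 * (N : ℤ) ^ 3) • r 0 = 2 • ω := by
    have := hn.rt_mk 0
    rw [q3, map_zero, add_zero, add_zero, he', add_sub_cancel_right] at this
    exact this
  have r1 : (12 * (N : ℤ) ^ 3) • (r 0 + r 0) = 2 • ω := by rw [← r0]; module
  have r2 : 0 < r 0 := (zsmul_lt_zsmul_iff_right hM2).1 (by
    rw [r0, smul_zero]
    exact nsmul_pos h1' two_ne_zero)
  have hp2 : p ≠ 2 := by have := hτ.five; omega
  have key := top_lt_prod O hτ.prime hp2 hO (tor_order hτ) (tor_gen hτ)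
    (R := Rt G (w + h) (swV S w - h) w (swV S w) lam κ)
    (R' := Rt G w (swV S w) (w + h) (swV S w - h) lam' κ') (x := 0) (fun y => ?_)
    ((vx_lt O).2 r2) (fun y => ?_) (fun y => ?_) (fun σ => ?_) (fun σ => ?_)
  · simp only [← vx_rt, ← vx_sum, vx_lt, zero_add] at key
    have k2 := (zsmul_lt_zsmul_iff_right hM2).2 key
    rw [← hr, r0, smul_sum] at k2
    have e : ∀ j ∈ range p,
        (24 * (N : ℤ) ^ 3) • r (j • ((⟨τ, mem_Dg.2 hτ.diag⟩ : Dg S) : Gq S)) =
        2 • (Dv O G N (w + h + j • inc S ⟨τ, mem_Dg.2 hτ.diag⟩) -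
          Dv O G N (w + j • inc S ⟨τ, mem_Dg.2 hτ.diag⟩)) := fun j _ => by
      rw [← QuotientAddGroup.mk_nsmul, hn.rt_mk, q3, map_nsmul]
    rw [sum_congr rfl e, ← smul_sum] at k2
    replace k2 := lt_of_nsmul_lt_nsmul_right 2 k2
    rw [sum_sub_distrib, lt_sub_iff_add_lt, ← vx_lt, vx_add, vx_sum, vx_sum] at k2
    simp only [vx_Dv O hG] at k2
    exact k2
  · obtain ⟨z, rfl⟩ := QuotientAddGroup.mk_surjective y
    rw [← vx_rt, ← vx_rt, ← vx_add, ← vx_zero]
    congr 1
    refine canc O hM2 ?_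
    rw [smul_add, hn.rt_mk, hn'.rt_mk, Dgn.sq, Dgn.sq, smul_zero]
    abel
  · obtain ⟨z, rfl⟩ := QuotientAddGroup.mk_surjective y
    rw [← vx_rt, ← vx_rt]
    refine (vx_le O).2 ((zsmul_le_zsmul_iff_right hM2).1 ?_)
    exact ((hn.rt_mk z).trans_le (q1 _)).trans_eq r0.symm
  · obtain ⟨z, rfl⟩ := QuotientAddGroup.mk_surjective y
    rw [← vx_rt, ← vx_rt]
    refine (vx_le O).2 ((zsmul_le_zsmul_iff_right hM2).1 ?_)
    exact ((hn'.rt_mk z).trans_le (q2 _)).trans_eq r0.symm
  · rw [← vx_rt, pow_two, ← vx_add]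
    exact hn.conv hτ hO (fun e => hhh (by
      convert e using 1
      simp only [AddSubgroup.coe_add]
      abel)) (add_pos r2 r2).le (fun y => (q1 y).trans_eq r1.symm) σ
  · rw [← vx_rt, pow_two, ← vx_add]
    exact hn'.conv hτ hO (fun e => hhh (by
      convert e.neg using 1
      simp only [AddSubgroup.coe_add]
      abel)) (add_pos r2 r2).le (fun y => (q2 y).trans_eq r1.symm) σ

end Pool.Agent.P.MP_29cb78_nt.F
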