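import Pool.Agent.P.MP_29cb78_nt.F.Basic

/-!
The double product.
-/

namespace Pool.Agent.P.MP_29cb78_nt.F

open E

open Filter Topology
open scoped Real

namespace Dn

lemma ee_add (x y : ℂ) : ee (x + y) = ee x * ee y := by rw [ee, mul_add, Complex.exp_add]; rfl

lemma norm_ee (x : ℂ) : ‖ee x‖ = Real.exp (-(2 * π) * x.im) := by
  simp [ee, Complex.norm_exp]

lemma ee_eq_one {x : ℂ} : ee x = 1 ↔ ∃ i : ℤ, x = i := by
  rw [ee, Complex.exp_eq_one_iff]
  exact exists_congr fun i => by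
    rw [mul_comm (i : ℂ), mul_right_inj' Complex.two_pi_I_ne_zero]

lemma mult {ι : Type} {f : ι → ℂ} (h : Summable fun i => ‖f i‖) : Multipliable fun i => 1 - f i := by
  simpa only [sub_eq_add_neg] using
    multipliable_one_add_of_summable (f := fun i => -f i) (by simpa only [norm_neg] using h)

lemma diff {ι : Type} {c : ι → ℂ} (h : Summable fun i => ‖c i‖) :
    Differentiable ℂ fun t : ℂ => ∏' i, (1 - c i * t) := fun t => by
  have := hasProdLocallyUniformlyOn_iff_tendstoLocallyUniformlyOn.1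
    ((h.mul_right (‖t‖ + 1)).hasProdLocallyUniformlyOn_one_add (f := fun i t => -(c i * t))
      (K := Metric.ball (0 : ℂ) (‖t‖ + 1)) Metric.isOpen_ball
      (Eventually.of_forall fun i z hz => by
        rw [norm_neg, norm_mul]
        exact mul_le_mul_of_nonneg_left (mem_ball_zero_iff.1 hz).le (norm_nonneg _))
      fun i => by fun_prop)
  simpa only [sub_eq_add_neg] using (this.differentiableOn (Eventually.of_forall fun s => by
    fun_prop) Metric.isOpen_ball).differentiableAt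
      (Metric.isOpen_ball.mem_nhds (mem_ball_zero_iff.2 (lt_add_one _)))

/-- Splitting off the first row. -/
def eqv : ℕ ⊕ ℕ × ℕ ≃ ℕ × ℕ where
  toFun := Sum.elim (fun k => (0, k)) fun ik => (ik.1 + 1, ik.2)
  invFun ik := ik.1.casesOn (Sum.inl ik.2) fun i => Sum.inr (i, ik.2)
  left_inv := by rintro (k | ⟨i, k⟩) <;> rfl
  right_inv := by rintro ⟨_ | i, k⟩ <;> rfl

lemma split {f : ℕ × ℕ → ℂ} (h : Summable fun i => ‖f i‖) :
    ∏' ik, (1 - f ik) = (∏' ik : ℕ × ℕ, (1 - f (ik.1 + 1, ik.2))) * ∏' k, (1 - f (0, k)) := by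
  rw [← eqv.tprod_eq, mul_comm]
  exact Multipliable.tprod_sum (f := fun x => 1 - f (eqv x))
    (mult (h.comp_injective (eqv.injective.comp Sum.inl_injective)))
    (mult (h.comp_injective (eqv.injective.comp Sum.inr_injective)))

lemma split' {f : ℕ × ℕ → ℂ} (h : Summable fun i => ‖f i‖) :
    ∏' ik, (1 - f ik) = (∏' ik : ℕ × ℕ, (1 - f (ik.1, ik.2 + 1))) * ∏' k, (1 - f (k, 0)) := by
  rw [← (Equiv.prodComm ℕ ℕ).tprod_eq,
    ← (Equiv.prodComm ℕ ℕ).tprod_eq fun ik => 1 - f (ik.1, ik.2 + 1)]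
  exact split (f := fun ik => f ik.swap) (h.comp_injective Prod.swap_injective)

variable (S : Setup)

lemma summ (x : S.A) : Summable fun ik : ℕ × ℕ => ‖S.Ex (x + ik.1 • S.p + ik.2 • S.q)‖ := by
  have g : ∀ t : ℝ, 0 < t → Summable fun i : ℕ => Real.exp (-(2 * π) * t) ^ i := fun t ht =>
    summable_geometric_of_lt_one (Real.exp_pos _).le
      (Real.exp_lt_one_iff.2 (by nlinarith [Real.pi_pos]))
  refine Summable.of_nonneg_of_le (fun _ => norm_nonneg _) (fun ik => ?_)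
    (((g _ S.h_p_pos).mul_of_nonneg (g _ S.h_q_pos) (fun _ => by positivity)
      fun _ => by positivity).mul_left (Real.exp (-(2 * π) * S.h x)))
  rw [Setup.Ex]
  split_ifs
  · rw [norm_ee, ← S.h_def, ← Real.exp_nat_mul, ← Real.exp_nat_mul, ← Real.exp_add, ← Real.exp_add]
    simp only [map_add, map_nsmul, nsmul_eq_mul]
    exact le_of_eq (by ring_nf)
  · rw [norm_zero]; positivity

lemma Ex_ι (x : S.A) (z : ℂ) : S.Ex (x + S.ι z) = S.Ex x * ee (S.ε * z / S.γ) := by
  simp [Setup.Ex, ee_add]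

lemma Ex_Ω {ω : S.A} (h : ω ∈ S.Ω) (x : S.A) : S.Ex (x + ω) = S.Ex x := by
  obtain ⟨h1, h2⟩ := S.Ω_iff.1 h
  simp only [Setup.Ex, map_add, ee_add, ee_eq_one.2 h1, mul_one, dvd_add_left h2]

lemma Ex_eq_one {x : S.A} : S.Ex x = 1 ↔ x ∈ S.Ω := by
  rw [S.Ω_iff, Setup.Ex]
  split_ifs with h <;> simp [h, ee_eq_one]

end Dn

open Dn in
theorem dn_thm : S_DN := by
  intro S
  have rw : ∀ ω ∈ S.Ω, ∀ c x, S.Rw c (x + ω) = S.Rw c x := fun ω h c x => by
    simp only [Setup.Rw, add_right_comm x ω, Ex_Ω S h]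
  refine ⟨fun x => ?_, fun x => ⟨fun h => by_contra fun hn => ?_, fun ⟨i, k, h⟩ => ?_⟩,
    fun ω h x => ?_, fun ω h c x => ?_, fun x => ?_, fun x => ?_⟩
  · have e : S.sl S.Den x = (fun t : ℂ => ∏' ik : ℕ × ℕ,
        (1 - S.Ex (x + ik.1 • S.p + ik.2 • S.q) * t)) ∘ fun z => ee (S.ε * z / S.γ) := by
      funext z
      simp only [Setup.sl, Setup.Den, add_right_comm _ (S.ι z), Ex_ι, Function.comp]
    rw [e]
    exact (diff (summ S x)).comp (by unfold ee; fun_prop)
  · refine tprod_one_add_ne_zero_of_summable (f := fun ik : ℕ × ℕ =>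
      -S.Ex (x + ik.1 • S.p + ik.2 • S.q)) (fun ik e => hn ⟨ik.1, ik.2, (Ex_eq_one S).1 ?_⟩)
      (by simpa only [norm_neg] using summ S x) (by simpa only [← sub_eq_add_neg, Setup.Den] using h)
    exact (add_neg_eq_zero.1 e).symm
  · exact tprod_of_exists_eq_zero ⟨(i, k), sub_eq_zero.2 ((Ex_eq_one S).2 h).symm⟩
  · simp only [Setup.Den, add_right_comm _ ω, Ex_Ω S h]
  · rw [Setup.θw, Setup.θw, rw ω h, ← sub_sub, sub_eq_add_neg _ ω, rw _ (S.Ω.neg_mem h)]
  · rw [Setup.Den, split (summ S x)]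
    simp only [Setup.Den, Setup.Rw, succ_nsmul', zero_smul, add_zero, add_assoc]
  · rw [Setup.Den, split' (summ S x)]
    simp only [Setup.Den, Setup.Rw, succ_nsmul', zero_smul, add_zero, add_assoc, add_left_comm S.q]

end Pool.Agent.P.MP_29cb78_nt.F
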