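import Pool.Agent.P.MP_29cb78_nt.F.All0
import Pool.Agent.P.MP_29cb78_nt.F.Top1
import Pool.Agent.P.MP_29cb78_nt.F.Cub
import Pool.Agent.P.MP_29cb78_nt.F.KxKlf
import Pool.Agent.P.MP_29cb78_nt.H.All

/-!
The canonical invariants exist.
-/

namespace Pool.Agent.P.MP_29cb78_nt.F

theorem inv_all : S_INV := inv_of H.coc_thm H.ind_thm H.dist_thm top_thm cub_thm Kx.klf_all

end Pool.Agent.P.MP_29cb78_nt.F
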