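import Pool.Agent.P.MP_29cb78_nt.F.Iface2

/-!
Moving the vertices of a closed configuration by lattice vectors.
-/

namespace Pool.Agent.P.MP_29cb78_nt.F

open E

namespace Cfg

theorem iter_exp {f g h : ℤ → ℂ} (hf : ∀ i, f (i + 1) = Complex.exp (g i) * f i)
    (hh : ∀ i, h (i + 1) = h i + g i) (h0 : h 0 = 0) (i : ℤ) :
    f i = Complex.exp (h i) * f 0 := by
  induction i using Int.induction_on with
  | zero => rw [h0, Complex.exp_zero, one_mul]
  | succ n ih => rw [hf, ih, hh, Complex.exp_add]; ring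
  | pred n ih =>
    have e1 := hf (-n - 1)
    have e2 := hh (-n - 1)
    rw [sub_add_cancel] at e1 e2
    apply mul_left_cancel₀ (Complex.exp_ne_zero (g (-n - 1)))
    rw [← e1, ih, e2, Complex.exp_add]
    ring

theorem cub2_sum {I : Type} (s : Finset I) {P : I → ℤ → ℤ → ℂ} (h : ∀ j, Cub2 (P j)) :
    Cub2 fun t i => ∑ j ∈ s, P j t i := by
  choose c hc using h
  refine ⟨fun n => ∑ j ∈ s, c j n, fun t i => ?_⟩
  simp only [hc, Finset.sum_add_distrib, Finset.sum_mul]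

variable {S : Setup} {G : S.A → ℂ}

theorem single (hG : S.GH G) {ω : S.A} (hω : ω ∈ S.Ω) (v y : S.A) :
    ∃ P, Cub2 P ∧ ∀ t i : ℤ, G (t • v + y + i • ω) = Complex.exp (P t i) * G (t • v + y) := by
  obtain ⟨b, l, c, hs, hp, -⟩ := hG.per ω hω
  refine ⟨fun t i => (b y y + l y + c - (2 * b y ω + l ω) / 2 + b ω ω / 6) * i +
      (2 * b v y + l v - b v ω) * t * i + ((2 * b y ω + l ω) / 2 - b ω ω / 2) * i ^ 2 +
      b v v * t ^ 2 * i + b v ω * t * i ^ 2 + b ω ω / 3 * i ^ 3,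
    ⟨![0, 0, b y y + l y + c - (2 * b y ω + l ω) / 2 + b ω ω / 6, 0, 2 * b v y + l v - b v ω,
      (2 * b y ω + l ω) / 2 - b ω ω / 2, 0, b v v, b v ω, b ω ω / 3], fun t i => ?_⟩,
    fun t i => ?_⟩
  · simp
  · have h0 : G (t • v + y) = G (t • v + y + (0 : ℤ) • ω) := by simp
    rw [h0]
    refine iter_exp (f := fun i : ℤ => G (t • v + y + i • ω))
      (g := fun i : ℤ => b (t • v + y + i • ω) (t • v + y + i • ω) + l (t • v + y + i • ω) + c)
      (h := fun i : ℤ => (b y y + l y + c - (2 * b y ω + l ω) / 2 + b ω ω / 6) * i +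
        (2 * b v y + l v - b v ω) * t * i + ((2 * b y ω + l ω) / 2 - b ω ω / 2) * i ^ 2 +
        b v v * t ^ 2 * i + b v ω * t * i ^ 2 + b ω ω / 3 * i ^ 3)
      (fun i => ?_) (fun i => ?_) ?_ i
    · rw [← hp, add_smul, one_smul, add_assoc (t • v + y)]
    · simp only [map_add, map_zsmul, AddMonoidHom.add_apply, AddMonoidHom.zsmul_apply,
        zsmul_eq_mul, hs y v, hs ω v, hs ω y]
      push_cast
      ring
    · simp

theorem not_pole {x : S.A} (hx : ¬ S.Lat x) : ¬ S.Pole x := fun h => hx (S.pole_iff.1 h).1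

theorem pq (hG : S.GH G) {x y : S.A} (hx : ¬ S.Lat x) (hy : ¬ S.Lat y)
    (h : S.x₁ x = S.x₂ y + S.lam) (k : ℤ) : G (x + k • S.p) * G (y - k • S.q) = G x * G y := by
  have step : ∀ k : ℤ, G (x + (k + 1) • S.p) * G (y - (k + 1) • S.q) =
      G (x + k • S.p) * G (y - k • S.q) := by
    intro k
    have e1 := hG.shp (x + k • S.p) (not_pole fun h' => hx ((S.lat_add_iff (S.lat_p.zsmul k)).1 h'))
    have e2 := hG.shq (y - (k + 1) • S.q) (not_pole fun h' => hy (by
      simpa using h'.add (S.lat_q.zsmul (k + 1))))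
    have e3 : y - (k + 1) • S.q + S.q = y - k • S.q := by
      rw [add_smul, one_smul]
      abel
    have e4 : S.x₁ (x + k • S.p) = S.x₂ (y - (k + 1) • S.q) := by
      simp only [map_add, map_sub, map_zsmul, S.x₁_p, S.x₂_q, h, zsmul_eq_mul]
      push_cast
      ring
    rw [e3] at e2
    rw [add_smul k 1 S.p, one_smul, ← add_assoc, e1, e2, e4]
    ring
  induction k using Int.induction_on with
  | zero => simp
  | succ n ih => rw [step, ih]
  | pred n ih => rw [← step, sub_add_cancel, ih]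

theorem cyc (hG : S.GH G) {I : Type} [Fintype I] (e : Equiv.Perm I) (X : I → S.A) (k : I → ℤ)
    (hX : ∀ j, ¬ S.Lat (X j)) (h : ∀ j, S.x₁ (X (e j)) = S.x₂ (X j) + S.lam) :
    ∏ j, G (X j + k j • S.p - k (e j) • S.q) = ∏ j, G (X j) := by
  have hY : ∀ j, ¬ S.Lat (X j + k j • S.p) := fun j h' =>
    hX j ((S.lat_add_iff (S.lat_p.zsmul _)).1 h')
  have h1 : ∀ j, G (X (e j) + k (e j) • S.p) * G (X j + k j • S.p - k (e j) • S.q) =
      G (X (e j)) * G (X j + k j • S.p) := fun j =>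
    pq hG (hX _) (hY j) (by simp [h]) _
  have h2 := Finset.prod_congr (s₁ := Finset.univ) rfl fun j _ => h1 j
  rw [Finset.prod_mul_distrib, Finset.prod_mul_distrib,
    Equiv.prod_comp e fun j => G (X j + k j • S.p), Equiv.prod_comp e fun j => G (X j),
    mul_comm] at h2
  refine mul_right_cancel₀ (Finset.prod_ne_zero_iff.2 fun j _ => ?_) h2
  exact hG.ne_zero (not_pole (hY j)) fun h' => hY j (S.zero_iff.1 h').1

end Cfg

open Cfg in
theorem cfg_thm : S_CFG := by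
  intro S G I _ τ l e hG hτ hl v hv
  have hv' : v - S.ε * v ∈ S.L := by
    have := S.L.neg_mem hv
    convert this using 1
    ring
  have hω := fun j => S.pt_mem_Ω (S.sub_mem_M (hl j)) (S.sub_mem_M (hl (e j)))
  choose P hP hPe using fun j => single hG (hω j).1 (S.pt v v) (S.pt (τ j) (τ (e j)) + S.p)
  refine ⟨fun t i => ∑ j, P j t i, cub2_sum _ hP, fun t i ht => ?_⟩
  have hm : ∀ j, t * v + τ j - S.ε * (t * v + τ (e j)) ∈ S.L := fun j => by
    have := S.L.add_mem (S.L.zsmul_mem hv' t) (hτ j)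
    convert this using 1
    rw [zsmul_eq_mul]
    ring
  have hm' : ∀ j, t * v + τ j + i * l j - S.ε * (t * v + τ (e j) + i * l (e j)) ∈ S.L := fun j => by
    have := S.L.add_mem (hm j) (S.L.zsmul_mem (S.L.sub_mem (hl j) (S.mul_mem (hl (e j)))) i)
    convert this using 1
    rw [zsmul_eq_mul]
    ring
  have e0 : ∀ j, S.pt (t * v + τ j) (t * v + τ (e j)) + S.p =
      t • S.pt v v + (S.pt (τ j) (τ (e j)) + S.p) := fun j => by
    apply S.ext <;>
      simp only [map_add, map_zsmul, S.x₁_pt (hm j), S.x₂_pt (hm j), S.x₁_pt hv', S.x₂_pt hv',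
        S.x₁_pt (hτ j), S.x₂_pt (hτ j), zsmul_eq_mul, add_assoc]
  have e1 : ∀ j, S.pt (t * v + τ j + i * l j) (t * v + τ (e j) + i * l (e j)) + S.p =
      t • S.pt v v + (S.pt (τ j) (τ (e j)) + S.p) +
        i • S.pt (l j - ⌊S.a (l j)⌋ * S.lam) (l (e j) - ⌊S.a (l (e j))⌋ * S.lam) +
        (i * ⌊S.a (l j)⌋) • S.p - (i * ⌊S.a (l (e j))⌋) • S.q := fun j => by
    apply S.ext <;>
      simp only [map_add, map_sub, map_zsmul, S.x₁_pt (hm' j), S.x₂_pt (hm' j), S.x₁_pt hv',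
        S.x₂_pt hv', S.x₁_pt (hτ j), S.x₂_pt (hτ j), (hω j).2.1, (hω j).2.2, zsmul_eq_mul,
        S.x₁_p, S.x₂_p, S.x₁_q, S.x₂_q] <;> push_cast <;> ring
  simp only [Setup.ed, e0, e1]
  rw [cyc hG e _ (fun j => i * ⌊S.a (l j)⌋), Complex.exp_sum, ← Finset.prod_mul_distrib]
  · exact Finset.prod_congr rfl fun j _ => hPe j t i
  · intro j h
    rw [S.lat_add_iff ((S.lat_Ω (hω j).1).zsmul i), ← e0, S.lat_add_iff S.lat_p, Setup.Lat,
      S.x₁_pt (hm j)] at h
    exact ht j h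
  · intro j
    simp only [map_add, map_zsmul, S.x₁_pt hv', S.x₂_pt hv', S.x₁_pt (hτ _), S.x₂_pt (hτ _),
      (hω _).2.1, (hω _).2.2, zsmul_eq_mul, S.x₁_p, S.x₂_p]
    ring

end Pool.Agent.P.MP_29cb78_nt.F
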