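import Pool.Agent.P.MP_29cb78_nt.F.CongAux1

/-!
The congruence at good primes.
-/

namespace Pool.Agent.P.MP_29cb78_nt.F

open E NumberField Finset
open scoped Classical

noncomputable section

namespace Cong

variable {k : Type} [Field k] [NumberField k] {ρ : k →+* ℝ} {σ : k →+* ℂ}

omit [NumberField k] in
theorem mem_latt {J : Ideal (𝓞 k)} {z : ℂ} : z ∈ latt σ J ↔ ∃ j ∈ J, σ (j : 𝓞 k) = z := Iff.rfl

omit [NumberField k] in
theorem mem_iff {J : Ideal (𝓞 k)} {w : k} : σ w ∈ latt σ J ↔ Mem J w :=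
  ⟨fun ⟨j, hj, h⟩ => ⟨j, hj, σ.injective h⟩, fun ⟨j, hj, h⟩ => ⟨j, hj, congrArg σ h⟩⟩

omit [NumberField k] in
theorem mem_int {J : Ideal (𝓞 k)} {w : 𝓞 k} : σ w ∈ latt σ J ↔ w ∈ J :=
  ⟨fun ⟨j, hj, h⟩ => by
    have : j = w := RingOfIntegers.coe_injective (σ.injective h)
    rwa [← this], fun h => ⟨w, h, rfl⟩⟩

omit [NumberField k] in
theorem big_pow {u : (𝓞 k)ˣ} (h : 6 < ρ (u : 𝓞 k)) (i : ℕ) :
    6 < ρ ((u ^ (i + 1) : (𝓞 k)ˣ) : 𝓞 k) := by
  have h1 : ρ ((u ^ (i + 1) : (𝓞 k)ˣ) : 𝓞 k) = ρ (u : 𝓞 k) ^ (i + 1) := by simp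
  rw [h1]
  exact h.trans_le (le_self_pow₀ (by linarith) (by omega))

/-- The unit hypothesis of the cubic lemma. -/
theorem unit_AU (haual : S_AUAL) (hmk : S_MK) (hunitsq : S_UNITSQ) (he : Emb ρ σ)
    {AL : Ideal (𝓞 k) → (𝓞 k)ˣ → ℕ → k → ℂ} (hR : Real' ρ σ AL) (hI : Inv0 ρ AL)
    {J P : Ideal (𝓞 k)} {η : (𝓞 k)ˣ} {p : ℕ} {O : ValuationSubring ℂ} (hJ : J ≠ ⊥)
    (hη : 6 < ρ (η : 𝓞 k)) (hp : p.Prime) (h5 : 5 ≤ p) (hn : Ideal.absNorm P = p)
    (hs : Ideal.span {(p : 𝓞 k), (η : 𝓞 k) - 1} = P) (hO : Over σ O P) {S : Setup}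
    {G : S.A → ℂ} (hG : S.GH G) (hS : Fits ρ σ J η S) (ha : Prim ρ σ J S.a) :
    ∀ x ∈ S.V, O.valuation (S.AU G S.N x) = 1 := by
  intro z hz
  have hη2 : 6 < ρ ((η * η : (𝓞 k)ˣ) : 𝓞 k) := by
    have := big_pow hη 1
    rwa [pow_succ, pow_one] at this
  obtain ⟨S', hS', ha'⟩ := hmk k ρ σ he J (η * η) S.a hJ hη2 ha
  obtain ⟨G', hG'⟩ := gh_all S'
  have hε : S'.ε = S.ε * S.ε := by
    rw [hS'.ε_eq, hS.ε_eq]
    simp
  rw [haual S S' G G' S.N z hG hG' (hS'.L_eq.trans hS.L_eq.symm) ha' hε hz (Up.lat_N hz)]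
  split_ifs with h
  · simp
  have hN : (S.N : ℂ) ≠ 0 := Nat.cast_ne_zero.2 S.N_ne
  have hN' : (S.N : k) ≠ 0 := Nat.cast_ne_zero.2 S.N_ne
  have h1 : (S.N : ℂ) * S.x₁ z ∈ latt σ J := by
    have := Up.lat_N hz
    rwa [Setup.Lat, map_nsmul, nsmul_eq_mul, hS.L_eq] at this
  obtain ⟨j, hj, hj'⟩ := mem_latt.1 h1
  have h2 : S.x₁ z = σ ((j : k) / S.N) := by
    rw [map_div₀, hj', map_natCast, mul_div_cancel_left₀ _ hN]
  have hA : Ad ρ J (η * η) S.N ((j : k) / S.N) := by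
    refine ⟨hJ, hη2, S.N_ne, ?_, ⟨j, hj, by field_simp⟩, fun h3 => h ?_⟩
    · rw [← mem_iff (σ := σ), map_mul, ← h2, map_sub, map_one, ← hS'.ε_eq, hε, ← hS.L_eq]
      have h3 := S.L.neg_mem (S.L.add_mem (S.diff_mem z) (S.mul_mem hz))
      have h4 : (S.ε * S.ε - 1) * S.x₁ z =
          -(S.x₁ z - S.ε * S.x₂ z + S.ε * (S.x₂ z - S.ε * S.x₁ z)) := by ring
      rwa [h4]
    · rw [Setup.Lat, hS.L_eq, h2]
      exact mem_iff.2 h3
  rw [h2, ← hR J (η * η) S.N _ S' G' hA hS' hG']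
  exact hunitsq k ρ σ he AL hR hI J η S.N _ P p O hA hη hp h5 hn hs hO

/-- The residue ring of a prime of degree one. -/
theorem residue {P : Ideal (𝓞 k)} {p : ℕ} (hp : p.Prime) (hn : Ideal.absNorm P = p) :
    Nonempty (ZMod p ≃+* 𝓞 k ⧸ P) := by
  have := Fact.mk hp
  have h1 : Nat.card (𝓞 k ⧸ P) = p := by
    rw [← hn, Ideal.absNorm_apply, Submodule.cardQuot_apply]
  have h2 : Finite (𝓞 k ⧸ P) := Nat.finite_of_card_ne_zero (h1 ▸ hp.ne_zero)
  have := Fintype.ofFinite (𝓞 k ⧸ P)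
  exact ⟨ZMod.ringEquivOfPrime _ hp (by rw [← h1, Nat.card_eq_fintype_card])⟩

theorem cancel {J P : Ideal (𝓞 k)} (hJ : J ≠ ⊥) {y : 𝓞 k} (hy : y ∈ J)
    (hg : ∀ z ∈ J, ∃ i : ℤ, z - i * y ∈ P * J) (w : 𝓞 k) : w * y ∈ P * J ↔ w ∈ P := by
  refine ⟨fun h => ?_, fun h => Ideal.mul_mem_mul h hy⟩
  have h1 : Ideal.span {w} * J ≤ P * J := by
    rw [Ideal.span_singleton_mul_le_iff]
    intro z hz
    obtain ⟨i, hi⟩ := hg z hz
    have h2 : w * z = w * (z - i * y) + i * (w * y) := by ring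
    rw [h2]
    exact add_mem (Ideal.mul_mem_left _ _ hi) (Ideal.mul_mem_left _ _ h)
  rw [← Ideal.dvd_iff_le, mul_dvd_mul_iff_right hJ, Ideal.dvd_span_singleton] at h1
  exact h1

end Cong

open Cong in
theorem cong_thm (hcub : S_CUB) (hecong : S_ECONG) (hdistx : S_DISTX) (hcoc : S_COC)
    (hff : S_FF) (haual : S_AUAL) (htor : S_TOR) (hform : S_FORM) (hmk : S_MK)
    (hunitsq : S_UNITSQ) : S_CONG := by
  intro k _ _ ρ σ he AL hR hI J u N x P p hA hG hN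
  have hp := hG.prime
  have := Fact.mk hp
  obtain ⟨K, hK, hKs⟩ := hG.gcd
  have hpP : (p : 𝓞 k) ∈ P := hKs ▸ Ideal.subset_span (by simp)
  have huP : (u : 𝓞 k) ^ K - 1 ∈ P := hKs ▸ Ideal.subset_span (by simp)
  have hJ : J ≠ ⊥ := fun h => hA.J_ne (by simp [h])
  have hle : P * J ≤ J := Ideal.mul_le_right
  have hxJ : ¬ Mem J x := by
    rintro ⟨j, hj, rfl⟩
    obtain ⟨j', hj', h⟩ := hA.tors
    have h1 : (N : 𝓞 k) * j ∈ P * J := by
      have h2 : j' = N * j := RingOfIntegers.coe_injective (by simpa using h)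
      rwa [← h2]
    obtain ⟨a, b, hab⟩ := Nat.isCoprime_iff_coprime.2 ((Nat.Prime.coprime_iff_not_dvd hp).2 hN)
    have h3 : (a : 𝓞 k) * p + b * N = 1 := by exact_mod_cast congrArg (Int.cast : ℤ → 𝓞 k) hab
    refine hA.not_mem ⟨j, ?_, rfl⟩
    have h4 : j = a * (p * j) + b * (N * j) := by linear_combination (-j) * h3
    rw [h4]
    exact add_mem (Ideal.mul_mem_left _ _ (Ideal.mul_mem_mul hpP hj)) (Ideal.mul_mem_left _ _ h1)
  have hmono : ∀ {w : k}, Mem (P * J) w → Mem J w := fun ⟨j, hj, h⟩ => ⟨j, hle hj, h⟩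
  have hA' : Ad ρ J u N x := ⟨hJ, hA.big, hA.N_ne, hmono hA.fix, hmono hA.tors, hxJ⟩
  have hAp : ∀ {I : Ideal (𝓞 k)}, Ad ρ I u N x → Ad ρ I u (N * p) x := fun h =>
    ⟨h.J_ne, h.big, mul_ne_zero h.N_ne hp.ne_zero, h.fix, by
      obtain ⟨j, hj, h1⟩ := h.tors
      refine ⟨p * j, Ideal.mul_mem_left _ _ hj, ?_⟩
      have h2 : ((p * j : 𝓞 k) : k) = p * (j : k) := by simp
      rw [h2, h1]
      push_cast
      ring, h.not_mem⟩
  -- the residue ring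
  obtain ⟨φ⟩ := residue hp hG.norm
  set ψ : 𝓞 k →+* ZMod p := φ.symm.toRingHom.comp (Ideal.Quotient.mk P) with hψ
  have hker : ∀ w, w ∈ P ↔ ψ w = 0 := fun w => by
    simp [hψ, Ideal.Quotient.eq_zero_iff_mem]
  set g : (ZMod p)ˣ := (Units.map ψ.toMonoidHom u)⁻¹ with hg
  have hgu : ψ u * g = 1 := by
    rw [hg]
    exact (Units.map ψ.toMonoidHom u).mul_inv
  have hgpow : ∀ n : ℕ, g ^ n = 1 ↔ (u : 𝓞 k) ^ n - 1 ∈ P := fun n => by
    rw [hker, map_sub, map_one, sub_eq_zero, hg, inv_pow, inv_eq_one, ← map_pow, Units.ext_iff]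
    simp
  obtain ⟨m, hm⟩ : ∃ m, orderOf g = m + 1 := Nat.exists_eq_succ_of_ne_zero (orderOf_pos g).ne'
  have hηP : ((u ^ (m + 1) : (𝓞 k)ˣ) : 𝓞 k) - 1 ∈ P := by
    rw [Units.val_pow_eq_pow_val, ← hgpow, ← hm, pow_orderOf_eq_one]
  have hηs : Ideal.span {(p : 𝓞 k), ((u ^ (m + 1) : (𝓞 k)ˣ) : 𝓞 k) - 1} = P := by
    apply le_antisymm
    · rw [Ideal.span_le, Set.insert_subset_iff, Set.singleton_subset_iff]
      exact ⟨hpP, hηP⟩
    · rw [← hKs, Ideal.span_le, Set.insert_subset_iff, Set.singleton_subset_iff]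
      refine ⟨Ideal.subset_span (by simp), ?_⟩
      obtain ⟨c, hc⟩ : m + 1 ∣ K := hm ▸ orderOf_dvd_of_pow_eq_one ((hgpow K).2 huP)
      have h1 : (u : 𝓞 k) ^ (m + 1) - 1 ∣ (u : 𝓞 k) ^ K - 1 := by
        rw [hc, pow_mul]
        simpa using sub_dvd_pow_sub_pow ((u : 𝓞 k) ^ (m + 1)) 1 c
      exact Ideal.mem_of_dvd _ h1 (Ideal.subset_span (by simp))
  -- the setups
  obtain ⟨a, ha, -⟩ := (hform k ρ σ he (P * J) hA.J_ne).1 x hA.not_mem
  obtain ⟨n, a', hn, ha', haa⟩ := (hform k ρ σ he (P * J) hA.J_ne).2 a ha J hle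
  choose S hS hSa using fun i : ℕ =>
    hmk k ρ σ he (P * J) (u ^ (i + 1)) a hA.J_ne (big_pow hA.big i) ha
  choose G hGH using fun i : ℕ => gh_all (S i)
  obtain ⟨S', hS', hSa'⟩ := hmk k ρ σ he J u a' hJ hA.big ha'
  obtain ⟨G', hGH'⟩ := gh_all S'
  have hS0 : Fits ρ σ (P * J) u (S 0) := by simpa using hS 0
  have hε : ∀ i, (S i).ε = (S 0).ε ^ (i + 1) := fun i => by
    rw [(hS i).ε_eq, hS0.ε_eq]
    simp
  have hL : ∀ i, (S i).L = (S 0).L := fun i => (hS i).L_eq.trans hS0.L_eq.symm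
  obtain ⟨y, hy, hyP, hyg, hT⟩ := htor k ρ σ he J P (u ^ (m + 1)) p (S m) hJ hp hG.five hG.norm
    hηs (hS m)
  have hkey : ∀ w : 𝓞 k, σ w * σ y ∈ (S 0).L ↔ ψ w = 0 := fun w => by
    rw [← hker, ← cancel hJ hy hyg, hS0.L_eq, ← mem_int (σ := σ)]
    simp
  set T : ZMod p → ℂ := fun j => (j.valMinAbs : ℂ) * σ y with hTd
  have hint : ∀ i : ℤ, (i : ℂ) * σ y ∈ (S 0).L ↔ (i : ZMod p) = 0 := fun i => by
    simpa using hkey i
  have hstep : ∀ j : ZMod p, T j - (S 0).ε * T (j * g) ∈ (S 0).L := fun j => by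
    have h1 := (hkey ((j.valMinAbs : ℤ) - u * ((j * g).valMinAbs : ℤ))).2 (by
      simp only [map_sub, map_mul, map_intCast, ZMod.coe_valMinAbs]
      linear_combination (-j) * hgu)
    have h2 : T j - (S 0).ε * T (j * g) =
        σ (((j.valMinAbs : ℤ) - u * ((j * g).valMinAbs : ℤ) : 𝓞 k) : k) * σ y := by
      rw [hS0.ε_eq]
      simp only [hTd]
      push_cast
      simp only [map_sub, map_mul, map_intCast]
      ring
    rwa [h2]
  have hvfix : ((S 0).ε - 1) * σ x ∈ (S 0).L := by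
    have := (mem_iff (σ := σ)).2 hA.fix
    rwa [map_mul, map_sub, map_one, ← hS0.ε_eq, ← hS0.L_eq] at this
  have hvN : (N : ℂ) * σ x ∈ (S 0).L := by
    have := (mem_iff (σ := σ)).2 hA.tors
    rwa [map_mul, map_natCast, ← hS0.L_eq] at this
  have hvNp : ((N * p : ℕ) : ℂ) * σ x ∈ (S 0).L := by
    have := (mem_iff (σ := σ)).2 (hAp hA).tors
    rwa [map_mul, map_natCast, ← hS0.L_eq] at this
  have hvL' : σ x ∉ S'.L := by
    rw [hS'.L_eq, mem_iff]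
    exact hxJ
  have hLL : (S 0).L ≤ S'.L := by
    rw [hS0.L_eq, hS'.L_eq]
    rintro _ ⟨j, hj, rfl⟩
    exact ⟨j, hle hj, rfl⟩
  have hyL : ∀ i : ℤ, (i : ℂ) * σ y ∈ S'.L := fun i => by
    rw [← zsmul_eq_mul]
    refine S'.L.zsmul_mem ?_ i
    rw [hS'.L_eq]
    exact mem_int.2 hy
  have hoff : ∀ i : ℤ, σ x + i * σ y ∉ (S 0).L := fun i h =>
    hvL' (by simpa using S'.L.sub_mem (hLL h) (hyL i))
  have hTN : ∀ j, ((N * p : ℕ) : ℂ) * T j ∈ (S 0).L := fun j => by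
    have h1 := (hint (N * p * j.valMinAbs)).2 (by simp)
    have h2 : ((N * p : ℕ) : ℂ) * T j = ((N * p * j.valMinAbs : ℤ) : ℂ) * σ y := by
      simp only [hTd]
      push_cast
      ring
    rwa [h2]
  have hD := hdistx (S 0) S' (G 0) G' n (N * p) (ZMod p) T (Units.mulRight g) (Equiv.neg _)
    (hGH 0) hGH' (hS'.ε_eq.trans hS0.ε_eq.symm) hLL hn (fun z => by rw [hSa', hSa, haa])
    (fun j => hyL _)
    (fun i j h => by
      have h1 : T i - T j = ((i.valMinAbs - j.valMinAbs : ℤ) : ℂ) * σ y := by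
        simp only [hTd]
        push_cast
        ring
      rw [h1, hint] at h
      simpa [sub_eq_zero] using h)
    (fun z hz => by
      rw [hS'.L_eq] at hz
      obtain ⟨w, hw, rfl⟩ := mem_latt.1 hz
      obtain ⟨i, hi⟩ := hyg w hw
      refine ⟨(i : ZMod p), ?_⟩
      have h1 := (mem_int (σ := σ)).2 hi
      rw [← hS0.L_eq] at h1
      have h2 := (hint (i - (i : ZMod p).valMinAbs)).2 (by simp)
      have h3 : σ w - T i = σ ((w - i * y : 𝓞 k) : k) +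
          ((i - (i : ZMod p).valMinAbs : ℤ) : ℂ) * σ y := by
        simp only [hTd]
        push_cast
        simp only [map_sub, map_mul, map_intCast]
        ring
      rw [h3]
      exact (S 0).L.add_mem h1 h2)
    hstep
    (fun j => by
      have h1 : 2 * j.val ≠ p := fun h => by
        have h2 := hp.eq_two_or_odd
        have h3 := hG.five
        omega
      simp only [hTd, Equiv.neg_apply, ZMod.valMinAbs_neg_of_ne_half h1]
      push_cast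
      ring)
    hTN (σ x) hvfix hvNp hvL'
  rw [← hR J u (N * p) x S' G' (hAp hA') hS' hGH', E2.FF_prod] at hD
  change ∏ j : ZMod p, Fe (S 0) (G 0) (N * p) (σ x + T j) (σ x + T (j * g)) = _ at hD
  set B := AL (P * J) u (N * p) x with hB
  have hB0 : Fe (S 0) (G 0) (N * p) (σ x) (σ x) = B :=
    (hR (P * J) u (N * p) x (S 0) (G 0) (hAp hA) hS0 (hGH 0)).symm
  have hSa0 : ∀ i, (S i).a = (S 0).a := fun i => (hSa i).trans (hSa 0).symm
  have hx0 : σ x ∉ (S 0).L := fun h => hvL' (hLL h)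
  have hc0 := chain hcoc S G hGH hL hSa0 hε (N * p) (fun _ => σ x)
    (fun _ => by
      have h1 := (S 0).L.neg_mem hvfix
      have h2 : σ x - (S 0).ε * σ x = -(((S 0).ε - 1) * σ x) := by ring
      rwa [h2]) hvNp hx0 m
  have hBm : (S m).AL (G m) (N * p) (σ x) = B ^ (m + 1) := by
    have h1 := hc0.2
    rw [hB0, prod_const, card_range] at h1
    exact h1
  have hY : (S m).x₁ ((S m).pt (σ y) (σ y)) = σ y := (S m).x₁_pt (by
    have h1 := (hkey (1 - (u ^ (m + 1) : (𝓞 k)ˣ))).2 ((hker _).1 (by simpa using P.neg_mem hηP))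
    have h2 : σ y - (S m).ε * σ y = σ ((1 - (u ^ (m + 1) : (𝓞 k)ˣ) : 𝓞 k) : k) * σ y := by
      rw [(hS m).ε_eq]
      push_cast
      simp only [map_sub, map_one]
      ring
    rwa [hL m, h2])
  choose Ej hEj hEv using fun j : ℤ => hecong (S m) (G m) p N _ (σ x) j (hGH m) hT
    (by
      have h1 := (S 0).L.neg_mem hc0.1
      have h2 : ((S m).ε - 1) * σ x = -(σ x - (S m).ε * σ x) := by ring
      rwa [hL m, h2])
    (by rwa [hL m]) (fun i => by rw [hY, hL m]; exact hoff i)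
  rw [hY, hBm] at hEj
  have horb : ∀ r : (ZMod p)ˣ, ∏ i ∈ range (orderOf g), Fe (S 0) (G 0) (N * p)
      (σ x + T (r * g ^ i : (ZMod p)ˣ)) (σ x + T ((r * g ^ i : (ZMod p)ˣ) * g)) =
      (S m).AL (G m) (N * p) (σ x + T r) := fun r => by
    have h1 := (chain hcoc S G hGH hL hSa0 hε (N * p)
      (fun i => σ x + T (r * g ^ i : (ZMod p)ˣ))
      (fun i => by
        have h2 := (S 0).L.sub_mem (hstep (r * g ^ i : (ZMod p)ˣ)) hvfix
        have h3 : ((r * g ^ (i + 1) : (ZMod p)ˣ) : ZMod p) = (r * g ^ i : (ZMod p)ˣ) * g := by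
          rw [pow_succ, ← mul_assoc, Units.val_mul]
        have h4 : σ x + T (r * g ^ i : (ZMod p)ˣ) -
            (S 0).ε * (σ x + T ((r * g ^ i : (ZMod p)ˣ) * g)) =
            T (r * g ^ i : (ZMod p)ˣ) - (S 0).ε * T ((r * g ^ i : (ZMod p)ˣ) * g) -
              ((S 0).ε - 1) * σ x := by ring
        rwa [h3, h4])
      (by
        rw [mul_add]
        exact (S 0).L.add_mem hvNp (hTN _))
      (hoff _) m).2
    have h5 : g ^ (m + 1) = 1 := by rw [← hm, pow_orderOf_eq_one]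
    rw [h5, pow_zero, mul_one] at h1
    rw [hm]
    refine (prod_congr rfl fun i _ => ?_).trans h1.symm
    rw [pow_succ, ← mul_assoc, Units.val_mul (r * g ^ i)]
  obtain ⟨Q, _, r, hQ, hr⟩ := orbits g
  rw [Fintype.prod_eq_mul_prod_subtype_ne _ 0, ← (unitsEquivNeZero (G₀ := ZMod p)).prod_comp]
    at hD
  simp only [unitsEquivNeZero_apply_coe] at hD
  rw [hr fun j => Fe (S 0) (G 0) (N * p) (σ x + T j) (σ x + T (j * g))] at hD
  simp only [horb] at hD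
  have hT0 : T 0 = 0 := by simp [hTd]
  rw [zero_mul, hT0, add_zero, hB0, hI.scale J u N p x hA' hp.ne_zero] at hD
  rw [ZMod.card_units, hm] at hQ
  have hfin : AL J u N x ^ p ^ 6 = AL (P * J) u N x ^ p ^ 7 *
      (∏ q : Q, Ej (r q : ZMod p).valMinAbs) ^ (12 * (N * p) ^ 3) := by
    have h1 : AL J u N x ^ p ^ 6 = (AL J u N x ^ p ^ 3) ^ p ^ 3 := by
      rw [← pow_mul]
      congr 1
      ring
    rw [h1, ← hD, mul_pow, ← prod_pow]
    simp only [hTd, hEj]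
    rw [prod_mul_distrib, prod_const, prod_pow, ← mul_assoc, hB,
      hI.scale (P * J) u N p x hA hp.ne_zero]
    simp only [← pow_mul, ← pow_add, card_univ]
    congr 2
    have h2 : Fintype.card Q * (m + 1) + 1 = p := by
      have := hp.pos
      omega
    calc _ = p ^ 6 * (Fintype.card Q * (m + 1) + 1) := by ring
      _ = _ := by rw [h2]; ring
  obtain ⟨E', hE', hE''⟩ := extract hp hG.five hN (hI.ne _ _ _ _ hA) (hI.ne _ _ _ _ hA') hfin
  refine ⟨E', fun O hO => ?_, hE''⟩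
  have hOp : O.valuation p < 1 := by simpa using hO _ hpP
  refine hE' O hOp (one_prod O _ fun q => hEv _ O ?_)
  refine hcub (S m) (G m) O p (S m).N _ (hGH m) hT hOp ?_ (S m).N_ne (fun z hz => Up.lat_N hz)
    (unit_AU haual hmk hunitsq he hR hI hA.J_ne (big_pow hA.big m) hp hG.five hG.norm hηs hO
      (hGH m) (hS m) (by rw [hSa]; exact ha))
  have h1 := hO _ hηP
  rw [(hS m).ε_eq]
  simpa using h1

end

end Pool.Agent.P.MP_29cb78_nt.F
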