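import Pool.Agent.P.MP_29cb78_nt.F.Iface2

/-!
The inverse function, the degenerate centre, and representatives of the diagonal.
-/

namespace Pool.Agent.P.MP_29cb78_nt.F

open E
open scoped Classical

namespace Deg

variable {S : Setup}

lemma diag_add {x y : S.A} (hx : S.Diag x) (hy : S.Diag y) : S.Diag (x + y) := by
  unfold Setup.Diag at *
  rw [map_add, map_add, hx, hy]

lemma diag_neg {x : S.A} (hx : S.Diag x) : S.Diag (-x) := by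
  unfold Setup.Diag at *
  rw [map_neg, map_neg, hx]

lemma ite_pow (p : Prop) [Decidable p] (e : ℂ) (k : ℕ) :
    ∃ n : ℕ, (if p then e ^ k else 1) = e ^ n := by
  by_cases h : p
  · exact ⟨k, if_pos h⟩
  · exact ⟨0, by rw [if_neg h, pow_zero]⟩

lemma tw {α₀ α₁ z : S.A} (h₀ : α₀ ∈ S.V) (h : S.sw α₀ = α₁) (hz : S.Diag z) :
    S.sw (α₀ + z) = α₁ + z ∧ S.sw (α₁ + z) = α₀ + z ∧
      S.sw (-α₀ - z) = -α₁ - z ∧ S.sw (-α₁ - z) = -α₀ - z := by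
  have hz' := Up.diag_V hz
  have h₁ : α₁ ∈ S.V := h ▸ Up.sw_mem h₀
  have h' : S.sw α₁ = α₀ := by rw [← h, Up.sw_sw h₀]
  refine ⟨?_, ?_, ?_, ?_⟩
  · rw [Up.sw_add h₀ hz', h, Up.sw_diag hz]
  · rw [Up.sw_add h₁ hz', h', Up.sw_diag hz]
  · rw [Up.sw_sub (S.V.neg_mem h₀) hz', Up.sw_neg h₀, h, Up.sw_diag hz]
  · rw [Up.sw_sub (S.V.neg_mem h₁) hz', Up.sw_neg h₁, h', Up.sw_diag hz]

lemma fin (S : Setup) :
    ((fun x : S.A => (S.x₁ x : ℂ ⧸ S.L)) '' {x | S.Diag x}).Finite := by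
  have hN : (0 : ℤ) < S.N := by exact_mod_cast Nat.pos_of_ne_zero S.N_ne
  have hN' : (S.N : ℂ) ≠ 0 := by exact_mod_cast S.N_ne
  refine (((Set.finite_Ico (0 : ℤ) S.N).prod ((Set.finite_Ico (0 : ℤ) S.N).prod
    (Set.finite_Ico (0 : ℤ) S.N))).image fun c : ℤ × ℤ × ℤ =>
      (((c.1 * S.lam + c.2.1 * S.γ + c.2.2 * S.β) / S.N : ℂ) : ℂ ⧸ S.L)).subset ?_
  rintro _ ⟨x, hx, rfl⟩
  have h : (S.N : ℂ) * S.x₁ x ∈ S.L := by
    have := Up.lat_N (Up.diag_V hx)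
    rwa [Setup.Lat, map_nsmul, nsmul_eq_mul] at this
  obtain ⟨i, j, k, e⟩ := (S.mem_L _).1 h
  have m : ∀ i : ℤ, i % S.N ∈ Set.Ico (0 : ℤ) S.N := fun i =>
    ⟨Int.emod_nonneg _ hN.ne', Int.emod_lt_of_pos _ hN⟩
  have d : ∀ i : ℤ, (i : ℂ) = S.N * (i / S.N : ℤ) + (i % S.N : ℤ) := fun i => by
    exact_mod_cast (Int.mul_ediv_add_emod i S.N).symm
  refine ⟨(i % S.N, j % S.N, k % S.N), ⟨m i, m j, m k⟩,
    QuotientAddGroup.eq.2 ((S.mem_L _).2 ⟨i / S.N, j / S.N, k / S.N, ?_⟩)⟩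
  rw [d i, d j, d k] at e
  field_simp
  linear_combination e

end Deg

theorem deg_thm (hup : S_UP) : S_DEG := by
  intro S hT G hG hF α₀ α₁ β₀ β₁ hc z hz
  have neg : ∀ x : S.A, -x - z = -(x + z) := fun x => by abel
  have h2 : S.RR G α₀ α₁ β₀ β₁ (-(α₀ + α₁) - z) = S.RR G β₀ β₁ α₀ α₁ z := by
    have e0 : α₀ + (-(α₀ + α₁) - z) = -α₁ - z := by abel
    have e1 : α₁ + (-(α₀ + α₁) - z) = -α₀ - z := by abel
    have e2 : -β₀ - (-(α₀ + α₁) - z) = β₁ + z := by rw [hc.sum]; abel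
    have e3 : -β₁ - (-(α₀ + α₁) - z) = β₀ + z := by rw [hc.sum]; abel
    simp only [Setup.RR, e0, e1, e2, e3]
    ring
  have hχ : S.χ (α₀ + z + (α₁ + z)) * S.χ (β₀ + z + (β₁ + z)) = 1 := by
    rw [show α₀ + z + (α₁ + z) = α₀ + α₁ + (z + z) by abel,
      show β₀ + z + (β₁ + z) = β₀ + β₁ + (z + z) by abel, hc.sum, S.χ_sq]
  rcases hc.sw with ⟨a0, a1, b0, b1⟩ | ⟨a, b⟩
  · have key : ∀ x, S.Diag x → ∃ n : ℕ,
        S.fb G (x + z) * S.fb G (-(x + z)) = S.χ (x + z) * S.ε⁻¹ ^ n := fun x hx => by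
      obtain ⟨n, hn⟩ := Deg.ite_pow (S.Lat (x + z)) S.ε⁻¹ 1
      rw [pow_one] at hn
      exact ⟨n, by rw [hF.reflD _ (Deg.diag_add hx hz), hn]⟩
    obtain ⟨n0, e0⟩ := key _ a0
    obtain ⟨n1, e1⟩ := key _ a1
    obtain ⟨m0, f0⟩ := key _ b0
    obtain ⟨m1, f1⟩ := key _ b1
    refine ⟨n0 + n1 + m0 + m1, ?_, h2, ?_⟩
    · rw [S.χ_add (α₀ + z), S.χ_add (β₀ + z)] at hχ
      simp only [Setup.RR, neg]
      calc _ = (S.fb G (α₀ + z) * S.fb G (-(α₀ + z))) * (S.fb G (α₁ + z) * S.fb G (-(α₁ + z))) *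
            (S.fb G (β₀ + z) * S.fb G (-(β₀ + z))) * (S.fb G (β₁ + z) * S.fb G (-(β₁ + z))) := by
            ring
        _ = _ := by
            rw [e0, e1, f0, f1]
            linear_combination S.ε⁻¹ ^ (n0 + n1 + m0 + m1) * hχ
    · simp only [Setup.RR, neg]
      rw [Up.UU_diag G (Deg.diag_add a0 hz), Up.UU_diag G (Deg.diag_add a1 hz),
        Up.UU_diag G (Deg.diag_neg (Deg.diag_add b0 hz)),
        Up.UU_diag G (Deg.diag_neg (Deg.diag_add b1 hz))]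
      ring
  · obtain ⟨a0, a1, a2, a3⟩ := Deg.tw hc.mem.1 a hz
    obtain ⟨b0, b1, b2, b3⟩ := Deg.tw hc.mem.2.2.1 b hz
    have e := (hup S hT G hG hF).1 _ (S.V.add_mem hc.mem.1 (Up.diag_V hz))
    have f := (hup S hT G hG hF).1 _ (S.V.add_mem hc.mem.2.2.1 (Up.diag_V hz))
    obtain ⟨n, hn⟩ := Deg.ite_pow (S.Lat (α₀ + z)) S.ε⁻¹ 2
    obtain ⟨m, hm⟩ := Deg.ite_pow (S.Lat (β₀ + z)) S.ε⁻¹ 2
    rw [hn, ← neg, Setup.UU, Setup.UU, a0, a2] at e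
    rw [hm, ← neg, Setup.UU, Setup.UU, b0, b2] at f
    refine ⟨n + m, ?_, h2, ?_⟩
    · simp only [Setup.RR]
      calc _ = (S.fb G (α₀ + z) * S.fb G (α₁ + z) * (S.fb G (-α₀ - z) * S.fb G (-α₁ - z))) *
            (S.fb G (β₀ + z) * S.fb G (β₁ + z) * (S.fb G (-β₀ - z) * S.fb G (-β₁ - z))) := by
            ring
        _ = _ := by
            rw [e, f]
            linear_combination S.ε⁻¹ ^ (n + m) * hχ
    · simp only [Setup.RR, Setup.UU, a0, a1, b2, b3]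
      ring

theorem dreps_thm : S_DREPS := by
  intro S
  obtain ⟨T, hT, hi, he⟩ := (Set.surjOn_image (fun x : S.A => (S.x₁ x : ℂ ⧸ S.L))
    {x | S.Diag x}).exists_subset_injOn_image_eq
  have hfin : T.Finite := Set.Finite.of_finite_image (he ▸ Deg.fin S) hi
  have key : ∀ x y : S.A, S.Lat (x - y) ↔ (S.x₁ x : ℂ ⧸ S.L) = S.x₁ y := fun x y => by
    rw [Setup.Lat, map_sub, QuotientAddGroup.eq_iff_sub_mem]
  refine ⟨hfin.toFinset, fun y hy => hT (hfin.mem_toFinset.1 hy), fun x hx y hy h =>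
    hi (hfin.mem_toFinset.1 hx) (hfin.mem_toFinset.1 hy) ((key x y).1 h), fun x hx => ?_⟩
  obtain ⟨y, hy, e⟩ := he.symm.subset (Set.mem_image_of_mem _ hx)
  exact ⟨y, hfin.mem_toFinset.2 hy, (key x y).2 e.symm⟩

end Pool.Agent.P.MP_29cb78_nt.F
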