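import Pool.Agent.P.MP_29cb78_nt.F.Iface2

/-!
The distribution relation up to roots of unity.
-/

namespace Pool.Agent.P.MP_29cb78_nt.F

open E

namespace Distv

theorem key (hff : S_FF) (hdist : S_DIST) (hcfg : S_CFG) {S S' : Setup} {G : S.A → ℂ}
    {G' : S'.A → ℂ} {n N : ℕ} {I : Type} [Fintype I] {τ : I → ℂ} (hG : S.GH G) (hG' : S'.GH G')
    (hε : S'.ε = S.ε) (hL : S.L ≤ S'.L) (hn : n ≠ 0) (ha : ∀ z, S'.a z = n * S.a z)
    (h1 : ∀ j, τ j ∈ S'.L) (h2 : ∀ i j, τ i - τ j ∈ S.L → i = j)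
    (h3 : ∀ x ∈ S'.L, ∃ j, x - τ j ∈ S.L) (h4 : ∀ j, (S.ε - 1) * τ j ∈ S.L)
    (h5 : ∀ j, N * τ j ∈ S.L) {v : ℂ} (hv : (S.ε - 1) * v ∈ S.L) :
    ∃ a : ℤ → ℤ → ℂ, (∀ t i, a t i ≠ 0) ∧
      ∏ i : Fin 4, (a (tt N i) (i : ℕ) / a (-tt N i) (i : ℕ)) ^ cc N i = 1 ∧
      ∀ (t i : ℤ) (y : I → ℂ), t * v ∉ S'.L → (∀ j, y j = t * v + τ j + i * (N * τ j)) →
        ∏ j, S.ed G (y j) (y j) = a t i * S'.ed G' (t * v) (t * v) := by
  have h6 : ∀ j, τ j - S.ε * τ (Equiv.refl I j) ∈ S.L := fun j => by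
    have e : τ j - S.ε * τ (Equiv.refl I j) = -((S.ε - 1) * τ j) := by
      rw [Equiv.refl_apply]; ring
    rw [e]
    exact S.L.neg_mem (h4 j)
  obtain ⟨P, hP, p⟩ := hcfg S G I τ (fun j => N * τ j) (Equiv.refl I) hG h6 h5 v hv
  obtain ⟨C, hC, c⟩ := hdist S S' G G' n I τ (Equiv.refl I) hG hG' hε hL hn ha h1 h2 h3 h6 v hv
  refine ⟨fun t i => Complex.exp (P t i) * Complex.exp (C t),
    fun t i => mul_ne_zero (Complex.exp_ne_zero _) (Complex.exp_ne_zero _), ?_,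
    fun t i y ht hy => ?_⟩
  · have e1 := hff.2.2.2.1 N P hP
    have e2 := hff.2.2.1 N C hC
    rw [FF] at e2
    simp only [mul_div_mul_comm, mul_zpow, Finset.prod_mul_distrib]
    rw [e1, e2, one_mul]
  · have e1 := p t i fun j e => ht (by simpa using S'.L.sub_mem (hL e) (h1 j))
    have e2 := c t ht
    simp only [Equiv.refl_apply] at e1 e2
    simp only [hy]
    rw [e1, e2, mul_assoc]

theorem prod_AL (S : Setup) (G : S.A → ℂ) (N : ℕ) {I : Type} [Fintype I] (y : I → ℂ) :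
    ∏ j, S.AL G N (y j) = ∏ i : Fin 4, ((∏ j, S.ed G (tt N i * y j) (tt N i * y j)) /
      ∏ j, S.ed G ((-tt N i : ℤ) * y j) ((-tt N i : ℤ) * y j)) ^ cc N i := by
  simp only [Setup.AL, FF, ← Finset.prod_div_distrib, ← Finset.prod_zpow]
  exact Finset.prod_comm

theorem AL_neg (S : Setup) (G : S.A → ℂ) (N : ℕ) (x : ℂ) : S.AL G N (-x) = (S.AL G N x)⁻¹ := by
  simp only [Setup.AL, FF, ← Finset.prod_inv_distrib, ← inv_zpow, inv_div, Int.cast_neg, mul_neg,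
    neg_mul, neg_neg]

end Distv

open Distv in
theorem distv_thm (hff : S_FF) (hdist : S_DIST) (hcfg : S_CFG) (halb : S_ALB) : S_DISTV := by
  intro S S' G G' n N I _ τ hG hG' hε hL hn ha h1 h2 h3 h4 _ h5 v hv hNv hv'
  obtain ⟨a, a0, a1, a2⟩ := key hff hdist hcfg hG hG' hε hL hn ha h1 h2 h3 h4 h5 hv
  obtain ⟨b, b0, b1, b2⟩ := key (τ := fun j => -τ j) (N := N) hff hdist hcfg hG hG' hε hL hn ha
    (fun j => S'.L.neg_mem (h1 j))
    (fun i j e => (h2 j i (by rwa [neg_sub_neg] at e)).symm)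
    (fun x hx => by
      obtain ⟨j, hj⟩ := h3 (-x) (S'.L.neg_mem hx)
      exact ⟨j, by simpa [add_comm] using S.L.neg_mem hj⟩)
    (fun j => by simpa using S.L.neg_mem (h4 j)) (fun j => by simpa using S.L.neg_mem (h5 j)) hv
  have et : ∀ i : Fin 4, ((tt N i : ℤ) : ℂ) = 1 + ((i : ℕ) : ℤ) * N := fun i => by simp [tt]
  have t1 : ∀ i : Fin 4, (tt N i : ℤ) * v ∉ S'.L := fun i e => hv' (by
    have e1 := S'.L.sub_mem e (S'.L.zsmul_mem (hL hNv) ((i : ℕ) : ℤ))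
    have e2 : (tt N i : ℤ) * v - ((i : ℕ) : ℤ) • (N * v) = v := by rw [et, zsmul_eq_mul]; ring
    rwa [e2] at e1)
  have t2 : ∀ i : Fin 4, (-tt N i : ℤ) * v ∉ S'.L := fun i e => t1 i (by
    simpa using S'.L.neg_mem e)
  have e1 : ∏ j, S.AL G N (v + τ j) = S'.AL G' N v *
      ∏ i : Fin 4, (a (tt N i) (i : ℕ) / b (-tt N i) (i : ℕ)) ^ cc N i := by
    rw [prod_AL, Setup.AL, FF, ← Finset.prod_mul_distrib]
    refine Finset.prod_congr rfl fun i _ => ?_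
    rw [a2 (tt N i) (i : ℕ) _ (t1 i) fun j => by rw [et]; ring,
      b2 (-tt N i) (i : ℕ) _ (t2 i) fun j => by rw [Int.cast_neg, et]; ring,
      mul_div_mul_comm, mul_zpow, mul_comm]
  have e2 : ∏ j, S.AL G N (-v + τ j) = (S'.AL G' N v)⁻¹ *
      ∏ i : Fin 4, (a (-tt N i) (i : ℕ) / b (tt N i) (i : ℕ)) ^ cc N i := by
    rw [prod_AL, Setup.AL, FF, ← Finset.prod_inv_distrib, ← Finset.prod_mul_distrib]
    refine Finset.prod_congr rfl fun i _ => ?_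
    rw [a2 (-tt N i) (i : ℕ) _ (t2 i) fun j => by rw [Int.cast_neg, et]; ring,
      b2 (tt N i) (i : ℕ) _ (t1 i) fun j => by rw [Int.cast_neg, et]; ring,
      mul_div_mul_comm, mul_zpow, mul_comm, ← inv_zpow, inv_div]
  have e3 : ∏ i : Fin 4, (a (tt N i) (i : ℕ) / b (-tt N i) (i : ℕ)) ^ cc N i =
      ∏ i : Fin 4, (a (-tt N i) (i : ℕ) / b (tt N i) (i : ℕ)) ^ cc N i := by
    rw [← mul_one (∏ i : Fin 4, (a (-tt N i) (i : ℕ) / b (tt N i) (i : ℕ)) ^ cc N i), ← one_mul 1]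
    nth_rewrite 1 [← a1]
    rw [← b1, ← Finset.prod_mul_distrib, ← Finset.prod_mul_distrib]
    refine Finset.prod_congr rfl fun i _ => ?_
    rw [← mul_zpow, ← mul_zpow]
    have := a0 (-tt N i) (i : ℕ)
    have := b0 (tt N i) (i : ℕ)
    have := b0 (-tt N i) (i : ℕ)
    congr 1
    field_simp
  have e4 : ∏ i : Fin 4, (a (-tt N i) (i : ℕ) / b (tt N i) (i : ℕ)) ^ cc N i ≠ 0 :=
    Finset.prod_ne_zero_iff.2 fun i _ => zpow_ne_zero _ (div_ne_zero (a0 _ _) (b0 _ _))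
  choose r hr using fun j => h3 (-τ j) (S'.L.neg_mem (h1 j))
  have hb : Function.Bijective r := Finite.injective_iff_bijective.1 fun i j e => h2 i j (by
    have := S.L.sub_mem (hr j) (hr i)
    rwa [e, sub_sub_sub_cancel_right, neg_sub_neg] at this)
  have al := fun j => halb S G N (v + τ j) hG (by rw [mul_add]; exact S.L.add_mem hv (h4 j))
    (by rw [mul_add]; exact S.L.add_mem hNv (h5 j))
    fun e => hv' (by simpa using S'.L.sub_mem (hL e) (h1 j))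
  have e5 : ∏ j, S.AL G N (-v + τ (r j)) = (∏ j, S.AL G N (v + τ j))⁻¹ := by
    rw [← Finset.prod_inv_distrib]
    refine Finset.prod_congr rfl fun j _ => ?_
    rw [← (al j).2.1 _ (hr j), ← AL_neg]
    congr 1
    ring
  rw [hb.prod_comp fun j => S.AL G N (-v + τ j)] at e5
  refine ⟨2, two_ne_zero, ?_⟩
  rw [sq, sq, ← div_inv_eq_mul, ← div_inv_eq_mul, ← e5, e2, e1, e3, mul_div_mul_right _ _ e4]

end Pool.Agent.P.MP_29cb78_nt.F
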