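import Pool.Agent.P.MP_29cb78_nt.F.Aual

/-!
The exact distribution relation for a quotient of odd order.
-/

namespace Pool.Agent.P.MP_29cb78_nt.F

open E

theorem distx_thm (hff : S_FF) (hdist : S_DIST) (hcfg : S_CFG) : S_DISTX := by
  intro S S' G G' n N I _ τ e r hG hG' hε hL hn ha h1 h2 h3 h4 h5 h6 v hv hN hv'
  obtain ⟨C, hC, eC⟩ := hdist S S' G G' n I τ e hG hG' hε hL hn ha h1 h2 h3 h4 v hv
  obtain ⟨P, hP, eP⟩ := hcfg S G I τ (fun j => N * τ j) e hG h4 h6 v hv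
  have hr : ∀ j, e (r j) = r (e j) := fun j => h2 _ _ ((S.ε_mul _).1 (by
    have k := S.L.neg_mem (S.L.add_mem (h4 (r j)) (h4 j))
    rw [h5] at k
    rw [h5]
    exact (by ring : -(-τ j - S.ε * τ (e (r j)) + (τ j - S.ε * τ (e j))) =
      S.ε * (τ (e (r j)) - -τ (e j))) ▸ k))
  have k : ∀ t i : ℤ, t * v ∉ S'.L →
      ∏ j, S.ed G (t * v + τ j + i * (N * τ j)) (t * v + τ (e j) + i * (N * τ (e j))) =
        Complex.exp (P t i) * (Complex.exp (C t) * S'.ed G' (t * v) (t * v)) := fun t i ht => by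
    rw [eP t i fun j hj => ht (by simpa using S'.L.sub_mem (hL hj) (h1 j)), eC t ht]
  have a1 : ∀ (i : Fin 4) (z : ℂ), (tt N i : ℂ) * (v + z) =
      tt N i * v + z + ((i : ℕ) : ℤ) * (N * z) := fun i z => by
    simp only [tt]
    push_cast
    ring
  have a2 : ∀ (i : Fin 4) (z : ℂ), ((-tt N i : ℤ) : ℂ) * (v + z) =
      (-tt N i : ℤ) * v + -z + ((i : ℕ) : ℤ) * (N * -z) := fun i z => by
    simp only [tt]
    push_cast
    ring
  have k1 : ∀ i : Fin 4, ∏ j, S.ed G (tt N i * (v + τ j)) (tt N i * (v + τ (e j))) = _ :=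
    fun i => by
      simp only [a1]
      exact k _ _ (Aual.notin (hL hN) hv' i).1
  have k2 : ∀ i : Fin 4, ∏ j, S.ed G ((-tt N i : ℤ) * (v + τ j)) ((-tt N i : ℤ) * (v + τ (e j))) =
      _ := fun i => by
    simp only [a2, ← h5, ← hr]
    exact (Equiv.prod_comp r fun j => S.ed G ((-tt N i : ℤ) * v + τ j + ((i : ℕ) : ℤ) * (N * τ j))
      ((-tt N i : ℤ) * v + τ (e j) + ((i : ℕ) : ℤ) * (N * τ (e j)))).trans
      (k _ _ (Aual.notin (hL hN) hv' i).2)
  have k3 := hff.1 N (fun t => Complex.exp (C t)) fun t => S'.ed G' (t * v) (t * v)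
  rw [hff.2.2.1 N C hC, one_mul] at k3
  rw [Setup.AL, ← k3, ← one_mul (FF N fun t => _ * _), ← hff.2.2.2.1 N P hP, FF, FF,
    ← Finset.prod_mul_distrib]
  exact Finset.prod_congr rfl fun i _ => by rw [k1, k2, ← mul_zpow, mul_div_mul_comm]

end Pool.Agent.P.MP_29cb78_nt.F
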