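import Pool.Agent.P.MP_29cb78_nt.F.Dg

/-!
The congruence at one level.
-/

namespace Pool.Agent.P.MP_29cb78_nt.F

open E E2 Finset Dgn
open scoped Classical

noncomputable section

namespace Econg

variable {B B' : Type*} [AddCommGroup B] [AddCommGroup B']

/-- The difference between a value and its interpolation from the multiples of `p`. -/
def dev (p j c₂ c₃ : ℤ) (g : ℤ → B) : B :=
  p ^ 3 • g j - (p ^ 3 • g 0 + (p ^ 2 * j) • (g p - g 0) + (p * c₂) • (g (2 * p) - 2 • g p + g 0) +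
      c₃ • (g (3 * p) - 3 • g (2 * p) + 3 • g p - g 0))

theorem dev_post (p j c₂ c₃ : ℤ) (g : ℤ → B) (ψ : B →+ B') :
    dev p j c₂ c₃ (fun t => ψ (g t)) = ψ (dev p j c₂ c₃ g) := by
  simp only [dev, map_sub, map_add, map_zsmul, map_nsmul]

theorem poly_of_four {g : ℤ → B}
    (h : ∀ t, g (t + 4) + 6 • g (t + 2) + g t - (4 • g (t + 3) + 4 • g (t + 1)) = 0) :
    PolyLE 3 g := by
  refine PolyLE.of_int (PolyLE.of_int (PolyLE.of_int ?_))
  have key : ∀ t : ℤ, g (t + 1 + 1 + 1 + 1) - g (t + 1 + 1 + 1) - (g (t + 1 + 1 + 1) - g (t + 1 + 1)) -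
      (g (t + 1 + 1 + 1) - g (t + 1 + 1) - (g (t + 1 + 1) - g (t + 1))) =
      g (t + 1 + 1 + 1) - g (t + 1 + 1) - (g (t + 1 + 1) - g (t + 1)) -
      (g (t + 1 + 1) - g (t + 1) - (g (t + 1) - g t)) := fun t => by
    rw [← sub_eq_zero, ← h t, show t + 1 + 1 + 1 + 1 = t + 4 by ring,
      show t + 1 + 1 + 1 = t + 3 by ring, show t + 1 + 1 = t + 2 by ring]
    module
  intro x y
  have hp : Function.Periodic (fun t : ℤ => g (t + 1 + 1 + 1) - g (t + 1 + 1) -
      (g (t + 1 + 1) - g (t + 1)) - (g (t + 1 + 1) - g (t + 1) - (g (t + 1) - g t))) 1 := key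
  have := hp.zsmul (x - y) y
  simpa using this

theorem dev_mem (K : AddSubgroup B) {g : ℤ → B}
    (h : ∀ t, g (t + 4) + 6 • g (t + 2) + g t - (4 • g (t + 3) + 4 • g (t + 1)) ∈ K)
    {p j c₂ c₃ : ℤ} (h₂ : 2 * c₂ = j * (j - p)) (h₃ : 6 * c₃ = j * (j - p) * (j - 2 * p)) :
    dev p j c₂ c₃ g ∈ K := by
  rw [← QuotientAddGroup.eq_zero_iff, ← QuotientAddGroup.mk'_apply, ← dev_post, dev, sub_eq_zero]
  refine newton_p (g := fun i => QuotientAddGroup.mk' K (g i)) (poly_of_four fun i => ?_)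
    p j c₂ c₃ h₂ h₃
  simp only [← map_nsmul, ← map_add, ← map_sub]
  exact (QuotientAddGroup.eq_zero_iff _).2 (h i)

end Econg

open Econg in
theorem econg_thm : S_ECONG := by
  intro S G p N τ v j hG hτ hv hN hi
  have hF := fbG hG
  have hm : v - S.ε * v ∈ S.L := by convert S.L.neg_mem hv using 1; ring
  set x : Dg S := ⟨S.pt v v, mem_Dg.2 (by rw [Setup.Diag, S.x₁_pt hm, S.x₂_pt hm])⟩ with hx
  set t : Dg S := ⟨τ, mem_Dg.2 hτ.diag⟩ with ht
  have x1 : ∀ i : ℤ, S.x₁ ((x + i • t : Dg S) : S.A) = v + i * S.x₁ τ := fun i => by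
    simp [hx, ht, S.x₁_pt hm]
  have nl : ∀ i : ℤ, ¬ S.Lat ((x + i • t : Dg S) : S.A) := fun i h => hi i (x1 i ▸ h)
  have hxN : (N * p) • x ∈ LD S := by
    rw [mul_comm, mul_nsmul']
    refine (LD S).nsmul_mem ?_ p
    simpa [mem_LD, Setup.Lat, hx, S.x₁_pt hm] using hN
  have htp : p • t ∈ LD S := hτ.lat
  have htN : (N * p) • t ∈ LD S := by
    rw [mul_nsmul']
    exact (LD S).nsmul_mem htp N
  have hN' : ∀ a i : ℤ, (N * p) • (a • x + i • t) ∈ LD S := fun a i => by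
    rw [smul_add, smul_comm _ a, smul_comm _ i]
    exact (LD S).add_mem ((LD S).zsmul_mem hxN a) ((LD S).zsmul_mem htN i)
  have hAL : ∀ i : ℤ, S.AL G (N * p) (v + i * S.x₁ τ) = ex (DD (N * p) (lf G) (x + i • t)) :=
    fun i => by
      rw [← x1]
      have := hN' 1 i
      rw [one_smul] at this
      exact AL_eq hG _ (nl i) this
  have h6 : IsCoprime (p : ℤ) 6 := by
    have h5 := hτ.five
    have h2 : Nat.Coprime p 2 := (Nat.coprime_primes hτ.prime Nat.prime_two).2 (by omega)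
    have h3 : Nat.Coprime p 3 := (Nat.coprime_primes hτ.prime Nat.prime_three).2 (by omega)
    exact Nat.isCoprime_iff_coprime.2 (Nat.Coprime.mul_right h2 h3)
  obtain ⟨c₂, h₂⟩ := exists_c₂ p j
    (by exact_mod_cast hτ.prime.odd_of_ne_two (by have := hτ.five; omega))
  obtain ⟨c₃, h₃⟩ := exists_c₃ p j h6
  have hc := (DD_cubic (N * p) (qcub_lf hG) ((zmultiplesHom _ x).coprod (zmultiplesHom _ t))
    fun z => hN' z.1 z.2).aff (AddMonoidHom.inr ℤ ℤ) (1, 0)
  have hc' : PolyLE 3 fun i : ℤ => (12 * ((N * p : ℕ) : ℤ) ^ 3) • lf G (x + i • t) -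
      DD (N * p) (lf G) (x + i • t) := hc.congr fun i => by
    have e1 := hF.reflD _ (diag (x + i • t))
    rw [if_neg (nl i), mul_one] at e1
    have e2 : 2 • (lf G (x + i • t) + lf G (-(x + i • t))) = 0 := by
      rw [lf, lf, ← lg_mul (hF.ne _) (hF.ne _), ← lg_pow (mul_ne_zero (hF.ne _) (hF.ne _)),
        AddSubgroup.coe_neg, e1, sq, S.χ_sq, lg_one]
    simp only [AddMonoidHom.inr_apply, Prod.mk_add_mk, zero_add, add_zero,
      AddMonoidHom.coprod_apply, zmultiplesHom_apply, one_smul]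
    linear_combination (norm := module) (-3 * ((N * p : ℕ) : ℤ) ^ 3) • e2
  have hper : ∀ i : ℤ, DD (N * p) (lf G) (x + (i * p) • t) = DD (N * p) (lf G) x := fun i =>
    DD_per _ (qcub_lf hG) x (by
      rw [mul_smul, natCast_zsmul]
      exact (LD S).zsmul_mem htp i)
  refine ⟨ex (dev p j c₂ c₃ fun i => lf G (x + i • t)), ?_, fun O hO => ?_⟩
  · have e0 := hAL 0
    rw [Int.cast_zero, zero_mul, add_zero, zero_smul, add_zero] at e0
    rw [hAL, e0, ← ex_nsmul, ← ex_nsmul, ← ex_nsmul, ← ex_add]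
    congr 1
    have e1 := newton_p hc' p j c₂ c₃ h₂ h₃
    have e2 := hper 1
    rw [one_mul] at e2
    simp only [zero_smul, add_zero, hper, e2] at e1
    simp only [dev, zero_smul, add_zero]
    linear_combination (norm := module) -e1
  · rw [← mem_one1]
    refine dev_mem _ (fun i => ?_) h₂ h₃
    rw [mem_one1]
    convert hO _ (diag (x + i • t)) using 3
    simp only [ex_sub, ex_add, ex_nsmul, lf, ex_lg (hF.ne _), Setup.D4]
    have e : ∀ k : ℕ, ((x + (i + k) • t : Dg S) : S.A) = (x + i • t : Dg S) + k • τ := fun k => by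
      simp only [ht, AddSubgroup.coe_add, AddSubgroup.coe_zsmul]
      module
    have e4 := e 4
    have e3 := e 3
    have e2 := e 2
    have e1 := e 1
    simp only [Nat.cast_ofNat, Nat.cast_one, one_smul] at e4 e3 e2 e1
    rw [e4, e3, e2, e1]

end

end Pool.Agent.P.MP_29cb78_nt.F
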