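import Pool.Agent.P.MP_29cb78_nt.F.Iface2
import Pool.Agent.P.MP_29cb78_nt.E2.Mul

/-!
The extrapolation functional.
-/

namespace Pool.Agent.P.MP_29cb78_nt.F

open E

theorem Cub1.const (c : ℂ) : Cub1 fun _ => c := ⟨c, 0, 0, 0, fun t => by ring⟩

theorem Cub1.congr {P Q : ℤ → ℂ} (hP : Cub1 P) (h : ∀ t, P t = Q t) : Cub1 Q :=
  (funext h : P = Q) ▸ hP

theorem Cub1.add {P Q : ℤ → ℂ} (hP : Cub1 P) (hQ : Cub1 Q) : Cub1 fun t => P t + Q t := by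
  obtain ⟨a₀, a₁, a₂, a₃, ha⟩ := hP
  obtain ⟨b₀, b₁, b₂, b₃, hb⟩ := hQ
  exact ⟨a₀ + b₀, a₁ + b₁, a₂ + b₂, a₃ + b₃, fun t => by beta_reduce; rw [ha, hb]; ring⟩

theorem Cub1.const_mul {P : ℤ → ℂ} (hP : Cub1 P) (c : ℂ) : Cub1 fun t => c * P t := by
  obtain ⟨a₀, a₁, a₂, a₃, ha⟩ := hP
  exact ⟨c * a₀, c * a₁, c * a₂, c * a₃, fun t => by beta_reduce; rw [ha]; ring⟩

theorem Cub1.neg {P : ℤ → ℂ} (hP : Cub1 P) : Cub1 fun t => -P t :=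
  (hP.const_mul (-1)).congr fun t => by ring

theorem Cub1.sub {P Q : ℤ → ℂ} (hP : Cub1 P) (hQ : Cub1 Q) : Cub1 fun t => P t - Q t :=
  (hP.add hQ.neg).congr fun t => by ring

theorem Cub1.sum {ι : Type*} (s : Finset ι) {P : ι → ℤ → ℂ} (hP : ∀ i ∈ s, Cub1 (P i)) :
    Cub1 fun t => ∑ i ∈ s, P i t := by
  classical
  induction s using Finset.induction_on with
  | empty => exact (Cub1.const 0).congr fun t => by simp
  | insert a s ha ih =>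
    exact ((hP a (Finset.mem_insert_self _ _)).add
      (ih fun i hi => hP i (Finset.mem_insert_of_mem hi))).congr fun t => by
        rw [Finset.sum_insert ha]

/-- Affine substitution. -/
theorem Cub1.aff {P : ℤ → ℂ} (hP : Cub1 P) (a b : ℤ) : Cub1 fun t => P (a + b * t) := by
  obtain ⟨c₀, c₁, c₂, c₃, h⟩ := hP
  exact ⟨c₀ + c₁ * a + c₂ * a ^ 2 + c₃ * a ^ 3, (c₁ + 2 * c₂ * a + 3 * c₃ * a ^ 2) * b,
    (c₂ + 3 * c₃ * a) * b ^ 2, c₃ * b ^ 3, fun t => by beta_reduce; rw [h]; push_cast; ring⟩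

theorem Cub1.pre_neg {P : ℤ → ℂ} (hP : Cub1 P) : Cub1 fun t => P (-t) :=
  (hP.aff 0 (-1)).congr fun t => by simp

theorem Cub2.diag {P : ℤ → ℤ → ℂ} (hP : Cub2 P) : Cub1 fun t => P t t := by
  obtain ⟨c, h⟩ := hP
  exact ⟨c 0, c 1 + c 2, c 3 + c 4 + c 5, c 6 + c 7 + c 8 + c 9,
    fun t => by beta_reduce; rw [h]; ring⟩

theorem Cub2.fix {P : ℤ → ℤ → ℂ} (hP : Cub2 P) (t : ℤ) : Cub1 fun i => P t i := by
  obtain ⟨c, h⟩ := hP
  exact ⟨c 0 + c 1 * t + c 3 * t ^ 2 + c 6 * t ^ 3, c 2 + c 4 * t + c 7 * t ^ 2, c 5 + c 8 * t, c 9,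
    fun i => by beta_reduce; rw [h]; ring⟩

theorem Cub2.fix' {P : ℤ → ℤ → ℂ} (hP : Cub2 P) (i : ℤ) : Cub1 fun t => P t i := by
  obtain ⟨c, h⟩ := hP
  exact ⟨c 0 + c 2 * i + c 5 * i ^ 2 + c 9 * i ^ 3, c 1 + c 4 * i + c 8 * i ^ 2, c 3 + c 7 * i, c 6,
    fun t => by beta_reduce; rw [h]; ring⟩

namespace Ff

theorem prod_exp (c : Fin 4 → ℤ) (a b : Fin 4 → ℂ) :
    ∏ j, (Complex.exp (a j) / Complex.exp (b j)) ^ c j = Complex.exp (∑ j, c j • (a j - b j)) := by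
  rw [Complex.exp_sum]
  exact Finset.prod_congr rfl fun j _ => by
    rw [← Complex.exp_sub, zsmul_eq_mul, Complex.exp_int_mul]

end Ff

theorem ff_thm : S_FF := by
  refine ⟨E2.FF_mul, fun N f g h => E2.FF_congr N h, fun N P h => E2.FF_exp N (E2.poly_Cub1 h),
    fun N P h => ?_, fun N N' f P Q hP hQ h => ?_⟩
  · rw [Ff.prod_exp]
    exact (congrArg Complex.exp (E2.Fa_kill2 N (E2.poly_Cub2 h))).trans Complex.exp_zero
  · have e1 : ∀ j : Fin 4, tt (N * N') j = 1 + ((N' : ℤ) * (j : ℕ)) * N := fun j => by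
      simp only [tt]; push_cast; ring
    have e2 : ∀ j : Fin 4, tt N j = 1 + ((j : ℕ) : ℤ) * N := fun j => rfl
    have k := E2.sum_cc_mul N N' (E2.poly_Cub1 (hP.sub hQ))
    simp only [FF]
    simp only [e1, e2, (h _).1, (h _).2]
    rw [Ff.prod_exp, Ff.prod_exp, k, ← Complex.exp_nat_mul, zsmul_eq_mul]
    push_cast
    rfl

end Pool.Agent.P.MP_29cb78_nt.F
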