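import Pool.Agent.P.MP_29cb78_nt.F.Iface2
import Pool.Agent.P.MP_29cb78_nt.E.KMk

/-!
Primitive positive forms on an ideal of a complex cubic field.
-/

namespace Pool.Agent.P.MP_29cb78_nt.F

open E NumberField

namespace Form

theorem basis {k : Type} [Field k] [NumberField k] (h3 : Module.finrank ℚ k = 3)
    {J : Ideal (𝓞 k)} (hJ : J ≠ ⊥) {x : k} (hx : ¬ Mem J x) : ∃ b : Module.Basis (Fin 3) ℚ k,
      (∀ y : k, Mem J y ↔ ∃ i j l : ℤ, y = i * b 0 + j * b 1 + l * b 2) ∧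
      ∀ n : ℤ, b.repr x 0 ≠ n := by
  let bJ := Ideal.selfBasis
    (Module.finBasisOfFinrankEq ℤ (𝓞 k) ((RingOfIntegers.rank k).trans h3)) J hJ
  let f : J →ₗ[ℤ] k := (algebraMap (𝓞 k) k).toIntAlgHom.toLinearMap ∘ₗ J.subtype.restrictScalars ℤ
  have li := (LinearIndependent.iff_fractionRing ℤ ℚ).1 (bJ.linearIndependent.map' f
    (LinearMap.ker_eq_bot.2 (RingOfIntegers.coe_injective.comp Subtype.val_injective)))
  let b := basisOfLinearIndependentOfCardEqFinrank li (by simp [h3])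
  have hb : ∀ x : k, x ∈ Submodule.span ℤ (Set.range b) ↔ ∃ j ∈ J, (j : k) = x := fun x => by
    rw [coe_basisOfLinearIndependentOfCardEqFinrank, Set.range_comp, ← Submodule.map_span,
      bJ.span_eq, Submodule.map_top]
    exact ⟨fun ⟨j, h⟩ => ⟨j, j.2, h⟩, fun ⟨j, h, h'⟩ => ⟨⟨j, h⟩, h'⟩⟩
  obtain ⟨i, hi⟩ := not_forall.1 fun h => hx ((hb _).1 ((b.mem_span_iff_repr_mem ℤ x).2 h))
  refine ⟨b.reindex (Equiv.swap 0 i), fun x => ?_, fun n h => hi ⟨n, ?_⟩⟩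
  · rw [Mem, ← hb, ← b.range_reindex (Equiv.swap 0 i), Submodule.mem_span_range_iff_exists_fun]
    simp only [Fin.sum_univ_three, zsmul_eq_mul]
    exact ⟨fun ⟨c, h⟩ => ⟨_, _, _, h.symm⟩, fun ⟨i, j, l, h⟩ => ⟨![i, j, l], h.symm⟩⟩
  · simpa using h.symm

/-- The real place as a combination of the first coordinate and the complex place. -/
theorem rel {k : Type} [Field k] [NumberField k] {ρ : k →+* ℝ} {σ : k →+* ℂ} (hE : Emb ρ σ)
    (b : Module.Basis (Fin 3) ℚ k) : ∃ (c : ℝ) (w : ℂ), c ≠ 0 ∧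
      ∀ y : k, ρ y = c * (b.repr y 0 : ℚ) + (w * σ y).re := by
  have him : (σ (b 2 / b 1)).im ≠ 0 := fun h => by
    obtain ⟨c, hc⟩ := hE.rat _ h
    rw [div_eq_iff (b.ne_zero 1), ← Rat.smul_def] at hc
    simpa using congrArg (fun x => b.repr x 2) hc
  have hd : KMk.dt (σ (b 1)) (σ (b 2)) ≠ 0 := KMk.dt_of_im (by rwa [← map_div₀])
  obtain ⟨w, w1, w2⟩ := KMk.solve hd (ρ (b 1)) (ρ (b 2))
  have key : ∀ y : k, ρ y = (ρ (b 0) - (w * σ (b 0)).re) * (b.repr y 0 : ℚ) + (w * σ y).re := by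
    intro y
    have hy := b.sum_repr y
    simp only [Fin.sum_univ_three, Rat.smul_def] at hy
    generalize b.repr y 0 = y₀, b.repr y 1 = y₁, b.repr y 2 = y₂ at hy
    subst hy
    simp only [map_add, map_mul, map_ratCast, mul_add w, Complex.add_re, KMk.re_rat, w1, w2]
    ring
  refine ⟨_, w, fun h => ?_, key⟩
  simp only [h, zero_mul, zero_add] at key
  have hz : ∀ y : k, (w * (σ (b 2 / b 1) - ρ (b 2 / b 1)) * σ y).re = 0 := fun y => by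
    rw [show w * (σ (b 2 / b 1) - ρ (b 2 / b 1)) * σ y =
      w * σ (b 2 / b 1 * y) - (ρ (b 2 / b 1) : ℂ) * (w * σ y) by rw [map_mul]; ring,
      Complex.sub_re, Complex.re_ofReal_mul, ← key, ← key, map_mul, sub_self]
  have h0 : w = 0 := (mul_eq_zero.1 (KMk.ind hd (hz _) (hz _))).resolve_right fun h1 =>
    him (by rw [sub_eq_zero.1 h1]; rfl)
  simpa [h0] using key 1

theorem cyc (H : AddSubgroup ℚ) {M : ℕ} (hM : M ≠ 0) (h1 : (1 : ℚ) ∈ H)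
    (h : ∀ q ∈ H, ∃ m : ℤ, M * q = m) :
    ∃ n : ℕ, n ≠ 0 ∧ (∀ q ∈ H, ∃ m : ℤ, n * q = m) ∧ ∃ q ∈ H, n * q = 1 := by
  have hM' : (M : ℚ) ≠ 0 := by exact_mod_cast hM
  obtain ⟨g, hg⟩ := Int.subgroup_cyclic
    (H.comap ((AddMonoidHom.mulRight (M : ℚ)⁻¹).comp (Int.castAddHom ℚ)))
  have hm : ∀ m : ℤ, (m : ℚ) * (M : ℚ)⁻¹ ∈ H ↔ ∃ t : ℤ, t * g = m := fun m => by
    have := SetLike.ext_iff.1 hg m
    rw [AddSubgroup.mem_closure_singleton] at this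
    simpa using this
  obtain ⟨t, ht⟩ := (hm M).1 (by simpa [hM'] using h1)
  have htQ : (t : ℚ) * g = M := by exact_mod_cast ht
  have hg0 : (g : ℚ) ≠ 0 := fun h0 => hM' (by rw [← htQ, h0, mul_zero])
  have ht0 : t ≠ 0 := fun h0 => hM' (by rw [← htQ, h0]; simp)
  have hint : ∀ q ∈ H, ∃ m : ℤ, t * q = m := fun q hq => by
    obtain ⟨m, hm'⟩ := h q hq
    obtain ⟨s, hs⟩ := (hm m).1 (by rwa [← hm', mul_right_comm, mul_inv_cancel₀ hM', one_mul])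
    have hsQ : (s : ℚ) * g = m := by exact_mod_cast hs
    refine ⟨s, mul_right_cancel₀ hg0 ?_⟩
    rw [hsQ, ← hm', ← htQ]
    ring
  have hone : (g : ℚ) * (M : ℚ)⁻¹ ∈ H := (hm g).2 ⟨1, one_mul g⟩
  have hone' : (t : ℚ) * (g * (M : ℚ)⁻¹) = 1 := by rw [← mul_assoc, htQ, mul_inv_cancel₀ hM']
  obtain ⟨n, rfl | rfl⟩ := t.eq_nat_or_neg
  · exact ⟨n, by simpa using ht0, by simpa using hint, _, hone, by simpa using hone'⟩
  · refine ⟨n, by simpa using ht0, fun q hq => ?_, _, H.neg_mem hone, by simpa using hone'⟩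
    obtain ⟨m, hm⟩ := hint _ (H.neg_mem hq)
    exact ⟨m, by simpa using hm⟩

end Form

open Form in
theorem form_thm : S_FORM := by
  intro k _ _ ρ σ hE J hJ
  refine ⟨fun x hx => ?_, fun a ha J' hJ' => ?_⟩
  · obtain ⟨π, hπ⟩ := LinearMap.exists_leftInverse_of_injective σ.toRatAlgHom.toLinearMap
      (LinearMap.ker_eq_bot.2 σ.injective)
    replace hπ : ∀ x, π (σ x) = x := fun x => LinearMap.congr_fun hπ x
    obtain ⟨b, hb, hbx⟩ := basis hE.rank hJ hx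
    obtain ⟨c, w, hc, key⟩ := rel hE b
    obtain ⟨a, ha⟩ : ∃ a : ℂ →+ ℚ, ∀ y, a (σ y) = b.repr y 0 :=
      ⟨(b.coord 0 ∘ₗ π).toAddMonoidHom, fun y => by simp [hπ]⟩
    have hint : ∀ y ∈ J, ∃ n : ℤ, a (σ (y : 𝓞 k)) = n := fun y hy => by
      obtain ⟨i, j, l, h⟩ := (hb y).1 ⟨y, hy, rfl⟩
      refine ⟨i, ?_⟩
      rw [ha, h]
      simp [← zsmul_eq_mul]
    obtain ⟨y₀, hy₀, e₀⟩ := (hb (b 0)).2 ⟨1, 0, 0, by simp⟩
    have hone : a (σ (y₀ : 𝓞 k)) = 1 := by rw [ha, e₀]; simp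
    have hw : ∀ (t : ℝ) (z : ℂ), ((t : ℂ) * w * z).re = t * (w * z).re := fun t z => by
      rw [mul_assoc, Complex.re_ofReal_mul]
    rcases hc.lt_or_gt with h | h
    · refine ⟨-a, ⟨fun y hy => ?_, ⟨-y₀, J.neg_mem hy₀, by simpa using hone⟩,
        -c⁻¹, (c⁻¹ : ℝ) * w, neg_pos.2 (inv_lt_zero.2 h), fun y _ => ?_⟩, fun n hn => ?_⟩
      · obtain ⟨n, hn⟩ := hint y hy
        exact ⟨-n, by simp [hn]⟩
      · rw [hw, key, AddMonoidHom.neg_apply, ha]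
        push_cast
        field_simp
        ring
      · rw [AddMonoidHom.neg_apply, ha] at hn
        exact hbx (-n) (by push_cast; linarith)
    · refine ⟨a, ⟨hint, ⟨y₀, hy₀, hone⟩, c⁻¹, (-c⁻¹ : ℝ) * w, inv_pos.2 h, fun y _ => ?_⟩,
        fun n hn => hbx n (by rwa [ha] at hn)⟩
      rw [hw, key, ha]
      field_simp
      ring
  · have hM : Ideal.absNorm J ≠ 0 := by rwa [Ne, Ideal.absNorm_eq_zero_iff]
    have hmem : ∀ y : 𝓞 k, (Ideal.absNorm J : 𝓞 k) * y ∈ J :=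
      fun y => J.mul_mem_right y (Ideal.absNorm_mem J)
    generalize Ideal.absNorm J = M at hM hmem
    have hσ : ∀ y : 𝓞 k, σ ((M : 𝓞 k) * y : 𝓞 k) = ((M : ℤ) : ℂ) * σ y := fun y => by simp
    obtain ⟨y₀, hy₀, e₀⟩ := ha.one
    obtain ⟨n, hn, hint, _, ⟨_, ⟨y₁, hy₁, rfl⟩, rfl⟩, e₁⟩ := cyc ((latt σ J').map a) hM
      ⟨_, ⟨y₀, hJ' hy₀, rfl⟩, e₀⟩ (by
        rintro _ ⟨_, ⟨y, hy, rfl⟩, rfl⟩
        obtain ⟨m, hm⟩ := ha.int _ (hmem y)
        rw [hσ, KMk.int_mulQ] at hm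
        exact ⟨m, by simpa using hm⟩)
    obtain ⟨α, w, hα, hw⟩ := ha.pos
    refine ⟨n, n • a, hn, ⟨fun y hy => ?_, ⟨y₁, hy₁, by simpa using e₁⟩, n * α, n * w,
      by positivity, fun y _ => ?_⟩, fun z => by simp⟩
    · obtain ⟨m, hm⟩ := hint _ ⟨_, ⟨y, hy, rfl⟩, rfl⟩
      exact ⟨m, by simpa using hm⟩
    · have h := hw _ (hmem y)
      rw [hσ, KMk.int_mulQ, KMk.re_int] at h
      have hM' : (M : ℝ) ≠ 0 := by exact_mod_cast hM
      apply mul_left_cancel₀ hM'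
      rw [mul_assoc (n : ℂ), ← Complex.ofReal_natCast, Complex.re_ofReal_mul]
      simp only [map_mul, map_natCast, AddMonoidHom.nsmul_apply, nsmul_eq_mul] at h ⊢
      push_cast at h ⊢
      linear_combination n * h

end Pool.Agent.P.MP_29cb78_nt.F
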