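import Pool.Agent.P.MP_29cb78_nt.F.Iface2

/-! The invariants exist. -/

namespace Pool.Agent.P.MP_29cb78_nt.F

open E NumberField

theorem inv_thm (hreal : S_REAL) (hinv0 : S_INV0) (hklfk : S_KLFK) (hunit : S_UNIT)
    (hcong : S_CONG) : S_INV := by
  intro k _ _ ρ σ he
  obtain ⟨AL, hR⟩ := hreal k ρ σ he
  have h := hinv0 k ρ σ he AL hR
  exact ⟨AL, h, hklfk k ρ σ he AL hR, hunit k ρ σ he AL hR h, hcong k ρ σ he AL hR h⟩

end Pool.Agent.P.MP_29cb78_nt.F
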