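import Pool.Agent.P.MP_29cb78_nt.F.Real

/-!
The formal properties of the invariants.
-/

namespace Pool.Agent.P.MP_29cb78_nt.F

open E NumberField
open scoped Classical

namespace Inv0

variable {k : Type} [Field k] {ρ : k →+* ℝ}

theorem ad_per {J : Ideal (𝓞 k)} {u : (𝓞 k)ˣ} {N : ℕ} {x y : k} (h : Ad ρ J u N x)
    (hy : Mem J (y - x)) : Ad ρ J u N y := by
  refine ⟨h.J_ne, h.big, h.N_ne, ?_, ?_, fun h' => h.not_mem ?_⟩
  · have := mem_add h.fix (mem_mul ((u : 𝓞 k) - 1) hy)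
    push_cast at this
    rwa [← mul_add, add_sub_cancel] at this
  · have := mem_add h.tors (mem_mul (N : 𝓞 k) hy)
    push_cast at this
    rwa [← mul_add, add_sub_cancel] at this
  · simpa using mem_sub h' hy

theorem ad_neg {J : Ideal (𝓞 k)} {u : (𝓞 k)ˣ} {N : ℕ} {x : k} (h : Ad ρ J u N x) :
    Ad ρ J u N (-x) :=
  ⟨h.J_ne, h.big, h.N_ne, by simpa using mem_neg h.fix, by simpa using mem_neg h.tors,
    fun h' => h.not_mem (by simpa using mem_neg h')⟩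

theorem ad_scale {J : Ideal (𝓞 k)} {u : (𝓞 k)ˣ} {N N' : ℕ} {x : k} (h : Ad ρ J u N x)
    (hN : N' ≠ 0) : Ad ρ J u (N * N') x := by
  refine ⟨h.J_ne, h.big, mul_ne_zero h.N_ne hN, h.fix, ?_, h.not_mem⟩
  have := mem_mul (N' : 𝓞 k) h.tors
  push_cast at this ⊢
  rwa [← mul_assoc, mul_comm (N' : k)] at this

theorem ad_mul {J : Ideal (𝓞 k)} {u u' : (𝓞 k)ˣ} {N : ℕ} {x : k} (h : Ad ρ J u N x)
    (h' : Ad ρ J u' N x) : Ad ρ J (u * u') N x := by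
  refine ⟨h.J_ne, ?_, h.N_ne, ?_, h.tors, h.not_mem⟩
  · have h1 := h.big
    have h2 := h'.big
    push_cast
    rw [map_mul]
    nlinarith
  · have := mem_add h.fix (mem_mul (u : 𝓞 k) h'.fix)
    push_cast
    have e : (((u : 𝓞 k) : k) * ((u' : 𝓞 k) : k) - 1) * x =
        (((u : 𝓞 k) : k) - 1) * x + ((u : 𝓞 k) : k) * ((((u' : 𝓞 k) : k) - 1) * x) := by ring
    rwa [e]

theorem ad_hom {J : Ideal (𝓞 k)} {u : (𝓞 k)ˣ} {N : ℕ} {x : k} (h : Ad ρ J u N x) (a : 𝓞 k)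
    (ha : 0 < ρ a) : Ad ρ (Ideal.span {a} * J) u N (a * x) := by
  have ha0 : (a : k) ≠ 0 := fun e => by simp [e] at ha
  have key : ∀ y : k, Mem (Ideal.span {a} * J) (a * y) ↔ Mem J y := fun y => by
    constructor
    · rintro ⟨z, hz, e⟩
      obtain ⟨w, hw, rfl⟩ := Ideal.mem_span_singleton_mul.1 hz
      refine ⟨w, hw, mul_left_cancel₀ ha0 ?_⟩
      rw [← e]
      simp
    · rintro ⟨w, hw, rfl⟩
      exact ⟨a * w, Ideal.mem_span_singleton_mul.2 ⟨w, hw, rfl⟩, by simp⟩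
  refine ⟨mul_ne_zero ?_ h.J_ne, h.big, h.N_ne, ?_, ?_, fun h' => h.not_mem ((key x).1 h')⟩
  · rw [Ne, Ideal.zero_eq_bot, Ideal.span_singleton_eq_bot]
    rintro rfl
    simp at ha0
  · rw [mul_left_comm]
    exact (key _).2 h.fix
  · rw [mul_left_comm]
    exact (key _).2 h.tors

end Inv0

open Inv0 in
theorem inv0_thm (hff : S_FF) (halb : S_ALB) (hcoc : S_COC) (hind : S_IND) (hdistv : S_DISTV)
    (hform : S_FORM) (hmk : S_MK) : S_INV0 := by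
  intro k _ _ ρ σ hE AL hAL
  have prim : ∀ {J u N x}, Ad ρ J u N x → ∃ a, Prim ρ σ J a := fun h =>
    ((hform k ρ σ hE _ h.J_ne).1 _ h.not_mem).imp fun _ h => h.1
  have mk : ∀ {J u N x a}, Ad ρ J u N x → Prim ρ σ J a →
      ∃ (S : Setup) (G : S.A → ℂ), Fits ρ σ J u S ∧ S.GH G ∧ S.a = a := fun h ha => by
    obtain ⟨S, hS, e⟩ := hmk k ρ σ hE _ _ _ h.J_ne h.big ha
    obtain ⟨G, hG⟩ := gh_all S
    exact ⟨S, G, hS, hG, e⟩
  have ex : ∀ {J u N x}, Ad ρ J u N x → ∃ (S : Setup) (G : S.A → ℂ), Fits ρ σ J u S ∧ S.GH G :=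
    fun h => by
      obtain ⟨a, ha⟩ := prim h
      obtain ⟨S, G, h1, h2, -⟩ := mk h ha
      exact ⟨S, G, h1, h2⟩
  refine ⟨fun J u N x h => ?_, fun J u N x y h hy => ?_, fun J u N x a h ha => ?_,
    fun J u N x h => ?_, fun J u u' N x h h' => ?_, fun J u N N' x h hN => ?_,
    fun J J' u N x T hJ hT h hτ => ?_⟩
  · obtain ⟨S, G, hS, hG⟩ := ex h
    obtain ⟨h1, h2, h3⟩ := ad_lat hS h
    rw [hAL J u N x S G h hS hG]
    exact (halb S G N _ hG h1 h2 h3).1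
  · obtain ⟨S, G, hS, hG⟩ := ex h
    obtain ⟨h1, h2, h3⟩ := ad_lat hS h
    rw [hAL J u N x S G h hS hG, hAL J u N y S G (ad_per h hy) hS hG,
      ← (halb S G N _ hG h1 h2 h3).2.1 _ (((dict (N := N) hS).1 _).2 hy), ← map_add,
      add_sub_cancel]
  · obtain ⟨S, G, hS, hG⟩ := ex h
    obtain ⟨S', G', hS', hG'⟩ := ex (ad_hom h a ha)
    rw [hAL J u N x S G h hS hG, hAL _ u N _ S' G' (ad_hom h a ha) hS' hG']
    exact hom_core hff hind a ha (fun _ => Ideal.mem_span_singleton_mul) hS hS' hG hG' h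
  · obtain ⟨S, G, hS, hG⟩ := ex h
    obtain ⟨h1, h2, h3⟩ := ad_lat hS h
    rw [hAL J u N x S G h hS hG, hAL J u N _ S G (ad_neg h) hS hG, map_neg]
    exact (halb S G N _ hG h1 h2 h3).2.2.1
  · obtain ⟨a, ha⟩ := prim h
    obtain ⟨S₁, G₁, hS₁, hG₁, e₁⟩ := mk h ha
    obtain ⟨S₂, G₂, hS₂, hG₂, e₂⟩ := mk h' ha
    obtain ⟨S₃, G₃, hS₃, hG₃, e₃⟩ := mk (ad_mul h h') ha
    obtain ⟨h1, h2, h3⟩ := ad_lat hS₁ h
    have h4 := (ad_lat hS₂ h').1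
    have l₂ : S₂.L = S₁.L := hS₂.L_eq.trans hS₁.L_eq.symm
    rw [l₂] at h4
    have neg : ∀ ε : ℂ, (ε - 1) * σ x ∈ S₁.L → σ x - ε * σ x ∈ S₁.L := fun ε hε => by
      have := S₁.L.neg_mem hε
      rwa [sub_mul, one_mul, neg_sub] at this
    obtain ⟨P, hP, hPe⟩ := hcoc S₁ S₂ S₃ G₁ G₂ G₃ hG₁ hG₂ hG₃ l₂ (hS₃.L_eq.trans hS₁.L_eq.symm)
      (e₂.trans e₁.symm) (e₃.trans e₁.symm) (by rw [hS₁.ε_eq, hS₂.ε_eq, hS₃.ε_eq]; simp)
      (σ x) (σ x) (σ x) (neg _ h1) (neg _ h4)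
    rw [hAL J u N x S₁ G₁ h hS₁ hG₁, hAL J u' N x S₂ G₂ h' hS₂ hG₂,
      hAL J _ N x S₃ G₃ (ad_mul h h') hS₃ hG₃]
    exact (ff_eq hff h2 h3 hP hPe).trans (hff.1 N _ _)
  · obtain ⟨S, G, hS, hG⟩ := ex h
    obtain ⟨h1, h2, h3⟩ := ad_lat hS h
    rw [hAL J u N x S G h hS hG, hAL J u _ x S G (ad_scale h hN) hS hG]
    exact (halb S G N _ hG h1 h2 h3).2.2.2 N'
  · obtain ⟨τ₀, hτ₀, m₀⟩ := hT.surj 0 ⟨0, J'.zero_mem, by simp⟩
    have hx : Ad ρ J u N x := ad_per (hτ τ₀ hτ₀) (by simpa using m₀)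
    obtain ⟨a, ha⟩ := prim hx
    obtain ⟨n, a', hn, ha', e⟩ := (hform k ρ σ hE J hx.J_ne).2 a ha J' hJ
    obtain ⟨S, G, hS, hG, ea⟩ := mk hx ha
    obtain ⟨S', G', hS', hG', ea'⟩ := mk h ha'
    obtain ⟨d1, d2, d3⟩ := dict (N := N) hS
    obtain ⟨h1, h2, -⟩ := ad_lat hS hx
    obtain ⟨m, hm, hme⟩ := hdistv S S' G G' n N T (fun τ => σ τ) hG hG'
      (hS'.ε_eq.trans hS.ε_eq.symm)
      (by
        rw [hS.L_eq, hS'.L_eq]
        rintro _ ⟨y, hy, rfl⟩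
        exact ⟨y, hJ hy, rfl⟩) hn (by rw [ea, ea']; exact e)
      (fun τ => ((dict (N := N) hS').1 _).2 (hT.mem τ τ.2))
      (fun τ τ' hh => Subtype.ext (hT.inj τ τ.2 τ' τ'.2 ((d1 _).1 (by rwa [map_sub]))))
      (fun z hz => by
        rw [hS'.L_eq] at hz
        obtain ⟨y, hy, rfl⟩ := mem_latt.1 hz
        obtain ⟨τ, hτ, hm⟩ := hT.surj y ⟨y, hy, rfl⟩
        exact ⟨⟨τ, hτ⟩, by simpa only [map_sub] using (d1 _).2 hm⟩)
      (fun τ => (d2 _).2 (by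
        have := mem_sub (hτ τ τ.2).fix hx.fix
        rwa [← mul_sub, add_sub_cancel_left] at this)) hx.N_ne
      (fun τ => (d3 _).2 (by
        have := mem_sub (hτ τ τ.2).tors hx.tors
        rwa [← mul_sub, add_sub_cancel_left] at this)) (σ x) h1 h2 (ad_lat hS' h).2.2
    refine ⟨m, hm, ?_⟩
    rw [hAL J' u N x S' G' h hS' hG', ← hme, ← Finset.prod_coe_sort T]
    congr 1
    refine Finset.prod_congr rfl fun τ _ => ?_
    rw [hAL J u N _ S G (hτ τ τ.2) hS hG, map_add]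

end Pool.Agent.P.MP_29cb78_nt.F
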