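import Pool.Agent.P.MP_29cb78_nt.F.Iface2

/-! The limit formula for the invariants of a field. -/

namespace Pool.Agent.P.MP_29cb78_nt.F

open E NumberField

theorem klfk_thm (hklf : S_KLF) (hform : S_FORM) (hmk : S_MK) (hrstr : S_RSTR) : S_KLFK := by
  intro k _ _ ρ σ he AL hR J u N x r hA hr
  obtain ⟨a, ha, hn⟩ := (hform k ρ σ he J hA.J_ne).1 x hA.not_mem
  obtain ⟨S, hS, rfl⟩ := hmk k ρ σ he J u a hA.J_ne hA.big ha
  obtain ⟨G, hG⟩ := gh_all S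
  obtain ⟨j, hj, e⟩ := hA.tors
  rw [hR J u N x S G hA hS hG, ← hS.L_eq]
  refine hklf S G _ r _ N hG (hrstr k ρ σ he J u N x S r hA hS hr hn) hA.N_ne ?_
  rw [hS.L_eq]
  exact ⟨j, hj, by simpa using congrArg σ e⟩

end Pool.Agent.P.MP_29cb78_nt.F
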