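import Pool.Agent.P.MP_29cb78_nt.F.Iface2
import Pool.Agent.P.MP_29cb78_nt.E.KMk

/-!
Setups with a given primitive positive form.
-/

namespace Pool.Agent.P.MP_29cb78_nt.F

open E NumberField

namespace Mk

open E.KMk (dt dt_of_im ne_of_dt ind int_mulQ)

/-- A basis of a lattice of rank three. -/
structure Bs (L : AddSubgroup ℂ) (e₀ e₁ e₂ : ℂ) : Prop where
  mem : ∀ z, z ∈ L ↔ ∃ i j k : ℤ, z = i * e₀ + j * e₁ + k * e₂
  ind : ∀ i j k : ℤ, i * e₀ + j * e₁ + k * e₂ = 0 → i = 0 ∧ j = 0 ∧ k = 0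

/-- The data that do not depend on the basis. -/
structure Pr (L : AddSubgroup ℂ) (ε : ℂ) (a : ℂ →+ ℚ) (ρ : ℝ) (N : ℕ) (W : ℂ) : Prop where
  ε_mul : ∀ z, ε * z ∈ L ↔ z ∈ L
  N_ne : N ≠ 0
  N_mul : ∀ z, (ε ^ 2 - 1) * z ∈ L → N * z ∈ L
  ε_im : ε.im ≠ 0
  ρ_gt : 6 < ρ
  norm : ρ * ‖ε‖ ^ 2 = 1
  irr : Irrational ρ
  int : ∀ b ∈ L, ∃ n : ℤ, a b = n
  one : ∃ b ∈ L, a b = 1
  rat : ∀ u ∈ L, ∀ v ∈ L, (v / u).im = 0 → ∃ c : ℚ, v / u = c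
  diff : ∀ b ∈ L, (a b : ℝ) - ρ * a (b / ε) = (W * b).re

variable {L : AddSubgroup ℂ} {ε W e₀ e₁ e₂ γ β : ℂ} {a : ℂ →+ ℚ} {ρ : ℝ} {N : ℕ}

lemma Bs.m₀ (h : Bs L e₀ e₁ e₂) : e₀ ∈ L := (h.mem _).2 ⟨1, 0, 0, by simp⟩

lemma Bs.m₁ (h : Bs L e₀ e₁ e₂) : e₁ ∈ L := (h.mem _).2 ⟨0, 1, 0, by simp⟩

lemma Bs.m₂ (h : Bs L e₀ e₁ e₂) : e₂ ∈ L := (h.mem _).2 ⟨0, 0, 1, by simp⟩

lemma Bs.rot (h : Bs L e₀ e₁ e₂) : Bs L e₂ e₀ e₁ where
  mem z := by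
    rw [h.mem]
    exact ⟨fun ⟨i, j, k, e⟩ => ⟨k, i, j, by rw [e]; ring⟩,
      fun ⟨i, j, k, e⟩ => ⟨j, k, i, by rw [e]; ring⟩⟩
  ind i j k e := by
    obtain ⟨h1, h2, h3⟩ := h.ind j k i (by rw [← e]; ring)
    exact ⟨h3, h1, h2⟩

lemma Bs.shift (h : Bs L e₀ e₁ e₂) (m n : ℤ) : Bs L (e₀ + m * e₁ + n * e₂) e₁ e₂ where
  mem z := by
    rw [h.mem]
    exact ⟨fun ⟨i, j, k, e⟩ => ⟨i, j - i * m, k - i * n, by rw [e]; push_cast; ring⟩,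
      fun ⟨i, j, k, e⟩ => ⟨i, j + i * m, k + i * n, by rw [e]; push_cast; ring⟩⟩
  ind i j k e := by
    obtain ⟨h1, h2, h3⟩ := h.ind i (j + i * m) (k + i * n) (by rw [← e]; push_cast; ring)
    subst h1
    exact ⟨rfl, by simpa using h2, by simpa using h3⟩

lemma Bs.chg (h : Bs L e₀ e₁ e₂) {A B C D : ℤ} (hd : (A * D - B * C) * (A * D - B * C) = 1)
    (h3 : γ = A * e₁ + B * e₂) (h4 : β = C * e₁ + D * e₂) : Bs L e₀ γ β where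
  mem z := by
    have hC : ((A : ℂ) * D - B * C) * (A * D - B * C) = 1 := by exact_mod_cast hd
    rw [h.mem, h3, h4]
    refine ⟨fun ⟨i, j, k, e⟩ => ⟨i, (A * D - B * C) * (j * D - k * C),
      (A * D - B * C) * (k * A - j * B), ?_⟩,
      fun ⟨i, j, k, e⟩ => ⟨i, j * A + k * C, j * B + k * D, by rw [e]; push_cast; ring⟩⟩
    rw [e]
    push_cast
    linear_combination -(j * e₁ + k * e₂) * hC
  ind i j k e := by
    obtain ⟨h0, h1, h2⟩ := h.ind i (j * A + k * C) (j * B + k * D)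
      (by rw [← e, h3, h4]; push_cast; ring)
    exact ⟨h0, by linear_combination -j * hd + (A * D - B * C) * (D * h1 - C * h2),
      by linear_combination -k * hd + (A * D - B * C) * (A * h2 - B * h1)⟩

lemma two (p q : ℤ) : ∃ g p' q' u u' : ℤ, 0 ≤ g ∧ p = g * p' ∧ q = g * q' ∧
    u * p' + u' * q' = 1 := by
  obtain ⟨p', q', h1, h2, h3⟩ := extract_gcd p q
  obtain ⟨u, u', h4⟩ := (gcd_isUnit_iff p' q').1 h3
  exact ⟨gcd p q, p', q', u, u', by rw [← Int.coe_gcd]; positivity, h1, h2, h4⟩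

/-- Adapting the last two vectors to a form with integral values. -/
lemma Bs.red (h : Bs L e₀ e₁ e₂) (f : ℂ →+ ℚ) {p q : ℤ} (hp : f e₁ = p) (hq : f e₂ = q) :
    ∃ (γ β : ℂ) (g : ℤ), Bs L e₀ γ β ∧ 0 ≤ g ∧ f γ = 0 ∧ f β = g ∧
      ∀ f' : ℂ →+ ℚ, f' e₁ = 0 → f' e₂ = 0 → f' γ = 0 ∧ f' β = 0 := by
  obtain ⟨g, p', q', u, u', hg, h1, h2, h3⟩ := two p q
  have h3' : (u : ℚ) * p' + u' * q' = 1 := by exact_mod_cast h3
  refine ⟨_, _, g, h.chg (A := q') (B := -p') (C := u) (D := u') ?_ rfl rfl, hg, ?_, ?_,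
    fun f' k1 k2 => ?_⟩
  · linear_combination (u * p' + u' * q' + 1) * h3
  · rw [map_add, int_mulQ, int_mulQ, hp, hq, h1, h2]
    push_cast
    ring
  · rw [map_add, int_mulQ, int_mulQ, hp, hq, h1, h2]
    push_cast
    linear_combination g * h3'
  · simp only [map_add, int_mulQ, k1, k2, mul_zero, add_zero, and_self]

lemma Pr.ε_ne (P : Pr L ε a ρ N W) : ε ≠ 0 := fun h => P.ε_im (by rw [h]; rfl)

lemma Pr.div_mem (P : Pr L ε a ρ N W) {b : ℂ} (hb : b ∈ L) : b / ε ∈ L := by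
  rw [← P.ε_mul, mul_div_cancel₀ _ P.ε_ne]
  exact hb

lemma Pr.det (P : Pr L ε a ρ N W) (h : Bs L e₀ e₁ e₂) : dt e₁ e₂ ≠ 0 := by
  refine dt_of_im fun h0 => ?_
  obtain ⟨c, hc⟩ := P.rat _ h.m₁ _ h.m₂ h0
  have h1 : e₁ ≠ 0 := fun h1 => one_ne_zero (h.ind 0 1 0 (by simp [h1])).2.1
  have h2 : (c.den : ℂ) ≠ 0 := by exact_mod_cast c.den_nz
  rw [Rat.cast_def, div_eq_div_iff h1 h2] at hc
  have h3 := (h.ind 0 (-c.num) c.den (by push_cast; linear_combination hc)).2.2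
  exact c.den_nz (by exact_mod_cast h3)

lemma Pr.W_ne (P : Pr L ε a ρ N W) : W ≠ 0 := by
  intro h0
  obtain ⟨b, hb, h1⟩ := P.one
  have h2 := P.diff b hb
  rw [h0, h1, zero_mul, Complex.zero_re] at h2
  refine P.irr ⟨(a (b / ε))⁻¹, ?_⟩
  push_cast at h2 ⊢
  exact (eq_inv_of_mul_eq_one_left (by linarith)).symm

lemma par {n₀ n₁ n₂ i j k : ℤ} (h : i * n₀ + j * n₁ + k * n₂ = 1) :
    ∃ m n t : ℤ, n₀ + m * n₁ + n * n₂ = 2 * t + 1 := by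
  obtain ⟨t₀, rfl | rfl⟩ := Int.even_or_odd' n₀
  · obtain ⟨t₁, rfl | rfl⟩ := Int.even_or_odd' n₁
    · obtain ⟨t₂, rfl | rfl⟩ := Int.even_or_odd' n₂
      · have : 2 * (i * t₀ + j * t₁ + k * t₂) = 1 := by linear_combination h
        omega
      · exact ⟨0, 1, t₀ + t₂, by ring⟩
    · exact ⟨1, 0, t₀ + t₁, by ring⟩
  · exact ⟨0, 0, t₀, by ring⟩

lemma fin (P : Pr L ε a ρ N W) (h : Bs L e₀ γ β) (a₀ : a e₀ = 1) (a₁ : a γ = 0) (a₂ : a β = 0)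
    {s : ℕ} (hs : 0 < s) (hγ : a (γ / ε) = 0) (hβ : a (β / ε) = -s) (hk : (W * γ).im < 0)
    (ho : ∃ k : ℤ, a (ε * e₀) = 2 * k + 1) : ∃ S : Setup, S.L = L ∧ S.ε = ε ∧ S.a = a := by
  have hγ0 : γ ≠ 0 := ne_of_dt (P.det h)
  have hre : (W * γ).re = 0 := by
    rw [← P.diff _ h.m₁, a₁, hγ]
    simp
  obtain ⟨κ, hκ⟩ : ∃ κ : ℝ, κ = -(W * γ).im := ⟨_, rfl⟩
  have hκ0 : 0 < κ := by rw [hκ]; linarith
  have key : ∀ b : ℂ, (W * b).re = κ * (b / γ).im := fun b => by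
    rw [show W * b = W * γ * (b / γ) by field_simp, Complex.mul_re, hre, hκ]
    ring
  have hsR : (0 : ℝ) < s := by exact_mod_cast hs
  have hρ := P.ρ_gt
  have k0 : κ * (e₀ / γ).im = 1 - ρ * a (e₀ / ε) := by
    rw [← key, ← P.diff _ h.m₀, a₀]
    simp
  have k2 : κ * (β / γ).im = ρ * s := by
    rw [← key, ← P.diff _ h.m₂, a₂, hβ]
    simp
  have e2 : (β / (s * γ)).im = ρ / κ := by
    rw [show β / (s * γ) = (((s : ℝ)⁻¹ : ℝ) : ℂ) * (β / γ) by push_cast; field_simp,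
      Complex.im_ofReal_mul]
    field_simp
    linarith
  have e0 : (e₀ / γ + a (e₀ / ε) * (β / (s * γ))).im = 1 / κ := by
    rw [Complex.add_im, show ((a (e₀ / ε) : ℚ) : ℂ) = (((a (e₀ / ε) : ℚ) : ℝ) : ℂ) by simp,
      Complex.im_ofReal_mul, e2]
    field_simp
    linarith
  exact ⟨{ L := L, a := a, ε := ε, lam := e₀, γ := γ, β := β, s := s, N := N
           mem_L := h.mem, a_lam := a₀, a_γ := a₁, a_β := a₂, ε_mul := P.ε_mul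
           a_γε := hγ, a_βε := hβ, s_pos := hs
           hp_pos := by rw [e0]; positivity
           hp_lt := by
             rw [e0, e2, ← mul_div_assoc]
             exact div_lt_div_of_pos_right (by linarith) hκ0
           odd := ho, N_ne := P.N_ne, N_mul := P.N_mul, ε_im := P.ε_im
           ε_norm := by
             by_contra h
             have h2 : 1 ≤ ‖ε‖ ^ 2 := one_le_pow₀ (not_lt.1 h)
             nlinarith [P.norm] }, rfl, rfl, rfl⟩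

lemma fin' (P : Pr L ε a ρ N W) (h : Bs L e₀ γ β) (a₀ : a e₀ = 1) (a₁ : a γ = 0) (a₂ : a β = 0)
    {s : ℕ} (hs : 0 < s) (hγ : a (γ / ε) = 0) (hβ : a (β / ε) = -s) (hk : (W * γ).im < 0) :
    ∃ S : Setup, S.L = L ∧ S.ε = ε ∧ S.a = a := by
  obtain ⟨n₀, h₀⟩ := P.int _ ((P.ε_mul _).2 h.m₀)
  obtain ⟨n₁, h₁⟩ := P.int _ ((P.ε_mul _).2 h.m₁)
  obtain ⟨n₂, h₂⟩ := P.int _ ((P.ε_mul _).2 h.m₂)
  obtain ⟨i, j, k, e⟩ := (h.mem _).1 (P.div_mem h.m₀)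
  have e' : e₀ = i * (ε * e₀) + j * (ε * γ) + k * (ε * β) := by
    rw [div_eq_iff P.ε_ne] at e
    linear_combination e
  have e1 : i * n₀ + j * n₁ + k * n₂ = 1 := by
    rw [e', map_add, map_add, int_mulQ, int_mulQ, int_mulQ, h₀, h₁, h₂] at a₀
    exact_mod_cast a₀
  obtain ⟨m, n, t, ht⟩ := par e1
  refine fin P (h.shift m n) ?_ a₁ a₂ hs hγ hβ hk ⟨t, ?_⟩
  · rw [map_add, map_add, int_mulQ, int_mulQ, a₀, a₁, a₂]
    ring
  · rw [show ε * (e₀ + m * γ + n * β) = ε * e₀ + m * (ε * γ) + n * (ε * β) by ring, map_add,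
      map_add, int_mulQ, int_mulQ, h₀, h₁, h₂]
    exact_mod_cast ht

lemma step (P : Pr L ε a ρ N W) (h : Bs L e₀ e₁ e₂) (a₀ : a e₀ = 1) (a₁ : a e₁ = 0)
    (a₂ : a e₂ = 0) : ∃ S : Setup, S.L = L ∧ S.ε = ε ∧ S.a = a := by
  obtain ⟨p, hp⟩ := P.int _ (P.div_mem h.m₁)
  obtain ⟨q, hq⟩ := P.int _ (P.div_mem h.m₂)
  obtain ⟨γ, β, g, h', hg, hγ, hβ, hf⟩ :=
    h.red (a.comp (AddMonoidHom.mk' (fun z => z / ε) fun x y => add_div x y ε)) hp hq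
  obtain ⟨b₁, b₂⟩ := hf a a₁ a₂
  replace hγ : a (γ / ε) = 0 := hγ
  replace hβ : a (β / ε) = g := hβ
  lift g to ℕ using hg
  have hre : (W * γ).re = 0 := by
    rw [← P.diff _ h'.m₁, b₁, hγ]
    simp
  have hs : 0 < g := Nat.pos_of_ne_zero fun h0 => by
    refine P.W_ne (ind (P.det h') hre ?_)
    rw [← P.diff _ h'.m₂, b₂, hβ, h0]
    simp
  have n₂ : a (-β) = 0 := by rw [map_neg, b₂, neg_zero]
  have n₃ : a (-β / ε) = -(g : ℚ) := by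
    rw [neg_div, map_neg, hβ]
    simp
  rcases lt_trichotomy (W * γ).im 0 with hk | hk | hk
  · exact fin' P (h'.chg (A := 1) (B := 0) (C := 0) (D := -1) (by simp) (by simp) (by simp))
      a₀ b₁ n₂ hs hγ n₃ hk
  · exact absurd (Complex.ext hre hk) (mul_ne_zero P.W_ne (ne_of_dt (P.det h')))
  · refine fin' P (h'.chg (γ := -γ) (A := -1) (B := 0) (C := 0) (D := -1) (by simp) (by simp)
      (by simp)) a₀ (by rw [map_neg, b₁, neg_zero]) n₂ hs ?_ n₃ ?_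
    · rw [neg_div, map_neg, hγ, neg_zero]
    · rw [mul_neg, Complex.neg_im]
      linarith

lemma main (P : Pr L ε a ρ N W) (h : Bs L e₀ e₁ e₂) :
    ∃ S : Setup, S.L = L ∧ S.ε = ε ∧ S.a = a := by
  obtain ⟨n₀, h₀⟩ := P.int _ h.m₀
  obtain ⟨n₁, h₁⟩ := P.int _ h.m₁
  obtain ⟨n₂, h₂⟩ := P.int _ h.m₂
  obtain ⟨γ₁, β₁, g₁, k₁, -, c₁, d₁, -⟩ := h.red a h₁ h₂
  obtain ⟨γ₂, β₂, g₂, k₂, hg, c₂, d₂, -⟩ := k₁.rot.rot.red a d₁ h₀
  refine step P k₂.rot ?_ c₁ c₂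
  obtain ⟨b, hb, h1⟩ := P.one
  obtain ⟨i, j, k, rfl⟩ := (k₂.mem b).1 hb
  rw [map_add, map_add, int_mulQ, int_mulQ, int_mulQ, c₁, c₂, d₂] at h1
  have h2 : g₂ * k = 1 := by
    have : (g₂ : ℚ) * k = 1 := by linear_combination h1
    exact_mod_cast this
  rw [d₂, Int.eq_one_of_mul_eq_one_right hg h2, Int.cast_one]

theorem basis {k : Type} [Field k] [NumberField k] (h3 : Module.finrank ℚ k = 3) (σ : k →+* ℂ)
    {J : Ideal (𝓞 k)} (hJ : J ≠ ⊥) : ∃ e₀ e₁ e₂, Bs (latt σ J) e₀ e₁ e₂ := by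
  let bJ := Ideal.selfBasis
    (Module.finBasisOfFinrankEq ℤ (𝓞 k) ((RingOfIntegers.rank k).trans h3)) J hJ
  let f : J →+ ℂ := (σ.comp (algebraMap (𝓞 k) k)).toAddMonoidHom.comp J.toAddSubgroup.subtype
  have hf : Function.Injective f :=
    σ.injective.comp (RingOfIntegers.coe_injective.comp Subtype.val_injective)
  have hc : ∀ i j l : ℤ, f (i • bJ 0 + j • bJ 1 + l • bJ 2) =
      i * f (bJ 0) + j * f (bJ 1) + l * f (bJ 2) := fun i j l => by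
    simp only [map_add, map_zsmul, zsmul_eq_mul]
  refine ⟨f (bJ 0), f (bJ 1), f (bJ 2), fun z => ⟨fun ⟨y, hy, e⟩ => ?_, ?_⟩, fun i j l e => ?_⟩
  · refine ⟨bJ.repr ⟨y, hy⟩ 0, bJ.repr ⟨y, hy⟩ 1, bJ.repr ⟨y, hy⟩ 2, ?_⟩
    rw [← hc, ← Fin.sum_univ_three fun i => bJ.repr ⟨y, hy⟩ i • bJ i, bJ.sum_repr]
    exact e.symm
  · rintro ⟨i, j, l, rfl⟩
    rw [← hc]
    exact ⟨_, (i • bJ 0 + j • bJ 1 + l • bJ 2).2, rfl⟩
  · rw [← hc, ← map_zero f] at e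
    have h1 := Fintype.linearIndependent_iff.1 bJ.linearIndependent ![i, j, l]
      (by rw [Fin.sum_univ_three]; exact hf e)
    exact ⟨h1 0, h1 1, h1 2⟩

end Mk

theorem mk_thm : S_MK := by
  intro k _ _ ρ σ hE J u a hJ hρ hP
  obtain ⟨α, w, hα, hw⟩ := hP.pos
  obtain ⟨e₀, e₁, e₂, hb⟩ := Mk.basis hE.rank σ hJ
  have hm : ∀ {z}, z ∈ latt σ J ↔ ∃ j ∈ J, σ (j : 𝓞 k) = z := Iff.rfl
  have hn : ρ (u : 𝓞 k) * ‖σ (u : 𝓞 k)‖ ^ 2 = 1 := by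
    have h1 := congrArg (fun q : ℚ => (q : ℝ)) (Units.norm k u)
    simp only [Rat.cast_abs, Rat.cast_one, hE.norm] at h1
    rwa [abs_of_nonneg (mul_nonneg (by linarith) (sq_nonneg _))] at h1
  have him : (σ (u : 𝓞 k)).im ≠ 0 := fun h => by
    obtain ⟨c, hc⟩ := hE.rat _ h
    rw [hc, map_ratCast] at hρ hn
    rw [map_ratCast, Complex.norm_ratCast, sq_abs] at hn
    nlinarith
  have hui : σ ((u⁻¹ : (𝓞 k)ˣ) : 𝓞 k) * σ (u : 𝓞 k) = 1 := by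
    simpa only [map_mul, map_one] using congrArg (fun x : 𝓞 k => σ (algebraMap _ k x)) u.inv_mul
  have hur : ρ ((u⁻¹ : (𝓞 k)ˣ) : 𝓞 k) * ρ (u : 𝓞 k) = 1 := by
    simpa only [map_mul, map_one] using congrArg (fun x : 𝓞 k => ρ (algebraMap _ k x)) u.inv_mul
  obtain ⟨η', hη'⟩ := Ideal.mem_span_singleton'.1
    (Ideal.absNorm_mem (Ideal.span {(u : 𝓞 k) ^ 2 - 1}))
  have P : Mk.Pr (latt σ J) (σ (u : 𝓞 k)) a (ρ (u : 𝓞 k))
      (Ideal.absNorm (Ideal.span {(u : 𝓞 k) ^ 2 - 1}))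
      (w * (1 - ρ (u : 𝓞 k) * σ ((u⁻¹ : (𝓞 k)ˣ) : 𝓞 k))) := by
    refine ⟨fun z => ⟨fun ⟨j, h, h'⟩ => ?_, ?_⟩, ?_, fun z ⟨j, h, h'⟩ => ?_, him, hρ, hn,
      fun ⟨c, hc⟩ => him ?_, ?_, ?_, ?_, ?_⟩
    · refine hm.2 ⟨_, J.mul_mem_left (u⁻¹ : (𝓞 k)ˣ) h, ?_⟩
      replace h' : σ j = _ := h'
      rw [← one_mul z, ← hui, mul_assoc, ← h']
      simp
    · rintro ⟨j, h, rfl⟩
      exact hm.2 ⟨_, J.mul_mem_left u h, by simp⟩
    · rw [Ne, Ideal.absNorm_eq_zero_iff, Ideal.span_singleton_eq_bot]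
      intro h
      have : ρ (u : 𝓞 k) ^ 2 - 1 = 0 := by simpa using congrArg (fun x : 𝓞 k => ρ x) h
      nlinarith
    · refine hm.2 ⟨_, J.mul_mem_left η' h, ?_⟩
      replace h' : σ j = _ := h'
      have := congrArg (fun x : 𝓞 k => σ (algebraMap _ k x)) hη'
      simp only [map_mul, map_sub, map_pow, map_one, map_natCast] at this
      rw [← this, mul_assoc, ← h']
      simp
    · rw [ρ.injective (hc.symm.trans (map_ratCast ρ c).symm)]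
      simp
    · rintro _ ⟨j, h, rfl⟩
      exact hP.int j h
    · obtain ⟨j, h, h'⟩ := hP.one
      exact ⟨_, hm.2 ⟨j, h, rfl⟩, h'⟩
    · intro x hx y hy h
      obtain ⟨x, -, rfl⟩ := hm.1 hx
      obtain ⟨y, -, rfl⟩ := hm.1 hy
      rw [← map_div₀] at h ⊢
      obtain ⟨c, hc⟩ := hE.rat _ h
      exact ⟨c, by rw [hc, map_ratCast]⟩
    · intro b hb
      obtain ⟨j, h, rfl⟩ := hm.1 hb
      have h2 := hw _ (J.mul_mem_left (u⁻¹ : (𝓞 k)ˣ) h)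
      have e : σ (j : 𝓞 k) / σ (u : 𝓞 k) = σ ((u⁻¹ : (𝓞 k)ˣ) : 𝓞 k) * σ (j : 𝓞 k) := by
        rw [eq_inv_of_mul_eq_one_left hui, div_eq_inv_mul]
      simp only [RingOfIntegers.coe_eq_algebraMap, map_mul] at h2 hur e hw ⊢
      rw [e, h2, hw j h, show ∀ x y z : ℂ, ∀ t : ℝ, x * (1 - t * y) * z = x * z - t * (x * (y * z))
        from fun _ _ _ _ => by ring, Complex.sub_re, Complex.re_ofReal_mul]
      linear_combination -α * ρ (algebraMap _ k j) * hur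
  obtain ⟨S, h1, h2, h3⟩ := Mk.main P hb
  exact ⟨S, ⟨h1, h2, α, w, hα, by rw [h3]; exact hw⟩, h3⟩

end Pool.Agent.P.MP_29cb78_nt.F
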