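import Pool.Agent.P.MP_29cb78_nt.F.Iface2

/-!
The invariants do not depend on the setup.
-/

namespace Pool.Agent.P.MP_29cb78_nt.F

open E NumberField
open scoped Classical

namespace Inv0

variable {k : Type} [Field k] {ρ : k →+* ℝ} {σ : k →+* ℂ}

theorem mem_latt {J : Ideal (𝓞 k)} {z : ℂ} : z ∈ latt σ J ↔ ∃ y ∈ J, σ (y : 𝓞 k) = z := Iff.rfl

theorem sig_mem {J : Ideal (𝓞 k)} {x : k} : σ x ∈ latt σ J ↔ Mem J x :=
  ⟨fun ⟨y, hy, e⟩ => ⟨y, hy, σ.injective e⟩, fun ⟨y, hy, e⟩ => ⟨y, hy, congrArg σ e⟩⟩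

theorem mem_add {J : Ideal (𝓞 k)} {x y : k} (hx : Mem J x) (hy : Mem J y) : Mem J (x + y) := by
  obtain ⟨a, ha, rfl⟩ := hx
  obtain ⟨b, hb, rfl⟩ := hy
  exact ⟨a + b, J.add_mem ha hb, by simp⟩

theorem mem_mul {J : Ideal (𝓞 k)} {x : k} (c : 𝓞 k) (hx : Mem J x) : Mem J (c * x) := by
  obtain ⟨a, ha, rfl⟩ := hx
  exact ⟨c * a, J.mul_mem_left c ha, by simp⟩

theorem mem_neg {J : Ideal (𝓞 k)} {x : k} (hx : Mem J x) : Mem J (-x) := by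
  simpa using mem_mul (-1) hx

theorem mem_sub {J : Ideal (𝓞 k)} {x y : k} (hx : Mem J x) (hy : Mem J y) : Mem J (x - y) := by
  rw [sub_eq_add_neg]
  exact mem_add hx (mem_neg hy)

theorem mem_mono {J J' : Ideal (𝓞 k)} (h : J ≤ J') {x : k} (hx : Mem J x) : Mem J' x := by
  obtain ⟨a, ha, rfl⟩ := hx
  exact ⟨a, h ha, rfl⟩

theorem node_not_mem {L : AddSubgroup ℂ} {N : ℕ} {v : ℂ} (hN : N * v ∈ L) (hv : v ∉ L)
    (j : Fin 4) : (tt N j : ℂ) * v ∉ L ∧ ((-tt N j : ℤ) : ℂ) * v ∉ L := by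
  have h : (tt N j : ℂ) * v ∉ L := fun h => hv (by
    have h2 := L.sub_mem h (L.nsmul_mem hN j)
    have e : (tt N j : ℂ) * v - (j : ℕ) • ((N : ℂ) * v) = v := by
      simp only [tt, nsmul_eq_mul]
      push_cast
      ring
    rwa [e] at h2)
  refine ⟨h, fun h' => h ?_⟩
  have := L.neg_mem h'
  simpa using this

theorem ff_eq (hff : S_FF) {L : AddSubgroup ℂ} {N : ℕ} {v : ℂ} (hN : N * v ∈ L) (hv : v ∉ L)
    {f g P : ℤ → ℂ} (hP : Cub1 P) (h : ∀ t : ℤ, t * v ∉ L → f t = Complex.exp (P t) * g t) :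
    FF N f = FF N g := by
  rw [hff.2.1 N f (fun t => Complex.exp (P t) * g t) fun j =>
    ⟨h _ (node_not_mem hN hv j).1, h _ (node_not_mem hN hv j).2⟩, hff.1, hff.2.2.1 N P hP, one_mul]

theorem dict {J : Ideal (𝓞 k)} {u : (𝓞 k)ˣ} {S : Setup} (hS : Fits ρ σ J u S) {N : ℕ} :
    (∀ x : k, σ x ∈ S.L ↔ Mem J x) ∧
    (∀ x : k, (S.ε - 1) * σ x ∈ S.L ↔ Mem J ((((u : 𝓞 k) : k) - 1) * x)) ∧
    ∀ x : k, N * σ x ∈ S.L ↔ Mem J (N * x) := by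
  rw [hS.L_eq, hS.ε_eq]
  refine ⟨fun x => sig_mem, fun x => ?_, fun x => ?_⟩
  · rw [← sig_mem (σ := σ), map_mul, map_sub, map_one]
  · rw [← sig_mem (σ := σ), map_mul, map_natCast]

theorem ad_lat {J : Ideal (𝓞 k)} {u : (𝓞 k)ˣ} {S : Setup} (hS : Fits ρ σ J u S) {N : ℕ} {x : k}
    (h : Ad ρ J u N x) : (S.ε - 1) * σ x ∈ S.L ∧ N * σ x ∈ S.L ∧ σ x ∉ S.L :=
  ⟨((dict (N := N) hS).2.1 x).2 h.fix, ((dict hS).2.2 x).2 h.tors,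
    fun h' => h.not_mem (((dict (N := N) hS).1 x).1 h')⟩

theorem hom_core (hff : S_FF) (hind : S_IND) {J J' : Ideal (𝓞 k)} {u : (𝓞 k)ˣ} {N : ℕ} {x : k}
    (a : 𝓞 k) (ha : 0 < ρ a) (hJ : ∀ y, y ∈ J' ↔ ∃ z ∈ J, a * z = y) {S S' : Setup}
    {G : S.A → ℂ} {G' : S'.A → ℂ} (hS : Fits ρ σ J u S) (hS' : Fits ρ σ J' u S') (hG : S.GH G)
    (hG' : S'.GH G') (h : Ad ρ J u N x) : S'.AL G' N (σ (a * x)) = S.AL G N (σ x) := by
  obtain ⟨h1, h2, h3⟩ := ad_lat hS h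
  have ha0 : σ a ≠ 0 := (map_ne_zero σ).2 fun e => by simp [e] at ha
  have hL : ∀ z, σ a * z ∈ S'.L ↔ z ∈ S.L := fun z => by
    rw [hS.L_eq, hS'.L_eq, mem_latt, mem_latt]
    constructor
    · rintro ⟨y, hy, e⟩
      obtain ⟨w, hw, rfl⟩ := (hJ y).1 hy
      refine ⟨w, hw, mul_left_cancel₀ ha0 ?_⟩
      rw [← e]
      simp
    · rintro ⟨w, hw, rfl⟩
      exact ⟨a * w, (hJ _).2 ⟨w, hw, rfl⟩, by simp⟩
  obtain ⟨α₁, w₁, p₁, e₁⟩ := hS.pos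
  obtain ⟨α₂, w₂, p₂, e₂⟩ := hS'.pos
  obtain ⟨P, hP, hPe⟩ := hind S S' G G' (σ a) hG hG' (hS'.ε_eq.trans hS.ε_eq.symm) ha0 hL
    ⟨α₂ * ρ a / α₁, w₂ * σ a - (α₂ * ρ a / α₁ : ℝ) * w₁, by positivity, fun l hl => by
      rw [hS.L_eq] at hl
      obtain ⟨y, hy, rfl⟩ := mem_latt.1 hl
      have e3 := e₂ (a * y) ((hJ _).2 ⟨y, hy, rfl⟩)
      have e4 : ((a * y : 𝓞 k) : k) = (a : k) * (y : k) := by simp
      rw [e4, map_mul σ, map_mul ρ] at e3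
      rw [e3, e₁ y hy, sub_mul, Complex.sub_re, mul_assoc (_ : ℂ) w₁, Complex.re_ofReal_mul,
        mul_assoc w₂]
      field_simp
      ring⟩ (σ x) h1
  rw [map_mul]
  exact ff_eq hff h2 h3 hP hPe

end Inv0

theorem real_thm (hff : S_FF) (hind : S_IND) : S_REAL := by
  intro k _ _ ρ σ _
  refine ⟨fun J u N x => if h : ∃ p : Σ S : Setup, S.A → ℂ, Fits ρ σ J u p.1 ∧ p.1.GH p.2 then
    h.choose.1.AL h.choose.2 N (σ x) else 0, fun J u N x S G hx hS hG => ?_⟩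
  have h : ∃ p : Σ S : Setup, S.A → ℂ, Fits ρ σ J u p.1 ∧ p.1.GH p.2 := ⟨⟨S, G⟩, hS, hG⟩
  have := Inv0.hom_core hff hind (J' := J) 1 (by simp) (by simp) hS h.choose_spec.1 hG
    h.choose_spec.2 hx
  simp only [dif_pos h]
  simpa using this

end Pool.Agent.P.MP_29cb78_nt.F
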