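import Pool.Agent.P.MP_29cb78_nt.F.Up

/-!
The multiplier of the function of rank two is a character.
-/

namespace Pool.Agent.P.MP_29cb78_nt.F

open scoped Classical

namespace Rper

variable {S : Setup} {G Q : S.A → ℂ} {ω : S.A}

/-- A pair of points that is stable under the transpose. -/
def Pr (x y : S.A) : Prop := (S.Diag x ∧ S.Diag y) ∨ (x ∈ S.V ∧ S.sw x = y)

theorem diag_add {x y : S.A} (hx : S.Diag x) (hy : S.Diag y) : S.Diag (x + y) := by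
  rw [Setup.Diag, map_add, map_add, show S.x₁ x = _ from hx, show S.x₁ y = _ from hy]

theorem diag_neg {x : S.A} (hx : S.Diag x) : S.Diag (-x) := by
  rw [Setup.Diag, map_neg, map_neg, show S.x₁ x = _ from hx]

theorem Pr.add {x y z : S.A} (h : Pr x y) (hz : S.Diag z) : Pr (x + z) (y + z) :=
  h.imp (fun h => ⟨diag_add h.1 hz, diag_add h.2 hz⟩) fun h =>
    ⟨S.V.add_mem h.1 (Up.diag_V hz), by rw [Up.sw_add h.1 (Up.diag_V hz), h.2, Up.sw_diag hz]⟩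

theorem Pr.neg {x y : S.A} (h : Pr x y) : Pr (-x) (-y) :=
  h.imp (fun h => ⟨diag_neg h.1, diag_neg h.2⟩) fun h =>
    ⟨S.V.neg_mem h.1, by rw [Up.sw_neg h.1, h.2]⟩

theorem Pr.tsh (hF : S.FB G) {x y : S.A} (h : Pr x y) (k : ℤ) :
    S.fb G (x + k • (S.p - S.q)) * S.fb G (y + k • (S.p - S.q)) = S.fb G x * S.fb G y := by
  rcases h with ⟨h1, h2⟩ | ⟨h1, rfl⟩
  · rw [hF.tshD _ _ h1, hF.tshD _ _ h2]
  · exact hF.tsh _ _ _ (Up.x₁_sw h1) (Up.x₂_sw h1)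

theorem Pr.per (hQ : S.QD G ω Q) (hω : ω ∈ S.Ω) (hd : S.Diag ω) {x y : S.A} (h : Pr x y) :
    S.fb G (x + ω) * S.fb G (y + ω) =
      Complex.exp (Q (x + S.p)) * Complex.exp (Q (y + S.p)) * (S.fb G x * S.fb G y) := by
  rcases h with ⟨h1, h2⟩ | ⟨h1, rfl⟩
  · rw [Up.fb_per hQ hω fun _ => ⟨h1, hd⟩, Up.fb_per hQ hω fun _ => ⟨h2, hd⟩]
    ring
  · have := Up.UU_Ω hω hQ (by rwa [Up.sw_diag hd]) x h1
    rwa [Setup.UU, Setup.UU, Up.sw_add h1 (Up.diag_V hd), Up.sw_diag hd] at this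

theorem rr (hQ : S.QD G ω Q) (hω : ω ∈ S.Ω) (hd : S.Diag ω) {α₀ α₁ β₀ β₁ y : S.A}
    (hα : Pr α₀ α₁) (hβ : Pr β₀ β₁) (hy : S.Diag y) :
    S.RR G α₀ α₁ β₀ β₁ (y + ω) * Complex.exp (Q (β₀ + y + S.q) + Q (β₁ + y + S.q)) =
      S.RR G α₀ α₁ β₀ β₁ y * Complex.exp (Q (α₀ + y + S.p) + Q (α₁ + y + S.p)) := by
  have h1 := (hα.add hy).per hQ hω hd
  have h2 := (hβ.add (diag_add hy hd)).neg.per hQ hω hd
  have e : ∀ β : S.A, -(β + (y + ω)) + ω = -β - y ∧ -(β + (y + ω)) = -β - (y + ω) ∧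
      S.p + S.q - ω - (-β - (y + ω) + S.p) = β + y + S.q := fun β => ⟨by abel, by abel, by abel⟩
  rw [(e _).1, (e _).1, (e _).2.1, (e _).2.1, hQ.sym, hQ.sym (-β₁ - _ + _), (e _).2.2,
    (e _).2.2] at h2
  simp only [Setup.RR, ← add_assoc _ y ω, Complex.exp_add, h1, mul_assoc (_ * S.fb G (α₁ + y)), h2]
  linear_combination (-(Complex.exp (Q (α₀ + y + S.p)) * Complex.exp (Q (α₁ + y + S.p)) *
    Complex.exp (Q (β₀ + y + S.q)) * Complex.exp (Q (β₁ + y + S.q)) * S.fb G (α₀ + y) *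
    S.fb G (α₁ + y) * S.fb G (-β₀ - (y + ω)) * S.fb G (-β₁ - (y + ω)))) * S.χ_sq ω

theorem rr_T (hF : S.FB G) {α₀ α₁ β₀ β₁ y : S.A} (hα : Pr α₀ α₁) (hβ : Pr β₀ β₁) (hy : S.Diag y)
    (k : ℤ) : S.RR G α₀ α₁ β₀ β₁ (y + k • (S.p - S.q)) = S.RR G α₀ α₁ β₀ β₁ y := by
  have h1 := (hα.add hy).tsh hF k
  have h2 := (hβ.add hy).neg.tsh hF (-k)
  have e : ∀ β : S.A, -(β + y) + -k • (S.p - S.q) = -β - (y + k • (S.p - S.q)) ∧
      -(β + y) = -β - y := fun β => ⟨by module, by abel⟩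
  rw [(e _).1, (e _).1, (e _).2, (e _).2] at h2
  rw [Setup.RR, Setup.RR, ← add_assoc, ← add_assoc, h1, mul_assoc, h2, ← mul_assoc]

end Rper

open Rper in
theorem rper_thm : S_RPER := by
  intro S hT G hG hF α₀ α₁ β₀ β₁ hC ω y z hω hd hy hz
  have hα : Pr α₀ α₁ := hC.sw.imp (fun h => ⟨h.1, h.2.1⟩) fun h => ⟨hC.mem.1, h.1⟩
  have hβ : Pr β₀ β₁ := hC.sw.imp (fun h => h.2.2) fun h => ⟨hC.mem.2.2.1, h.2⟩
  have h0 := S.red_mem hω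
  obtain ⟨d1, d2⟩ := Fb.diag_red hd
  obtain ⟨Q, hQ⟩ := qd_thm S hT G hG _ h0
  rw [d2, ← add_assoc, ← add_assoc, rr_T hF hα hβ (diag_add hy d1), rr_T hF hα hβ (diag_add hz d1)]
  have h1 := rr hQ h0 d1 hα hβ hy
  have h2 := rr hQ h0 d1 hα hβ hz
  have h3 := Up.QT hQ d1 hy
  have h4 := Up.QT hQ d1 hz
  obtain ⟨b, l, c, hb, hf⟩ := hQ.form
  have h5 : Q (α₀ + y + S.p) + Q (α₁ + y + S.p) + (Q (β₀ + z + S.q) + Q (β₁ + z + S.q)) +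
      (Q (y + S.q) + Q (y + S.q) + Q (z + S.p) + Q (z + S.p)) =
      Q (α₀ + z + S.p) + Q (α₁ + z + S.p) + (Q (β₀ + y + S.q) + Q (β₁ + y + S.q)) +
      (Q (y + S.p) + Q (y + S.p) + Q (z + S.q) + Q (z + S.q)) := by
    have e1 := congrArg (b y) hC.sum
    have e2 := congrArg (b z) hC.sum
    simp only [hf, map_add, AddMonoidHom.add_apply, hb α₀ y, hb α₁ y, hb β₀ y, hb β₁ y,
      hb α₀ z, hb α₁ z, hb β₀ z, hb β₁ z, hb S.p y, hb S.q y, hb S.p z, hb S.q z] at e1 e2 ⊢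
    linear_combination 2 * e1 - 2 * e2
  have h6 := congrArg Complex.exp h5
  rw [Complex.exp_add, Complex.exp_add (_ + _ + _) (_ + _ + _), Complex.exp_add (_ + _) (_ + _),
    Complex.exp_add (Q (α₀ + z + _) + _)] at h6
  simp only [Complex.exp_add (Q (y + _) + _ + _), Complex.exp_add (Q (y + _) + _),
    Complex.exp_add (Q (y + _)), h3, h4] at h6
  have h7 := mul_right_cancel₀ (by simp) h6
  apply mul_right_cancel₀ (mul_ne_zero (Complex.exp_ne_zero (Q (β₀ + y + S.q) + Q (β₁ + y + S.q)))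
    (Complex.exp_ne_zero (Q (β₀ + z + S.q) + Q (β₁ + z + S.q))))
  linear_combination (S.RR G α₀ α₁ β₀ β₁ z * Complex.exp (Q (β₀ + z + S.q) + Q (β₁ + z + S.q))) * h1 -
    (S.RR G α₀ α₁ β₀ β₁ y * Complex.exp (Q (β₀ + y + S.q) + Q (β₁ + y + S.q))) * h2 +
    (S.RR G α₀ α₁ β₀ β₁ y * S.RR G α₀ α₁ β₀ β₁ z) * h7

end Pool.Agent.P.MP_29cb78_nt.F
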