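import Pool.Agent.P.MP_29cb78_nt.F.Iface2
import Pool.Agent.P.MP_29cb78_nt.E.KMk

/-!
The real place of a complex cubic field, seen from a fitting setup.
-/

namespace Pool.Agent.P.MP_29cb78_nt.F

open E NumberField

namespace Rstr

variable {k : Type} [Field k] [NumberField k] {ρ : k →+* ℝ} {σ : k →+* ℂ}

theorem unit_norm (hE : Emb ρ σ) (u : (𝓞 k)ˣ) (hu : 0 < ρ (u : 𝓞 k)) :
    ρ (u : 𝓞 k) * ‖σ (u : 𝓞 k)‖ ^ 2 = 1 := by
  have h1 := hE.norm (u : 𝓞 k)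
  rw [← Algebra.coe_norm_int, Rat.cast_intCast] at h1
  have h2 : 0 ≤ ρ (u : 𝓞 k) * ‖σ (u : 𝓞 k)‖ ^ 2 := by positivity
  rcases Int.isUnit_iff.1 (u.isUnit.map (Algebra.norm ℤ)) with h | h
  · rw [← h1, h, Int.cast_one]
  · rw [← h1, h] at h2
    norm_num at h2

theorem a_eq_zero (hE : Emb ρ σ) (S : Setup) {g y : k} (hg : σ g = S.γ)
    (h : (σ y / S.γ).im = 0) : S.a (σ y) = 0 := by
  obtain ⟨c, hc⟩ := hE.rat (y / g) (by rwa [map_div₀, hg])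
  have hg0 : g ≠ 0 := fun h0 => S.γ_ne (by rw [← hg, h0, map_zero])
  rw [div_eq_iff hg0] at hc
  rw [hc, map_mul, map_ratCast, hg, KMk.rat_mulQ, S.a_γ, mul_zero]

end Rstr

open Rstr in
theorem rstr_thm : S_RSTR := by
  intro k _ _ ρ σ hE J u N x S r hA hF hr hx
  have hm : ∀ {z}, z ∈ S.L ↔ ∃ j ∈ J, σ (j : 𝓞 k) = z := by
    intro z
    rw [hF.L_eq]
    exact Iff.rfl
  have hρ := hA.big
  have hb : ∀ b, b - σ x ∈ S.L → ∃ j ∈ J, b = σ (x + (j : 𝓞 k)) := fun b hb => by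
    obtain ⟨j, hj, e⟩ := hm.1 hb
    exact ⟨j, hj, by rw [map_add, e, add_sub_cancel]⟩
  obtain ⟨l, hl, el⟩ := hm.1 S.lam_mem
  obtain ⟨g, hg, eg⟩ := hm.1 S.γ_memL
  obtain ⟨t, ht, et⟩ := hm.1 S.β_memL
  refine ⟨?_, ?_, by linarith, ?_, fun b h => ?_, fun b h h0 => ?_, ?_, fun b h h0 => ?_,
    fun h0 => ?_⟩
  · obtain ⟨j, hj, e⟩ := hA.tors
    obtain ⟨i₀, i₁, i₂, h⟩ := (S.mem_L _).1 (hm.2 ⟨j, hj, rfl⟩)
    rw [e, map_mul, map_natCast] at h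
    have hN : (N : ℂ) ≠ 0 := by exact_mod_cast hA.N_ne
    refine ⟨![i₀ / N, i₁ / N, i₂ / N], mul_left_cancel₀ hN ?_⟩
    rw [h]
    simp only [Matrix.cons_val_zero, Matrix.cons_val_one, Matrix.cons_val]
    push_cast
    field_simp
  · obtain ⟨j, hj, e⟩ := hA.fix
    exact hm.2 ⟨j, hj, by rw [e, hF.ε_eq, map_mul, map_sub, map_one]⟩
  · rw [hF.ε_eq]
    exact unit_norm hE u (by linarith)
  · obtain ⟨j, -, rfl⟩ := hb b h
    rw [hF.ε_eq, ← map_mul, hr, hr, map_mul]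
  · obtain ⟨j, hj, rfl⟩ := hb b h
    rw [hr, map_eq_zero] at h0
    exact hA.not_mem ⟨-j, J.neg_mem hj, by simpa using (eq_neg_of_add_eq_zero_left h0).symm⟩
  · obtain ⟨α, w, hα, hw⟩ := hF.pos
    refine ⟨α, w, hα, fun i => ?_, S.βγ_pos.ne'⟩
    have h0 := hw l hl
    have h1 := hw g hg
    have h2 := hw t ht
    rw [← hr, el, S.a_lam] at h0
    rw [← hr, eg, S.a_γ] at h1
    rw [← hr, et, S.a_β] at h2
    fin_cases i
    · simpa using h0.symm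
    · simpa using h1.symm
    · simpa using h2.symm
  · obtain ⟨j, hj, rfl⟩ := hb b h
    have h1 := a_eq_zero hE S eg h0
    obtain ⟨i, hi⟩ := S.a_exists (hm.2 ⟨j, hj, rfl⟩)
    rw [map_add, map_add, hi] at h1
    exact hx (-i) (by push_cast; linarith)
  · have h1 := a_eq_zero hE S (y := l) eg (by rwa [el])
    rw [el, S.a_lam] at h1
    exact one_ne_zero h1

end Pool.Agent.P.MP_29cb78_nt.F
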