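import Pool.Agent.P.MP_29cb78_nt.F.Iface2

/-! Torsion points of a good prime. -/

namespace Pool.Agent.P.MP_29cb78_nt.F

open E NumberField

namespace Tor

theorem gen {k : Type} [Field k] [NumberField k] {J P : Ideal (𝓞 k)} {p : ℕ} (hJ : J ≠ ⊥)
    (hp : p.Prime) (hP : Ideal.absNorm P = p) :
    ∃ y ∈ J, y ∉ P * J ∧ ∀ z ∈ J, ∃ i : ℤ, z - i * y ∈ P * J := by
  have h1 : (P * J).toAddSubgroup ≤ J.toAddSubgroup := fun x hx => Ideal.mul_le_right hx
  have h2 : (P * J).toAddSubgroup.relIndex J.toAddSubgroup = p := by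
    refine mul_right_cancel₀ (mt Ideal.absNorm_eq_zero_iff.1 hJ) ?_
    rw [← hP, ← map_mul]
    exact AddSubgroup.relIndex_mul_index h1
  obtain ⟨y, h3, h4⟩ := SetLike.not_le_iff_exists.1 fun e =>
    hp.ne_one (h2.symm.trans (AddSubgroup.relIndex_eq_one.2 e))
  refine ⟨y, h3, h4, fun z hz => ?_⟩
  have h5 := AddSubgroup.relIndex_mul_relIndex _ _ _ (le_sup_left (b := AddSubgroup.zmultiples y))
    (sup_le h1 (AddSubgroup.zmultiples_le_of_mem h3))
  rw [h2] at h5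
  have h6 := (hp.eq_one_or_self_of_dvd _ (Dvd.intro _ h5)).resolve_left fun e =>
    h4 (AddSubgroup.relIndex_eq_one.1 e (AddSubgroup.mem_sup_right (AddSubgroup.mem_zmultiples y)))
  rw [h6, mul_right_eq_self₀] at h5
  obtain ⟨a, ha, _, ⟨i, rfl⟩, rfl⟩ := AddSubgroup.mem_sup.1
    (AddSubgroup.relIndex_eq_one.1 (h5.resolve_right hp.ne_zero) hz)
  exact ⟨i, by simpa using ha⟩

end Tor

theorem tor_thm : S_TOR := by
  intro k _ _ ρ σ _ J P u p S hJ hp h5 hP hs hS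
  obtain ⟨y, h1, h2, h3⟩ := Tor.gen hJ hp hP
  set f := σ.comp (algebraMap (𝓞 k) k)
  have hf : Function.Injective f := σ.injective.comp RingOfIntegers.coe_injective
  have hL : ∀ z, z ∈ S.L ↔ ∃ a ∈ P * J, f a = z := fun z => hS.L_eq ▸ Iff.rfl
  have hε : S.ε = f u := hS.ε_eq
  have m1 : (p : 𝓞 k) ∈ P := hs ▸ Ideal.subset_span (by simp)
  have m2 : (u : 𝓞 k) - 1 ∈ P := hs ▸ Ideal.subset_span (by simp)
  have h4 : f y - S.ε * f y ∈ S.L := (hL _).2 ⟨_, neg_mem (Ideal.mul_mem_mul m2 h1), by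
    simp only [hε, map_neg, map_mul, map_sub, map_one]
    ring⟩
  have e1 := Setup.x₁_pt S h4
  refine ⟨y, h1, h2, h3, show S.Tor p (S.pt (f y) (f y)) from
    ⟨hp, h5, e1.trans (Setup.x₂_pt S h4).symm, fun h => ?_, ?_, fun x hx h => ?_⟩⟩
  · obtain ⟨a, ha, e⟩ := (hL _).1 h
    exact h2 (hf (e.trans e1) ▸ ha)
  · exact (hL _).2 ⟨_, Ideal.mul_mem_mul m1 h1, by simp [e1]⟩
  · obtain ⟨a, ha, ea⟩ := (hL _).1 h
    obtain ⟨b, hb, eb⟩ := (hL _).1 (S.diff_mem x)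
    rw [map_nsmul, nsmul_eq_mul] at ea
    have h6 : P * Ideal.span {a} ≤ P * (Ideal.span {(p : 𝓞 k)} * J) := by
      rw [mul_left_comm]
      nth_rw 1 [← hs]
      rw [Ideal.span_mul_span', Ideal.span_le]
      rintro _ ⟨_, rfl | rfl, _, rfl, rfl⟩
      · exact Ideal.mem_span_singleton_mul.2 ⟨_, ha, rfl⟩
      · refine Ideal.mem_span_singleton_mul.2 ⟨_, neg_mem hb, hf ?_⟩
        simp only [map_neg, map_mul, map_sub, map_one, map_natCast, ea, eb, ← hε,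
          show S.x₂ x = S.x₁ x from hx.symm]
        ring
    rw [← Ideal.dvd_iff_le, mul_dvd_mul_iff_left (fun e => hp.ne_zero (by simp [← hP, e])),
      Ideal.dvd_span_singleton] at h6
    obtain ⟨c, hc, rfl⟩ := Ideal.mem_span_singleton_mul.1 h6
    rw [map_mul, map_natCast, mul_right_inj' (Nat.cast_ne_zero.2 hp.ne_zero)] at ea
    obtain ⟨i, hi⟩ := h3 c hc
    exact ⟨i, (hL _).2 ⟨_, hi, by simp [ea, e1]⟩⟩

end Pool.Agent.P.MP_29cb78_nt.F
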