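import Pool.Agent.P.MP_29cb78_nt.F.Iface2

/-!
Invariance of the valuation under the classes that are negated by the unit.
-/

namespace Pool.Agent.P.MP_29cb78_nt.F

open E NumberField
open scoped Classical nonZeroDivisors

noncomputable section

namespace Uinv

variable {k : Type} [Field k]

lemma mem_coe {J : Ideal (𝓞 k)} {y : 𝓞 k} : Mem J (y : k) ↔ y ∈ J :=
  ⟨fun ⟨_, hj, e⟩ => RingOfIntegers.ext e ▸ hj, fun h => ⟨y, h, rfl⟩⟩

lemma mem_add {J : Ideal (𝓞 k)} {x y : k} (hx : Mem J x) (hy : Mem J y) : Mem J (x + y) := by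
  obtain ⟨a, ha, rfl⟩ := hx
  obtain ⟨b, hb, rfl⟩ := hy
  exact ⟨a + b, J.add_mem ha hb, by simp⟩

lemma mem_mul {J : Ideal (𝓞 k)} (c : 𝓞 k) {x : k} (hx : Mem J x) : Mem J (c * x) := by
  obtain ⟨a, ha, rfl⟩ := hx
  exact ⟨c * a, J.mul_mem_left c ha, by simp⟩

lemma mem_of_eq {J : Ideal (𝓞 k)} {x y : k} (hx : Mem J x) (e : x = y) : Mem J y := e ▸ hx

lemma mem_neg {J : Ideal (𝓞 k)} {x : k} (hx : Mem J x) : Mem J (-x) :=
  mem_of_eq (mem_mul (-1) hx) (by simp)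

lemma mem_sub {J : Ideal (𝓞 k)} {x y : k} (hx : Mem J x) (hy : Mem J y) : Mem J (x - y) :=
  mem_of_eq (mem_add hx (mem_neg hy)) (by ring)

lemma mem_int {J : Ideal (𝓞 k)} (c : ℤ) {x : k} (hx : Mem J x) : Mem J (c * x) :=
  mem_of_eq (mem_mul (c : 𝓞 k) hx) (by simp)

lemma mem_mono {J J' : Ideal (𝓞 k)} (h : J ≤ J') {x : k} (hx : Mem J x) : Mem J' x := by
  obtain ⟨a, ha, rfl⟩ := hx
  exact ⟨a, h ha, rfl⟩

lemma mem_pj {P J : Ideal (𝓞 k)} {c : 𝓞 k} (hc : c ∈ P) {x : k} (hx : Mem J x) :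
    Mem (P * J) (c * x) := by
  obtain ⟨a, ha, rfl⟩ := hx
  exact ⟨c * a, Ideal.mul_mem_mul hc ha, by simp⟩

lemma mem_hom {J : Ideal (𝓞 k)} {α : 𝓞 k} (hα : α ≠ 0) {x : k} :
    Mem (Ideal.span {α} * J) (α * x) ↔ Mem J x := by
  refine ⟨fun ⟨j, hj, e⟩ => ?_, mem_pj (Ideal.mem_span_singleton_self α)⟩
  obtain ⟨z, hz, rfl⟩ := Ideal.mem_span_singleton_mul.1 hj
  refine ⟨z, hz, mul_left_cancel₀ (show (α : k) ≠ 0 by simpa using hα) ?_⟩
  simpa using e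

lemma mem_latt (σ : k →+* ℂ) {J : Ideal (𝓞 k)} {x : k} : σ x ∈ latt σ J ↔ Mem J x :=
  ⟨fun ⟨j, hj, e⟩ => ⟨j, hj, σ.injective e⟩, fun ⟨j, hj, e⟩ => ⟨j, hj, by rw [← e]; rfl⟩⟩

lemma exists_pos (ρ : k →+* ℝ) {a : 𝓞 k} (ha : a ≠ 0) :
    ∃ b : 𝓞 k, 0 < ρ b ∧ Ideal.span {b} = Ideal.span {a} := by
  have h : ρ a ≠ 0 := by simpa using ha
  rcases lt_or_gt_of_ne h with h | h
  · exact ⟨-a, by simpa using h, Ideal.span_singleton_neg a⟩
  · exact ⟨a, h, rfl⟩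

/-- The data that stay fixed. -/
structure Ctx (k : Type) [Field k] where
  ρ : k →+* ℝ
  AL : Ideal (𝓞 k) → (𝓞 k)ˣ → ℕ → k → ℂ
  u : (𝓞 k)ˣ
  N : ℕ
  O : ValuationSubring ℂ
  inv : Inv0 ρ AL
  big : 6 < ρ (u : 𝓞 k)
  N_ne : N ≠ 0
  dvd : (u : 𝓞 k) ^ 2 - 1 ∣ (N : 𝓞 k)

namespace Ctx

variable (C : Ctx k)

def D (J : Ideal (𝓞 k)) (w : k) : C.O.ValueGroup :=
  C.O.valuation (if Mem J w then 1 else C.AL J (C.u * C.u) C.N w)

def W (J : Ideal (𝓞 k)) (w : k) : Prop := Mem J ((((C.u : 𝓞 k) : k) ^ 2 - 1) * w)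

variable {C}

lemma W.add {J x y} (hx : C.W J x) (hy : C.W J y) : C.W J (x + y) :=
  mem_of_eq (mem_add hx hy) (by ring)

lemma W.neg {J x} (hx : C.W J x) : C.W J (-x) := mem_of_eq (mem_neg hx) (by ring)

lemma W.of_mem {J x} (hx : Mem J x) : C.W J x :=
  mem_of_eq (mem_mul ((C.u : 𝓞 k) ^ 2 - 1) hx) (by simp)

lemma W.tors {J x} (hx : C.W J x) : Mem J (C.N * x) := by
  obtain ⟨c, hc⟩ := C.dvd
  have := congrArg (fun z : 𝓞 k => (z : k)) hc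
  simp only [map_natCast, map_mul, map_sub, map_pow, map_one] at this
  exact mem_of_eq (mem_mul c hx) (by rw [this]; ring)

lemma W.hom {J x} {α : 𝓞 k} (hα : α ≠ 0) : C.W (Ideal.span {α} * J) (α * x) ↔ C.W J x := by
  unfold W
  rw [mul_left_comm, mem_hom hα]

lemma big2 : 6 < C.ρ ((C.u * C.u : (𝓞 k)ˣ) : 𝓞 k) := by
  have := C.big
  simp only [Units.val_mul, map_mul]
  nlinarith

lemma W.ad {J x} (hJ : J ≠ ⊥) (hx : C.W J x) (h : ¬ Mem J x) : Ad C.ρ J (C.u * C.u) C.N x :=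
  ⟨hJ, big2, C.N_ne, mem_of_eq hx (by simp [sq]), hx.tors, h⟩

lemma D_mem {J x} (h : Mem J x) : C.D J x = 1 := by simp only [D, if_pos h, map_one]

lemma D_not {J x} (h : ¬ Mem J x) : C.D J x = C.O.valuation (C.AL J (C.u * C.u) C.N x) := by
  simp only [D, if_neg h]

lemma D_ne {J x} (hJ : J ≠ ⊥) (hx : C.W J x) : C.D J x ≠ 0 := by
  by_cases h : Mem J x
  · rw [D_mem h]; exact one_ne_zero
  · rw [D_not h]; simpa using C.inv.ne _ _ _ _ (hx.ad hJ h)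

lemma D_per {J x y} (hJ : J ≠ ⊥) (hx : C.W J x) (h : Mem J (y - x)) : C.D J y = C.D J x := by
  by_cases g : Mem J x
  · rw [D_mem g, D_mem (mem_of_eq (mem_add h g) (by ring))]
  · rw [D_not g, D_not fun e => g (mem_of_eq (mem_sub e h) (by ring)),
      C.inv.per _ _ _ _ _ (hx.ad hJ g) h]

lemma D_neg {J x} (hJ : J ≠ ⊥) (hx : C.W J x) : C.D J (-x) = (C.D J x)⁻¹ := by
  by_cases g : Mem J x
  · rw [D_mem g, D_mem (mem_neg g), inv_one]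
  · rw [D_not g, D_not fun e => g (mem_of_eq (mem_neg e) (by ring)),
      C.inv.neg _ _ _ _ (hx.ad hJ g), map_inv₀]

lemma D_hom {J x} {α : 𝓞 k} (hJ : J ≠ ⊥) (hx : C.W J x) (hα : 0 < C.ρ α) :
    C.D (Ideal.span {α} * J) (α * x) = C.D J x := by
  have h0 : α ≠ 0 := by rintro rfl; simp at hα
  by_cases g : Mem J x
  · rw [D_mem g, D_mem ((mem_hom h0).2 g)]
  · rw [D_not g, D_not fun e => g ((mem_hom h0).1 e), C.inv.hom _ _ _ _ _ (hx.ad hJ g) hα]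

lemma D_dist {J J' : Ideal (𝓞 k)} {T : Finset k} {v : k} (hJ : J ≠ ⊥) (hle : J ≤ J')
    (hT : CReps J J' T) (hW : ∀ τ ∈ T, C.W J τ) (hv : C.W J v) :
    ∏ τ ∈ T, C.D J (v + τ) = C.D J' v := by
  have hJ' : J' ≠ ⊥ := fun e => hJ (le_bot_iff.1 (e ▸ hle))
  by_cases g : Mem J' v
  · rw [D_mem g]
    have ex : ∀ τ ∈ T, ∃ τ' ∈ T, Mem J (-(v + τ) - (v + τ')) := fun τ hτ => by
      obtain ⟨τ', h1, h2⟩ := hT.surj _ (mem_sub (mem_neg (mem_add g (hT.mem τ hτ))) g)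
      exact ⟨τ', h1, mem_of_eq h2 (by ring)⟩
    choose e he1 he2 using ex
    have key : ∀ τ hτ, C.D J (v + e τ hτ) = (C.D J (v + τ))⁻¹ := fun τ hτ => by
      rw [← D_neg hJ (hv.add (hW τ hτ)), D_per hJ (hv.add (hW _ (he1 τ hτ))) (he2 τ hτ)]
    refine Finset.prod_involution e (fun τ hτ => ?_) (fun τ hτ h1 h2 => h1 ?_) he1 fun τ hτ => ?_
    · rw [key, mul_inv_cancel₀ (D_ne hJ (hv.add (hW τ hτ)))]
    · have h3 := key τ hτ
      rw [h2] at h3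
      refine (pow_eq_one_iff_of_nonneg zero_le two_ne_zero).1 ?_
      rw [sq]
      nth_rewrite 1 [h3]
      exact inv_mul_cancel₀ (D_ne hJ (hv.add (hW τ hτ)))
    · refine hT.inj _ (he1 _ _) _ hτ ?_
      exact mem_of_eq (mem_sub (he2 τ hτ) (he2 _ (he1 τ hτ))) (by ring)
  · have hn : ∀ τ ∈ T, ¬ Mem J (v + τ) := fun τ hτ e =>
      g (mem_of_eq (mem_sub (mem_mono hle e) (hT.mem τ hτ)) (by ring))
    obtain ⟨n, hn0, e⟩ := C.inv.dist J J' _ _ v T hle hT (W.ad hJ' (mem_mono hle hv) g)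
      fun τ hτ => (hv.add (hW τ hτ)).ad hJ (hn τ hτ)
    have e' := congrArg C.O.valuation e
    rw [map_pow, map_pow, pow_left_inj₀ zero_le zero_le hn0, map_prod] at e'
    rw [D_not g, ← e']
    exact Finset.prod_congr rfl fun τ hτ => D_not (hn τ hτ)

variable (C) in
/-- Admissible triples. -/
structure Adm (J : Ideal (𝓞 k)) (w h : k) : Prop where
  ne : J ≠ ⊥
  hw : C.W J w
  hh : Mem J ((((C.u : 𝓞 k) : k) + 1) * h)
  two : ¬ Mem J (2 * h)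

lemma Adm.wh {J w h} (H : C.Adm J w h) : C.W J h :=
  mem_of_eq (mem_mul ((C.u : 𝓞 k) - 1) H.hh) (by simp; ring)

lemma Adm.neg {J w h} (H : C.Adm J w h) {x} (hx : C.W J x) : C.Adm J x (-h) :=
  ⟨H.ne, hx, mem_of_eq (mem_neg H.hh) (by ring),
    fun e => H.two (mem_of_eq (mem_neg e) (by ring))⟩

lemma finite_vals [NumberField k] (C : Ctx k) :
    {r | ∃ J w, J ≠ ⊥ ∧ C.W J w ∧ r = C.D J w}.Finite := by
  choose J₀ hJ₀ using ClassGroup.mk0_surjective (R := 𝓞 k)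
  have hN : ((C.N : 𝓞 k)) ≠ 0 := Nat.cast_ne_zero.2 C.N_ne
  have hN' : (C.N : k) ≠ 0 := Nat.cast_ne_zero.2 C.N_ne
  have h0 : ∀ c, (J₀ c : Ideal (𝓞 k)) ≠ ⊥ := fun c => nonZeroDivisors.ne_zero (J₀ c).2
  have : ∀ c, Finite (𝓞 k ⧸ Ideal.span {(C.N : 𝓞 k)} * (J₀ c : Ideal (𝓞 k))) := fun c =>
    Ideal.finiteQuotientOfFreeOfNeBot _ (mul_ne_zero (by simpa using C.N_ne) (h0 c))
  refine (Set.finite_iUnion fun c => Set.finite_range
    fun q : 𝓞 k ⧸ Ideal.span {(C.N : 𝓞 k)} * (J₀ c : Ideal (𝓞 k)) =>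
      C.D (J₀ c) ((q.out : 𝓞 k) / C.N)).subset ?_
  rintro _ ⟨J, w, hJ, hw, rfl⟩
  obtain ⟨a, b, ha, hb, e⟩ := ClassGroup.mk0_eq_mk0_iff.1
    (hJ₀ (ClassGroup.mk0 ⟨J, mem_nonZeroDivisors_of_ne_zero hJ⟩))
  set c := ClassGroup.mk0 (⟨J, mem_nonZeroDivisors_of_ne_zero hJ⟩ : (Ideal (𝓞 k))⁰)
  obtain ⟨a', ha', ea⟩ := exists_pos C.ρ ha
  obtain ⟨b', hb', eb⟩ := exists_pos C.ρ hb
  have a0 : a' ≠ 0 := by rintro rfl; simp at ha'
  have b0 : b' ≠ 0 := by rintro rfl; simp at hb'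
  have a1 : (a' : k) ≠ 0 := by simpa using a0
  have e' : Ideal.span {a'} * (J₀ c : Ideal (𝓞 k)) = Ideal.span {b'} * J := by rw [ea, eb]; exact e
  have e1 : (a' : k) * (b' * w / a') = b' * w := mul_div_cancel₀ _ a1
  have hw0 : C.W (J₀ c) (b' * w / a') := by
    rw [← W.hom a0, e', e1, W.hom b0]; exact hw
  obtain ⟨j, -, hj⟩ := hw0.tors
  refine Set.mem_iUnion.2 ⟨c, Ideal.Quotient.mk _ j, ?_⟩
  have h1 : (Ideal.Quotient.mk (Ideal.span {(C.N : 𝓞 k)} * (J₀ c : Ideal (𝓞 k))) j).out - j ∈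
      Ideal.span {(C.N : 𝓞 k)} * (J₀ c : Ideal (𝓞 k)) :=
    Ideal.Quotient.eq.1 (Ideal.Quotient.mk_out _)
  beta_reduce
  rw [D_per (h0 c) hw0, ← D_hom (h0 c) hw0 ha', e', e1, D_hom hJ hw hb']
  rw [← mem_hom hN]
  refine mem_of_eq (mem_coe.2 h1) ?_
  simp only [map_sub, map_natCast]
  rw [mul_sub, mul_div_cancel₀ _ hN', ← hj]

lemma creps {P J : Ideal (𝓞 k)} {p : ℕ} {y : 𝓞 k} (hp : p.Prime) (hpP : (p : 𝓞 k) ∈ P)
    (hy : y ∈ J) (hy' : y ∉ P * J) (hg : ∀ z ∈ J, ∃ i : ℤ, z - i * y ∈ P * J) :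
    (∀ i ∈ Finset.range p, ∀ j ∈ Finset.range p, Mem (P * J) ((i : k) * y - j * y) → i = j) ∧
    CReps (P * J) J ((Finset.range p).image fun j : ℕ => (j : k) * y) := by
  have hpy : Mem (P * J) ((p : k) * y) := mem_of_eq (mem_pj hpP (mem_coe.2 hy)) (by simp)
  have inj : ∀ i ∈ Finset.range p, ∀ j ∈ Finset.range p,
      Mem (P * J) ((i : k) * y - j * y) → i = j := by
    intro i hi j hj h
    rw [Finset.mem_range] at hi hj
    by_contra hij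
    have h1 : ¬ (p : ℤ) ∣ (i : ℤ) - j := fun e => by
      have := Int.eq_zero_of_abs_lt_dvd e (by rw [abs_lt]; constructor <;> omega)
      omega
    obtain ⟨a, b, e⟩ := ((Nat.prime_iff_prime_int.1 hp).irreducible.coprime_iff_not_dvd).2 h1
    have e' : (a : k) * p + b * (i - j) = 1 := by exact_mod_cast congrArg (Int.cast : ℤ → k) e
    exact hy' (mem_coe.1 (mem_of_eq (mem_add (mem_int a hpy) (mem_int b h))
      (by linear_combination (y : k) * e')))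
  refine ⟨inj, fun τ hτ => ?_, fun τ hτ τ' hτ' h => ?_, fun x hx => ?_⟩
  · obtain ⟨j, -, rfl⟩ := Finset.mem_image.1 hτ
    exact mem_of_eq (mem_int j (mem_coe.2 hy)) (by simp)
  · obtain ⟨i, hi, rfl⟩ := Finset.mem_image.1 hτ
    obtain ⟨j, hj, rfl⟩ := Finset.mem_image.1 hτ'
    rw [inj i hi j hj h]
  · obtain ⟨z, hz, rfl⟩ := hx
    obtain ⟨i, hi⟩ := hg z hz
    have hp0 : (0 : ℤ) < p := by exact_mod_cast hp.pos
    obtain ⟨r, hr⟩ := Int.eq_ofNat_of_zero_le (Int.emod_nonneg i hp0.ne')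
    have hlt := Int.emod_lt_of_pos i hp0
    have e : (p : ℤ) * (i / p) + r = i := hr ▸ Int.mul_ediv_add_emod i p
    have e' : (p : k) * (i / p : ℤ) + r = i := by exact_mod_cast congrArg (Int.cast : ℤ → k) e
    refine ⟨r * y, Finset.mem_image.2 ⟨r, Finset.mem_range.2 (by omega), rfl⟩, ?_⟩
    refine mem_of_eq (mem_add (mem_coe.2 hi) (mem_int (i / p) hpy)) ?_
    simp only [map_sub, map_mul, map_intCast]
    linear_combination (y : k) * e'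

end Ctx

end Uinv

open Uinv Uinv.Ctx in
theorem uinv_thm (htop : S_TOP) (haual : S_AUAL) (htor : S_TOR) (hform : S_FORM) (hmk : S_MK) :
    S_UINV := by
  intro k _ _ ρ σ emb AL hR hI u P p N O hu hp h5 hP hsp hO hN hd J₁ w₁ h₁ a1 a2 a3 a4
  let C : Ctx k := ⟨ρ, AL, u, N, O, hI, hu, hN, hd⟩
  have A₁ : C.Adm J₁ w₁ h₁ := ⟨a1, a2, a3, a4⟩
  show C.D J₁ (w₁ + h₁) = C.D J₁ w₁
  have fin : {r | ∃ J w h, C.Adm J w h ∧ r = C.D J (w + h) / C.D J w}.Finite := by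
    refine (Set.Finite.image2 (· / ·) C.finite_vals C.finite_vals).subset ?_
    rintro _ ⟨J, w, h, H, rfl⟩
    exact ⟨_, ⟨J, _, H.ne, H.hw.add H.wh, rfl⟩, _, ⟨J, _, H.ne, H.hw, rfl⟩, rfl⟩
  obtain ⟨Ω, ⟨J₀, w₀, h₀, A₀, e₀⟩, hmax⟩ := Set.exists_max_image _ id fin ⟨_, J₁, w₁, h₁, A₁, rfl⟩
  have hle : ∀ J w h, C.Adm J w h → C.D J (w + h) ≤ Ω * C.D J w := fun J w h H =>
    (div_le_iff₀ (zero_lt_iff.2 (D_ne H.ne H.hw))).1 (hmax _ ⟨J, w, h, H, rfl⟩)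
  rcases le_or_gt Ω 1 with hΩ | hΩ
  · refine le_antisymm ((hle _ _ _ A₁).trans (mul_le_of_le_one_left' hΩ)) ?_
    have := (hle _ _ _ (A₁.neg (A₁.hw.add A₁.wh))).trans (mul_le_of_le_one_left' hΩ)
    rwa [add_neg_cancel_right] at this
  exfalso
  have hpP : (p : 𝓞 k) ∈ P := hsp ▸ Ideal.subset_span (by simp)
  have huP : (u : 𝓞 k) - 1 ∈ P := hsp ▸ Ideal.subset_span (by simp)
  have p0 : (p : 𝓞 k) ≠ 0 := Nat.cast_ne_zero.2 hp.ne_zero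
  have p1 : 0 < ρ (p : 𝓞 k) := by simpa using hp.pos
  obtain ⟨Q, hQ⟩ : P ∣ Ideal.span {(p : 𝓞 k)} :=
    Ideal.dvd_iff_le.2 ((Ideal.span_singleton_le_iff_mem _).2 hpP)
  obtain ⟨J', hJ'⟩ : ∃ J', Ideal.span {(p : 𝓞 k)} * J₀ = P * J' := ⟨Q * J₀, by rw [hQ, mul_assoc]⟩
  obtain ⟨w, hw⟩ : ∃ w, w = ((p : 𝓞 k) : k) * w₀ := ⟨_, rfl⟩
  obtain ⟨h, hh⟩ : ∃ h, h = ((p : 𝓞 k) : k) * h₀ := ⟨_, rfl⟩
  have A : C.Adm (P * J') w h := by
    rw [← hJ', hw, hh]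
    refine ⟨mul_ne_zero (by simpa using hp.ne_zero) A₀.ne, (W.hom p0).2 A₀.hw, ?_, ?_⟩
    · rw [mul_left_comm, mem_hom p0]; exact A₀.hh
    · rw [mul_left_comm, mem_hom p0]; exact A₀.two
  have eΩ : C.D (P * J') (w + h) = Ω * C.D (P * J') w := by
    rw [← hJ', hw, hh, ← mul_add, D_hom A₀.ne A₀.hw p1, D_hom A₀.ne (A₀.hw.add A₀.wh) p1, e₀,
      div_mul_cancel₀ _ (D_ne A₀.ne A₀.hw)]
  have J0 : J' ≠ ⊥ := right_ne_zero_of_mul A.ne
  have hle' : P * J' ≤ J' := Ideal.mul_le_right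
  have A' : C.Adm J' w h := by
    refine ⟨J0, mem_mono hle' A.hw, mem_mono hle' A.hh, fun e => A.two ?_⟩
    obtain ⟨m, hm⟩ := hp.odd_of_ne_two (by omega)
    have hm' : (p : k) = 2 * m + 1 := by exact_mod_cast congrArg (Nat.cast : ℕ → k) hm
    refine mem_of_eq (mem_sub (mem_pj hpP e)
      (mem_int m (mem_sub (mem_int 2 A.hh) (mem_pj huP e)))) ?_
    simp only [map_natCast, map_sub, map_one, Int.cast_natCast, Int.cast_ofNat]
    linear_combination 2 * h * hm'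
  obtain ⟨a, ha, -⟩ := (hform k ρ σ emb _ A.ne).1 _ A.two
  obtain ⟨S, hS, Sa⟩ := hmk k ρ σ emb _ u a A.ne hu ha
  obtain ⟨S', hS', Sa'⟩ := hmk k ρ σ emb _ (u * u) a A.ne C.big2 ha
  obtain ⟨G, hG⟩ := gh_all S
  obtain ⟨G', hG'⟩ := gh_all S'
  have mL : ∀ {x : k}, σ x ∈ S.L ↔ Mem (P * J') x := by
    intro x; rw [hS.L_eq, mem_latt]
  have WV : ∀ x ∈ S.V, ∀ x₁ : k, σ x₁ = S.x₁ x → C.W (P * J') x₁ := by
    intro x hx x₁ e
    refine mL.1 ?_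
    have := S.L.neg_mem (S.L.add_mem (S.diff_mem x) (S.mul_mem (Up.mem_V.1 hx)))
    rw [map_mul, e, map_sub, map_pow, map_one]
    change ((σ (u : 𝓞 k)) ^ 2 - 1) * _ ∈ _
    rw [← hS.ε_eq]
    convert this using 1
    ring
  have exV : ∀ x ∈ S.V, ∃ x₁ : k, σ x₁ = S.x₁ x := by
    intro x hx
    have h1 := S.L.neg_mem (S.L.add_mem (S.diff_mem x) (S.mul_mem (Up.mem_V.1 hx)))
    rw [hS.L_eq] at h1
    obtain ⟨j, -, e⟩ := h1
    have e' : σ j = -(S.x₁ x - S.ε * S.x₂ x + S.ε * (S.x₂ x - S.ε * S.x₁ x)) := e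
    refine ⟨j / ((((u : 𝓞 k) : k) - 1) * (((u : 𝓞 k) : k) + 1)), ?_⟩
    rw [map_div₀, map_mul, map_sub, map_add, map_one, ← hS.ε_eq, e',
      div_eq_iff (mul_ne_zero S.ε_sub_ne S.ε_add_ne)]
    ring
  have latN : ∀ x ∈ S.V, S.Lat (N • x) := by
    intro x hx
    obtain ⟨x₁, e⟩ := exV x hx
    have := mL.2 (WV x hx x₁ e).tors
    rw [map_mul, map_natCast, e] at this
    show S.x₁ (N • x) ∈ S.L
    rwa [map_nsmul, nsmul_eq_mul]
  have key : ∀ x ∈ S.V, ∀ x₁ : k, σ x₁ = S.x₁ x → O.valuation (S.AU G N x) = C.D (P * J') x₁ := by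
    intro x hx x₁ e
    rw [haual S S' G G' N x hG hG' (hS'.L_eq.trans hS.L_eq.symm) (Sa'.trans Sa.symm)
      (by rw [hS'.ε_eq, hS.ε_eq]; simp) hx (latN x hx)]
    have hl : S.Lat x ↔ Mem (P * J') x₁ := by rw [← mL, e]; rfl
    by_cases g : Mem (P * J') x₁
    · rw [if_pos (hl.2 g), D_mem g, map_one]
    · rw [if_neg fun e => g (hl.1 e), D_not g, ← e]
      exact congrArg _ (hR _ _ _ _ S' G' ((WV x hx x₁ e).ad A.ne g) hS' hG').symm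
  obtain ⟨y, hy, hy', hg, hτ⟩ := htor k ρ σ emb J' P u p S J0 hp h5 hP hsp hS
  have my : Mem (P * J') ((((u : 𝓞 k) : k) - 1) * y) :=
    mem_of_eq (mem_pj huP (mem_coe.2 hy)) (by simp)
  have mτ : σ y - S.ε * σ y ∈ S.L := by
    have := mL.2 (mem_neg my)
    rw [map_neg, map_mul, map_sub, map_one, ← hS.ε_eq] at this
    convert this using 1
    ring
  have mw : σ w - S.ε * (S.ε * σ w) ∈ S.L := by
    have := mL.2 (mem_neg A.hw)
    rw [map_neg, map_mul, map_sub, map_pow, map_one] at this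
    rw [hS.ε_eq]
    convert this using 1
    ring
  have mh : σ h - S.ε * -σ h ∈ S.L := by
    have := mL.2 A.hh
    rw [map_mul, map_add, map_one] at this
    rw [hS.ε_eq]
    convert this using 1
    ring
  have Vw : S.pt (σ w) (S.ε * σ w) ∈ S.V := by
    rw [Up.mem_V, S.x₁_pt mw, S.x₂_pt mw, sub_self]; exact S.L.zero_mem
  have Ah : S.Anti (S.pt (σ h) (-σ h)) := by
    show S.x₁ _ = -S.x₂ _
    rw [S.x₁_pt mh, S.x₂_pt mh, neg_neg]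
  have Vh := Up.anti_V Ah
  have Vτ := Up.diag_V hτ.diag
  obtain ⟨inj, hT⟩ := creps hp hpP hy hy' hg
  have dist : ∀ x ∈ S.V, ∀ x₁ : k, σ x₁ = S.x₁ x →
      ∏ j ∈ Finset.range p, O.valuation (S.AU G N (x + j • S.pt (σ y) (σ y))) = C.D J' x₁ := by
    intro x hx x₁ e
    rw [← D_dist A.ne hle' hT ?_ (WV x hx x₁ e), Finset.prod_image]
    · refine Finset.prod_congr rfl fun j _ => key _ (S.V.add_mem hx (S.V.nsmul_mem Vτ j)) _ ?_
      rw [map_add, map_add, map_nsmul, S.x₁_pt mτ, e, map_mul, map_natCast, nsmul_eq_mul]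
    · intro i hi j hj e
      exact inj i hi j hj (mem_of_eq (mem_coe.2 (zero_mem _)) (by simp only [e, sub_self, map_zero]))
    · intro τ hτ
      obtain ⟨j, -, rfl⟩ := Finset.mem_image.1 hτ
      refine mem_of_eq (mem_mul (((u : 𝓞 k) + 1) * (j : 𝓞 k)) my) ?_
      simp only [map_mul, map_add, map_one, map_natCast]
      ring
  have ew : σ w = S.x₁ (S.pt (σ w) (S.ε * σ w)) := (S.x₁_pt mw).symm
  have ewh : σ (w + h) = S.x₁ (S.pt (σ w) (S.ε * σ w) + S.pt (σ h) (-σ h)) := by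
    rw [map_add, map_add, S.x₁_pt mw, S.x₁_pt mh]
  have top := htop S G O p N _ _ _ Ω hG hτ (by simpa using hO _ hpP)
    (by rw [hS.ε_eq]; simpa using hO _ huP) hN latN Vw Ah (fun e => A.two (mL.1 (by
      have e' : S.x₁ (S.pt (σ h) (-σ h) + S.pt (σ h) (-σ h)) ∈ S.L := e
      rwa [map_add, S.x₁_pt mh, ← map_add, ← two_mul] at e'))) (fun x hx => by
      obtain ⟨x₁, e⟩ := exV x hx
      have hx₁ := WV x hx x₁ e
      rw [key x hx x₁ e, key _ (S.V.add_mem hx Vh) (x₁ + h) (by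
        rw [map_add, map_add, S.x₁_pt mh, e]), key _ (S.V.sub_mem hx Vh) (x₁ + -h) (by
        rw [map_add, map_sub, map_neg, S.x₁_pt mh, e, sub_eq_add_neg])]
      exact ⟨hle _ _ _ ⟨A.ne, hx₁, A.hh, A.two⟩, hle _ _ _ (A.neg hx₁)⟩)
    (by rw [key _ Vw w ew, key _ (S.V.add_mem Vw Vh) _ ewh, eΩ]) hΩ
  rw [dist _ Vw w ew, dist _ (S.V.add_mem Vw Vh) _ ewh] at top
  exact absurd (hle _ _ _ A') (not_le.2 top)

end

end Pool.Agent.P.MP_29cb78_nt.F
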