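import Pool.Agent.P.MP_29cb78_nt.F.Iface2

/-!
The invariants are units at good primes.
-/

namespace Pool.Agent.P.MP_29cb78_nt.F

open E NumberField
open scoped Classical

namespace Unitsq

variable {k : Type} [Field k] {J : Ideal (𝓞 k)}

lemma cmul (x y : 𝓞 k) : ((x * y : 𝓞 k) : k) = (x : k) * y := map_mul (algebraMap (𝓞 k) k) x y

lemma csub (x y : 𝓞 k) : ((x - y : 𝓞 k) : k) = (x : k) - y := map_sub (algebraMap (𝓞 k) k) x y

lemma cpow (x : 𝓞 k) (n : ℕ) : ((x ^ n : 𝓞 k) : k) = (x : k) ^ n :=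
  map_pow (algebraMap (𝓞 k) k) x n

lemma mem_zero : Mem J 0 := ⟨0, J.zero_mem, by simp⟩

lemma mem_add {x y : k} (hx : Mem J x) (hy : Mem J y) : Mem J (x + y) := by
  obtain ⟨a, ha, rfl⟩ := hx
  obtain ⟨b, hb, rfl⟩ := hy
  exact ⟨a + b, J.add_mem ha hb, by simp⟩

lemma mem_mul (c : 𝓞 k) {x : k} (hx : Mem J x) : Mem J ((c : k) * x) := by
  obtain ⟨a, ha, rfl⟩ := hx
  exact ⟨c * a, J.mul_mem_left c ha, by simp⟩

lemma mem_neg {x : k} (hx : Mem J x) : Mem J (-x) := by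
  simpa using mem_mul (-1) hx

lemma mem_sub {x y : k} (hx : Mem J x) (hy : Mem J y) : Mem J (x - y) := by
  rw [sub_eq_add_neg]; exact mem_add hx (mem_neg hy)

lemma mem_of_eq {x y : k} (hx : Mem J x) (e : x = y) : Mem J y := e ▸ hx

lemma mem_span_mul {a : 𝓞 k} (ha : a ≠ 0) {x : k} :
    Mem (Ideal.span {a} * J) ((a : k) * x) ↔ Mem J x := by
  constructor
  · rintro ⟨j, hj, e⟩
    obtain ⟨z, hz, rfl⟩ := Ideal.mem_span_singleton_mul.1 hj
    refine ⟨z, hz, mul_left_cancel₀ (show (a : k) ≠ 0 by exact_mod_cast ha) ?_⟩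
    simpa using e
  · rintro ⟨j, hj, rfl⟩
    exact ⟨a * j, Ideal.mem_span_singleton_mul.2 ⟨j, hj, rfl⟩, by simp⟩

variable [NumberField k]

lemma exists_reps {J J' : Ideal (𝓞 k)} (hJ : J ≠ ⊥) : ∃ T, CReps J J' T := by
  have := J.finiteQuotientOfFreeOfNeBot hJ
  have := Fintype.ofFinite (𝓞 k ⧸ J)
  have h : ∀ q : {q : 𝓞 k ⧸ J // ∃ j ∈ J', Ideal.Quotient.mk J j = q},
      ∃ j ∈ J', Ideal.Quotient.mk J j = q.1 := fun q => q.2
  choose f hf1 hf2 using h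
  refine ⟨Finset.univ.image fun q => (f q : k), ?_, ?_, ?_⟩
  · intro τ hτ
    obtain ⟨q, -, rfl⟩ := Finset.mem_image.1 hτ
    exact ⟨_, hf1 q, rfl⟩
  · intro τ hτ τ' hτ' hm
    obtain ⟨q, -, rfl⟩ := Finset.mem_image.1 hτ
    obtain ⟨q', -, rfl⟩ := Finset.mem_image.1 hτ'
    obtain ⟨j, hj, e⟩ := hm
    have e' : j = f q - f q' := by
      apply RingOfIntegers.coe_injective
      simpa using e
    have : q = q' := Subtype.ext (by
      rw [← hf2, ← hf2, Ideal.Quotient.eq, ← e']; exact hj)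
    rw [this]
  · rintro x ⟨j, hj, rfl⟩
    refine ⟨_, Finset.mem_image_of_mem _ (Finset.mem_univ ⟨_, j, hj, rfl⟩), ?_⟩
    refine ⟨j - f ⟨_, j, hj, rfl⟩, ?_, by simp⟩
    rw [← Ideal.Quotient.eq, hf2]

lemma one_le {ρ : k →+* ℝ} {σ : k →+* ℂ} (E : Emb ρ σ) (c : 𝓞 k) (hc : 0 < ρ c) :
    1 ≤ ρ c * ‖σ c‖ ^ 2 := by
  have h0 : (c : k) ≠ 0 := fun e => by simp [e] at hc
  have h1 : 0 < ρ c * ‖σ c‖ ^ 2 := by
    have : σ c ≠ 0 := (map_ne_zero σ).2 h0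
    positivity
  rw [← E.norm, ← Algebra.coe_norm_int] at h1 ⊢
  have : (0 : ℤ) < Algebra.norm ℤ c := by exact_mod_cast h1
  exact_mod_cast this

lemma not_dvd {ρ : k →+* ℝ} {σ : k →+* ℂ} (E : Emb ρ σ) (η : (𝓞 k)ˣ) (h : 36 < ρ (η : 𝓞 k)) :
    ¬ (η : 𝓞 k) + 1 ∣ 2 := by
  rintro ⟨c, hc⟩
  have e0 : (((η : 𝓞 k) : k)) * ((η⁻¹ : (𝓞 k)ˣ) : 𝓞 k) = 1 := by
    rw [← map_mul, Units.mul_inv, map_one]
  have e1 : ρ (η : 𝓞 k) * ρ ((η⁻¹ : (𝓞 k)ˣ) : 𝓞 k) = 1 := by rw [← map_mul, e0, map_one]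
  have e2 : ‖σ (η : 𝓞 k)‖ * ‖σ ((η⁻¹ : (𝓞 k)ˣ) : 𝓞 k)‖ = 1 := by
    rw [← norm_mul, ← map_mul, e0, map_one, norm_one]
  have p1 : 0 < ρ ((η⁻¹ : (𝓞 k)ˣ) : 𝓞 k) := by
    by_contra q
    nlinarith
  have b1 := one_le E _ p1
  have s1 : ‖σ (η : 𝓞 k)‖ ≤ 1 / 6 := by
    by_contra q
    push Not at q
    have t1 : ‖σ ((η⁻¹ : (𝓞 k)ˣ) : 𝓞 k)‖ < 6 := by
      by_contra r
      nlinarith
    have t2 : ρ ((η⁻¹ : (𝓞 k)ˣ) : 𝓞 k) < 1 / 36 := by nlinarith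
    have t3 : ‖σ ((η⁻¹ : (𝓞 k)ˣ) : 𝓞 k)‖ ^ 2 < 36 := by
      nlinarith [norm_nonneg (σ ((η⁻¹ : (𝓞 k)ˣ) : 𝓞 k))]
    nlinarith [sq_nonneg ‖σ ((η⁻¹ : (𝓞 k)ˣ) : 𝓞 k)‖]
  have e3 : (2 : k) = (((η : 𝓞 k) : k) + 1) * c := by
    have := congrArg (algebraMap (𝓞 k) k) hc
    simpa [map_ofNat] using this
  have e4 : (2 : ℝ) = (ρ (η : 𝓞 k) + 1) * ρ c := by
    have := congrArg ρ e3
    simpa [map_ofNat] using this
  have e5 : (2 : ℝ) = ‖σ (η : 𝓞 k) + 1‖ * ‖σ c‖ := by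
    have := congrArg (fun z => ‖σ z‖) e3
    simpa [map_ofNat] using this
  have s2 : 5 / 6 ≤ ‖σ (η : 𝓞 k) + 1‖ := by
    have := norm_sub_le (σ (η : 𝓞 k) + 1) (σ (η : 𝓞 k))
    rw [add_sub_cancel_left, norm_one] at this
    linarith
  have p2 : 0 < ρ c := by
    by_contra q
    nlinarith
  have b2 := one_le E c p2
  have t1 : ‖σ c‖ ≤ 12 / 5 := by nlinarith [norm_nonneg (σ c)]
  have t2 : ρ c < 2 / 37 := by nlinarith
  have t3 : ‖σ c‖ ^ 2 ≤ 144 / 25 := by nlinarith [norm_nonneg (σ c)]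
  nlinarith [sq_nonneg ‖σ c‖]

omit [NumberField k] in
lemma ad_pow {ρ : k →+* ℝ} {AL : Ideal (𝓞 k) → (𝓞 k)ˣ → ℕ → k → ℂ} (hI : Inv0 ρ AL)
    {v : (𝓞 k)ˣ} {N : ℕ} {x : k} (h : Ad ρ J v N x) (m : ℕ) :
    Ad ρ J (v ^ (m + 1)) N x ∧ AL J (v ^ (m + 1)) N x = AL J v N x ^ (m + 1) := by
  induction m with
  | zero => simpa using h
  | succ m ih =>
    refine ⟨⟨h.J_ne, ?_, h.N_ne, ?_, h.tors, h.not_mem⟩, ?_⟩
    · rw [pow_succ, Units.val_mul, cmul, map_mul]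
      nlinarith [ih.1.big, h.big]
    · refine mem_of_eq (mem_add (mem_mul (v : 𝓞 k) ih.1.fix) h.fix) ?_
      rw [pow_succ v (m + 1), Units.val_mul, cmul]
      ring
    · rw [pow_succ, hI.chain J _ _ N x ih.1 h, ih.2, ← pow_succ]

/-- the core argument, for a function with the three formal properties -/
lemma core {Γ : Type} [LinearOrderedCommGroupWithZero Γ] (a b : 𝓞 k) (hb : b ≠ 0) (hJ : J ≠ ⊥)
    (D : k → Γ) (m : ℕ) (hm : 2 ≤ m) (h0 : ∀ w, Mem J (b * w) → D w ≠ 0)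
    (hper : ∀ w w', Mem J (b * w) → Mem J (w' - w) → D w' = D w)
    (hmul : ∀ w, Mem J (b * w) → D (a * w) = D w ^ m) (w : k) (hw : Mem J (b * w)) : D w = 1 := by
  have hi : ∀ i : ℕ, Mem J (b * ((a : k) ^ i * w)) := fun i =>
    mem_of_eq (mem_mul (a ^ i) hw) (by push_cast; ring)
  have hD : ∀ i : ℕ, D ((a : k) ^ i * w) = D w ^ m ^ i := fun i => by
    induction i with
    | zero => simp
    | succ i ih => rw [pow_succ', mul_assoc, hmul _ (hi i), ih, ← pow_mul, pow_succ]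
  have hne : Ideal.span {b} * J ≠ ⊥ := mul_ne_zero (by simpa using hb) hJ
  have := (Ideal.span {b} * J).finiteQuotientOfFreeOfNeBot hne
  obtain ⟨j, hj, ej⟩ := hw
  have key : ∀ i l : ℕ, i < l → Ideal.Quotient.mk (Ideal.span {b} * J) (a ^ i * j) =
      Ideal.Quotient.mk (Ideal.span {b} * J) (a ^ l * j) → D w = 1 := fun i l hil e => by
    have e1 : Mem J ((a : k) ^ i * w - a ^ l * w) := by
      rw [← mem_span_mul hb]
      refine ⟨_, Ideal.Quotient.eq.1 e, ?_⟩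
      rw [csub, cmul, cmul, cpow, cpow, ej]
      ring
    have e2 := hper _ _ (hi l) e1
    rw [hD, hD] at e2
    have hlt : m ^ i < m ^ l := Nat.pow_lt_pow_right (by omega) hil
    obtain ⟨d, hd⟩ := Nat.exists_eq_add_of_lt hlt
    have hw0 := h0 w ⟨j, hj, ej⟩
    rw [hd, add_assoc, pow_add] at e2
    have e3 : D w ^ (d + 1) = 1 ^ (d + 1) := by
      rw [one_pow]
      exact (mul_left_cancel₀ (pow_ne_zero _ hw0) (e2.symm.trans (mul_one _).symm))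
    exact (pow_left_inj₀ zero_le zero_le (Nat.succ_ne_zero d)).1 e3
  obtain ⟨i, l, hil, e⟩ := Finite.exists_ne_map_eq_of_infinite
    fun i : ℕ => Ideal.Quotient.mk (Ideal.span {b} * J) (a ^ i * j)
  rcases lt_or_gt_of_ne hil with q | q
  · exact key i l q e
  · exact key l i q e.symm

lemma main {ρ : k →+* ℝ} {AL : Ideal (𝓞 k) → (𝓞 k)ˣ → ℕ → k → ℂ} (hI : Inv0 ρ AL)
    (η : (𝓞 k)ˣ) (N : ℕ) (O : ValuationSubring ℂ) (hη : 6 < ρ (η : 𝓞 k))
    (h2 : ¬ (η : 𝓞 k) + 1 ∣ 2) (hN : N ≠ 0) (hdv : (η : 𝓞 k) ^ 2 - 1 ∣ (N : 𝓞 k)) (hJ : J ≠ ⊥)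
    (hU : ∀ w h : k, Mem J ((((η : 𝓞 k) : k) ^ 2 - 1) * w) →
      Mem J ((((η : 𝓞 k) : k) + 1) * h) → ¬ Mem J (2 * h) →
      O.valuation (if Mem J (w + h) then 1 else AL J (η * η) N (w + h)) =
        O.valuation (if Mem J w then 1 else AL J (η * η) N w))
    (w : k) (hw : Mem J ((((η : 𝓞 k) : k) ^ 2 - 1) * w)) :
    O.valuation (if Mem J w then 1 else AL J (η * η) N w) = 1 := by
  obtain ⟨a, ha⟩ : ∃ a : 𝓞 k, a = (η : 𝓞 k) + 1 := ⟨_, rfl⟩
  obtain ⟨b, hb⟩ : ∃ b : 𝓞 k, b = (η : 𝓞 k) ^ 2 - 1 := ⟨_, rfl⟩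
  have ea : (((η : 𝓞 k) : k) + 1) = (a : k) := by rw [ha]; simp
  have eb : (((η : 𝓞 k) : k) ^ 2 - 1) = (b : k) := by rw [hb]; simp
  have eab : (b : k) = (((η : 𝓞 k) - 1 : 𝓞 k) : k) * a := by
    rw [← ea, ← eb]; push_cast; ring
  have ρa : 0 < ρ a := by rw [← ea, map_add, map_one]; linarith
  have a0 : a ≠ 0 := fun e => by simp [e] at ρa
  have a0' : (a : k) ≠ 0 := by exact_mod_cast a0
  have b0 : b ≠ 0 := fun e => by
    have : ρ b = 0 := by simp [e]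
    rw [← eb, map_sub, map_pow, map_one] at this
    nlinarith
  rw [ea, eb] at hU
  rw [eb] at hw
  rw [← ha] at h2
  obtain ⟨c, hc⟩ := hdv
  have eN : (N : k) = (c : k) * b := by
    have := congrArg (algebraMap (𝓞 k) k) hc
    rw [← hb] at this
    simpa [mul_comm] using this
  have ad : ∀ (I : Ideal (𝓞 k)) (x : k), I ≠ ⊥ → Mem I (b * x) → ¬ Mem I x →
      Ad ρ I (η * η) N x := fun I x hI0 h1 h3 => by
    refine ⟨hI0, ?_, hN, mem_of_eq h1 ?_, mem_of_eq (mem_mul c h1) ?_, h3⟩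
    · rw [Units.val_mul, cmul, map_mul]; nlinarith
    · rw [← eb, Units.val_mul, cmul]; ring
    · rw [eN]; ring
  obtain ⟨h0, h01, h02⟩ : ∃ h0 : k, Mem J (a * h0) ∧ ¬ Mem J (2 * h0) := by
    by_contra q
    push Not at q
    apply h2
    have : Ideal.span {(2 : 𝓞 k)} * J ≤ Ideal.span {a} * J := by
      intro z hz
      obtain ⟨j, hj, rfl⟩ := Ideal.mem_span_singleton_mul.1 hz
      obtain ⟨j', hj', e⟩ := q ((j : k) / a) ⟨j, hj, by field_simp⟩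
      refine Ideal.mem_span_singleton_mul.2 ⟨j', hj', RingOfIntegers.coe_injective ?_⟩
      rw [map_mul, map_mul, map_ofNat]
      change (a : k) * j' = 2 * j
      rw [e]; field_simp
    rw [← Ideal.dvd_iff_le, mul_dvd_mul_iff_right hJ, Ideal.dvd_iff_le] at this
    exact Ideal.span_singleton_le_span_singleton.1 this
  obtain ⟨D, hD⟩ : ∃ D : k → O.ValueGroup,
      D = fun w => O.valuation (if Mem J w then 1 else AL J (η * η) N w) := ⟨_, rfl⟩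
  have hU' : ∀ w h : k, Mem J (b * w) → Mem J (a * h) → ¬ Mem J (2 * h) → D (w + h) = D w := by
    rw [hD]; exact hU
  have ab : ∀ h : k, Mem J (a * h) → Mem J (b * h) := fun h hh =>
    mem_of_eq (mem_mul ((η : 𝓞 k) - 1) hh) (by rw [eab]; ring)
  have hG : ∀ w h : k, Mem J (b * w) → Mem J (a * h) → D (w + h) = D w := fun w h h1 h3 => by
    by_cases q : Mem J (2 * h)
    · have s1 : Mem J (a * (h + h0)) := mem_of_eq (mem_add h3 h01) (by ring)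
      have s2 := hU' w (h + h0) h1 s1 fun r => h02 (mem_of_eq (mem_sub r q) (by ring))
      have s3 := hU' (w + (h + h0)) (-h0) (mem_of_eq (mem_add h1 (ab _ s1)) (by ring))
        (mem_of_eq (mem_neg h01) (by ring)) fun r => h02 (mem_of_eq (mem_neg r) (by ring))
      rw [← s2, ← s3]
      congr 1
      ring
    · exact hU' w h h1 h3 q
  have D0 : D 0 = 1 := by rw [hD]; simp [mem_zero]
  have hne : Ideal.span {a} * J ≠ ⊥ := mul_ne_zero (by simpa using a0) hJ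
  obtain ⟨T, hT⟩ := exists_reps (J' := J) hne
  have hm : 2 ≤ T.card := by
    obtain ⟨τ, hτ, e⟩ := hT.surj _ mem_zero
    obtain ⟨τ', hτ', e'⟩ := hT.surj _ h01
    refine Finset.one_lt_card.2 ⟨τ, hτ, τ', hτ', fun q => h02 ?_⟩
    rw [← q] at e'
    have : Mem (Ideal.span {a} * J) (a * h0) := mem_of_eq (mem_sub e' e) (by ring)
    exact mem_of_eq (mem_mul 2 ((mem_span_mul a0).1 this)) (by simp [map_ofNat])
  have := core a b b0 hJ D T.card hm (fun w h1 => ?_) (fun w w' h1 h3 => ?_) (fun w h1 => ?_) w hw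
  · rw [hD] at this; exact this
  · rw [hD]
    dsimp only
    split_ifs with q
    · simp
    · exact (map_ne_zero _).2 (hI.ne _ _ _ _ (ad J w hJ h1 q))
  · have := hG w (w' - w) h1 (mem_mul a h3)
    rwa [add_sub_cancel] at this
  · by_cases q : Mem J (a * w)
    · have s1 := hG 0 w (by simpa using mem_zero) q
      have s2 := hG 0 (a * w) (by simpa using mem_zero) (mem_mul a q)
      rw [zero_add, D0] at s1 s2
      rw [s1, s2, one_pow]
    · have hτ : ∀ τ ∈ T, Mem J (a * (τ / a)) := fun τ hτ =>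
        mem_of_eq (hT.mem τ hτ) (by field_simp)
      have nm : ∀ τ ∈ T, ¬ Mem J (w + τ / a) := fun τ h r =>
        q (mem_of_eq (mem_sub (mem_mul a r) (hτ τ h)) (by ring))
      have bm : ∀ τ ∈ T, Mem J (b * (w + τ / a)) := fun τ h =>
        mem_of_eq (mem_add h1 (ab _ (hτ τ h))) (by ring)
      have eτ : ∀ τ : k, a * w + τ = a * (w + τ / a) := fun τ => by field_simp
      obtain ⟨n, hn, e⟩ := hI.dist (Ideal.span {a} * J) J (η * η) N (a * w) T Ideal.mul_le_right hT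
        (ad J _ hJ (mem_of_eq (mem_mul a h1) (by ring)) q) fun τ h => by
          rw [eτ]
          refine ad _ _ hne (mem_of_eq ((mem_span_mul a0).2 (bm τ h)) (by ring)) fun r => ?_
          exact nm τ h ((mem_span_mul a0).1 r)
      have e2 : O.valuation (∏ τ ∈ T, AL (Ideal.span {a} * J) (η * η) N (a * w + τ)) =
          D w ^ T.card := by
        rw [map_prod, ← Finset.prod_const]
        refine Finset.prod_congr rfl fun τ h => ?_
        rw [eτ, hI.hom J _ N _ a (ad J _ hJ (bm τ h) (nm τ h)) ρa, ← hG w _ h1 (hτ τ h), hD]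
        dsimp only
        rw [if_neg (nm τ h)]
      have e3 := congrArg O.valuation e
      rw [map_pow, map_pow, e2, pow_left_inj₀ zero_le zero_le hn] at e3
      rw [e3, hD]
      dsimp only
      rw [if_neg q]

end Unitsq

open Unitsq in
theorem unitsq_thm (huinv : S_UINV) : S_UNITSQ := by
  intro k _ _ ρ σ E AL hR hI J u N x P p O hA hu hp h5 hP hs hO
  have hp0 : Ideal.span {(p : 𝓞 k)} ≠ ⊥ := by simpa using hp.ne_zero
  have := (Ideal.span {(p : 𝓞 k)}).finiteQuotientOfFreeOfNeBot hp0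
  obtain ⟨n, hn, e⟩ := isOfFinOrder_iff_pow_eq_one.1 (isOfFinOrder_of_finite
    (Units.map (Ideal.Quotient.mk (Ideal.span {(p : 𝓞 k)})).toMonoidHom u))
  have e1 : (p : 𝓞 k) ∣ (u : 𝓞 k) ^ n - 1 := by
    rw [← Ideal.mem_span_singleton, ← Ideal.Quotient.eq]
    simpa using congrArg Units.val e
  obtain ⟨η, hη⟩ : ∃ η : (𝓞 k)ˣ, η = u ^ (n + 1) := ⟨_, rfl⟩
  have eη : (η : 𝓞 k) = (u : 𝓞 k) ^ (n + 1) := by rw [hη, Units.val_pow_eq_pow_val]
  have big : 36 < ρ (η : 𝓞 k) := by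
    obtain ⟨n', rfl⟩ := Nat.exists_eq_add_of_le' hn
    rw [eη, cpow, map_pow, pow_succ, pow_succ]
    have t1 : 1 ≤ ρ (u : 𝓞 k) ^ n' := one_le_pow₀ (by linarith)
    have t2 : 6 < ρ (u : 𝓞 k) ^ n' * ρ (u : 𝓞 k) := by nlinarith
    nlinarith
  have hs' : Ideal.span {(p : 𝓞 k), (η : 𝓞 k) - 1} = P := by
    obtain ⟨c, hc⟩ := e1
    have : (η : 𝓞 k) - 1 = (u : 𝓞 k) - 1 + (u * c) * p := by
      rw [eη]; linear_combination (u : 𝓞 k) * hc
    rw [this, Ideal.span_pair_add_mul_left, hs]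
  have b0 : (η : 𝓞 k) ^ 2 - 1 ≠ 0 := fun q => by
    have : ρ (((η : 𝓞 k) ^ 2 - 1 : 𝓞 k) : k) = 0 := by simp [q]
    push_cast at this
    rw [map_sub, map_pow, map_one] at this
    nlinarith
  obtain ⟨M, hM⟩ : ∃ M, M = Ideal.absNorm (Ideal.span {(η : 𝓞 k) ^ 2 - 1}) := ⟨_, rfl⟩
  have M0 : M ≠ 0 := by rw [hM]; simpa using b0
  have Md : (η : 𝓞 k) ^ 2 - 1 ∣ ((N * M : ℕ) : 𝓞 k) := by
    push_cast
    exact Dvd.dvd.mul_left (Ideal.mem_span_singleton.1 (hM ▸ Ideal.absNorm_mem _)) _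
  have ee : η * η = (u * u) ^ (n + 1) := by rw [hη, mul_pow]
  obtain ⟨a1, a2⟩ := ad_pow hI hA n
  rw [← ee] at a1 a2
  have h6 : 6 < ρ (η : 𝓞 k) := by linarith
  have NM := mul_ne_zero hA.N_ne M0
  have := main hI η (N * M) O h6 (not_dvd E η big) NM Md hA.J_ne
    (fun w h => huinv k ρ σ E AL hR hI η P p (N * M) O h6 hp h5 hP hs' hO NM Md J w h hA.J_ne) x
    (mem_of_eq a1.fix (by rw [Units.val_mul, cmul]; ring))
  rw [if_neg hA.not_mem, hI.scale J _ N M x a1 M0, a2, ← pow_mul, map_pow] at this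
  exact (pow_left_inj₀ zero_le zero_le (mul_ne_zero (Nat.succ_ne_zero n) (pow_ne_zero 3 M0))).1
    (this.trans (one_pow _).symm)

open Unitsq in
theorem unit_thm (hunitsq : S_UNITSQ) : S_UNIT := by
  intro k _ _ ρ σ E AL hR hI J u N x P p O hA hG hO
  obtain ⟨K, hK, hs⟩ := hG.gcd
  obtain ⟨K', rfl⟩ := Nat.exists_eq_add_of_le' (Nat.pos_of_ne_zero hK)
  obtain ⟨a1, -⟩ := ad_pow hI hA K'
  obtain ⟨b1, b2⟩ := ad_pow hI hA (K' + 1 + K')
  have ee : u ^ (K' + 1 + K' + 1) = u ^ (K' + 1) * u ^ (K' + 1) := by rw [← pow_add]; rfl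
  rw [ee] at b1 b2
  have := hunitsq k ρ σ E AL hR hI J _ N x P p O b1 a1.big hG.prime hG.five hG.norm
    (by rw [Units.val_pow_eq_pow_val]; exact hs) hO
  rw [b2, map_pow] at this
  exact (pow_left_inj₀ zero_le zero_le (Nat.succ_ne_zero _)).1 (this.trans (one_pow _).symm)

end Pool.Agent.P.MP_29cb78_nt.F
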