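import Pool.Agent.P.MP_29cb78_nt.F.Basic

/-!
Symmetries of the multipliers.
-/

namespace Pool.Agent.P.MP_29cb78_nt.F

open E

open Filter Topology
open scoped Classical

noncomputable section

namespace Qd

variable {S : Setup}

/-- Vanishing third differences. -/
def D3 (f : S.A → ℂ) : Prop := ∀ x y, f x + 3 * f (x + 2 • y) = 3 * f (x + y) + f (x + 3 • y)

lemma ext3 {f g : S.A → ℂ} {c : ℂ} (hf : D3 f) (hg : D3 g) (B : S.A → Prop)
    (hB : ∀ x (k : ℂ), k ≠ 0 → ∀ᶠ z in 𝓝[≠] (0 : ℂ), B (x + S.ι (k * z)))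
    (h : ∀ x, B x → Complex.exp (f x) = c * Complex.exp (g x)) (hc : c ≠ 0) (x : S.A) :
    Complex.exp (f x) = c * Complex.exp (g x) := by
  obtain ⟨z, h1, h2, h3⟩ := ((hB x 1 one_ne_zero).and ((hB x 2 two_ne_zero).and
    (hB x 3 three_ne_zero))).exists
  have e1 := h _ h1
  have e2 := h _ h2
  have e3 := h _ h3
  rw [one_mul] at e1
  rw [show S.ι (2 * z) = 2 • S.ι z by rw [← map_nsmul]; simp] at e2
  rw [show S.ι (3 * z) = 3 • S.ι z by rw [← map_nsmul]; simp] at e3
  have a := congrArg Complex.exp (hf x (S.ι z))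
  have b := congrArg Complex.exp (hg x (S.ι z))
  have k : ∀ u : ℂ, Complex.exp (3 * u) = Complex.exp u ^ 3 := fun u => by
    rw [← Complex.exp_nat_mul]; simp
  simp only [Complex.exp_add, k] at a b
  rw [e1, e2, e3] at a
  have n := Complex.exp_ne_zero (g (x + 2 • S.ι z))
  apply mul_right_cancel₀ (pow_ne_zero 3 (mul_ne_zero hc n))
  rw [a]
  linear_combination (-c ^ 4) * b

end Qd

open Qd

theorem qd_thm : S_QD := by
  intro S hT G hG ω hω
  obtain ⟨b, l, c, hb, hp, -⟩ := hG.per ω hω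
  have q3 : ∀ (u : S.A →+ S.A) (v : S.A) (φ : S.A →+ ℂ),
      D3 fun x => φ x + (b (v + u x) (v + u x) + l (v + u x) + c) := by
    intro u v φ x y
    simp only [map_add, map_nsmul, AddMonoidHom.add_apply, AddMonoidHom.nsmul_apply, nsmul_eq_mul]
    push_cast
    ring
  have q0 : D3 fun x => b x x + l x + c := by simpa using q3 (AddMonoidHom.id _) 0 0
  have hχ : S.χ ω ≠ 0 := fun e => by simpa [e] using S.χ_sq ω
  have cM : ∀ m ∈ S.M, deriv S.ϑ m / deriv S.ϑ 0 ≠ 0 := fun m hm =>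
    div_ne_zero (hT.deriv_ne _ hm) (hT.deriv_ne _ S.M.zero_mem)
  have good : ∀ x (k : ℂ), k ≠ 0 → ∀ᶠ z in 𝓝[≠] (0 : ℂ),
      ¬ S.Pole (x + S.ι (k * z)) ∧ ¬ S.Zero (x + S.ι (k * z)) := by
    intro x k hk
    filter_upwards [hT.not_pole x hk, hT.not_pole (S.p + S.q - x) (neg_ne_zero.2 hk)] with z h1 h2
    refine ⟨h1, ?_⟩
    rw [Setup.Zero]
    convert h2 using 2
    rw [neg_mul, map_neg]
    abel
  refine ⟨fun x => b x x + l x + c, ⟨b, l, c, hb, fun _ => rfl⟩, hp, ?_, ?_, ?_⟩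
  · refine ext3 q0 (by simpa [sub_eq_add_neg] using q3 (-AddMonoidHom.id _) (S.p + S.q - ω) 0)
      (fun x => ¬ S.Pole x ∧ ¬ S.Zero x) good (fun x hx => ?_) hχ
    have z1 : ¬ S.Zero (x + ω) := by
      rw [Setup.Zero, ← S.pole_add_Ω hω]
      convert hx.2 using 1
      rw [Setup.Zero]
      congr! 1
      abel
    have r1 := hG.refl (x - S.p) (by simpa using hx.1) (by simpa using hx.2)
    have r2 := hG.refl (x + ω - S.p) (by simpa [S.pole_add_Ω hω] using hx.1) (by simpa using z1)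
    have r3 := hp (S.p + S.q - ω - x)
    rw [sub_add_cancel, show S.q - (x - S.p) = S.p + S.q - ω - x + ω by abel, r3] at r1
    rw [sub_add_cancel, hp, show S.q - (x + ω - S.p) = S.p + S.q - ω - x by abel,
      show x + ω - S.p = x - S.p + ω by abel, S.χ_add, ← r1] at r2
    have n1 := hG.ne_zero hx.1 hx.2
    have n2 : G (S.p + S.q - ω - x) ≠ 0 := by
      intro e
      have := S.χ_sq (x - S.p)
      rw [← r1, e] at this
      simp at this
    apply mul_right_cancel₀ (mul_ne_zero n1 n2)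
    linear_combination r2
  · intro x
    have := ext3 (c := deriv S.ϑ (S.x₁ ω) / deriv S.ϑ 0)
      (by simpa [add_comm S.p] using q3 (AddMonoidHom.id _) S.p 0)
      (by simpa using q3 (AddMonoidHom.id _) 0 ((AddMonoidHom.mulLeft (S.η (S.x₁ ω))).comp S.x₁))
      (fun x => (¬ S.Pole x ∧ ¬ S.Zero x) ∧ S.x₁ x ∉ S.M) (fun x k hk => by
        filter_upwards [good x k hk, hT.disc_affine (S.x₁ x) (mul_ne_zero S.ε_ne hk)] with z h1 h2
        exact ⟨h1, by simpa [mul_assoc] using h2⟩) (fun x hx => ?_) (cM _ hω.1) x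
    · simp only [Setup.mult, mul_assoc, ← Complex.exp_add]
      convert this using 2
      simp
    have r1 := hG.shp (x + ω) (by simpa [S.pole_add_Ω hω] using hx.1.1)
    rw [add_right_comm, hp, hp, hG.shp _ hx.1.1, map_add S.x₁, hT.shift _ hω.1, Setup.mult] at r1
    have n1 := hG.ne_zero hx.1.1 hx.1.2
    have n2 : S.ϑ (S.x₁ x) ≠ 0 := fun e => hx.2 ((hT.zero_iff _).1 e)
    apply mul_right_cancel₀ (mul_ne_zero n1 n2)
    rw [Complex.exp_add (S.η _ * _)]
    simp only [map_add, AddMonoidHom.add_apply] at r1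
    convert r1 using 1
    · ring_nf
    · ring
  · intro x
    have := ext3 (c := deriv S.ϑ (S.x₂ ω) / deriv S.ϑ 0)
      (by simpa [add_comm S.q] using q3 (AddMonoidHom.id _) S.q 0)
      (by simpa using q3 (AddMonoidHom.id _) 0 ((AddMonoidHom.mulLeft (S.η (S.x₂ ω))).comp S.x₂))
      (fun x => (¬ S.Pole x ∧ ¬ S.Zero x) ∧ S.x₂ x ∉ S.M) (fun x k hk => by
        filter_upwards [good x k hk, hT.disc_affine (S.x₂ x) hk] with z h1 h2
        exact ⟨h1, by simpa using h2⟩) (fun x hx => ?_) (cM _ hω.2) x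
    · simp only [Setup.mult, mul_assoc, ← Complex.exp_add]
      convert this using 2
      simp
    have r1 := hG.shq (x + ω) (by simpa [S.pole_add_Ω hω] using hx.1.1)
    rw [add_right_comm, hp, hp, hG.shq _ hx.1.1, map_add S.x₂, hT.shift _ hω.2, Setup.mult] at r1
    have n1 := hG.ne_zero hx.1.1 hx.1.2
    have n2 : S.ϑ (S.x₂ x) ≠ 0 := fun e => hx.2 ((hT.zero_iff _).1 e)
    apply mul_right_cancel₀ (mul_ne_zero n1 n2)
    rw [Complex.exp_add (S.η _ * _)]
    simp only [map_add, AddMonoidHom.add_apply] at r1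
    convert r1 using 1
    · ring_nf
    · ring

end

end Pool.Agent.P.MP_29cb78_nt.F
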