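import Pool.Agent.P.MP_29cb78_nt.F.Fb
import Pool.Agent.P.MP_29cb78_nt.F.Qd

/-!
The symmetrised values.
-/

namespace Pool.Agent.P.MP_29cb78_nt.F

open E

open scoped Classical

noncomputable section

namespace Up

variable {S : Setup}

lemma quad {ω : S.A} {G Q : S.A → ℂ} (h : S.QD G ω Q) (f : S.V →+ S.A) (a : S.A) :
    ∃ (b : S.V →+ S.V →+ ℂ) (l : S.V →+ ℂ) (c : ℂ), (∀ x y, b x y = b y x) ∧
      ∀ x : S.V, Q (f x + a) = b x x + l x + c := by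
  obtain ⟨b, l, c, hb, hQ⟩ := h.form
  refine ⟨(b.comp f).compl₂ f, (b a).comp f + (b a).comp f + l.comp f, b a a + l a + c,
    fun x y => hb _ _, fun x => ?_⟩
  simp only [hQ, map_add, AddMonoidHom.add_apply, AddMonoidHom.compl₂_apply,
    AddMonoidHom.comp_apply, hb (f x) a]
  ring

variable {G : S.A → ℂ}

lemma UU_p (hF : S.FB G) (x : S.A) (hx : x ∈ S.V) : S.UU G (x + S.p) = S.UU G x := by
  simp only [Setup.UU, sw_add hx (lat_V S.lat_p), sw_p]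
  have h1 : S.Lat (S.sw x + -S.q) ↔ S.Lat x := (S.lat_add_iff S.lat_q.neg).trans (lat_sw hx)
  by_cases hl : S.Lat x
  · rw [hF.latp x hl, ← hF.latq _ (h1.2 hl), neg_add_cancel_right]
  · have h2 := hF.shq _ (h1.not.2 hl)
    rw [neg_add_cancel_right] at h2
    rw [hF.shp x hl, h2]
    simp only [map_add, map_neg, x₂_sw hx, S.x₂_q, neg_neg]
    ring

lemma UU_q (hF : S.FB G) (x : S.A) (hx : x ∈ S.V) : S.UU G (x + S.q) = S.UU G x := by
  simp only [Setup.UU, sw_add hx (lat_V S.lat_q), sw_q]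
  have h1 : S.Lat (S.sw x + -S.p) ↔ S.Lat x := (S.lat_add_iff S.lat_p.neg).trans (lat_sw hx)
  by_cases hl : S.Lat x
  · rw [hF.latq x hl, ← hF.latp _ (h1.2 hl), neg_add_cancel_right]
  · have h2 := hF.shp _ (h1.not.2 hl)
    rw [neg_add_cancel_right] at h2
    rw [hF.shq x hl, h2]
    simp only [map_add, map_neg, x₁_sw hx, S.x₁_p, neg_add_cancel_right]
    ring

lemma UU_Ω {ω : S.A} (hω : ω ∈ S.Ω) {Q Q' : S.A → ℂ} (h : S.QD G ω Q)
    (h' : S.QD G (S.sw ω) Q') (x : S.A) (hx : x ∈ S.V) :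
    S.UU G (x + ω) = Complex.exp (Q (x + S.p)) * Complex.exp (Q' (S.sw x + S.p)) * S.UU G x := by
  have hV := lat_V (S.lat_Ω hω)
  have hω' := sw_Ω hω
  simp only [Setup.UU, sw_add hx hV, Setup.fb, S.lat_add_iff (S.lat_Ω hω),
    S.lat_add_iff (S.lat_Ω hω'), lat_sw hx]
  split_ifs with hl
  · have h0 := lat_V (S.lat_Ω (S.red_mem hl))
    have key := inv_red
      (f := fun x => Complex.exp (Q (x + S.p)) * Complex.exp (Q' (S.sw x + S.p)))
      (fun y hy => by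
        have h2 := h'.shq (S.sw y + -S.q + S.p)
        rw [add_right_comm, neg_add_cancel_right] at h2
        simp only [sw_add hy (lat_V S.lat_p), sw_p]
        rw [h.shp (y + S.p), h2]
        simp only [map_add, map_neg, x₂_sw hy, x₂_sw hV, S.x₁_p, S.x₂_q, S.x₂_p, neg_neg, add_zero]
        ring)
      (fun y hy => by
        simp only [sw_add hy (lat_V S.lat_q), sw_q, neg_add_cancel_right]
        rw [add_right_comm, h.shq (y + S.p), h'.shp]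
        simp only [map_add, x₁_sw hy, x₁_sw hV, S.x₂_p, add_zero]
        ring) h0 ⌊S.a (S.x₁ x)⌋ ⌊S.a (S.x₂ x)⌋
    rw [← S.eq_red x] at key
    rw [key, red_add hω, red_add hω', add_right_comm _ ω, add_right_comm _ (S.sw ω), h.per, h'.per,
      red_sw hl, h.shp, h.shq, h'.shp, h'.shq, x₁_sw h0, x₂_sw h0, x₁_sw hV, x₂_sw hV]
    ring
  · rw [add_right_comm _ ω, add_right_comm _ (S.sw ω), h.per, h'.per]
    ring

lemma UU_neg (hT : S.TH) (hF : S.FB G) {x : S.A} (hx : x ∈ S.V) :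
    S.UU G x * S.UU G (-x) = S.χ (x + S.sw x) * if S.Lat x then S.ε⁻¹ ^ 2 else 1 := by
  simp only [Setup.UU, sw_neg hx]
  split_ifs with hl
  · have h0 := S.red_mem hl
    have hV := lat_V (S.lat_Ω h0)
    have h1 := hF.reflL x hl
    have h2 := hF.reflL _ ((lat_sw hx).2 hl)
    rw [red_sw hl, x₁_sw hV, x₂_sw hV] at h2
    have d1 := hT.deriv_ne _ h0.1
    have d2 := hT.deriv_ne _ h0.2
    have h3 : S.fb G x * S.fb G (S.sw x) * (S.fb G (-x) * S.fb G (-S.sw x)) * S.ε ^ 2 =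
        S.χ (S.red x) * S.χ (S.sw (S.red x)) := by
      apply mul_right_cancel₀ (mul_ne_zero d1 d2)
      linear_combination (S.fb G (S.sw x) * S.fb G (-S.sw x) * S.ε *
        deriv S.ϑ (S.x₂ (S.red x))) * h1 + (S.χ (S.red x) * deriv S.ϑ (S.x₂ (S.red x))) * h2
    have h4 : x + S.sw x = S.red x + S.sw (S.red x) +
        (⌊S.a (S.x₁ x)⌋ + ⌊S.a (S.x₂ x)⌋) • (S.p - S.q) :=
      S.ext (by simp [x₁_sw hx, x₁_sw hV, x₁_red, x₂_red]; ring)
        (by simp [x₂_sw hx, x₂_sw hV, x₁_red, x₂_red]; ring)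
    have hε := S.ε_ne
    rw [h4, S.χ_add, S.χ_add, Fb.χ_T, mul_one, ← h3]
    field_simp
  · have h1 := hF.refl x hl
    have h2 := hF.refl _ ((lat_sw hx).not.2 hl)
    rw [x₁_sw hx, x₂_sw hx] at h2
    have d1 : S.ϑ (S.x₁ x) ≠ 0 := fun e => hl ((hT.zero_iff _).1 e).1
    have d2 : S.ϑ (S.x₂ x) ≠ 0 := fun e => hl (S.lat_iff.2 ((hT.zero_iff _).1 e).1)
    rw [mul_one, S.χ_add]
    apply mul_right_cancel₀ (mul_ne_zero d1 d2)
    linear_combination (S.fb G (S.sw x) * S.fb G (-S.sw x) * S.ϑ (S.x₁ x)) * h1 +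
      (S.χ x * S.ϑ (S.x₁ x)) * h2

variable {ω : S.A} {Q : S.A → ℂ}

lemma QT (hQ : S.QD G ω Q) (hd : S.Diag ω) {x : S.A} (hx : S.Diag x) :
    Complex.exp (Q (x + S.p)) = Complex.exp (Q (x + S.q)) := by
  rw [hQ.shp, hQ.shq, show S.x₁ ω = S.x₂ ω from hd, show S.x₁ x = S.x₂ x from hx]

lemma fb_per (hQ : S.QD G ω Q) (hω : ω ∈ S.Ω) {x : S.A}
    (hx : S.Lat x → S.Diag x ∧ S.Diag ω) :
    S.fb G (x + ω) = Complex.exp (Q (x + S.p)) * S.fb G x := by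
  by_cases h : S.Lat x
  · obtain ⟨h1, h2⟩ := hx h
    have hr : S.red (x + ω) = S.red x + ω := by
      simp only [Setup.red, map_add, (S.mem_M.1 hω.1).2, (S.mem_M.1 hω.2).2, add_zero]
      abel
    obtain ⟨d1, d2⟩ := Fb.diag_red h1
    rw [Setup.fb, Setup.fb, if_pos h, if_pos (h.add (S.lat_Ω hω)), hr, add_right_comm, hQ.per,
      ← QT hQ h2 d1]
    congr 1
    have key : ∀ k : ℤ, Complex.exp (Q (S.red x + k • (S.p - S.q) + S.p)) =
        Complex.exp (Q (S.red x + S.p)) := by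
      refine Fb.int_ind (by simp) fun k => ?_
      have := QT hQ h2 (x := S.red x + (k + 1) • (S.p - S.q)) (by
        have h : S.x₂ (S.red x) = S.x₁ (S.red x) := d1.symm
        simp [Setup.Diag, h])
      rw [this, show S.red x + (k + 1) • (S.p - S.q) + S.q = S.red x + k • (S.p - S.q) + S.p by
        module]
    rw [← key ⌊S.a (S.x₁ x)⌋, ← d2]
  · rw [Setup.fb, Setup.fb, if_neg h, if_neg (by rwa [S.lat_add_iff (S.lat_Ω hω)]), add_right_comm,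
      hQ.per]

lemma raw_p (hG : S.GH G) {x : S.A} (hx : x ∈ S.V) (h1 : S.a (S.x₁ x) < 0) (h2 : S.a (S.x₂ x) < 0) :
    G (x - S.p + S.p) * G (S.sw (x - S.p) + S.p) = G (x + S.p) * G (S.sw x + S.p) := by
  have n1 : ¬ S.Pole x := fun h => (S.pole_iff.1 h).2.2.not_gt h2
  have n2 : ¬ S.Pole (S.sw x + S.p) := fun h => (S.pole_iff.1 h).2.2.not_gt (by
    simpa [x₂_sw hx] using h1)
  rw [sub_add_cancel, sw_sub hx (lat_V S.lat_p), sw_p, sub_neg_eq_add, add_right_comm,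
    hG.shq _ n2, hG.shp _ n1]
  simp only [map_add, x₂_sw hx, S.x₂_p, add_zero]
  ring

lemma raw_nat (hG : S.GH G) {x : S.A} (hx : x ∈ S.V) (h1 : S.a (S.x₁ x) < 0)
    (h2 : S.a (S.x₂ x) < 0) (i : ℕ) :
    G (x - i • S.p + S.p) * G (S.sw (x - i • S.p) + S.p) = G (x + S.p) * G (S.sw x + S.p) := by
  induction i with
  | zero => simp
  | succ i ih =>
    rw [← ih, succ_nsmul, ← sub_sub]
    refine raw_p hG (S.V.sub_mem hx (lat_V (S.lat_p.nsmul i))) ?_ (by simpa using h2)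
    simp only [map_sub, map_nsmul S.x₁, S.x₁_p, nsmul_eq_mul, S.a_nat_mul, S.a_lam, mul_one]
    linarith [Nat.cast_nonneg (α := ℚ) i]

lemma raw (hG : S.GH G) {x : S.A} (hx : x ∈ S.V)
    (h : S.Lat x → S.a (S.x₁ x) < 0 ∧ S.a (S.x₂ x) < 0) :
    G (x + S.p) * G (S.sw x + S.p) = S.UU G x := by
  by_cases hl : S.Lat x
  swap
  · rw [Setup.UU, Setup.fb, Setup.fb, if_neg hl, if_neg ((lat_sw hx).not.2 hl)]
  obtain ⟨h1, h2⟩ := h hl
  have hr := S.red_mem hl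
  have hV := lat_V (S.lat_Ω hr)
  rw [← S.a_int hl] at h1
  rw [← S.a_int (S.lat_iff.1 hl)] at h2
  obtain ⟨i, hi⟩ := Int.eq_ofNat_of_zero_le (a := -⌊S.a (S.x₁ x)⌋ - 1)
    (by have : ⌊S.a (S.x₁ x)⌋ < 0 := by exact_mod_cast h1
        omega)
  obtain ⟨k, hk⟩ := Int.eq_ofNat_of_zero_le (a := -⌊S.a (S.x₂ x)⌋ - 1)
    (by have : ⌊S.a (S.x₂ x)⌋ < 0 := by exact_mod_cast h2
        omega)
  have r1 := (S.mem_M.1 hr.1).2
  have r2 := (S.mem_M.1 hr.2).2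
  have hy : S.sw (S.red x) - S.p + S.q ∈ S.V :=
    S.V.add_mem (S.V.sub_mem (sw_mem hV) (lat_V S.lat_p)) (lat_V S.lat_q)
  have hz := S.V.sub_mem hy (lat_V (S.lat_p.nsmul k))
  have e1 := raw_nat hG hy (by simp [x₁_sw hV, r2, S.a_lam]) (by simp [x₂_sw hV, r1, S.a_lam]) k
  have e2 := raw_nat hG (sw_mem hz) (by simp [x₁_sw hz, x₂_sw hV, r1, S.a_lam]) (by
    simp only [x₂_sw hz, map_sub, map_add, map_nsmul S.x₁, x₁_sw hV, r2, S.x₁_p, S.x₁_q,
      map_zero, nsmul_eq_mul, S.a_nat_mul, S.a_lam]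
    linarith [Nat.cast_nonneg (α := ℚ) k]) i
  have hi' : ((⌊S.a (S.x₁ x)⌋ : ℤ) : ℂ) = -i - 1 := by
    rw [show ⌊S.a (S.x₁ x)⌋ = -i - 1 by omega]; push_cast; ring
  have hk' : ((⌊S.a (S.x₂ x)⌋ : ℤ) : ℂ) = -k - 1 := by
    rw [show ⌊S.a (S.x₂ x)⌋ = -k - 1 by omega]; push_cast; ring
  have e3 : S.sw (S.sw (S.red x) - S.p + S.q - k • S.p) - i • S.p = x :=
    S.ext (by simp [x₁_sw hz, x₂_sw hV, x₁_red, hi']; ring)
      (by simp [x₂_sw hz, x₁_sw hV, x₂_red, hk']; ring)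
  have e4 : S.sw (S.sw (S.red x) - S.p + S.q) + S.p = S.red x + S.q :=
    S.ext (by simp [x₁_sw hy, x₂_sw hV]) (by simp [x₂_sw hy, x₁_sw hV]; ring)
  rw [e3, sw_sw hz, mul_comm (G (S.sw _ + _)), e1, e4] at e2
  rw [e2, Setup.UU, Setup.fb, Setup.fb, if_pos hl, if_pos ((lat_sw hx).2 hl), red_sw hl, mul_comm]
  congr 2
  abel

end Up

open Up in
theorem up_thm : S_UP := by
  have hqd := qd_thm
  intro S hT G hG hF
  refine ⟨fun x hx => UU_neg hT hF hx, fun ω hω => ?_, fun ω hω hd => ?_,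
    fun x hx h => raw hG hx h⟩
  · have h0 := S.red_mem hω
    obtain ⟨Q, hQ⟩ := hqd S hT G hG _ h0
    obtain ⟨Q', hQ'⟩ := hqd S hT G hG _ (sw_Ω h0)
    obtain ⟨b, l, c, hb, e⟩ := quad hQ S.V.subtype S.p
    obtain ⟨b', l', c', hb', e'⟩ := quad hQ' (swH S) S.p
    refine ⟨b + b', l + l', c + c', fun x y => by simp [hb x y, hb' x y], fun x => ?_⟩
    have h1 := inv_red (UU_p hF) (UU_q hF) (S.V.add_mem x.2 (lat_V (S.lat_Ω h0)))
      ⌊S.a (S.x₁ ω)⌋ ⌊S.a (S.x₂ ω)⌋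
    have h2 : (x : S.A) + S.red ω + ⌊S.a (S.x₁ ω)⌋ • S.p - ⌊S.a (S.x₂ ω)⌋ • S.q = x + ω := by
      rw [Setup.red]; abel
    rw [← h2, h1, UU_Ω h0 hQ hQ' x x.2, ← Complex.exp_add]
    have e1 : Q (x + S.p) = _ := e x
    have e2 : Q' (S.sw x + S.p) = _ := e' x
    rw [e1, e2]
    simp only [AddMonoidHom.add_apply]
    congr 2
    ring
  · have h0 := S.red_mem hω
    obtain ⟨Q, hQ⟩ := hqd S hT G hG _ h0
    obtain ⟨d1, d2⟩ := Fb.diag_red hd
    obtain ⟨b, l, c, hb, hf⟩ := hQ.form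
    refine ⟨b, b S.p + b S.p + l, b S.p S.p + l S.p + c, hb, fun x hx => ?_⟩
    have h1 : S.Diag (x + S.red ω) := by
      rw [Setup.Diag, map_add, map_add, show S.x₁ x = _ from hx, show S.x₁ (S.red ω) = _ from d1]
    rw [d2, ← add_assoc, hF.tshD _ _ h1, fb_per hQ h0 fun _ => ⟨hx, d1⟩, hf]
    simp only [map_add, AddMonoidHom.add_apply, hb x S.p]
    congr 2
    ring

end

end Pool.Agent.P.MP_29cb78_nt.F
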