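import Pool.Agent.P.MP_29cb78_nt.F.Id4
import Pool.Agent.P.MP_29cb78_nt.F.Rper
import Pool.Agent.P.MP_29cb78_nt.F.Up
import Pool.Agent.P.MP_29cb78_nt.F.Deg
import Pool.Agent.P.MP_29cb78_nt.F.Econg
import Pool.Agent.P.MP_29cb78_nt.F.Ff
import Pool.Agent.P.MP_29cb78_nt.F.Alb
import Pool.Agent.P.MP_29cb78_nt.F.Cfg
import Pool.Agent.P.MP_29cb78_nt.F.Form
import Pool.Agent.P.MP_29cb78_nt.F.Rstr
import Pool.Agent.P.MP_29cb78_nt.F.Mk
import Pool.Agent.P.MP_29cb78_nt.F.Aual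
import Pool.Agent.P.MP_29cb78_nt.F.Distx
import Pool.Agent.P.MP_29cb78_nt.F.Distv
import Pool.Agent.P.MP_29cb78_nt.F.Real
import Pool.Agent.P.MP_29cb78_nt.F.Inv0
import Pool.Agent.P.MP_29cb78_nt.F.Klfk
import Pool.Agent.P.MP_29cb78_nt.F.Tor
import Pool.Agent.P.MP_29cb78_nt.F.Inv
import Pool.Agent.P.MP_29cb78_nt.F.Uinv
import Pool.Agent.P.MP_29cb78_nt.F.Unitsq
import Pool.Agent.P.MP_29cb78_nt.F.Cong

/-!
The wiring of the proof that the canonical invariants exist.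
-/

namespace Pool.Agent.P.MP_29cb78_nt.F

theorem inv_of (hcoc : S_COC) (hind : S_IND) (hdist : S_DIST) (htop : S_TOP) (hcub : S_CUB)
    (hklf : S_KLF) : S_INV :=
  have halb := alb_thm cfg_thm
  have haual := aual_thm ff_thm hcoc up_thm
  have hsq := unitsq_thm (uinv_thm htop haual tor_thm form_thm mk_thm)
  inv_thm (real_thm ff_thm hind)
    (inv0_thm ff_thm halb hcoc hind (distv_thm ff_thm hdist cfg_thm halb) form_thm mk_thm)
    (klfk_thm hklf form_thm mk_thm rstr_thm) (unit_thm hsq)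
    (cong_thm hcub econg_thm (distx_thm ff_thm hdist cfg_thm) hcoc ff_thm haual tor_thm form_thm
      mk_thm hsq)

end Pool.Agent.P.MP_29cb78_nt.F
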