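import Pool.Agent.P.MP_29cb78_nt.F.Iface2
import Pool.Agent.P.MP_29cb78_nt.E2.Mul

/-!
The symmetrised values are the values of the square level.
-/

namespace Pool.Agent.P.MP_29cb78_nt.F

open E

namespace Aual

theorem notin {L : AddSubgroup ℂ} {N : ℕ} {v : ℂ} (hN : N * v ∈ L) (hv : v ∉ L) (j : Fin 4) :
    (tt N j : ℂ) * v ∉ L ∧ ((-tt N j : ℤ) : ℂ) * v ∉ L := by
  have h : (tt N j : ℂ) * v ∉ L := fun h => hv (by
    have e : v = tt N j * v - (j : ℕ) • (N * v) := by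
      simp only [tt, nsmul_eq_mul]
      push_cast
      ring
    exact e ▸ L.sub_mem h (L.nsmul_mem hN _))
  exact ⟨h, fun h' => h (by simpa using h')⟩

theorem UU_eq {S : Setup} (G : S.A → ℂ) {x : S.A} (hx : x ∈ S.V) {t : ℤ}
    (ht : t * S.x₁ x ∉ S.L) :
    S.UU G (t • x) = S.ed G (t * S.x₁ x) (t * S.x₂ x) * S.ed G (t * S.x₂ x) (t * S.x₁ x) := by
  have h1 : ¬ S.Lat (t • x) := by rwa [Setup.Lat, map_zsmul, zsmul_eq_mul]
  have h2 := S.V.zsmul_mem hx t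
  rw [Setup.UU, ← Up.ed_eq G h1, ← Up.ed_eq G (mt (Up.lat_sw h2).1 h1), Up.x₁_sw h2, Up.x₂_sw h2,
    map_zsmul, map_zsmul, zsmul_eq_mul, zsmul_eq_mul]

end Aual

open Aual in
theorem aual_thm (hff : S_FF) (hcoc : S_COC) (hup : S_UP) : S_AUAL := by
  intro S S' G G' N x hG hG' hL ha hε hx hN
  have hT := th_thm S
  have hF := fb_thm S hT G hG
  split_ifs with h
  · have h0 : ∀ y, S.UU G y ≠ 0 := fun y => mul_ne_zero (hF.ne _) (hF.ne _)
    obtain ⟨b, l, c, -, e⟩ := (hup S hT G hG hF).2.1 x h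
    refine E2.FF_kill N (fun t => h0 _) (E2.PolyLE.of_int ((((E2.poly_quad b l c).post
      E2.expHom).pre (zmultiplesHom S.V ⟨x, hx⟩)).congr fun t => ?_))
    have e' : S.UU G (t • x + x) = _ * S.UU G (t • x) := e (t • (⟨x, hx⟩ : S.V))
    rw [add_one_zsmul, e', E2.lg_exp_mul _ (h0 _), add_sub_cancel_right]
    rfl
  · obtain ⟨P, hP, e⟩ := hcoc S S S' G G G' hG hG hG' rfl hL rfl ha hε _ _ _ (S.diff_mem x) hx
    rw [Setup.Lat, map_nsmul, nsmul_eq_mul] at hN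
    have k : ∀ t : ℤ, t * S.x₁ x ∉ S.L → S'.ed G' (t * S.x₁ x) (t * S.x₁ x) =
        Complex.exp (P t) * S.UU G (t • x) := fun t ht => by rw [e t ht, UU_eq G hx ht]
    rw [Setup.AL, hff.2.1 N _ (fun t => Complex.exp (P t) * S.UU G (t • x)) fun j =>
      ⟨k _ (notin hN h j).1, k _ (notin hN h j).2⟩, hff.1, hff.2.2.1 N P hP, one_mul, Setup.AU]

end Pool.Agent.P.MP_29cb78_nt.F
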