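import Pool.Agent.P.MP_29cb78_nt.F.Basic

/-!
The values with the convention at the lattice points.
-/

namespace Pool.Agent.P.MP_29cb78_nt.F

open E

open Filter Topology
open scoped Classical

noncomputable section

namespace Fb

variable {S : Setup}

lemma np {x : S.A} (h : ¬ S.Lat x) : ¬ S.Pole x := fun hp => h (S.pole_iff.1 hp).1

lemma nz {x : S.A} (h : ¬ S.Lat x) : ¬ S.Zero x := fun hp => h (S.zero_iff.1 hp).1

lemma nM {z : ℂ} (h : z ∉ S.L) : z ∉ S.M := fun hm => h hm.1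

lemma floor_add {z : ℂ} (k : ℤ) : ⌊S.a (z + k * S.lam)⌋ = ⌊S.a z⌋ + k := by
  rw [map_add, S.a_int_mul, S.a_lam, mul_one, Int.floor_add_intCast]

lemma red_add (x : S.A) (i k : ℤ) : S.red (x + i • S.p + k • S.q) = S.red x := by
  have h1 : S.x₁ (x + i • S.p + k • S.q) = S.x₁ x + i * S.lam := by simp
  have h2 : S.x₂ (x + i • S.p + k • S.q) = S.x₂ x + (-k : ℤ) * S.lam := by simp
  rw [Setup.red, Setup.red, h1, h2, floor_add, floor_add]
  module

lemma red_add_p (x : S.A) : S.red (x + S.p) = S.red x := by simpa using red_add x 1 0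

lemma red_add_q (x : S.A) : S.red (x + S.q) = S.red x := by simpa using red_add x 0 1

lemma floor_neg {z : ℂ} (hz : z ∈ S.L) : ⌊S.a (-z)⌋ = -⌊S.a z⌋ := by
  obtain ⟨i, hi⟩ := S.a_exists hz
  rw [map_neg, hi, ← Int.cast_neg, Int.floor_intCast, Int.floor_intCast]

lemma red_neg {x : S.A} (hx : S.Lat x) : S.red (-x) = -S.red x := by
  rw [Setup.red, Setup.red, map_neg, map_neg S.x₂, floor_neg hx, floor_neg (S.lat_iff.1 hx)]
  module

lemma Ω_q {x : S.A} (hx : x ∈ S.Ω) : ¬ S.Pole (x + S.q) ∧ ¬ S.Zero (x + S.q) := by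
  have h1 := (S.mem_M.1 hx.1).2
  have h2 := (S.mem_M.1 hx.2).2
  rw [S.pole_iff, S.zero_iff]
  simp only [map_add, Setup.x₁_q, Setup.x₂_q, map_neg, S.a_lam, map_zero, h1, h2]
  norm_num

lemma Ω_p {x : S.A} (hx : x ∈ S.Ω) : ¬ S.Pole (x + S.p) ∧ ¬ S.Zero (x + S.p) := by
  have h1 := (S.mem_M.1 hx.1).2
  have h2 := (S.mem_M.1 hx.2).2
  rw [S.pole_iff, S.zero_iff]
  simp only [map_add, Setup.x₁_p, Setup.x₂_p, S.a_lam, map_zero, h1, h2]
  norm_num

lemma ratio (hT : S.TH) {G : S.A → ℂ} (hG : S.GH G) {x : S.A} (hx : x ∈ S.Ω) :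
    G (x + S.q) * (S.ε * deriv S.ϑ (S.x₁ x)) = G (x + S.p) * deriv S.ϑ (S.x₂ x) := by
  have a1 := (hG.analyticAt (x + S.q) 0 (by simpa using (Ω_q hx).1)).continuousAt.tendsto
  have a2 := (hG.analyticAt (x + S.p) 0 (by simpa using (Ω_p hx).1)).continuousAt.tendsto
  have d1 : HasDerivAt (fun z => S.ϑ (S.x₁ x + S.ε * z)) (deriv S.ϑ (S.x₁ x) * S.ε) 0 := by
    have h : HasDerivAt (fun z : ℂ => S.x₁ x + S.ε * z) S.ε 0 := by
      simpa using ((hasDerivAt_id (0 : ℂ)).const_mul S.ε).const_add (S.x₁ x)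
    exact HasDerivAt.comp_of_eq 0 (hT.diff _).hasDerivAt h (by simp)
  have d2 : HasDerivAt (fun z => S.ϑ (S.x₂ x + z)) (deriv S.ϑ (S.x₂ x)) 0 :=
    HasDerivAt.comp_const_add _ _ (by simpa using (hT.diff _).hasDerivAt)
  have t1 := (a1.mono_left nhdsWithin_le_nhds).mul d1.tendsto_slope_zero
  have t2 := (a2.mono_left nhdsWithin_le_nhds).mul d2.tendsto_slope_zero
  have z1 := (hT.zero_iff _).2 hx.1
  have z2 := (hT.zero_iff _).2 hx.2
  have := tendsto_nhds_unique_of_eventuallyEq t1 t2 (by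
    filter_upwards [hT.not_pole x one_ne_zero] with z hz
    rw [one_mul] at hz
    have e1 := hG.shp _ hz
    have e2 := hG.shq _ hz
    simp only [Setup.sl, zero_add, mul_zero, add_zero, z1, z2, sub_zero, smul_eq_mul,
      add_right_comm x S.q, add_right_comm x S.p, e1, e2, map_add, Setup.x₁_ι, Setup.x₂_ι]
    ring)
  simp only [Setup.sl_zero] at this
  linear_combination this

lemma χ_T (k : ℤ) : S.χ (k • (S.p - S.q)) = 1 := by
  obtain ⟨j, hj⟩ := S.n_q_odd
  rw [Setup.χ, map_zsmul, map_sub, S.n_p, hj]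
  exact Even.neg_one_zpow ⟨k * -j, by simp only [smul_eq_mul]; ring⟩

lemma diag_red {x : S.A} (hx : S.Diag x) : S.Diag (S.red x) ∧
    x = S.red x + ⌊S.a (S.x₁ x)⌋ • (S.p - S.q) := by
  have h : S.x₂ x = S.x₁ x := hx.symm
  constructor
  · simp [Setup.Diag, Setup.red, h, sub_eq_add_neg]
  · rw [Setup.red, h]; module

lemma raw_aux {G : S.A → ℂ} (hG : S.GH G) {x : S.A} (hx : x ∈ S.Ω) (hd : S.Diag x) (k : ℕ) :
    G (x - (k + 1) • (S.p - S.q) + S.p) = G (x + S.q) := by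
  induction k with
  | zero => congr 1; module
  | succ k ih =>
    have hp : ¬ S.Pole (x - (k + 1) • (S.p - S.q)) := by
      rw [S.pole_iff]
      rintro ⟨-, -, h⟩
      have h2 := (S.mem_M.1 hx.2).2
      simp only [map_sub, map_nsmul, Setup.x₂_p, Setup.x₂_q, map_neg, S.a_lam, map_zero, h2] at h
      simp only [nsmul_eq_mul] at h
      push_cast at h
      linarith [Nat.cast_nonneg (α := ℚ) k]
    have hd' : S.x₁ (x - (k + 1) • (S.p - S.q)) = S.x₂ (x - (k + 1) • (S.p - S.q)) := by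
      have h : S.x₂ x = S.x₁ x := hd.symm
      simp [h]
    rw [← ih, hG.shp _ hp, hd', ← hG.shq _ hp]
    congr 1
    module

lemma int_ind {P : ℤ → Prop} (h0 : P 0) (h : ∀ k, P k ↔ P (k + 1)) (k : ℤ) : P k := by
  induction k using Int.induction_on with
  | zero => exact h0
  | succ k ih => exact (h k).1 ih
  | pred k ih => exact (h _).2 (by simpa using ih)

end Fb

open Fb

theorem fb_thm : S_FB := by
  intro S hT G hG
  have hne : ∀ x, S.fb G x ≠ 0 := by
    intro x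
    rw [Setup.fb]
    split_ifs with h
    · exact hG.ne_zero (Ω_q (S.red_mem h)).1 (Ω_q (S.red_mem h)).2
    · have : ¬ S.Lat (x + S.p) := by rwa [S.lat_add_iff S.lat_p]
      exact hG.ne_zero (np this) (nz this)
  have hshp : ∀ x, ¬ S.Lat x → S.fb G (x + S.p) = S.ϑ (S.x₁ x + S.lam) * S.fb G x := by
    intro x h
    have h' : ¬ S.Lat (x + S.p) := by rwa [S.lat_add_iff S.lat_p]
    rw [Setup.fb, Setup.fb, if_neg h, if_neg h', hG.shp _ (np h')]
    simp
  have hshq : ∀ x, ¬ S.Lat x → S.fb G (x + S.q) = S.ϑ (S.x₂ x) * S.fb G x := by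
    intro x h
    have h' : ¬ S.Lat (x + S.p) := by rwa [S.lat_add_iff S.lat_p]
    have h'' : ¬ S.Lat (x + S.q) := by rwa [S.lat_add_iff S.lat_q]
    rw [Setup.fb, Setup.fb, if_neg h, if_neg h'', add_right_comm, hG.shq _ (np h')]
    simp
  have hlp : ∀ x, S.Lat x → S.fb G (x + S.p) = S.fb G x := by
    intro x h
    rw [Setup.fb, Setup.fb, if_pos h, if_pos (h.add S.lat_p), red_add_p]
  have hlq : ∀ x, S.Lat x → S.fb G (x + S.q) = S.fb G x := by
    intro x h
    rw [Setup.fb, Setup.fb, if_pos h, if_pos (h.add S.lat_q), red_add_q]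
  have hrefl : ∀ x, ¬ S.Lat x →
      S.fb G x * S.fb G (-x) * S.ϑ (S.x₂ x) = S.χ x * S.ϑ (S.x₁ x) := by
    intro x h
    have h' : ¬ S.Lat (x + S.p) := by rwa [S.lat_add_iff S.lat_p]
    have hn : ¬ S.Lat (-x) := fun e => h (by simpa using e.neg)
    have e1 := hG.refl x (np h') (nz h')
    have e2 := hG.shp _ (np hn)
    have e3 := hG.shq _ (np hn)
    rw [map_neg, hT.odd] at e2 e3
    rw [sub_eq_neg_add, e3] at e1
    rw [Setup.fb, Setup.fb, if_neg h, if_neg hn, e2, ← e1]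
    ring
  have hreflL : ∀ x, S.Lat x → S.fb G x * S.fb G (-x) * (S.ε * deriv S.ϑ (S.x₁ (S.red x))) =
      S.χ (S.red x) * deriv S.ϑ (S.x₂ (S.red x)) := by
    intro x h
    have hr := S.red_mem h
    have e1 := hG.refl _ (Ω_p hr).1 (Ω_p hr).2
    have e2 := ratio hT hG hr
    rw [Setup.fb, Setup.fb, if_pos h, if_pos h.neg, red_neg h, ← e1, sub_eq_neg_add]
    linear_combination G (-S.red x + S.q) * e2
  have hT1 : ∀ x, ¬ S.Lat x → S.ϑ (S.x₂ x + S.lam) * S.fb G (x + (S.p - S.q)) =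
      S.ϑ (S.x₁ x + S.lam) * S.fb G x := by
    intro x h
    have h' : ¬ S.Lat (x + (S.p - S.q)) := by rwa [S.lat_add_iff (S.lat_p.sub S.lat_q)]
    have e := hshq _ h'
    rw [show x + (S.p - S.q) + S.q = x + S.p by abel, hshp _ h] at e
    rw [e]
    simp
  have hT2 : ∀ x, S.Lat x → S.fb G (x + (S.p - S.q)) = S.fb G x := by
    intro x h
    rw [← hlq _ (h.add (S.lat_p.sub S.lat_q)), show x + (S.p - S.q) + S.q = x + S.p by abel,
      hlp _ h]
  have hθ : ∀ z, z ∉ S.L → S.ϑ (z + S.lam) ≠ 0 := fun z hz e =>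
    hz (by simpa using S.L.sub_mem ((hT.zero_iff _).1 e).1 S.lam_mem)
  have htsh1 : ∀ x y, S.x₁ y = S.x₂ x → S.x₂ y = S.x₁ x →
      S.fb G (x + (S.p - S.q)) * S.fb G (y + (S.p - S.q)) = S.fb G x * S.fb G y := by
    intro x y h1 h2
    by_cases h : S.Lat x
    · rw [hT2 x h, hT2 y (S.lat_iff.2 (h2 ▸ h))]
    · have hy : ¬ S.Lat y := fun e => h (by rw [Setup.Lat, ← h2]; exact S.lat_iff.1 e)
      have e1 := hT1 x h
      have e2 := hT1 y hy
      rw [h1, h2] at e2
      apply mul_left_cancel₀ (mul_ne_zero (hθ _ h) (hθ _ fun e => h (S.lat_iff.2 e)))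
      linear_combination (S.ϑ (S.x₁ x + S.lam) * S.fb G (y + (S.p - S.q))) * e1 +
        (S.ϑ (S.x₁ x + S.lam) * S.fb G x) * e2
  have htshD1 : ∀ x, S.Diag x → S.fb G (x + (S.p - S.q)) = S.fb G x := by
    intro x hd
    by_cases h : S.Lat x
    · exact hT2 x h
    · have e1 := hT1 x h
      rw [← show S.x₁ x = S.x₂ x from hd] at e1
      exact mul_left_cancel₀ (hθ _ h) e1
  refine ⟨hne, hshp, hshq, hlp, hlq, hrefl, hreflL, ?_, ?_, ?_, ?_⟩
  · intro x hd
    split_ifs with h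
    · obtain ⟨d1, d2⟩ := diag_red hd
      have e := hreflL x h
      rw [← show S.x₁ (S.red x) = S.x₂ (S.red x) from d1] at e
      have hχ : S.χ x = S.χ (S.red x) := by
        conv_lhs => rw [d2, S.χ_add, χ_T, mul_one]
      have h1 := hT.deriv_ne _ (S.red_mem h).1
      have h2 := S.ε_ne
      rw [hχ]
      field_simp
      apply mul_right_cancel₀ h1
      linear_combination e
    · have e := hrefl x h
      rw [← show S.x₁ x = S.x₂ x from hd] at e
      rw [mul_one]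
      exact mul_right_cancel₀ (fun e => nM h ((hT.zero_iff _).1 e)) e
  · intro x hd hx
    rw [Setup.fb]
    split_ifs with h
    · obtain ⟨d1, d2⟩ := diag_red hd
      have hneg : ⌊S.a (S.x₁ x)⌋ < 0 := by
        have := hx h
        rw [← S.a_int h] at this
        exact_mod_cast this
      obtain ⟨k, hk⟩ := Int.eq_ofNat_of_zero_le (a := -⌊S.a (S.x₁ x)⌋ - 1) (by omega)
      rw [← raw_aux hG (S.red_mem h) d1 k]
      congr 1
      conv_lhs => rw [d2, show ⌊S.a (S.x₁ x)⌋ = -((k + 1 : ℕ) : ℤ) by omega]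
      rw [neg_zsmul, natCast_zsmul, sub_eq_add_neg (S.red x)]
    · rfl
  · intro x k hd
    refine int_ind (P := fun k => S.fb G (x + k • (S.p - S.q)) = S.fb G x) (by simp) (fun k => ?_) k
    have := htshD1 (x + k • (S.p - S.q)) (by
      have h : S.x₂ x = S.x₁ x := hd.symm
      simp [Setup.Diag, h])
    rw [add_zsmul, one_zsmul, ← add_assoc, this]
  · intro x y k h1 h2
    refine int_ind (P := fun k => S.fb G (x + k • (S.p - S.q)) * S.fb G (y + k • (S.p - S.q)) =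
      S.fb G x * S.fb G y) (by simp) (fun k => ?_) k
    have := htsh1 (x + k • (S.p - S.q)) (y + k • (S.p - S.q)) (by simp [h1]) (by simp [h2])
    rw [add_zsmul, one_zsmul, ← add_assoc, ← add_assoc, this]

end

end Pool.Agent.P.MP_29cb78_nt.F
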