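import Pool.Agent.P.MP_29cb78_nt.F.Basic

/-!
The second difference equation up to a quadratic exponential.
-/

namespace Pool.Agent.P.MP_29cb78_nt.F

open E

open Filter Topology

namespace Ghq

variable {S : Setup}

/-- Continuous on every component. -/
def Ct (S : Setup) (f : S.A → ℂ) : Prop := ∀ x, Continuous fun z => f (x + S.ι z)

lemma ct {f : S.A → ℂ} (h : S.ExpQ f) : Ct S f := fun x => by
  obtain ⟨a, b, c, e⟩ := h x
  simp only [e]
  fun_prop

lemma ne {f : S.A → ℂ} (h : S.ExpQ f) (x : S.A) : f x ≠ 0 := by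
  obtain ⟨a, b, c, e⟩ := h x
  have := e 0
  rw [map_zero, add_zero] at this
  rw [this]
  exact Complex.exp_ne_zero _

lemma Ct.mul {f g : S.A → ℂ} (h : Ct S f) (k : Ct S g) : Ct S fun x => f x * g x :=
  fun x => (h x).mul (k x)

lemma Ct.neg {f : S.A → ℂ} (h : Ct S f) : Ct S fun x => -f x := fun x => (h x).neg

lemma Ct.add {f : S.A → ℂ} (h : Ct S f) (y : S.A) : Ct S fun x => f (x + y) := fun x => by
  simpa only [add_right_comm _ y] using h (x + y)

lemma Ct.sub {f : S.A → ℂ} (h : Ct S f) (y : S.A) : Ct S fun x => f (y - x) := fun x => by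
  have := (h (y - x)).comp continuous_neg
  refine this.congr fun z => ?_
  simp only [Function.comp, map_neg]
  congr 1
  abel

/-- Generic points. -/
def Gnr (S : Setup) (x : S.A) : Prop := S.x₁ x ∉ S.M ∧ S.x₂ x ∉ S.M ∧
  ¬ S.Pole (S.p + S.q + x) ∧ ¬ S.Pole (S.p + S.q - x)

lemma ext (T : S.TH) {f g : S.A → ℂ} (hf : Ct S f) (hg : Ct S g) (h : ∀ x, Gnr S x → f x = g x)
    (x : S.A) : f x = g x := by
  have := tendsto_nhds_unique_of_eventuallyEq (l := 𝓝[≠] (0 : ℂ))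
    (((hf x).tendsto 0).mono_left nhdsWithin_le_nhds)
    (((hg x).tendsto 0).mono_left nhdsWithin_le_nhds) (by
      filter_upwards [T.disc_affine (S.x₁ x) S.ε_ne, T.disc_affine (S.x₂ x) one_ne_zero,
        T.not_pole_add (S.p + S.q) x, T.not_pole_sub (S.p + S.q) x] with z h1 h2 h3 h4
      exact h _ ⟨by simpa using h1, by simpa using h2, h3, h4⟩)
  simpa using this

lemma rw2 (D : S.DN) (x : S.A) (h : ¬ S.Pole (S.p + S.q + x)) :
    S.Rw S.p (x + S.p) * S.Rw S.q x = S.Rw S.q (x + S.q) * S.Rw S.p x := by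
  have a := D.shp x
  have b := D.shq x
  rw [D.shq (x + S.p), show x + S.p + S.q = S.p + S.q + x by abel] at a
  rw [D.shp (x + S.q), show x + S.q + S.p = S.p + S.q + x by abel] at b
  refine mul_left_cancel₀ (mt (D.zero_iff _).1 h) ?_
  linear_combination b - a

lemma th2 (D : S.DN) {x : S.A} (h : Gnr S x) :
    S.θw S.p (x + S.p) * S.θw S.q x = S.θw S.q (x + S.q) * S.θw S.p x := by
  have a := rw2 D x h.2.2.1
  have b := rw2 D (-x) (by rw [← sub_eq_add_neg]; exact h.2.2.2)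
  simp only [Setup.θw, sub_add_cancel_right, neg_add_eq_sub] at b ⊢
  linear_combination (S.Rw S.p (-x) * S.Rw S.q (S.q - x)) * a -
    (S.Rw S.q (x + S.q) * S.Rw S.p x) * b

/-- The period part of a point. -/
noncomputable def mx (S : Setup) : S.A →+ ℂ :=
  AddMonoidHom.mk' (fun x => S.x₁ x - S.ε * S.x₂ x - S.n x * S.lam) fun x y => by
    simp only [map_add]
    push_cast
    ring

lemma mx_def (x : S.A) : mx S x = S.x₁ x - S.ε * S.x₂ x - S.n x * S.lam := rfl

/-- A symmetric biadditive map. -/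
def bil (F : S.A → S.A → ℂ) (h1 : ∀ x y z, F x (y + z) = F x y + F x z)
    (h2 : ∀ x y, F x y = F y x) : S.A →+ S.A →+ ℂ :=
  AddMonoidHom.mk' (fun x => AddMonoidHom.mk' (F x) (h1 x)) fun x y => by
    ext z
    change F (x + y) z = F x z + F y z
    rw [h2, h1, h2 z, h2 z]

lemma fin (R : S.A → ℂ) (B : ℂ →+ ℂ →+ ℂ) (hB : ∀ x y, B x y = B y x) (k : ℂ)
    (h0 : ∃ c₀ c₁ c₂ : ℂ, ∀ z, R (S.ι z) = Complex.exp (c₀ + c₁ * z + c₂ * z ^ 2))
    (h1 : ∀ x, R (x + S.p) = R x) (h2 : ∀ x, R (S.p - x) = R x)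
    (h3 : ∀ m ∈ S.M, ∀ x, R (x + S.pt m 0) =
      Complex.exp (k * (S.η m * (S.x₁ x - S.n x * S.lam) + B m m)) * R x) :
    ∃ (b : S.A →+ S.A →+ ℂ) (c : ℂ), (∀ x y, b x y = b y x) ∧ (∀ x, b S.p x = 0) ∧
      (∃ l : S.A → ℂ, ∀ z y, b (S.ι z) y = z * l y) ∧ ∀ x, R x = Complex.exp (b x x + c) := by
  obtain ⟨c₀, c₁, c₂, e⟩ := h0
  have z1 : c₁ = 0 := by
    by_contra hc
    have a := h2 (S.ι (Real.pi * Complex.I / (2 * c₁)))
    rw [sub_eq_neg_add, h1, ← map_neg, e, e, ← div_eq_one_iff_eq (Complex.exp_ne_zero _),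
      ← Complex.exp_sub, show c₀ + c₁ * -(Real.pi * Complex.I / (2 * c₁)) +
        c₂ * (-(Real.pi * Complex.I / (2 * c₁))) ^ 2 - (c₀ + c₁ * (Real.pi * Complex.I / (2 * c₁)) +
        c₂ * (Real.pi * Complex.I / (2 * c₁)) ^ 2) = -(Real.pi * Complex.I) by field_simp; ring,
      Complex.exp_neg, Complex.exp_pi_mul_I] at a
    norm_num at a
  have hz : ∀ (j : ℤ) x, R (x + j • S.p) = R x := fun j x =>
    (Function.Periodic.zsmul (f := R) (c := S.p) h1 j) x
  have sy : ∀ x y, c₂ * S.x₂ x * S.x₂ y + k * (S.ε * (S.η (mx S x) * S.x₂ y +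
      S.η (mx S y) * S.x₂ x) / 2 + B (mx S x) (mx S y)) = c₂ * S.x₂ y * S.x₂ x +
      k * (S.ε * (S.η (mx S y) * S.x₂ x + S.η (mx S x) * S.x₂ y) / 2 + B (mx S y) (mx S x)) :=
    fun x y => by rw [hB]; ring
  refine ⟨bil (fun x y => c₂ * S.x₂ x * S.x₂ y + k * (S.ε * (S.η (mx S x) * S.x₂ y +
      S.η (mx S y) * S.x₂ x) / 2 + B (mx S x) (mx S y))) (fun x y z => by
        simp only [map_add]; ring) sy, c₀, sy, fun x => ?_,
      ⟨fun y => c₂ * S.x₂ y + k * S.ε * S.η (mx S y) / 2, fun z y => ?_⟩, fun x => ?_⟩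
  · have : mx S S.p = 0 := by simp [mx_def]
    simp [bil, this]
  · have : mx S (S.ι z) = 0 := by simp [mx_def]
    simp only [bil, AddMonoidHom.mk'_apply, this, map_zero, Setup.x₂_ι, AddMonoidHom.zero_apply]
    ring
  · obtain ⟨m, hm, hx⟩ := S.exists_p x
    have em : mx S x = m := by
      have := congrArg S.x₁ hx
      simp only [map_add, map_zsmul, (S.pt_mem_Ω hm S.M.zero_mem).2.1, Setup.x₁_ι, Setup.x₁_p,
        zsmul_eq_mul] at this
      rw [mx_def, this]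
      ring
    conv_lhs => rw [hx, h3 m hm, hz, e, ← Complex.exp_add]
    simp only [bil, AddMonoidHom.mk'_apply, em, z1, map_add, map_zsmul, Setup.x₁_ι, Setup.x₁_p,
      Setup.n_ι, Setup.n_p, zsmul_eq_mul]
    congr 1
    push_cast
    ring

end Ghq

open Ghq in
theorem ghq_thm (hthq : S_THQ) (hthp : S_THP) (hrho : S_RHO) : S_GHQ := by
  intro S T D nc ψ P hr
  obtain ⟨gq, q1, q2⟩ := hthq S T
  obtain ⟨gp, p1, p2⟩ := hthp S T
  obtain ⟨B, B1, B2⟩ := T.quad
  have rho := hrho S T D nc ψ P B B2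
  have nψ := ne P.expq
  have np := ne p1
  have nq := ne q1
  have cψ := ct P.expq
  have cp := ct p1
  have cq := ct q1
  have t1 : ∀ {x}, Gnr S x → S.ϑ (S.x₁ x) ≠ 0 := fun h => mt (T.zero_iff _).1 h.1
  have t2 : ∀ {x}, Gnr S x → S.ϑ (S.x₂ x) ≠ 0 := fun h => mt (T.zero_iff _).1 h.2.1
  have u1 : ∀ {x}, Gnr S x → S.θw S.q x ≠ 0 := fun h =>
    right_ne_zero_of_mul (q2 _ ▸ t1 h)
  have u2 : ∀ {x}, Gnr S x → S.θw S.p x ≠ 0 := fun h =>
    right_ne_zero_of_mul (p2 _ ▸ t2 h)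
  have a1 : ∀ x, ψ (x + S.p) = gq x * ψ x := ext T (cψ.add _) (cq.mul cψ) fun x h => by
    refine mul_right_cancel₀ (u1 h) ?_
    rw [P.shp, q2]
    ring
  have a2 : ∀ x, gq (x + S.q) * gp x = gq x * gp (x + S.p) :=
    ext T ((cq.add _).mul cp) (cq.mul (cp.add _)) fun x h => by
      have e1 := q2 (x + S.q)
      have e2 := p2 (x + S.p)
      rw [map_add, S.x₁_q, add_zero, q2] at e1
      rw [map_add, S.x₂_p, add_zero, p2] at e2
      have n1 : S.θw S.q (x + S.q) ≠ 0 :=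
        right_ne_zero_of_mul (e1 ▸ mul_ne_zero (nq x) (u1 h))
      refine mul_right_cancel₀ (mul_ne_zero n1 (u2 h)) ?_
      linear_combination (gq x * gp (x + S.p)) * th2 D h - (gp x * S.θw S.p x) * e1 +
        (gq x * S.θw S.q x) * e2
  have a3 : ∀ x, gp (S.p - x) = -gp x := ext T (cp.sub _) cp.neg fun x h => by
    have e := p2 (S.p - x)
    rw [map_sub, S.x₂_p, zero_sub, T.odd, p2, show S.θw S.p (S.p - x) = S.θw S.p x by
      rw [Setup.θw, Setup.θw, sub_sub_cancel, mul_comm]] at e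
    refine mul_right_cancel₀ (u2 h) ?_
    linear_combination -e
  have a4 : ∀ m ∈ S.M, ∀ x, gp (x + S.pt m 0) = gp x := fun m hm =>
    ext T (cp.add _) cp fun x h => by
      obtain ⟨h0, -, h2⟩ := S.pt_mem_Ω hm S.M.zero_mem
      have e := p2 (x + S.pt m 0)
      rw [map_add, h2, add_zero, D.θper _ h0, p2] at e
      exact (mul_right_cancel₀ (u2 h) e).symm
  refine (fin (fun x => ψ (x + S.q) / (ψ x * gp x)) B B1 (S.n S.q) ?_
    (fun x => ?_) (fun x => ?_) fun m hm x => ?_).imp fun b => Exists.imp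
      fun c ⟨b1, b2, b3, b4⟩ => ⟨b1, b2, b3, fun x => by
        have := nψ x
        have := np x
        rw [← b4, p2]
        field_simp⟩
  · obtain ⟨a, a', a'', e1⟩ := P.expq S.q
    obtain ⟨b, b', b'', e2⟩ := P.expq 0
    obtain ⟨c, c', c'', e3⟩ := p1 0
    refine ⟨a - b - c, a' - b' - c', a'' - b'' - c'', fun z => ?_⟩
    have f2 := e2 z
    have f3 := e3 z
    rw [zero_add] at f2 f3
    simp only [add_comm (S.ι z), e1, f2, f3, ← Complex.exp_add, ← Complex.exp_sub]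
    congr 1
    ring
  · simp only [add_right_comm x S.p, a1]
    rw [div_eq_div_iff (mul_ne_zero (mul_ne_zero (nq _) (nψ _)) (np _))
      (mul_ne_zero (nψ _) (np _))]
    linear_combination (ψ (x + S.q) * ψ x) * a2 x
  · have e1 := hr x
    have e2 := hr (x + S.q)
    obtain ⟨k, hk⟩ := S.n_q_odd
    rw [show S.p + S.q - (x + S.q) = S.p - x by abel, map_add, add_sub_right_comm,
      zpow_add₀ (by norm_num), ← e1, hk, Odd.neg_one_zpow ⟨k, rfl⟩] at e2
    simp only [a3, sub_add_eq_add_sub]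
    rw [div_eq_div_iff (mul_ne_zero (nψ _) (neg_ne_zero.2 (np _))) (mul_ne_zero (nψ _) (np _))]
    linear_combination gp x * e2
  · have cen : (nc : ℂ) = (1 + S.n S.q) / 2 := by
      have : ((2 * nc : ℤ) : ℂ) = (1 + S.n S.q : ℤ) := congrArg _ P.cen
      push_cast at this
      linear_combination this / 2
    simp only [add_right_comm x (S.pt m 0), rho m hm, a4 m hm]
    rw [mul_assoc (Complex.exp _), mul_div_mul_comm, ← Complex.exp_sub]
    congr 2
    simp only [map_add, S.x₁_q]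
    push_cast
    rw [cen]
    ring

end Pool.Agent.P.MP_29cb78_nt.F
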