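import Pool.Agent.P.MP_29cb78_nt.F.ThAux1

/-! The basic properties of the theta function. -/

namespace Pool.Agent.P.MP_29cb78_nt.F

open E

open Filter Topology Set
open scoped Classical Real

noncomputable section

namespace Th

variable (S : Setup)

/-- The second coordinate on `M`. -/
def cb : ℂ →+ ℂ := AddMonoidHom.mk' (fun x => -(S.a (x / S.ε) : ℂ) / S.s) fun x y => by
  simp only [add_div, map_add]
  push_cast
  ring

/-- The first coordinate on `M`. -/
def ca : ℂ →+ ℂ := AddMonoidHom.mk' (fun x => (x - cb S x * S.β) / S.γ) fun x y => by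
  simp only [map_add]
  ring

theorem cb_comb (j k : ℤ) : cb S (j * S.γ + k * S.β) = k := by
  have h : (j * S.γ + k * S.β) / S.ε = j * (S.γ / S.ε) + k * (S.β / S.ε) := by ring
  have := S.s_ne
  change -(S.a (_ / S.ε) : ℂ) / S.s = k
  rw [h, map_add, S.a_int_mul, S.a_int_mul, S.a_γε, S.a_βε]
  push_cast
  field_simp
  ring

theorem ca_comb (j k : ℤ) : ca S (j * S.γ + k * S.β) = j := by
  have := S.γ_ne
  change (_ - cb S _ * S.β) / S.γ = j
  rw [cb_comb]
  field_simp
  ring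

theorem η_eq (x : ℂ) : S.η x = -(2 * π * Complex.I) * cb S x / S.γ := by
  change 2 * π * Complex.I * S.a (x / S.ε) / (S.s * S.γ) =
    -(2 * π * Complex.I) * (-(S.a (x / S.ε) : ℂ) / S.s) / S.γ
  ring

/-- The quadratic form in the multiplier. -/
def B : ℂ →+ ℂ →+ ℂ := AddMonoidHom.mk' (fun x => AddMonoidHom.mk' (fun y =>
    (S.η x * y + S.η y * x) / 4 + π * Complex.I * (ca S x * ca S y + cb S x * cb S y +
      (ca S x * cb S y + ca S y * cb S x) / 2)) fun y z => by
  simp only [map_add]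
  ring) fun x y => by
  ext z
  simp only [map_add, AddMonoidHom.mk'_apply, AddMonoidHom.add_apply]
  ring

theorem B_apply (x y : ℂ) : B S x y =
    (S.η x * y + S.η y * x) / 4 + π * Complex.I * (ca S x * ca S y + cb S x * cb S y +
      (ca S x * cb S y + ca S y * cb S x) / 2) := rfl

theorem B_symm (x y : ℂ) : B S x y = B S y x := by
  rw [B_apply, B_apply]; ring

theorem B_int {m m' : ℂ} (hm : m ∈ S.M) (hm' : m' ∈ S.M) :
    Complex.exp (2 * B S m m') = Complex.exp (S.η m * m') := by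
  obtain ⟨j, k, rfl⟩ := S.mem_M_iff.1 hm
  obtain ⟨j', k', rfl⟩ := S.mem_M_iff.1 hm'
  have := S.γ_ne
  rw [Complex.exp_eq_exp_iff_exists_int]
  refine ⟨k * j' + j * j' + k * k', ?_⟩
  rw [B_apply, η_eq, η_eq, ca_comb, ca_comb, cb_comb, cb_comb]
  push_cast
  field_simp
  ring

theorem cocycle {m m' : ℂ} (hm : m ∈ S.M) (hm' : m' ∈ S.M) (z : ℂ) :
    Complex.exp (S.η (m + m') * z + B S (m + m') (m + m')) =
      Complex.exp (S.η m * (z + m') + B S m m) * Complex.exp (S.η m' * z + B S m' m') := by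
  have h : S.η (m + m') * z + B S (m + m') (m + m') =
      (S.η m * z + B S m m + (S.η m' * z + B S m' m')) + 2 * B S m m' := by
    simp only [map_add, AddMonoidHom.add_apply, B_symm S m' m]
    ring
  rw [h, Complex.exp_add, B_int S hm hm', ← Complex.exp_add, ← Complex.exp_add]
  congr 1
  ring

/-- The periods for which the transformation law holds. -/
def K : AddSubgroup ℂ where
  carrier := {m | m ∈ S.M ∧ ∀ z, S.ϑ (z + m) = Complex.exp (S.η m * z + B S m m) * S.ϑ z}
  zero_mem' := ⟨S.M.zero_mem, by simp⟩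
  add_mem' := fun {m m'} hm hm' => ⟨S.M.add_mem hm.1 hm'.1, fun z => by
    rw [cocycle S hm.1 hm'.1, add_comm m, ← add_assoc, hm.2, hm'.2, mul_assoc]⟩
  neg_mem' := fun {m} hm => ⟨S.M.neg_mem hm.1, fun z => by
    have h1 := hm.2 (z + -m)
    have h2 := cocycle S hm.1 (S.M.neg_mem hm.1) z
    rw [neg_add_cancel_right] at h1
    rw [add_neg_cancel, map_zero, map_zero, zero_mul, add_zero, Complex.exp_zero] at h2
    rw [h1]
    linear_combination S.ϑ (z + -m) * h2⟩

theorem γ_mem_K : S.γ ∈ K S := by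
  refine ⟨S.γ_mem, fun z => ?_⟩
  have hγ := S.γ_ne
  have h1 : ca S S.γ = 1 := by simpa using ca_comb S 1 0
  have h2 : cb S S.γ = 0 := by simpa using cb_comb S 1 0
  have h3 : (z + S.γ) / S.γ = z / S.γ + (1 : ℤ) := by push_cast; field_simp
  have h4 : -(z + S.γ) / (2 * S.γ) = -z / (2 * S.γ) + -(1 / 2) := by field_simp; ring
  rw [Setup.ϑ, Setup.ϑ, h3, h4, th0_int S.βγ_pos, ee_add, ee_neg_half, B_apply, η_eq, h1, h2]
  simp [Complex.exp_pi_mul_I]

theorem β_mem_K : S.β ∈ K S := by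
  refine ⟨S.β_mem, fun z => ?_⟩
  have hγ := S.γ_ne
  have h1 : ca S S.β = 0 := by simpa using ca_comb S 0 1
  have h2 : cb S S.β = 1 := by simpa using cb_comb S 0 1
  have h3 : S.η S.β * z + B S S.β S.β = π * Complex.I +
      2 * π * Complex.I * (-S.β / (2 * S.γ)) + 2 * π * Complex.I * -(z / S.γ) := by
    rw [B_apply, η_eq, h1, h2]
    field_simp
    ring
  have h4 : -(z + S.β) / (2 * S.γ) = -z / (2 * S.γ) + -S.β / (2 * S.γ) := by ring
  rw [Setup.ϑ, Setup.ϑ, add_div, h4, th0_tau S.βγ_pos, ee_add, h3, Complex.exp_add,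
    Complex.exp_add, Complex.exp_pi_mul_I, ← ee, ← ee]
  ring

theorem shift {m : ℂ} (hm : m ∈ S.M) (z : ℂ) :
    S.ϑ (z + m) = Complex.exp (S.η m * z + B S m m) * S.ϑ z := by
  obtain ⟨j, k, rfl⟩ := S.mem_M_iff.1 hm
  have := (K S).add_mem ((K S).zsmul_mem (γ_mem_K S) j) ((K S).zsmul_mem (β_mem_K S) k)
  simp only [zsmul_eq_mul] at this
  exact this.2 z

theorem diff : Differentiable ℂ S.ϑ := by
  have h := th0_diff S.βγ_pos
  have h2 : Differentiable ℂ fun z => th0 (z / S.γ) (S.β / S.γ) := h.comp (by fun_prop)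
  unfold Setup.ϑ
  fun_prop

theorem odd (z : ℂ) : S.ϑ (-z) = -S.ϑ z := by
  have hγ := S.γ_ne
  have h : ee (- -z / (2 * S.γ)) * ee (-(z / S.γ)) = ee (-z / (2 * S.γ)) := by
    rw [← ee_add]; congr 1; field_simp; ring
  rw [Setup.ϑ, Setup.ϑ, neg_div S.γ, th0_neg S.βγ_pos, ← h]
  ring

theorem zero_iff (z : ℂ) : S.ϑ z = 0 ↔ z ∈ S.M := by
  have hγ := S.γ_ne
  rw [Setup.ϑ, mul_eq_zero, or_iff_right (ee_ne _), th0_eq_zero S.βγ_pos, S.mem_M_iff]
  refine exists_congr fun j => exists_congr fun k => ?_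
  rw [div_eq_iff hγ, add_mul, mul_assoc, div_mul_cancel₀ _ hγ]

theorem deriv_zero : deriv S.ϑ 0 ≠ 0 := by
  have hγ := S.γ_ne
  have h1 : HasDerivAt (fun z => th0 (z / S.γ) (S.β / S.γ)) _ 0 :=
    (th0_hasDerivAt S.βγ_pos).comp_of_eq 0 ((hasDerivAt_id (0 : ℂ)).div_const S.γ) (by simp)
  have h2 : DifferentiableAt ℂ (fun z => ee (-z / (2 * S.γ))) 0 := by fun_prop
  have h3 : HasDerivAt S.ϑ _ 0 := h2.hasDerivAt.mul h1
  have h4 : th0 (0 / S.γ) (S.β / S.γ) = 0 := (th0_eq_zero S.βγ_pos).2 ⟨0, 0, by simp⟩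
  rw [h3.deriv, h4]
  have := G_ne S.βγ_pos S.βγ_pos
  simp [ee_ne, Real.pi_ne_zero, *]

theorem deriv_eq {m : ℂ} (hm : m ∈ S.M) :
    deriv S.ϑ m = Complex.exp (B S m m) * deriv S.ϑ 0 := by
  have h1 : (fun z => S.ϑ (z + m)) = fun z => Complex.exp (S.η m * z + B S m m) * S.ϑ z :=
    funext (shift S hm)
  have h2 := congrArg (deriv · 0) h1
  simp only [deriv_comp_add_const, zero_add] at h2
  rw [h2, deriv_fun_mul (by fun_prop) (diff S 0), (zero_iff S 0).2 S.M.zero_mem]
  simp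

theorem mult_eq {m : ℂ} (hm : m ∈ S.M) (z : ℂ) :
    S.mult m z = Complex.exp (S.η m * z + B S m m) := by
  rw [Setup.mult, deriv_eq S hm, mul_div_cancel_right₀ _ (deriv_zero S), Complex.exp_add, mul_comm]

theorem liou (f : ℂ → ℂ) (hf : Differentiable ℂ f) (h : ∀ m ∈ S.M, ∀ z, f (z + m) = f z)
    (z u : ℂ) : f z = f u := by
  have hγ := S.γ_ne
  have hτ := S.βγ_pos
  have hc : IsCompact ((fun p : ℝ × ℝ => f (p.1 * S.γ + p.2 * S.β)) '' (Icc 0 1 ×ˢ Icc 0 1)) :=
    (isCompact_Icc.prod isCompact_Icc).image (hf.continuous.comp (by fun_prop))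
  refine hf.apply_eq_apply_of_bounded (hc.isBounded.subset ?_) z u
  rintro _ ⟨w, rfl⟩
  obtain ⟨x, y, rfl⟩ : ∃ x y : ℝ, w = x * S.γ + y * S.β := by
    refine ⟨(w / S.γ).re - (w / S.γ).im / (S.β / S.γ).im * (S.β / S.γ).re,
      (w / S.γ).im / (S.β / S.γ).im, ?_⟩
    have : ∀ (x y : ℝ), w / S.γ = x + y * (S.β / S.γ) → w = x * S.γ + y * S.β := fun x y e => by
      rw [div_eq_iff hγ] at e
      rw [e]; field_simp
    apply this
    generalize w / S.γ = v
    generalize S.β / S.γ = τ at hτ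
    apply Complex.ext
    · simp only [Complex.add_re, Complex.ofReal_re, Complex.re_ofReal_mul]; ring
    · simp only [Complex.add_im, Complex.ofReal_im, Complex.im_ofReal_mul]; field_simp; ring
  refine ⟨(Int.fract x, Int.fract y), ⟨⟨Int.fract_nonneg _, (Int.fract_lt_one _).le⟩,
    Int.fract_nonneg _, (Int.fract_lt_one _).le⟩, ?_⟩
  refine (h _ (S.mem_M_iff.2 ⟨⌊x⌋, ⌊y⌋, rfl⟩) _).symm.trans ?_
  congr 1
  simp only [Int.fract]
  push_cast
  ring

theorem disc (z : ℂ) : ∀ᶠ u in 𝓝[≠] z, u ∉ S.M := by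
  rcases ((diff S).analyticAt z).eventually_eq_zero_or_eventually_ne_zero with h | h
  · have h1 : AnalyticOnNhd ℂ S.ϑ univ := fun x _ => (diff S).analyticAt x
    have h2 : S.ϑ = fun _ => 0 := funext fun x =>
      h1.eqOn_zero_of_preconnected_of_eventuallyEq_zero isPreconnected_univ (mem_univ z) h
        (mem_univ x)
    exact absurd (by rw [h2]; simp) (deriv_zero S)
  · exact h.mono fun u hu hM => hu ((zero_iff S u).2 hM)

end Th

theorem th_thm : S_TH := fun S =>
  { diff := Th.diff S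
    odd := Th.odd S
    zero_iff := Th.zero_iff S
    deriv_ne := fun m hm => by
      rw [Th.deriv_eq S hm]
      exact mul_ne_zero (Complex.exp_ne_zero _) (Th.deriv_zero S)
    shift := fun m hm z => by rw [Th.mult_eq S hm, Th.shift S hm]
    mult_ne := fun m hm z => by rw [Th.mult_eq S hm]; exact Complex.exp_ne_zero _
    mult_sq := fun m hm z => by
      rw [Th.mult_eq S hm, mul_add, Complex.exp_add (S.η m * (2 * z)), ← Th.B_int S hm hm,
        ← Complex.exp_nat_mul, ← Complex.exp_add]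
      congr 1
      push_cast
      ring
    mult_two := fun m hm z => by
      rw [Th.mult_eq S hm, two_mul m, Th.mult_eq S (S.M.add_mem hm hm), ← Complex.exp_nat_mul]
      congr 1
      simp only [map_add, AddMonoidHom.add_apply]
      push_cast
      ring
    quad := ⟨Th.B S, Th.B_symm S, fun m hm z => Th.mult_eq S hm z⟩
    liou := Th.liou S
    disc := Th.disc S }

end

end Pool.Agent.P.MP_29cb78_nt.F
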