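import Pool.Agent.P.MP_29cb78_nt.F.ThAux1

/-! The theta product in the direction of `q`. -/

namespace Pool.Agent.P.MP_29cb78_nt.F

open E

open Filter Topology
open scoped Classical Real

noncomputable section

namespace Thq

variable (S : Setup)

theorem Rw_eq (c x : S.A) (ℓ : S.A →+ ℤ) (hc : ℓ c = 1)
    (hℓ : ∀ y, (S.s : ℤ) ∣ S.ν y ↔ (S.s : ℤ) ∣ ℓ y) {i : ℕ} (hi : i < S.s)
    (hx : (S.s : ℤ) ∣ ℓ x + i) : S.Rw c x = Th.G (S.s * S.w c) (S.w x + i * S.w c) := by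
  have hs := S.s_pos
  have hinj : Function.Injective fun j : ℕ => i + S.s * j := fun j k h => by
    simpa [hs.ne'] using h
  have hl : ∀ k : ℕ, ℓ (x + k • c) = ℓ x + k := fun k => by simp [hc]
  rw [Setup.Rw, ← hinj.tprod_eq, Th.G]
  · congr 1
    ext j
    rw [Setup.Ex, if_pos]
    · simp only [map_add, map_nsmul, nsmul_eq_mul]
      push_cast
      congr 2
      ring
    · rw [hℓ, hl]
      push_cast
      rw [← add_assoc]
      exact hx.add (Dvd.intro _ rfl)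
  · intro k hk
    have h1 : (S.s : ℤ) ∣ ℓ x + k := by
      by_contra h
      apply hk
      simp only
      rw [Setup.Ex, if_neg (by rwa [hℓ, hl]), sub_zero]
    obtain ⟨j, hj⟩ : (S.s : ℤ) ∣ (k : ℤ) - i := by simpa using h1.sub hx
    have h2 : 0 ≤ j := by
      by_contra h
      have h3 : (S.s : ℤ) * j ≤ S.s * (-1) := Int.mul_le_mul_of_nonneg_left (by omega) (by omega)
      omega
    obtain ⟨j, rfl⟩ := Int.eq_ofNat_of_zero_le h2
    refine ⟨j, ?_⟩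
    apply Nat.cast_injective (R := ℤ)
    push_cast
    omega

theorem θw_eq (c x : S.A) (ℓ : S.A →+ ℤ) (hc : ℓ c = 1)
    (hℓ : ∀ y, (S.s : ℤ) ∣ S.ν y ↔ (S.s : ℤ) ∣ ℓ y) (hτ : 0 < ((S.s : ℂ) * S.w c).im) :
    ∃ i : ℕ, ℓ x + i = S.s * -(-ℓ x / S.s) ∧
      S.θw c x = th0 (S.w x + i * S.w c) (S.s * S.w c) := by
  have hs : (0 : ℤ) < S.s := by exact_mod_cast S.s_pos
  obtain ⟨i, hi⟩ := Int.eq_ofNat_of_zero_le (Int.emod_nonneg (-ℓ x) hs.ne')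
  have h1 : i < S.s := by
    have := Int.emod_lt_of_pos (-ℓ x) hs
    rw [hi] at this
    exact_mod_cast this
  have h2 : ℓ x + i = S.s * -(-ℓ x / S.s) := by
    have := Int.mul_ediv_add_emod (-ℓ x) S.s
    rw [hi] at this
    linear_combination this
  obtain ⟨k, hk⟩ : ∃ k : ℕ, S.s = i + k + 1 := ⟨S.s - i - 1, by omega⟩
  have hk' : (S.s : ℤ) = i + k + 1 := by exact_mod_cast hk
  have hk'' : (S.s : ℂ) = i + k + 1 := by exact_mod_cast hk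
  refine ⟨i, h2, ?_⟩
  rw [Setup.θw, Th.th0_eq hτ, Rw_eq S c x ℓ hc hℓ h1 (Dvd.intro _ h2.symm),
    Rw_eq S c (c - x) ℓ hc hℓ (i := k) (by omega) ⟨1 + -ℓ x / S.s, by
      rw [map_sub, hc]; linear_combination -h2 - hk'⟩]
  congr 2
  rw [map_sub, hk'']
  ring

theorem fin (hT : S.TH) (X : S.A →+ ℂ) (e : ℂ) (hX : ∀ z, X (S.ι z) = e * z) (f : ℂ → ℂ)
    (c₀ c₁ c₂ : ℂ) (hf : ∀ z, S.ϑ z = Complex.exp (c₀ + c₁ * z + c₂ * z ^ 2) * f z)
    (θ m : S.A → ℂ) (hm : ∀ x, m x ∈ S.M) (hm' : ∀ x z, m (x + S.ι z) = m x)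
    (hθ : ∀ x, θ x = f (X x + m x)) : ∃ g, S.ExpQ g ∧ ∀ x, S.ϑ (X x) = g x * θ x := by
  obtain ⟨B, -, hB⟩ := hT.quad
  refine ⟨fun x => Complex.exp (c₀ + c₁ * (X x + m x) + c₂ * (X x + m x) ^ 2 -
    (S.η (m x) * X x + B (m x) (m x))), fun x => ?_, fun x => ?_⟩
  · refine ⟨c₀ + c₁ * (X x + m x) + c₂ * (X x + m x) ^ 2 - (S.η (m x) * X x + B (m x) (m x)),
      (c₁ + 2 * c₂ * (X x + m x) - S.η (m x)) * e, c₂ * e ^ 2, fun z => ?_⟩
    simp only [hm', map_add X, hX]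
    congr 1
    ring
  · have h1 := hT.shift _ (hm x) (X x)
    rw [hf, hB _ (hm x)] at h1
    simp only
    rw [Complex.exp_sub, hθ, div_mul_eq_mul_div, h1, mul_div_cancel_left₀ _ (Complex.exp_ne_zero _)]

end Thq

theorem thq_thm : S_THQ := by
  intro S hT
  have hγ := S.γ_ne
  refine Thq.fin S hT S.x₁ S.ε S.x₁_ι (fun z => th0 (z / S.γ) (S.β / S.γ)) 0
    (-(π * Complex.I / S.γ)) 0 (fun z => ?_) _ (fun x => (-(-S.ν x / S.s) : ℤ) * S.β)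
    (fun x => ?_) (fun x z => by simp) fun x => ?_
  · rw [Setup.ϑ, ee]
    congr 2
    field_simp
    ring
  · rw [← zsmul_eq_mul]
    exact S.M.zsmul_mem S.β_mem _
  · obtain ⟨i, h1, h2⟩ := Thq.θw_eq S S.q x S.ν S.ν_q (fun _ => Iff.rfl)
      (by rw [S.w_q, S.s_mul_τq]; exact S.βγ_pos)
    have h3 : (S.ν x : ℂ) + i = S.s * (-(-S.ν x / S.s) : ℤ) := by exact_mod_cast h1
    rw [h2, S.w_q, S.s_mul_τq, S.w_def, add_assoc, ← add_mul, h3, mul_right_comm, S.s_mul_τq]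
    congr 1
    ring

end

end Pool.Agent.P.MP_29cb78_nt.F
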