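import Pool.Agent.P.MP_29cb78_nt.E.Lam1
import Pool.Agent.P.MP_29cb78_nt.E.Res0
import Pool.Agent.P.MP_29cb78_nt.E.Strip
import Pool.Agent.P.MP_29cb78_nt.F.Bent
import Pool.Agent.P.MP_29cb78_nt.F.Dn
import Pool.Agent.P.MP_29cb78_nt.F.Fb
import Pool.Agent.P.MP_29cb78_nt.F.Gh
import Pool.Agent.P.MP_29cb78_nt.F.Ghp
import Pool.Agent.P.MP_29cb78_nt.F.Ghq
import Pool.Agent.P.MP_29cb78_nt.F.Lam
import Pool.Agent.P.MP_29cb78_nt.F.Osec
import Pool.Agent.P.MP_29cb78_nt.F.Phi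
import Pool.Agent.P.MP_29cb78_nt.F.Psi
import Pool.Agent.P.MP_29cb78_nt.F.Qd
import Pool.Agent.P.MP_29cb78_nt.F.Res4
import Pool.Agent.P.MP_29cb78_nt.F.Rho
import Pool.Agent.P.MP_29cb78_nt.F.Th
import Pool.Agent.P.MP_29cb78_nt.F.Thp
import Pool.Agent.P.MP_29cb78_nt.F.Thq

/-!
Wiring of the basic theory of the gamma function.
-/

namespace Pool.Agent.P.MP_29cb78_nt.F

theorem gh_all : S_GH :=
  gh_thm th_thm dn_thm (psi_thm thq_thm dn_thm) (ghq_thm thq_thm thp_thm (rho_thm thq_thm))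
    (ghp_thm thq_thm (rho_thm thq_thm)) thq_thm

theorem lam_all : S_LAM := lam_thm (E.lam1_thm E.res0_thm (E.strip_thm E.res0_thm))

theorem res4_all : S_RES4 := res4_thm osec_thm (bent_thm osec_thm)

end Pool.Agent.P.MP_29cb78_nt.F
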