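import Pool.Agent.P.MP_29cb78_nt.F.Basic

/-!
Periodicity of the products with balanced parameters.
-/

namespace Pool.Agent.P.MP_29cb78_nt.F

open scoped Classical

noncomputable section

namespace Wper

variable {S : Setup} {G : S.A → ℂ} {d : ℕ} {t : Fin d → S.A} {c : S.A} {s : ℂ}

lemma mult_add (m z u : ℂ) : S.mult m (z + u) = S.mult m z * Complex.exp (S.η m * u) := by
  rw [Setup.mult, Setup.mult, mul_add, Complex.exp_add, mul_assoc]

theorem wper {ω : S.A} {Q : S.A → ℂ} (hQ : S.QD G ω Q) (hd : Even d)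
    (hs : S.Bal t c s) (y : S.A) :
    S.WW G t c (y + ω) * (S.mult (S.x₁ ω) (S.x₁ y + s) ^ d * S.mult (S.x₂ ω) (S.x₂ y + s) ^ d) =
      S.WW G t c y := by
  obtain ⟨b, l, c₀, hb, hf⟩ := hQ.form
  obtain ⟨k, rfl⟩ := hd
  have a1 : ∀ j, G (t j + c + (y + ω)) = Complex.exp (Q (t j + c + y)) * G (t j + c + y) :=
    fun j => by rw [← add_assoc, hQ.per]
  have a2 : ∀ j, G (t j - y) =
      S.χ ω * Complex.exp (Q (y + S.p + S.q - t j)) * G (t j - (y + ω)) := fun j => by
    have := hQ.per (t j - (y + ω))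
    rw [hQ.sym, show t j - (y + ω) + ω = t j - y by abel,
      show S.p + S.q - ω - (t j - (y + ω)) = y + S.p + S.q - t j by abel] at this
    exact this
  have eA : ∀ y, Complex.exp (Q (y + S.p) - Q y) = S.mult (S.x₁ ω) (S.x₁ y) := fun y => by
    rw [Complex.exp_sub, hQ.shp, mul_div_cancel_right₀ _ (Complex.exp_ne_zero _)]
  have eB : ∀ y, Complex.exp (Q (y + S.q) - Q y) = S.mult (S.x₂ ω) (S.x₂ y) := fun y => by
    rw [Complex.exp_sub, hQ.shq, mul_div_cancel_right₀ _ (Complex.exp_ne_zero _)]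
  have a3 : ∑ j, Q (t j + c + y) + (k * (Q (y + S.p) - Q y) + k * (Q (y + c + S.p) - Q (y + c))) +
      (k * (Q (y + S.p + S.q) - Q (y + S.p)) + k * (Q (y + c + S.p + S.q) - Q (y + c + S.p))) =
      ∑ j, Q (y + S.p + S.q - t j) := by
    have e1 : ∀ j, Q (y + S.p + S.q - t j) = Q (t j + c + y) +
        (b (y + y + c + S.p + S.q) (S.p + S.q) + l (S.p + S.q)) -
        (b (y + y + c + S.p + S.q) (t j + t j + c) + l (t j + t j + c)) := fun j => by
      simp only [hf, map_add, map_sub, AddMonoidHom.add_apply, AddMonoidHom.sub_apply,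
        hb (t j) y, hb (t j) S.p, hb (t j) S.q, hb S.q S.p, hb (t j) c, hb c y, hb S.p y,
        hb S.q y, hb S.p c, hb S.q c]
      ring
    rw [Finset.sum_congr rfl fun j _ => e1 j, Finset.sum_sub_distrib, Finset.sum_add_distrib,
      Finset.sum_add_distrib (f := fun j => b _ (t j + t j + c)), ← map_sum, ← map_sum, hs.sum,
      Finset.sum_const, Finset.card_univ, Fintype.card_fin, nsmul_eq_mul, add_assoc]
    generalize ∑ j, Q (t j + c + y) = X
    simp only [hf, map_add, AddMonoidHom.add_apply, hb S.q S.p, hb S.p y, hb c y, hb S.p c,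
      hb S.q c, hb S.q y, map_zero]
    push_cast
    ring
  have a4 := congrArg Complex.exp a3
  simp only [Complex.exp_add, Complex.exp_nat_mul, eA, eB, map_add, hs.c₁, hs.c₂, S.x₂_p,
    add_zero] at a4
  have a5 : S.χ ω ^ (k + k) = 1 := by rw [pow_add, ← mul_pow, S.χ_sq, one_pow]
  have a6 : ∀ m z, S.mult m (z + s) ^ (k + k) = S.mult m z ^ k * S.mult m (z + 2 * s) ^ k :=
    fun m z => by
    rw [pow_add, ← mul_pow, ← mul_pow, mult_add, mult_add, two_mul, mul_add, Complex.exp_add]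
    congr 1
    ring
  simp only [Setup.WW, a1, a2, Finset.prod_mul_distrib, ← Complex.exp_sum,
    Finset.prod_const, Finset.card_univ, Fintype.card_fin, a5, a6]
  linear_combination ((∏ j, G (t j + c + y)) * ∏ j, G (t j - (y + ω))) * a4

end Wper

theorem wper_thm (hqd : S_QD) : S_WPER := fun S hT G hG _ _ _ _ hd hb ω hω y =>
  let ⟨_, hQ⟩ := hqd S hT G hG ω hω
  Wper.wper hQ hd hb y

end

end Pool.Agent.P.MP_29cb78_nt.F
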