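import Pool.Agent.P.MP_29cb78_nt.F.Id4Aux2
import Pool.Agent.P.MP_29cb78_nt.F.Base
import Pool.Agent.P.MP_29cb78_nt.F.Wper

/-!
The identity with four parameters.
-/

namespace Pool.Agent.P.MP_29cb78_nt.F

open Finset
open scoped Classical

namespace Id4

variable {S : Setup} {G : S.A → ℂ} {t : Fin 4 → S.A} {c : S.A} {s : ℂ} {e : Equiv.Perm (Fin 4)}

theorem core (hT : S.TH) (hG : S.GH G) (hF : S.FB G)
    (h₁ : ∀ j, S.x₁ (t (e j)) = S.x₂ (t j)) (he : ∀ j, e (e j) = j) (hb : S.Bal t c s)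
    {k : Fin 4 → ℤ} (hk : ∀ j, k (e j) = k j) (hk0 : ∑ j, k j = -2)
    (H : ∀ j l, S.Lat (t j + c + t l) → S.a (S.x₂ (t j + c + t l)) + k j + k l + 1 < 0)
    {F₁ : Finset S.A} (hF₁ : S.DReps F₁) : ∃ F₂ : Finset S.A, (∀ y ∈ F₂, y ∈ S.V ∧ y + S.sw y = -c) ∧
    (∑ y ∈ F₁, (∏ j, S.fb G (t j + c + y)) * ∏ j, S.fb G (t j - y)) / (S.ε - 1) +
      (∑ y ∈ F₂, ∏ j, S.UU G (t j + c + y)) / (S.ε + 1) = 0 := by
  have h₂ : ∀ j, S.x₂ (t (e j)) = S.x₁ (t j) := fun j => by rw [← h₁, he]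
  obtain ⟨u, hu⟩ : ∃ u : Fin 4 → S.A, ∀ j, u j = t j + k j • (S.p - S.q) := ⟨_, fun _ => rfl⟩
  have hb' : S.Bal u (c + (S.p - S.q)) (s + S.lam / 2) := by
    refine ⟨by simp [hb.c₁]; ring, by simp [hb.c₂]; ring, ?_⟩
    have h := hb.sum
    simp only [hu, Fin.sum_univ_four] at h hk0 ⊢
    rw [show k 0 = -2 - k 1 - k 2 - k 3 by omega, ← h]
    module
  have H' : ∀ j l, S.Lat (u j + (c + (S.p - S.q)) + u l) →
      S.a (S.x₂ (u j + (c + (S.p - S.q)) + u l)) < 0 := fun j l hl => by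
    rw [show u j + (c + (S.p - S.q)) + u l = t j + c + t l + (k j + k l + 1) • (S.p - S.q) by
      rw [hu, hu]; module] at hl ⊢
    have := H j l ((S.lat_add_iff (lat_T _)).1 hl)
    rw [map_add _ (t j + c + t l), map_add S.a]
    simp only [map_zsmul, map_sub, S.x₂_p, S.x₂_q, map_zero, map_neg, S.a_lam]
    rw [zsmul_eq_mul]
    push_cast
    linarith
  obtain ⟨θ, hθ⟩ := thr H'
  obtain ⟨i, r1, s1⟩ := win₁ hθ hF₁
  obtain ⟨F₂, f2, r2⟩ := win₂ hb' hθ
  have key := raw (e := e) lam_all (tel_thm (wper_thm qd_thm) osec_thm phi_thm)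
    (ex_thm (wper_thm qd_thm) osec_thm) res4_all hT hG (fun j => by simp [hu, hk, h₁]) he hb' H' hθ
    r1 r2
  have f3 : ∀ y ∈ F₂, S.x₁ y + S.x₂ y + 2 * s = 0 := fun y hy => by linear_combination f2 y hy
  refine ⟨F₂, fun y hy => ⟨mem_V hb' (f2 y hy), S.ext ?_ ?_⟩, ?_⟩
  · rw [map_add, Up.x₁_sw (mem_V hb' (f2 y hy)), map_neg, hb.c₁]
    linear_combination f3 y hy
  · rw [map_add, Up.x₂_sw (mem_V hb' (f2 y hy)), map_neg, hb.c₂]
    linear_combination f3 y hy
  rw [s1, sum_image fun x _ y _ h => add_right_cancel h, ← sum_div, ← sum_div] at key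
  rw [← key]
  congr 2 <;> refine sum_congr rfl fun y hy => ?_
  · have hd : S.x₁ y = S.x₂ y := hF₁.mem y hy
    obtain ⟨-, b2, b3⟩ := r1.mem _ (mem_image_of_mem _ hy)
    generalize i y = n at b2 b3
    rw [S.kk_def] at b2 b3
    rw [prod_mul_distrib,
      ← fam (e := e) (k := fun j => k j + n) hG hF (fun j => by simp [h₁, hb.c₁, hb.c₂, hd]) he
        (fun j => by rw [hk]) fun j hl => ?_,
      ← fam (e := e) (k := fun j => k j - n) hG hF (fun j => by simp [h₁, hd]) he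
        (fun j => by rw [hk]) fun j hl => ?_]
    · congr 1 <;> refine prod_congr rfl fun j _ => ?_ <;> congr 1 <;> rw [hu] <;> module
    · have e1 : t j - y + (k j - n) • (S.p - S.q) = u j - (y + n • (S.p - S.q)) := by
        rw [hu]; module
      have := hθ.upper j _ (e1 ▸ hl.add (lat_T (k j - n)))
      rw [e1, map_sub, map_sub]
      linarith
    · have e1 : t j + c + y + (k j + n + 1) • (S.p - S.q) =
          u j + (c + (S.p - S.q)) + (y + n • (S.p - S.q)) := by rw [hu]; module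
      have h3 := hl.add (lat_T (k j + n + 1))
      have h4 := hθ.lower j _ (e1 ▸ h3)
      have h5 := neg_of_lt h3 (by rw [e1, map_add, map_add S.a]; linarith)
      rw [add_smul _ 1, one_smul, ← add_assoc, map_add, map_add S.a] at h5
      simp only [map_sub, S.x₂_p, S.x₂_q, map_zero, map_neg, S.a_lam] at h5
      linarith
  · obtain ⟨-, b2, b3⟩ := r2.mem _ (mem_image_of_mem _ hy)
    have h6 := f3 y hy
    rw [S.kk_def] at b2 b3
    rw [prod_mul_distrib, ← Equiv.prod_comp e fun j => G (u j - (y + S.q) + S.p + S.q),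
      ← prod_mul_distrib]
    refine prod_congr rfl fun j _ => ?_
    have a1 : S.x₁ (t (e j) - y) = S.x₂ (t j + c + y) := by
      rw [map_sub, map_add, map_add, h₁, hb.c₂]; linear_combination -h6
    have a2 : S.x₂ (t (e j) - y) = S.x₁ (t j + c + y) := by
      rw [map_sub, map_add, map_add, h₂, hb.c₁]; linear_combination -h6
    have hV : t j + c + y ∈ S.V := by rw [Up.mem_V, ← a1, ← a2]; exact S.diff_mem _
    have e1 : t j + c + y + k j • (S.p - S.q) + S.p = u j + (c + (S.p - S.q)) + (y + S.q) := by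
      rw [hu]; module
    have e2 : t (e j) - y + k j • (S.p - S.q) = u (e j) - (y + S.q) + S.q := by
      rw [hu, hk]; module
    rw [Setup.UU, show S.sw (t j + c + y) = t (e j) - y from
      S.ext (by rw [Up.x₁_sw hV, a1]) (by rw [Up.x₂_sw hV, a2]),
      ← pair hG hF a1 a2 (k j) (fun hl => ?_) fun hl => ?_, e1, e2, add_right_comm _ S.q S.p]
    · have h3 := (hl.add (lat_T (k j))).add S.lat_p
      have h4 := hθ.lower j _ (e1 ▸ h3)
      have h5 := congrArg (fun z => S.a (S.x₂ z)) e1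
      simp only [map_add _ _ S.p, S.x₂_p, add_zero, map_add S.x₂ _ (y + S.q), map_add S.a] at h5
      linarith
    · have h3 := (hl.add (lat_T (k j))).sub S.lat_q
      rw [e2, add_sub_cancel_right] at h3
      have h4 := hθ.upper _ _ h3
      rw [e2, map_add, map_add S.a, map_sub, map_sub S.a, S.x₂_q, map_neg, S.a_lam]
      linarith

theorem choose_k (h₁ : ∀ j, S.x₁ (t (e j)) = S.x₂ (t j)) (he : ∀ j, e (e j) = j)
    (hc : S.Diag c) (off : ∀ j l, j ≠ l → ¬ S.Lat (t j + c + t l)) {j₀ : Fin 4}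
    (h0 : ¬ S.Lat (t j₀ + c + t j₀)) : ∃ k : Fin 4 → ℤ, (∀ j, k (e j) = k j) ∧ ∑ j, k j = -2 ∧
      ∀ j l, S.Lat (t j + c + t l) → S.a (S.x₂ (t j + c + t l)) + k j + k l + 1 < 0 := by
  obtain ⟨R, hR⟩ : ∃ R : ℕ, ∀ j, S.a (S.x₂ (t j + c + t j)) < R := by
    obtain ⟨B, hB⟩ := (Set.finite_range fun j => S.a (S.x₂ (t j + c + t j))).bddAbove
    obtain ⟨R, h⟩ := exists_nat_gt B
    exact ⟨R, fun j => (hB ⟨j, rfl⟩).trans_lt h⟩
  refine ⟨fun j => -((R : ℤ) + 1) + (if j = j₀ then 2 * (R : ℤ) + 1 else 0) +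
      if j = e j₀ then 2 * (R : ℤ) + 1 else 0,
    fun j => ?_, ?_, fun j l hl => ?_⟩
  · have : e j = j₀ ↔ j = e j₀ := ⟨fun h => by rw [← h, he], fun h => by rw [h, he]⟩
    simp only [this, e.injective.eq_iff]
    ring
  · simp only [sum_add_distrib, sum_ite_eq', mem_univ, if_true, sum_const, card_univ,
      Fintype.card_fin]
    ring
  · obtain rfl : j = l := by_contra fun h => off j l h hl
    have n1 : j ≠ j₀ := fun h => h0 (h ▸ hl)
    have n2 : j ≠ e j₀ := fun h => h0 (S.lat_iff.2 (by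
      rw [h, Setup.Lat] at hl
      simpa only [map_add, h₁, show S.x₁ c = _ from hc] using hl))
    have := hR j
    simp only [if_neg n1, if_neg n2]
    push_cast
    linarith [Nat.cast_nonneg (α := ℚ) R]

end Id4

open Id4 in
theorem id4_thm : S_ID4 := by
  intro S hT G hG hF α₀ α₁ β₀ β₁ v hC hv n1 n2 F₁ hF₁
  have hv' : S.x₁ v = S.x₂ v := hv
  obtain ⟨e, he, h₁⟩ : ∃ e : Equiv.Perm (Fin 4), (∀ j, e (e j) = j) ∧ ∀ j,
      S.x₁ (![α₀ + v, α₁ + v, -β₀, -β₁] (e j)) = S.x₂ (![α₀ + v, α₁ + v, -β₀, -β₁] j) := by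
    rcases hC.sw with ⟨d0, d1, d2, d3⟩ | ⟨d0, d1⟩
    · refine ⟨1, fun _ => rfl, fun j => ?_⟩
      fin_cases j <;> simp [hv', show S.x₁ α₀ = _ from d0, show S.x₁ α₁ = _ from d1,
        show S.x₁ β₀ = _ from d2, show S.x₁ β₁ = _ from d3]
    · refine ⟨⟨![1, 0, 3, 2], ![1, 0, 3, 2], by decide, by decide⟩, by decide, fun j => ?_⟩
      fin_cases j <;> simp [hv', ← d0, ← d1, Up.x₁_sw hC.mem.1, Up.x₂_sw hC.mem.1,
        Up.x₁_sw hC.mem.2.2.1, Up.x₂_sw hC.mem.2.2.1]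
  have hs := hC.sum
  obtain ⟨c0, c1, c2, c3⟩ := hC.cross
  have n3 : ¬ S.Lat (-β₀ + -v + -β₁) := fun h => n1 (by
    have := h.neg
    rwa [show -(-β₀ + -v + -β₁) = β₀ + β₁ + v by abel, ← hs] at this)
  have off : ∀ j l : Fin 4, j ≠ l → ¬ S.Lat (![α₀ + v, α₁ + v, -β₀, -β₁] j + -v +
      ![α₀ + v, α₁ + v, -β₀, -β₁] l) := fun j l hjl h => by
    fin_cases j <;> fin_cases l <;> simp only [ne_eq, not_true_eq_false] at hjl <;>
      simp only [Fin.zero_eta, Fin.mk_one, Fin.reduceFinMk, Matrix.cons_val] at h <;>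
      first
      | (refine n1 ((congrArg S.Lat ?_).mp h); abel1)
      | (refine n3 ((congrArg S.Lat ?_).mp h); abel1)
      | (refine c0 ((congrArg S.Lat ?_).mp h); abel1)
      | (refine c1 ((congrArg S.Lat ?_).mp h); abel1)
      | (refine c2 ((congrArg S.Lat ?_).mp h); abel1)
      | (refine c3 ((congrArg S.Lat ?_).mp h); abel1)
  obtain ⟨j₀, h0⟩ : ∃ j₀ : Fin 4, ¬ S.Lat (![α₀ + v, α₁ + v, -β₀, -β₁] j₀ + -v +
      ![α₀ + v, α₁ + v, -β₀, -β₁] j₀) := by
    by_contra! h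
    exact n2 ⟨(congrArg S.Lat (by simp; abel)).mp (h 0), (congrArg S.Lat (by simp; abel)).mp (h 1),
      (congrArg S.Lat (by simp; abel)).mp (h 2).neg, (congrArg S.Lat (by simp; abel)).mp (h 3).neg⟩
  obtain ⟨k, hk, hk0, H⟩ := choose_k h₁ he (by simp [Setup.Diag, hv']) off h0
  obtain ⟨F₂, f2, key⟩ := core (s := -S.x₂ v / 2) hT hG hF h₁ he ⟨by simp [hv']; ring,
    by simp; ring, by
      simp only [Fin.sum_univ_four, Matrix.cons_val]
      linear_combination (norm := abel1) hs + hs⟩ hk hk0 H hF₁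
  refine ⟨F₂, by simpa using f2, ?_⟩
  rw [← key]
  congr 2 <;> refine sum_congr rfl fun y _ => ?_
  · simp only [Setup.RR, Fin.prod_univ_four, Matrix.cons_val, add_neg_cancel_right]
    rw [show -β₀ - (v - y) = -β₀ + -v + y by abel, show -β₁ - (v - y) = -β₁ + -v + y by abel,
      ← add_sub_assoc, ← add_sub_assoc]
    ring
  · simp only [Fin.prod_univ_four, Matrix.cons_val, add_neg_cancel_right, sub_eq_add_neg]

end Pool.Agent.P.MP_29cb78_nt.F
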