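import Pool.Agent.P.MP_29cb78_nt.F.Norm
import Pool.Agent.P.MP_29cb78_nt.F.Id4
import Pool.Agent.P.MP_29cb78_nt.F.Rper

/-!
The convolution square of the normalised function of rank two is small.
-/

namespace Pool.Agent.P.MP_29cb78_nt.F

open E E2 Finset
open scoped Classical

noncomputable section

namespace Dgn

variable {S : Setup} {G : S.A → ℂ}

/-- The finite group of the classes of diagonal points. -/
abbrev Gq (S : Setup) : Type := Dg S ⧸ LD S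

theorem mk_eq {x y : Dg S} : (x : Gq S) = y ↔ S.Lat ((x : S.A) - y) := by
  rw [QuotientAddGroup.eq_iff_sub_mem]
  rfl

instance : Finite (Gq S) := by
  obtain ⟨F, hF⟩ := dreps_thm S
  refine Finite.of_surjective
    (fun y : F => ((⟨y, mem_Dg.2 (hF.mem y y.2)⟩ : Dg S) : Gq S)) fun g => ?_
  obtain ⟨x, rfl⟩ := QuotientAddGroup.mk_surjective g
  obtain ⟨y, hy, h⟩ := hF.surj x (diag x)
  exact ⟨⟨y, hy⟩, (mk_eq.2 h).symm⟩

instance : Fintype (Gq S) := Fintype.ofFinite _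

theorem out_inj : Function.Injective fun g : Gq S => ((g.out : Dg S) : S.A) := fun _ _ h =>
  Quotient.out_injective (Subtype.ext h)

theorem dreps_out : S.DReps (univ.image fun g : Gq S => ((g.out : Dg S) : S.A)) where
  mem y hy := by
    obtain ⟨g, -, rfl⟩ := mem_image.1 hy
    exact diag _
  inj x hx y hy h := by
    obtain ⟨g, -, rfl⟩ := mem_image.1 hx
    obtain ⟨g', -, rfl⟩ := mem_image.1 hy
    have := mk_eq.2 h
    rw [QuotientAddGroup.out_eq', QuotientAddGroup.out_eq'] at this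
    rw [this]
  surj x hx := ⟨_, mem_image_of_mem _ (mem_univ ((⟨x, mem_Dg.2 hx⟩ : Dg S) : Gq S)),
    (mk_eq (x := ⟨x, mem_Dg.2 hx⟩)).1 (QuotientAddGroup.out_eq' _).symm⟩

theorem tor_order {p : ℕ} {τ : S.A} (h : S.Tor p τ) :
    addOrderOf ((⟨τ, mem_Dg.2 h.diag⟩ : Dg S) : Gq S) = p := by
  have := Fact.mk h.prime
  refine addOrderOf_eq_prime ?_
    fun h0 => h.not_lat (mem_LD.1 ((QuotientAddGroup.eq_zero_iff _).1 h0))
  rw [← QuotientAddGroup.mk_nsmul]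
  exact (QuotientAddGroup.eq_zero_iff _).2 h.lat

theorem tor_gen {p : ℕ} {τ : S.A} (h : S.Tor p τ) (x : Gq S) (hx : p • x = 0) :
    x ∈ AddSubgroup.zmultiples ((⟨τ, mem_Dg.2 h.diag⟩ : Dg S) : Gq S) := by
  obtain ⟨x, rfl⟩ := QuotientAddGroup.mk_surjective x
  rw [← QuotientAddGroup.mk_nsmul] at hx
  obtain ⟨j, hj⟩ := h.gen x (diag x) (mem_LD.1 ((QuotientAddGroup.eq_zero_iff _).1 hx))
  refine ⟨j, ?_⟩
  beta_reduce
  rw [← QuotientAddGroup.mk_zsmul]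
  exact (mk_eq.2 hj).symm

/-- The normalised function on the finite group. -/
def Rt (G : S.A → ℂ) (a₀ a₁ b₀ b₁ : S.V) (lam : Dg S →+ Additive ℂˣ) (κ : Additive ℂˣ)
    (g : Gq S) : ℂ := ex (lr G a₀ a₁ b₀ b₁ g.out - lam g.out - κ)

variable {O : ValuationSubring ℂ} {a₀ a₁ b₀ b₁ : S.V} {N : ℕ} {lam : Dg S →+ Additive ℂˣ}
  {κ : Additive ℂˣ}

theorem Nrm.mk' (h : Nrm O G N a₀ a₁ b₀ b₁ lam κ) (z : Dg S) :
    Rt G a₀ a₁ b₀ b₁ lam κ z = ex (lr G a₀ a₁ b₀ b₁ z - lam z - κ) := by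
  obtain ⟨w, hw⟩ := QuotientAddGroup.mk_out_eq_add (LD S) z
  rw [Rt, hw, h.per z w w.2, map_add]
  congr 1
  abel

theorem Nrm.conv_eq (h : Nrm O G N a₀ a₁ b₀ b₁ lam κ) (v : Dg S) :
    ∑ g, Rt G a₀ a₁ b₀ b₁ lam κ g * Rt G a₀ a₁ b₀ b₁ lam κ (v - g) =
      (∑ g : Gq S, S.RR G a₀ a₁ b₀ b₁ (g.out : Dg S) * S.RR G a₀ a₁ b₀ b₁ (v - (g.out : Dg S))) *
        ex (-(lam v + 2 • κ)) := by
  rw [sum_mul]
  refine sum_congr rfl fun g _ => ?_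
  have e : (v : Gq S) - g = (v - g.out : Dg S) := by
    rw [QuotientAddGroup.mk_sub, QuotientAddGroup.out_eq']
  rw [e, h.mk', Rt, ← ex_lg (RR_ne h.gh a₀ a₁ b₀ b₁ (g.out : Dg S)),
    ← ex_lg (RR_ne h.gh a₀ a₁ b₀ b₁ (v - (g.out : Dg S))), ← ex_add, ← ex_add, ← ex_add, map_sub]
  congr 1
  change _ = lr G a₀ a₁ b₀ b₁ g.out + lr G a₀ a₁ b₀ b₁ (v - g.out) + _
  module

theorem sum_diag (h : S.Cfg a₀ a₁ b₀ b₁) : S.Diag (-(a₀ + a₁ : S.V)) := by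
  have e : swV S (-(a₀ + a₁)) = -(a₀ + a₁) := by
    rcases cfg_sw h with ⟨h0, h1, -⟩ | ⟨h0, h1, -⟩ <;> rw [map_neg, map_add, h0, h1]
    rw [add_comm]
  have := Up.x₁_sw (-(a₀ + a₁)).2
  rw [← swV_coe, e] at this
  exact this

/-- The degenerate centre. -/
theorem Nrm.conv_deg (h : Nrm O G N a₀ a₁ b₀ b₁ lam κ) {p : ℕ} {τ : S.A} (hτ : S.Tor p τ)
    (hO : O.valuation p < 1) (v : Dg S) (hv : inc S v = -(a₀ + a₁)) :
    O.valuation (∑ g, Rt G a₀ a₁ b₀ b₁ lam κ g * Rt G a₀ a₁ b₀ b₁ lam κ (v - g)) < 1 := by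
  have hv' : (v : S.A) = -((a₀ : S.A) + a₁) := congrArg Subtype.val hv
  have key : ∀ z : Dg S, O.valuation (S.RR G a₀ a₁ b₀ b₁ z * S.RR G a₀ a₁ b₀ b₁ (v - z) - 1) < 1 :=
    fun z => by
      obtain ⟨n, h1, h2, -⟩ :=
        deg_thm up_thm S (th_thm S) G h.gh (fbG h.gh) _ _ _ _ h.cfg z (diag z)
      rw [hv', h2, h1]
      exact val_inv_pow O h.eps n
  have h1 : vl O (lam v + 2 • κ) = 0 := by
    have e1 := h.val 0
    have e2 := h.val v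
    have e3 : vl O (lr G a₀ a₁ b₀ b₁ 0) + vl O (lr G a₀ a₁ b₀ b₁ v) = 0 := by
      have := vl_lg O (val_of_sub O (key 0))
      rw [lg_mul (RR_ne h.gh _ _ _ _ _) (RR_ne h.gh _ _ _ _ _), map_add, ← AddSubgroup.coe_sub,
        sub_zero] at this
      exact this
    have e4 : sq a₀ a₁ b₀ b₁ (Dv O G N) (inc S v) = -sq a₀ a₁ b₀ b₁ (Dv O G N) 0 := by
      have e := cfg_sum h.cfg
      rw [hv, sq, sq, show a₀ + -(a₀ + a₁) = -(a₁ + 0) by abel,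
        show a₁ + -(a₀ + a₁) = -(a₀ + 0) by abel, e, show b₀ + -(b₀ + b₁) = -(b₁ + 0) by abel,
        show b₁ + -(b₀ + b₁) = -(b₀ + 0) by abel, Dv_neg, Dv_neg, Dv_neg, Dv_neg]
      abel
    rw [map_zero, map_zero, sub_zero, map_sub] at e1
    rw [map_sub, map_sub, e4] at e2
    refine canc O (n := 24 * (N : ℤ) ^ 3) (by have := h.pos; positivity) ?_
    rw [map_add, map_nsmul]
    linear_combination (norm := module) (24 * (N : ℤ) ^ 3) • e3 - e1 - e2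
  rw [h.conv_eq, map_mul, ← vx_vl, map_neg, h1, neg_zero, vx_zero, mul_one]
  have h2 : O.valuation (Fintype.card (Gq S)) < 1 := by
    obtain ⟨k, hk⟩ := tor_order hτ ▸
      addOrderOf_dvd_card (x := ((⟨τ, mem_Dg.2 hτ.diag⟩ : Dg S) : Gq S))
    rw [hk, Nat.cast_mul, map_mul]
    exact mul_lt_one_of_lt_of_le hO (val_nat O k)
  have h3 := O.valuation.map_add_lt h2
    (O.valuation.map_sum_lt (s := univ) one_ne_zero fun (g : Gq S) _ => key g.out)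
  rwa [sum_sub_distrib, sum_const, card_univ, nsmul_eq_mul, mul_one, add_sub_cancel] at h3

/-- The generic centre. -/
theorem Nrm.conv_gen (h : Nrm O G N a₀ a₁ b₀ b₁ lam κ) (h1 : O.valuation (S.ε + 1) = 1)
    (h2 : ¬ S.Lat ((a₀ : S.A) + a₀ - (b₀ + b₀))) {θ : Va O}
    (hθ : ∀ y, sq a₀ a₁ b₀ b₁ (Dv O G N) y ≤ (12 * (N : ℤ) ^ 3) • θ) (v : Dg S)
    (hv : ¬ S.Lat ((a₀ : S.A) + a₁ + v)) :
    O.valuation (∑ g, Rt G a₀ a₁ b₀ b₁ lam κ g * Rt G a₀ a₁ b₀ b₁ lam κ (v - g)) < vx O θ := by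
  obtain ⟨F₂, hF₂, e⟩ := id4_thm S (th_thm S) G h.gh (fbG h.gh) _ _ _ _ v h.cfg (diag v) hv
    (fun hh => h2 (by simpa using hh.1.sub hh.2.2.1)) _ dreps_out
  rw [sum_image fun _ _ _ _ hh => out_inj hh, div_add_div _ _ S.ε_sub_ne S.ε_add_ne,
    div_eq_zero_iff, or_iff_left (mul_ne_zero S.ε_sub_ne S.ε_add_ne), add_eq_zero_iff_eq_neg] at e
  have e2 := congrArg (fun z => O.valuation (z * ex (-(lam v + 2 • κ)))) e
  simp only [mul_right_comm _ (S.ε + 1), ← h.conv_eq] at e2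
  rw [map_mul, h1, mul_one] at e2
  rw [e2, neg_mul, Valuation.map_neg, mul_assoc, map_mul, sum_mul]
  refine lt_of_le_of_lt (mul_le_mul_right (O.valuation.map_sum_le fun y hy => ?_) _)
    (mul_lt_of_lt_one_left (zero_lt_iff.2 (Units.ne_zero _)) h.eps)
  obtain ⟨hyV, hy'⟩ := hF₂ y hy
  lift y to S.V using hyV
  have e3 : y + swV S y = inc S v := Subtype.ext hy'
  have e4 := vl_UU4 O h.gh (a₀ + y) (a₁ + y) (-(b₀ + swV S y)) (-(b₁ + swV S y))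
  have e5 : ∀ b : S.V, ((-(b + swV S y) : S.V) : S.A) = -b - v + y := fun b => by
    rw [← hy', AddSubgroup.coe_neg, AddSubgroup.coe_add, swV_coe]
    abel
  have e6 : d0 O G (b₀ + swV S y) + d0 O G (b₁ + swV S y) = d0 O G (b₀ + y) + d0 O G (b₁ + y) := by
    rw [← d0_sw O (b₀ + swV S y), ← d0_sw O (b₁ + swV S y), map_add, map_add, swV_swV]
    rcases cfg_sw h.cfg with ⟨-, -, h0, h1⟩ | ⟨-, -, h0, h1⟩ <;> rw [h0, h1]
    rw [add_comm]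
  rw [e5, e5, d0_neg O h.gh h.eps, d0_neg O h.gh h.eps, AddSubgroup.coe_add,
    AddSubgroup.coe_add] at e4
  have u := UU_ne h.gh
  rw [← ex_lg (mul_ne_zero (mul_ne_zero (mul_ne_zero (u (a₀ + y)) (u (a₁ + y))) (u (-b₀ - v + y)))
    (u (-b₁ - v + y))), ← ex_add, ← vx_vl]
  refine (vx_le O).2 ((zsmul_le_zsmul_iff_right (n := 12 * (N : ℤ) ^ 3)
    (by have := h.pos; positivity)).1 (le_of_eq_of_le ?_ (hθ y)))
  rw [← h.val2 v y e3, map_add, map_neg, e4, sq, ← e6]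
  congr 1
  abel

/-- The convolution square is small. -/
theorem Nrm.conv (h : Nrm O G N a₀ a₁ b₀ b₁ lam κ) {p : ℕ} {τ : S.A} (hτ : S.Tor p τ)
    (hO : O.valuation p < 1) (h2 : ¬ S.Lat ((a₀ : S.A) + a₀ - (b₀ + b₀))) {θ : Va O} (h0 : 0 ≤ θ)
    (hθ : ∀ y, sq a₀ a₁ b₀ b₁ (Dv O G N) y ≤ (12 * (N : ℤ) ^ 3) • θ) (σ : Gq S) :
    O.valuation (∑ g, Rt G a₀ a₁ b₀ b₁ lam κ g * Rt G a₀ a₁ b₀ b₁ lam κ (σ - g)) < vx O θ := by
  obtain ⟨v, rfl⟩ := QuotientAddGroup.mk_surjective σ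
  by_cases hv : S.Lat ((a₀ : S.A) + a₁ + v)
  · have e : (v : Gq S) = (⟨_, mem_Dg.2 (sum_diag h.cfg)⟩ : Dg S) :=
      mk_eq.2 (by
        convert hv using 1
        simp only [AddSubgroup.coe_neg, AddSubgroup.coe_add]
        abel)
    rw [e]
    exact (h.conv_deg hτ hO _ rfl).trans_le ((vx_le O).2 h0)
  · exact h.conv_gen (val_add_one O h.eps
      (hτ.prime.odd_of_ne_two (by have := hτ.five; omega)) hO) h2 hθ v hv

theorem exists_nrm (hG : S.GH G) (hε : O.valuation (S.ε - 1) < 1) (hN0 : N ≠ 0)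
    (hN : ∀ x ∈ S.V, S.Lat (N • x)) (h : S.Cfg a₀ a₁ b₀ b₁) :
    ∃ lam κ, Nrm O G N a₀ a₁ b₀ b₁ lam κ := by
  obtain ⟨lam, hl⟩ := exists_lam rper_thm hG h
  obtain ⟨κ, hκ⟩ := exists_kap O hG hε h hN0
  exact ⟨lam, κ, hG, hε, hN0, hN, h, hl, hκ⟩

/-- The valuation of the normalised function, written additively. -/
def rt (O : ValuationSubring ℂ) (G : S.A → ℂ) (a₀ a₁ b₀ b₁ : S.V) (lam : Dg S →+ Additive ℂˣ)
    (κ : Additive ℂˣ) (g : Gq S) : Va O := vl O (lr G a₀ a₁ b₀ b₁ g.out - lam g.out - κ)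

theorem vx_rt (g : Gq S) :
    vx O (rt O G a₀ a₁ b₀ b₁ lam κ g) = O.valuation (Rt G a₀ a₁ b₀ b₁ lam κ g) := rfl

theorem Nrm.rt_mk (h : Nrm O G N a₀ a₁ b₀ b₁ lam κ) (z : Dg S) :
    (24 * (N : ℤ) ^ 3) • rt O G a₀ a₁ b₀ b₁ lam κ z = sq a₀ a₁ b₀ b₁ (Dv O G N) (inc S z) := by
  rw [← h.val z]
  congr 1
  exact vx_inj O (by rw [vx_rt, h.mk', vx_vl])

end Dgn

end

end Pool.Agent.P.MP_29cb78_nt.F
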