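import Pool.Agent.P.MP_29cb78_nt.F.Iface2
import Pool.Agent.P.MP_29cb78_nt.F.Basic
import Pool.Agent.P.MP_29cb78_nt.E2.Mul
import Pool.Agent.P.MP_29cb78_nt.E2.Ext

/-!
Auxiliary lemmas for the congruence: orbits, principal units, chains of edges.
-/

namespace Pool.Agent.P.MP_29cb78_nt.F

open E NumberField Finset
open scoped Classical

noncomputable section

namespace Cong

/-- Products over a finite group, split along the cosets of a cyclic subgroup. -/
theorem orbits {G : Type} [Group G] [Fintype G] (g : G) :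
    ∃ (Q : Type) (_ : Fintype Q) (r : Q → G), Fintype.card Q * orderOf g = Fintype.card G ∧
      ∀ f : G → ℂ, ∏ j, f j = ∏ q, ∏ i ∈ range (orderOf g), f (r q * g ^ i) := by
  have hg : IsOfFinOrder g := isOfFinOrder_of_finite g
  let φ : (G ⧸ Subgroup.zpowers g) × Fin (orderOf g) → G := fun z => z.1.out * g ^ (z.2 : ℕ)
  have h0 : ∀ z, ((φ z : G) : G ⧸ Subgroup.zpowers g) = z.1 := fun z => by
    simp only [φ]
    rw [QuotientGroup.mk_mul_of_mem _ (Subgroup.npow_mem_zpowers g _), QuotientGroup.out_eq']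
  have hφ : Function.Bijective φ := by
    constructor
    · rintro ⟨q, i⟩ ⟨q', i'⟩ h
      have h1 : q = q' := by
        have := h0 (q, i)
        rw [h, h0] at this
        exact this.symm
      subst h1
      have h2 : g ^ (i : ℕ) = g ^ (i' : ℕ) := mul_left_cancel h
      rw [Fin.ext (pow_injOn_Iio_orderOf i.2 i'.2 h2)]
    · intro x
      have h1 : (x : G ⧸ Subgroup.zpowers g).out⁻¹ * x ∈ Subgroup.zpowers g :=
        QuotientGroup.eq.1 (QuotientGroup.out_eq' _)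
      refine ⟨((x : G ⧸ Subgroup.zpowers g), (finEquivZPowers hg).symm ⟨_, h1⟩), ?_⟩
      simp only [φ]
      rw [pow_finEquivZPowers_symm_apply]
      simp
  refine ⟨G ⧸ Subgroup.zpowers g, inferInstance, fun q => q.out, ?_, fun f => ?_⟩
  · rw [← Fintype.card_of_bijective hφ]
    simp
  · rw [← hφ.prod_comp f, Fintype.prod_prod_type]
    exact prod_congr rfl fun q _ => Fin.prod_univ_eq_prod_range (fun i => f (q.out * g ^ i)) _

section Val

variable (O : ValuationSubring ℂ)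

theorem one_mul' {a b : ℂ} (ha : O.valuation (a - 1) < 1) (hb : O.valuation (b - 1) < 1) :
    O.valuation (a * b - 1) < 1 := by
  have h : a * b - 1 = (a - 1) * (b - 1) + ((a - 1) + (b - 1)) := by ring
  rw [h]
  refine Valuation.map_add_lt _ ?_ (Valuation.map_add_lt _ ha hb)
  rw [map_mul]
  exact mul_lt_one_of_nonneg_of_lt_one_left zero_le ha hb.le

theorem one_prod {ι : Type} (s : Finset ι) {a : ι → ℂ} (ha : ∀ i, O.valuation (a i - 1) < 1) :
    O.valuation (∏ i ∈ s, a i - 1) < 1 :=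
  prod_induction a (fun z => O.valuation (z - 1) < 1) (fun _ _ => one_mul' O) (by simp)
    fun i _ => ha i

theorem one_pow' {a : ℂ} (ha : O.valuation (a - 1) < 1) (n : ℕ) :
    O.valuation (a ^ n - 1) < 1 := by
  have := one_prod O (range n) (a := fun _ => a) fun _ => ha
  simpa using this

theorem one_root {p : ℕ} (hp : p.Prime) (hO : O.valuation p < 1) {z : ℂ} (n : ℕ)
    (h : O.valuation (z ^ p ^ n - 1) < 1) : O.valuation (z - 1) < 1 := by
  have := Fact.mk hp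
  have := E2.charP_res O hp hO
  have h1 : O.valuation (z ^ p ^ n) = 1 := by
    have := O.valuation.map_one_add_of_lt h
    rwa [add_sub_cancel] at this
  have h2 : O.valuation z = 1 := by
    rw [map_pow] at h1
    exact (pow_eq_one_iff_of_nonneg zero_le (pow_ne_zero n hp.ne_zero)).1 h1
  lift z to O using (O.valuation_le_one_iff z).1 h2.le
  have h3 : IsLocalRing.residue O (z ^ p ^ n - 1) = 0 := by
    rw [IsLocalRing.residue_eq_zero_iff, O.valuation_lt_one_iff]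
    simpa using h
  have h4 : IsLocalRing.residue O (z - 1) = 0 := by
    apply pow_eq_zero_iff (pow_ne_zero n hp.ne_zero) |>.1
    rw [map_sub, map_one, sub_pow_char_pow, one_pow, ← map_pow, ← h3, map_sub, map_one]
  rw [IsLocalRing.residue_eq_zero_iff, O.valuation_lt_one_iff] at h4
  simpa using h4

end Val

/-- The final extraction of roots. -/
theorem extract {p N : ℕ} (hp : p.Prime) (h5 : 5 ≤ p) (hN : ¬ p ∣ N) {A A' E : ℂ} (hA : A ≠ 0)
    (hA' : A' ≠ 0) (h : A' ^ p ^ 6 = A ^ p ^ 7 * E ^ (12 * (N * p) ^ 3)) :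
    ∃ E' : ℂ, (∀ O : ValuationSubring ℂ, O.valuation p < 1 → O.valuation (E - 1) < 1 →
      O.valuation (E' - 1) < 1) ∧ A' = A ^ p * E' ^ (12 * N ^ 3) := by
  have hN0 : N ≠ 0 := by
    rintro rfl
    exact hN (dvd_zero p)
  obtain ⟨E1, hE1⟩ := IsAlgClosed.exists_pow_nat_eq E (pow_pos hp.pos 3)
  have hE : E1 ≠ 0 := by
    rintro rfl
    rw [zero_pow (pow_ne_zero 3 hp.ne_zero)] at hE1
    rw [← hE1, zero_pow (by have := hp.ne_zero; positivity), mul_zero] at h
    exact hA' (pow_eq_zero_iff (pow_ne_zero 6 hp.ne_zero) |>.1 h)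
  have hD : A ^ p * E1 ^ (12 * N ^ 3) ≠ 0 := mul_ne_zero (pow_ne_zero _ hA) (pow_ne_zero _ hE)
  have hζ : (A' / (A ^ p * E1 ^ (12 * N ^ 3))) ^ p ^ 6 = 1 := by
    rw [div_pow, div_eq_one_iff_eq (pow_ne_zero _ hD), h, ← hE1, mul_pow (A ^ p), ← pow_mul,
      ← pow_mul, ← pow_mul]
    congr 2 <;> ring
  have hc : Nat.Coprime (12 * N ^ 3) (p ^ 6) := by
    refine Nat.Coprime.pow_right 6 (Nat.Coprime.symm ((Nat.Prime.coprime_iff_not_dvd hp).2 ?_))
    intro hd
    rcases (Nat.Prime.dvd_mul hp).1 hd with h1 | h1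
    · have h2 : p ∣ 2 ^ 2 * 3 := h1
      rcases (Nat.Prime.dvd_mul hp).1 h2 with h3 | h3
      · have := Nat.le_of_dvd two_pos (hp.dvd_of_dvd_pow h3)
        omega
      · have := Nat.le_of_dvd (by norm_num) h3
        omega
    · exact hN (hp.dvd_of_dvd_pow h1)
  obtain ⟨c, -, hc⟩ := Nat.exists_mul_mod_eq_one_of_coprime hc
    (Nat.one_lt_pow (by norm_num) hp.one_lt)
  set ζ := A' / (A ^ p * E1 ^ (12 * N ^ 3)) with hζd
  have h1 : (ζ ^ c) ^ (12 * N ^ 3) = ζ := by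
    rw [← pow_mul, mul_comm c, ← Nat.div_add_mod (12 * N ^ 3 * c) (p ^ 6), hc, pow_add, pow_mul,
      hζ, one_pow, one_mul, pow_one]
  refine ⟨ζ ^ c * E1, fun O hO hE' => one_root O hp hO 6 ?_, ?_⟩
  · have h2 : (ζ ^ c * E1) ^ p ^ 6 = E ^ p ^ 3 := by
      rw [mul_pow, ← pow_mul, mul_comm c, pow_mul, hζ, one_pow, one_mul, ← hE1, ← pow_mul]
      congr 1
      ring
    rw [h2]
    exact one_pow' O hE' _
  · rw [mul_pow, h1, hζd]
    field_simp

/-- The extrapolated value of an edge. -/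
def Fe (S : Setup) (G : S.A → ℂ) (N : ℕ) (u v : ℂ) : ℂ := FF N fun t => S.ed G (t * u) (t * v)

theorem tt_not {L : AddSubgroup ℂ} {N : ℕ} {v : ℂ} (hN : N * v ∈ L) (hv : v ∉ L) (j : Fin 4) :
    ((tt N j : ℤ) : ℂ) * v ∉ L ∧ ((-tt N j : ℤ) : ℂ) * v ∉ L := by
  have h : ((tt N j : ℤ) : ℂ) * v ∉ L := fun h => hv (by
    have h1 := L.sub_mem h (L.nsmul_mem hN j)
    have h2 : ((tt N j : ℤ) : ℂ) * v - (j : ℕ) • ((N : ℂ) * v) = v := by
      simp only [tt, nsmul_eq_mul]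
      push_cast
      ring
    rwa [h2] at h1)
  refine ⟨h, fun h' => h ?_⟩
  have h1 := L.neg_mem h'
  have h2 : -(((-tt N j : ℤ) : ℂ) * v) = ((tt N j : ℤ) : ℂ) * v := by
    push_cast
    ring
  rwa [h2] at h1

theorem chain (hcoc : S_COC) (S : ℕ → Setup) (G : ∀ i, (S i).A → ℂ) (hG : ∀ i, (S i).GH (G i))
    (hL : ∀ i, (S i).L = (S 0).L) (ha : ∀ i, (S i).a = (S 0).a)
    (hε : ∀ i, (S i).ε = (S 0).ε ^ (i + 1)) (N : ℕ) (v : ℕ → ℂ)
    (hv : ∀ i, v i - (S 0).ε * v (i + 1) ∈ (S 0).L) (hN : N * v 0 ∈ (S 0).L)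
    (h0 : v 0 ∉ (S 0).L) (n : ℕ) :
    v 0 - (S n).ε * v (n + 1) ∈ (S 0).L ∧ Fe (S n) (G n) N (v 0) (v (n + 1)) =
      ∏ i ∈ range (n + 1), Fe (S 0) (G 0) N (v i) (v (i + 1)) := by
  induction n with
  | zero => exact ⟨hv 0, by simp⟩
  | succ n ih =>
    have h1 : (S (n + 1)).ε = (S n).ε * (S 0).ε := by rw [hε (n + 1), hε n, pow_succ]
    have h2 : v (n + 1) - (S 0).ε * v (n + 2) ∈ (S n).L := by
      rw [hL n]
      exact hv _
    refine ⟨?_, ?_⟩
    · have h3 := (S n).mul_mem h2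
      rw [hL n] at h3
      have h4 : v 0 - (S (n + 1)).ε * v (n + 1 + 1) = (v 0 - (S n).ε * v (n + 1)) +
          (S n).ε * (v (n + 1) - (S 0).ε * v (n + 2)) := by
        rw [h1]
        ring
      rw [h4]
      exact (S 0).L.add_mem ih.1 h3
    · obtain ⟨P, hP, h⟩ := hcoc (S n) (S 0) (S (n + 1)) (G n) (G 0) (G (n + 1)) (hG _) (hG _)
        (hG _) (hL n).symm ((hL _).trans (hL n).symm) (ha n).symm ((ha _).trans (ha n).symm) h1
        (v 0) (v (n + 1)) (v (n + 2)) (by rw [hL n]; exact ih.1) h2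
      rw [prod_range_succ, ← ih.2, Fe, Fe, Fe, ← E2.FF_mul, ← one_mul (FF N fun t => _ * _),
        ← E2.FF_exp N (E2.poly_Cub1 hP), ← E2.FF_mul]
      rw [hL n] at h
      exact E2.FF_congr N fun j => ⟨h _ (tt_not hN h0 j).1, h _ (tt_not hN h0 j).2⟩

end Cong

end

end Pool.Agent.P.MP_29cb78_nt.F
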