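import Pool.Agent.P.MP_29cb78_nt.F.Up
import Pool.Agent.P.MP_29cb78_nt.F.Base
import Pool.Agent.P.MP_29cb78_nt.E2.Mul

/-!
The diagonal as a group, and the logarithms of the values.
-/

namespace Pool.Agent.P.MP_29cb78_nt.F

open E E2 Finset
open scoped Classical

noncomputable section

namespace Dgn

variable {S : Setup} {G : S.A → ℂ}

/-- The diagonal. -/
def Dg (S : Setup) : AddSubgroup S.A := (S.x₁ - S.x₂).ker

theorem mem_Dg {x : S.A} : x ∈ Dg S ↔ S.Diag x := by simp [Dg, Setup.Diag, sub_eq_zero]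

theorem diag (x : Dg S) : S.Diag x := mem_Dg.1 x.2

theorem Dg_le : Dg S ≤ S.V := fun _ hx => Up.diag_V (mem_Dg.1 hx)

/-- The lattice points. -/
def LA (S : Setup) : AddSubgroup S.A := S.L.comap S.x₁

/-- The lattice points of the diagonal. -/
def LD (S : Setup) : AddSubgroup (Dg S) := (LA S).addSubgroupOf (Dg S)

/-- The lattice points, inside `V`. -/
def LV (S : Setup) : AddSubgroup S.V := (LA S).addSubgroupOf S.V

theorem mem_LD {x : Dg S} : x ∈ LD S ↔ S.Lat x := Iff.rfl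

theorem mem_LV {x : S.V} : x ∈ LV S ↔ S.Lat x := Iff.rfl

theorem fbG (hG : S.GH G) : S.FB G := fb_thm S (th_thm S) G hG

theorem UU_ne (hG : S.GH G) (x : S.A) : S.UU G x ≠ 0 :=
  mul_ne_zero ((fbG hG).ne _) ((fbG hG).ne _)

theorem RR_ne (hG : S.GH G) (a b c d z : S.A) : S.RR G a b c d z ≠ 0 :=
  mul_ne_zero (mul_ne_zero (mul_ne_zero ((fbG hG).ne _) ((fbG hG).ne _)) ((fbG hG).ne _))
    ((fbG hG).ne _)

/-- The logarithm of the value on the diagonal. -/
def lf (G : S.A → ℂ) (x : Dg S) : Additive ℂˣ := lg (S.fb G x)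

/-- The logarithm of the symmetrised value. -/
def lu (G : S.A → ℂ) (x : S.V) : Additive ℂˣ := lg (S.UU G x)

theorem qcub_lf (hG : S.GH G) : QCub (LD S) (lf G) := by
  obtain ⟨-, -, h3, -⟩ := up_thm S (th_thm S) G hG (fbG hG)
  refine qcub_of_exp (f := fun x : Dg S => S.fb G x) (fun x => (fbG hG).ne _) fun w hw => ?_
  obtain ⟨b, l, c, -, h⟩ := h3 w hw (diag w)
  exact ⟨(b.comp (Dg S).subtype).compl₂ (Dg S).subtype, l.comp (Dg S).subtype, c,
    fun x => h x (diag x)⟩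

theorem qcub_lu (hG : S.GH G) : QCub (LV S) (lu G) := by
  obtain ⟨-, h2, -, -⟩ := up_thm S (th_thm S) G hG (fbG hG)
  refine qcub_of_exp (f := fun x : S.V => S.UU G x) (fun x => UU_ne hG _) fun w hw => ?_
  obtain ⟨b, l, c, -, h⟩ := h2 w hw
  exact ⟨b, l, c, h⟩

theorem AU_eq (hG : S.GH G) (N : ℕ) (x : S.V) : S.AU G N x = ex (DD N (lu G) x) :=
  FF_DD N (f := fun x : S.V => S.UU G x) (fun _ => UU_ne hG _) x

theorem not_lat_tt {N : ℕ} {y : S.A} (h : ¬ S.Lat y) (hN : S.Lat (N • y)) (j : Fin 4) :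
    ¬ S.Lat (tt N j • y) := fun h1 => h (by
  have := h1.sub (hN.nsmul j)
  convert this using 1
  simp only [tt]
  module)

theorem AL_eq (hG : S.GH G) {N : ℕ} (y : Dg S) (h : ¬ S.Lat y) (hN : S.Lat (N • (y : S.A))) :
    S.AL G N (S.x₁ y) = ex (DD N (lf G) y) := by
  refine Eq.trans ?_ (FF_DD N (f := fun x : Dg S => S.fb G x) (fun _ => (fbG hG).ne _) y)
  have key : ∀ t : ℤ, ¬ S.Lat (t • (y : S.A)) →
      S.ed G (t * S.x₁ y) (t * S.x₁ y) = S.fb G ((t • y : Dg S) : S.A) := fun t ht => by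
    have := Up.ed_eq G ht
    rw [map_zsmul, map_zsmul, ← show S.x₁ y = S.x₂ y from diag y, zsmul_eq_mul] at this
    exact this
  refine FF_congr N fun j => ⟨key _ (not_lat_tt h hN j), key _ fun h1 => not_lat_tt h hN j ?_⟩
  simpa using h1.neg

end Dgn

end

end Pool.Agent.P.MP_29cb78_nt.F
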