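import Pool.Agent.P.MP_29cb78_nt.F.Up

/-!
Thresholds, representatives and swapped families of points.
-/

namespace Pool.Agent.P.MP_29cb78_nt.F

open Finset
open scoped Classical

namespace Id4

variable {S : Setup} {G : S.A → ℂ} {d : ℕ} {t : Fin d → S.A} {c : S.A} {θ : ℂ → ℚ}

/-- A threshold exists if all lattice points among the sums of two parameters are negative. -/
theorem thr (h : ∀ j l, S.Lat (t j + c + t l) → S.a (S.x₂ (t j + c + t l)) < 0) :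
    ∃ θ, S.Thr t c θ := by
  obtain ⟨R, hR⟩ : ∃ R : ℚ, 0 ≤ R ∧ ∀ j, S.a (S.x₂ (t j + c)) < R ∧ S.a (S.x₂ (t j)) ≤ R := by
    refine ⟨1 + ∑ j, (|S.a (S.x₂ (t j + c))| + |S.a (S.x₂ (t j))|), by positivity, fun j => ?_⟩
    have h1 := single_le_sum (f := fun j => |S.a (S.x₂ (t j + c))| + |S.a (S.x₂ (t j))|)
      (fun j _ => by positivity) (mem_univ j)
    constructor <;> linarith [le_abs_self (S.a (S.x₂ (t j + c))), le_abs_self (S.a (S.x₂ (t j))),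
      abs_nonneg (S.a (S.x₂ (t j + c))), abs_nonneg (S.a (S.x₂ (t j)))]
  refine ⟨fun z => (univ.filter fun l => S.x₂ (t l) - z ∈ S.L).fold min R
    fun l => -S.a (S.x₂ (t l)), fun z m hm => ?_, ⟨R, fun z => abs_le.2 ⟨?_, ?_⟩⟩,
    fun j y hj => ?_, fun j y hj => ?_⟩
  · congr 1
    refine filter_congr fun l _ => ?_
    rw [← sub_sub, sub_eq_add_neg _ m, S.L.add_mem_cancel_right (S.L.neg_mem hm)]
  · exact (le_fold_min _).2 ⟨by linarith [hR.1], fun l _ => neg_le_neg (hR.2 l).2⟩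
  · exact (fold_min_le _).2 (Or.inl le_rfl)
  · refine (lt_fold_min _).2 ⟨(hR.2 j).1, fun l hl => ?_⟩
    have h1 : S.Lat (t l - y) := S.lat_iff.2 (by simpa using (mem_filter.1 hl).2)
    have h2 := h j l (by simpa using hj.add h1)
    rw [map_add, map_add S.a] at h2
    linarith
  · exact (fold_min_le _).2 (Or.inr ⟨j, mem_filter.2 ⟨mem_univ _, by
      simpa using S.lat_iff.1 hj⟩, le_rfl⟩)

/-- Finitely many representatives modulo lattice points. -/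
theorem exists_reps (B : S.A → Prop) (hB : ∀ y, B y → y ∈ S.V) :
    ∃ F : Finset S.A, (∀ y ∈ F, B y) ∧ (∀ x ∈ F, ∀ y ∈ F, S.Lat (x - y) → x = y) ∧
      ∀ x, B x → ∃ y ∈ F, S.Lat (x - y) := by
  have hN : (0 : ℤ) < S.N := by exact_mod_cast Nat.pos_of_ne_zero S.N_ne
  have hN' : (S.N : ℂ) ≠ 0 := by exact_mod_cast S.N_ne
  have fin : {g : ℂ ⧸ S.L | ∃ y, B y ∧ (S.x₁ y : ℂ ⧸ S.L) = g}.Finite := by
    refine (((Set.finite_Ico (0 : ℤ) S.N).prod ((Set.finite_Ico (0 : ℤ) S.N).prod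
      (Set.finite_Ico (0 : ℤ) S.N))).image fun c : ℤ × ℤ × ℤ =>
        (((c.1 * S.lam + c.2.1 * S.γ + c.2.2 * S.β) / S.N : ℂ) : ℂ ⧸ S.L)).subset ?_
    rintro _ ⟨y, hy, rfl⟩
    have h := Up.lat_N (hB y hy)
    rw [Setup.Lat, map_nsmul, nsmul_eq_mul] at h
    obtain ⟨i, j, k, e⟩ := (S.mem_L _).1 h
    have m : ∀ i : ℤ, i % S.N ∈ Set.Ico (0 : ℤ) S.N := fun i =>
      ⟨Int.emod_nonneg _ hN.ne', Int.emod_lt_of_pos _ hN⟩
    have d : ∀ i : ℤ, (i : ℂ) = S.N * (i / S.N : ℤ) + (i % S.N : ℤ) := fun i => by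
      exact_mod_cast (Int.mul_ediv_add_emod i S.N).symm
    refine ⟨(i % S.N, j % S.N, k % S.N), ⟨m i, m j, m k⟩,
      QuotientAddGroup.eq.2 ((S.mem_L _).2 ⟨i / S.N, j / S.N, k / S.N, ?_⟩)⟩
    rw [d i, d j, d k] at e
    field_simp
    linear_combination e
  have ch : ∀ g : ℂ ⧸ S.L, ∃ y, (∃ y, B y ∧ (S.x₁ y : ℂ ⧸ S.L) = g) →
      B y ∧ (S.x₁ y : ℂ ⧸ S.L) = g := fun g => by
    by_cases h : ∃ y, B y ∧ (S.x₁ y : ℂ ⧸ S.L) = g
    · exact ⟨h.choose, fun _ => h.choose_spec⟩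
    · exact ⟨0, fun h' => absurd h' h⟩
  choose r hr using ch
  have eq : ∀ x y : S.A, S.Lat (x - y) ↔ (S.x₁ x : ℂ ⧸ S.L) = S.x₁ y := fun x y => by
    rw [QuotientAddGroup.eq_iff_sub_mem, Setup.Lat, map_sub]
  refine ⟨fin.toFinset.image r, ?_, ?_, fun x hx => ⟨r (S.x₁ x), mem_image_of_mem _
    (fin.mem_toFinset.2 ⟨x, hx, rfl⟩), (eq _ _).2 (hr _ ⟨x, hx, rfl⟩).2.symm⟩⟩
  · simp only [mem_image, Set.Finite.mem_toFinset]
    rintro _ ⟨g, hg, rfl⟩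
    exact (hr g hg).1
  · simp only [mem_image, Set.Finite.mem_toFinset]
    rintro _ ⟨g, hg, rfl⟩ _ ⟨g', hg', rfl⟩ h
    rw [eq, (hr g hg).2, (hr g' hg').2] at h
    rw [h]

theorem lat_T (i : ℤ) : S.Lat (i • (S.p - S.q)) := (S.lat_p.sub S.lat_q).zsmul i

theorem thr_eq (h : S.Thr t c θ) {x y : S.A} (hl : S.Lat (x - y)) : θ (S.x₂ x) = θ (S.x₂ y) := by
  rw [← h.per (S.x₂ y) _ (S.lat_iff.1 hl), map_sub, add_sub_cancel]

/-- Two points of a window that differ by a lattice point have the same index. -/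
theorem kk_eq {x y : S.A} (hl : S.Lat (x - y)) {r : ℚ} (h1 : r ≤ S.kk x) (h2 : S.kk x < r + 1)
    (h3 : r ≤ S.kk y) (h4 : S.kk y < r + 1) : S.a (S.x₂ (x - y)) = 0 := by
  obtain ⟨i, hi⟩ := S.a_exists (S.lat_iff.1 hl)
  have h5 := hi
  rw [map_sub, map_sub] at h5
  rw [S.kk_def] at h1 h2 h3 h4
  have h6 : -1 < i := by exact_mod_cast (by linarith : (-1 : ℚ) < i)
  have h7 : i < 1 := by exact_mod_cast (by linarith : (i : ℚ) < 1)
  rw [hi, show i = 0 by omega, Int.cast_zero]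

theorem neg_of_lt {x : S.A} (hx : S.Lat x) (h : S.a (S.x₂ x) < 1) : S.a (S.x₂ x) ≤ 0 := by
  obtain ⟨i, hi⟩ := S.a_exists (S.lat_iff.1 hx)
  rw [hi] at h ⊢
  have : i < 1 := by exact_mod_cast h
  exact_mod_cast (by omega : i ≤ 0)

theorem pair (hG : S.GH G) (hF : S.FB G) {x y : S.A} (h₁ : S.x₁ y = S.x₂ x) (h₂ : S.x₂ y = S.x₁ x)
    (k : ℤ) (hx : S.Lat x → S.a (S.x₂ (x + k • (S.p - S.q))) < 0)
    (hy : S.Lat y → S.a (S.x₂ (y + k • (S.p - S.q))) < 0) :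
    G (x + k • (S.p - S.q) + S.p) * G (y + k • (S.p - S.q) + S.p) = S.fb G x * S.fb G y := by
  have hV : x ∈ S.V := by rw [Up.mem_V, ← h₁, ← h₂]; exact S.diff_mem y
  have hV' := S.V.add_mem hV (Up.lat_V (lat_T k))
  have e : y + k • (S.p - S.q) = S.sw (x + k • (S.p - S.q)) :=
    S.ext (by rw [Up.x₁_sw hV']; simp [h₁]) (by rw [Up.x₂_sw hV']; simp [h₂])
  rw [← hF.tsh x y k h₁ h₂, e, Up.raw hG hV' fun hl => ?_, Setup.UU]
  rw [S.lat_add_iff (lat_T k)] at hl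
  refine ⟨?_, hx hl⟩
  have := hy (S.lat_iff.2 (h₂ ▸ hl))
  rwa [e, Up.x₂_sw hV'] at this

/-- The product over a family that is stable under the transpose. -/
theorem fam (hG : S.GH G) (hF : S.FB G) {x : Fin d → S.A} {e : Equiv.Perm (Fin d)}
    (h₁ : ∀ j, S.x₁ (x (e j)) = S.x₂ (x j)) (he : ∀ j, e (e j) = j) {k : Fin d → ℤ}
    (hk : ∀ j, k (e j) = k j) (hx : ∀ j, S.Lat (x j) → S.a (S.x₂ (x j + k j • (S.p - S.q))) < 0) :
    ∏ j, G (x j + k j • (S.p - S.q) + S.p) = ∏ j, S.fb G (x j) := by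
  rw [← div_eq_one_iff_eq (prod_ne_zero_iff.2 fun j _ => hF.ne _), ← prod_div_distrib]
  refine prod_involution (fun j _ => e j) (fun j _ => ?_) (fun j _ h hj => h ?_)
    (fun _ _ => mem_univ _) fun j _ => he j
  · rw [div_mul_div_comm, hk, pair hG hF (h₁ j) (by rw [← h₁, he]) _ (hx j) (hk j ▸ hx (e j)),
      div_self (mul_ne_zero (hF.ne _) (hF.ne _))]
  · have h1 : S.Diag (x j) := by
      have := h₁ j
      rwa [show e j = j from hj] at this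
    have h2 : S.Diag (x j + k j • (S.p - S.q)) := by
      simp [Setup.Diag, show S.x₁ (x j) = _ from h1]
    rw [hF.raw _ h2 fun hl => ?_, hF.tshD _ _ h1, div_self (hF.ne _)]
    rw [show S.x₁ (x j + k j • (S.p - S.q)) = _ from h2]
    exact hx j ((S.lat_add_iff (lat_T _)).1 hl)

end Id4

end Pool.Agent.P.MP_29cb78_nt.F
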