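import Pool.Agent.P.MP_29cb78_nt.F.Tj1Aux1

/-! The telescoping term with poles on the shifted antidiagonal. -/

namespace Pool.Agent.P.MP_29cb78_nt.F

namespace Tj1

variable {S : Setup} {G : S.A → ℂ} {Λ : (S.A → ℂ) → (S.A → Prop) → ℂ} {d : ℕ} {t : Fin d → S.A}
  {c : S.A} {s : ℂ} {σ : Fin d → ℂ} {θ : ℂ → ℚ} {φ : S.A →+ ℂ} {k : ℂ} {F : Finset S.A}

theorem h_anti' (hb : S.Bal t c s) {y : S.A} (hy : 2 * s + (S.x₁ y + S.x₂ y) ∈ S.M) :
    S.h y = S.kk y * (S.h S.q + S.h S.p) + -(S.a (2 * s) * S.h S.p) := by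
  have h0 := S.diff_mem c
  rw [hb.c₁, hb.c₂] at h0
  have h1 := S.L.sub_mem hy.1 (S.diff_mem y)
  have h2 : S.Lat (S.N • y) := by
    rw [S.lat_iff, map_nsmul, nsmul_eq_mul]
    apply S.N_mul
    have := S.L.add_mem (S.L.sub_mem (S.mul_mem h1) h1) h0
    rwa [show S.ε * (2 * s + (S.x₁ y + S.x₂ y) - (S.x₁ y - S.ε * S.x₂ y)) -
      (2 * s + (S.x₁ y + S.x₂ y) - (S.x₁ y - S.ε * S.x₂ y)) + (2 * s - S.ε * (2 * s)) =
      (S.ε ^ 2 - 1) * S.x₂ y by ring] at this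
  have h3 : S.a (S.x₁ y) = -S.a (S.x₂ y) - S.a (2 * s) := by
    have := (S.mem_M.1 hy).2
    rw [map_add, map_add] at this
    linarith
  rw [S.h_rat S.N_ne h2, h3, S.kk_def]
  push_cast
  ring

theorem tj2 (hT : S.TH) (hG : S.GH G) (hΛ : S.LamAPI Λ) (hb : S.Bal t c s) (hw : WP G t c s)
    (h₁ : S.Sec d (S.PP σ)) (h₂ : S.Sec d fun y => S.PP σ (-y))
    (hσ : ∀ y, S.PP σ y = S.PP (fun j => S.x₁ (t j) + s) y ∧
      S.PP σ y = S.PP (fun j => S.x₂ (t j) + s) y)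
    (hθ : S.Thr t c θ) (hφ : ∀ z, φ (S.ι z) = k * z)
    (hφΩ : ∀ ω ∈ S.Ω, φ ω = S.η (S.x₁ ω + S.x₂ ω))
    (hF : S.Reps F fun y => S.x₁ y + S.x₂ y + 2 * s ∈ S.M ∧ θ (S.x₂ y) ≤ S.kk y ∧
      S.kk y < θ (S.x₂ y) + 1) :
    ∃ f, S.Tame f (S.clT θ) ∧ S.AE f (fun y => S.WW G t c y *
        (S.PP σ (-(S.x₁ y + s)) * S.PP σ (-(S.x₂ y + s)) *
            (S.zt (S.x₁ y + S.x₂ y + 2 * s) - φ y) -
          S.PP σ (S.x₁ y + s) * S.PP σ (S.x₂ y + s) *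
            (S.zt (S.x₁ y + S.x₂ y + 2 * s) - φ (y + (S.p + S.q))))) ∧
      Λ f (S.clT θ) =
        S.κ * ∑ y ∈ F, (∏ j, (G (t j + c + y) * G (t j - y + S.p + S.q))) / (S.ε + 1) := by
  obtain ⟨W, hW⟩ : ∃ W : S.A → ℂ,
      W = fun y => ∏ j, (G (t j + c + y) * G (t j + (S.p + S.q) - y)) := ⟨_, rfl⟩
  have e1 : S.AE (fun y => S.WW G t c y * (S.PP σ (-(S.x₁ y + s)) * S.PP σ (-(S.x₂ y + s)))) W := by
    rw [hW]
    refine Tj1.ae hT G t c hσ (fun y => -(S.x₁ y + s)) (fun y => -(S.x₂ y + s)) fun j y h0 => ?_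
    rw [add_sub_right_comm, ← add_assoc, hG.shq _ fun h => h0.2 h.of_add_p, hG.shp _ h0.2,
      show S.x₁ (t j) + s + -(S.x₁ y + s) = S.x₁ (t j - y) by rw [map_sub]; ring,
      show S.x₂ (t j) + s + -(S.x₂ y + s) = S.x₂ (t j - y + S.p) by simp; ring]
    ring
  have e2 : S.AE (fun y => S.WW G t c y * (S.PP σ (S.x₁ y + s) * S.PP σ (S.x₂ y + s)))
      fun y => W (y + (S.p + S.q)) := by
    rw [hW]
    refine Tj1.ae hT G t c hσ (fun y => S.x₁ y + s) (fun y => S.x₂ y + s) fun j y h0 => ?_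
    rw [show t j + c + (y + (S.p + S.q)) = t j + c + y + S.p + S.q by abel,
      show t j + (S.p + S.q) - (y + (S.p + S.q)) = t j - y by abel,
      hG.shq _ fun h => h0.1 h.of_add_p, hG.shp _ h0.1,
      show S.x₁ (t j) + s + (S.x₁ y + s) = S.x₁ (t j + c + y) by
        rw [map_add, map_add, hb.c₁]; ring,
      show S.x₂ (t j) + s + (S.x₂ y + s) = S.x₂ (t j + c + y + S.p) by
        rw [map_add, map_add, map_add, hb.c₂, S.x₂_p]; ring]
    ring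
  have t1 : S.Tame W (S.clT θ) := (tame hG hw h₂ h₂ hθ.sep).congr e1
  have t2 : S.Tame W fun y => S.clT θ (y - (S.p + S.q)) := by
    have := ((tame hG hw h₁ h₁ hθ.sep).congr e2).shift (-(S.p + S.q))
    simpa only [neg_add_cancel_right, ← sub_eq_add_neg, sub_add_cancel] using this
  have hc : ∀ y, S.clT θ (y - (S.p + S.q)) ↔ θ (S.x₂ y) ≤ S.kk y + -1 := fun y => by
    have := hθ.per (S.x₂ y) _ S.lam_mem
    simp [Setup.clT, sub_eq_add_neg, this]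
  have h0 : 0 < S.h S.q + S.h S.p := by linarith [S.h_p_lt, S.h_p_pos]
  obtain ⟨k1, k2, k3⟩ := Tj1.key hT hΛ (S.x₁ + S.x₂) (2 * s) S.ε_add_ne (fun z => by simp; ring)
    (fun ω hω => S.M.add_mem hω.1 hω.2) hφ hφΩ t1 t2
    (Tj1.bnd hθ.bdd 0 h0 (fun y hy => h_anti' hb hy) fun y => by rw [add_zero]; rfl)
    (Tj1.bnd hθ.bdd (-1) h0 (fun y hy => h_anti' hb hy) hc)
    (fun x hx => by
      rw [hW] at hx
      obtain ⟨j, hj⟩ := not_forall.1 fun h => hx (Tj1.an hG t c (S.p + S.q) x h)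
      rcases not_and_or.1 hj with h | h <;> rw [not_not] at h
      · exact iff_of_false (hθ.sep.lower j _ h)
          (hθ.sep.lower j _ (Setup.Pole.of_add_p (Setup.Pole.of_add_q (by
          rwa [show t j + c + (x - (S.p + S.q)) + S.p + S.q = t j + c + x by abel]))))
      · exact iff_of_true (hθ.sep.upper j _ (Setup.Pole.of_add_p (Setup.Pole.of_add_q (by
          rwa [show t j - x + S.p + S.q = t j + (S.p + S.q) - x by abel]))))
          (hθ.sep.upper j _ (by rwa [show t j - (x - (S.p + S.q)) = t j + (S.p + S.q) - x by abel])))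
    (fun x hx => show θ (S.x₂ x) ≤ S.kk x by linarith [(hc x).1 hx]) (F := F) (by
      have : (fun y => 2 * s + (S.x₁ + S.x₂) y ∈ S.M ∧ S.clT θ y ∧ ¬ S.clT θ (y - (S.p + S.q))) =
          fun y => S.x₁ y + S.x₂ y + 2 * s ∈ S.M ∧ θ (S.x₂ y) ≤ S.kk y ∧
            S.kk y < θ (S.x₂ y) + 1 :=
        funext fun y => propext (and_congr (by rw [add_comm]; rfl)
          (and_congr Iff.rfl (by rw [hc, not_le, add_neg_lt_iff_lt_add])))
      rwa [this])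
  obtain ⟨s1, s2⟩ := hΛ.shift' (S.p + S.q) k2
  refine ⟨_, k1.sub s1, ?_, ?_⟩
  · have := (e1.symm.mul (Setup.AE.refl fun y => S.zt (S.x₁ y + S.x₂ y + 2 * s) - φ y)).sub
      (e2.symm.mul (Setup.AE.refl fun y => S.zt (S.x₁ y + S.x₂ y + 2 * s) - φ (y + (S.p + S.q))))
    intro x
    filter_upwards [this x] with z hz
    simp only [Setup.sl] at hz ⊢
    rw [map_add (S.x₁ + S.x₂) _ (S.p + S.q), show (S.x₁ + S.x₂) (S.p + S.q) = 0 by simp, add_zero,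
      AddMonoidHom.add_apply, add_comm (2 * s), hz]
    ring
  · rw [hΛ.sub k1 s1, s2, k3, hW]
    simp only [add_sub_right_comm _ (S.p + S.q), add_assoc]

end Tj1

end Pool.Agent.P.MP_29cb78_nt.F
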