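import Pool.Agent.P.MP_29cb78_nt.F.Tj1Aux1

/-! The two exact terms of the telescoping identity. -/

namespace Pool.Agent.P.MP_29cb78_nt.F

namespace Tv

variable {S : Setup} {d : ℕ} {σ : Fin d → ℂ}

theorem gg_shift (hd : d ≠ 0) (h₁ : S.Sec d (S.PP σ)) (h₂ : S.Sec d fun y => S.PP σ (-y))
    {m : ℂ} (hm : m ∈ S.M) (z : ℂ) :
    S.GG σ (z + m) = S.mult m z ^ d * (S.GG σ z + S.η m * (S.PP σ z + S.PP σ (-z))) := by
  have h1 : HasDerivAt (S.mult m) (S.mult m z * S.η m) z := by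
    have := (((hasDerivAt_id z).const_mul (S.η m)).cexp).const_mul (deriv S.ϑ m / deriv S.ϑ 0)
    simp only [id, mul_one, ← mul_assoc] at this
    exact this
  have h2 := ((h1.fun_pow d).fun_mul ((h₁.1.fun_add h₂.1) z).hasDerivAt).deriv
  have h3 : (fun z => S.mult m z ^ d * (S.PP σ z + S.PP σ (-z))) =
      fun z => (fun u => S.PP σ u + S.PP σ (-u)) (z + m) := funext fun z => by
    have := h₂.2 m hm z
    simp only at this ⊢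
    rw [h₁.2 m hm, this, mul_add]
  rw [h3, deriv_comp_add_const (fun u => S.PP σ u + S.PP σ (-u))] at h2
  have h4 : (d : ℂ) ≠ 0 := by exact_mod_cast hd
  rw [Setup.GG, Setup.GG, h2, mul_assoc (d : ℂ), ← mul_assoc (_ ^ _), pow_sub_one_mul hd]
  field_simp
  ring

theorem gsec (hd : d ≠ 0) (h₁ : S.Sec d (S.PP σ)) (h₂ : S.Sec d fun y => S.PP σ (-y))
    (x φ : S.A →+ ℂ) (s α : ℂ) {ω : S.A} (hω : x ω ∈ S.M) (h : φ ω = S.η (x ω)) (y : S.A) :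
    S.GG σ (x (y + ω) + s) - φ (y + ω) * (S.PP σ (x (y + ω) + s) + S.PP σ (-(x (y + ω) + s))) +
      α * S.PP σ (x (y + ω) + s) = S.mult (x ω) (x y + s) ^ d *
      (S.GG σ (x y + s) - φ y * (S.PP σ (x y + s) + S.PP σ (-(x y + s))) +
        α * S.PP σ (x y + s)) := by
  have := h₂.2 _ hω (x y + s)
  simp only at this
  rw [map_add, map_add, add_right_comm, gg_shift hd h₁ h₂ hω, h₁.2 _ hω, this, h]
  ring

theorem gan (h₁ : S.Sec d (S.PP σ)) (h₂ : S.Sec d fun y => S.PP σ (-y)) {x φ : S.A →+ ℂ} {s : ℂ}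
    (hx : ∀ {f : ℂ → ℂ}, Differentiable ℂ f → ∀ u, AnalyticAt ℂ (S.sl (fun y => f (x y + s)) u) 0)
    (α : ℂ) {k : ℂ} (hφ : ∀ z, φ (S.ι z) = k * z) (u : S.A) : AnalyticAt ℂ (S.sl (fun y =>
      S.GG σ (x y + s) - φ y * (S.PP σ (x y + s) + S.PP σ (-(x y + s))) +
        α * S.PP σ (x y + s)) u) 0 := by
  have h1 : AnalyticAt ℂ (S.sl φ u) 0 := by
    have : S.sl φ u = fun z => φ u + k * z := by funext z; simp [Setup.sl, hφ]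
    rw [this]; fun_prop
  exact ((hx (f := S.GG σ) ((h₁.1.fun_add h₂.1).deriv.div_const _) u).sub
    (h1.mul (hx (h₁.1.fun_add h₂.1) u))).add (hx (h₁.1.const_mul α) u)

variable {G : S.A → ℂ} {Λ : (S.A → ℂ) → (S.A → Prop) → ℂ} {t : Fin d → S.A}
  {c : S.A} {s : ℂ} {cl : S.A → Prop} {φ : S.A →+ ℂ} {k : ℂ}

theorem tv₁ (hT : S.TH) (hG : S.GH G) (hΛ : S.LamAPI Λ) (hd0 : d ≠ 0) (hb : S.Bal t c s)
    (hw : Tj1.WP G t c s) (h₁ : S.Sec d (S.PP σ)) (h₂ : S.Sec d fun y => S.PP σ (-y))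
    (hσ : ∀ y, S.PP σ y = S.PP (fun j => S.x₁ (t j) + s) y) (hs : S.Sep t c cl)
    (hφ : ∀ z, φ (S.ι z) = k * z) (hΩ : ∀ ω ∈ S.Ω, φ ω = S.η (S.x₂ ω)) (α : ℂ) :
    ∃ f, S.Tame f cl ∧ Λ f cl = 0 ∧ S.AE f fun y => S.WW G t c y *
      (S.PP σ (S.x₁ y + s) * (S.GG σ (S.x₂ y + s) -
          φ (y + S.p) * (S.PP σ (S.x₂ y + s) + S.PP σ (-(S.x₂ y + s))) + α * S.PP σ (S.x₂ y + s)) -
        S.PP σ (-(S.x₁ y + s)) * (S.GG σ (S.x₂ y + s) -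
          φ y * (S.PP σ (S.x₂ y + s) + S.PP σ (-(S.x₂ y + s))) + α * S.PP σ (S.x₂ y + s))) := by
  obtain ⟨k1, k2⟩ := Tame.exa hT hG hΛ S.p S.x₁ hb.c₁ hG.shp (fun _ h => h.of_add_p) hs
    hσ (Tv.gan h₁ h₂ (Tame.an₂ s) α hφ) fun ω hω x => .of_forall fun z => by
      have := h₂.2 _ hω.1 (S.x₁ (x + S.ι z) + s)
      simp only [Setup.sl] at this ⊢
      rw [Tv.gsec hd0 h₁ h₂ _ _ _ _ hω.2 (hΩ ω hω), map_add S.x₁ _ ω, add_right_comm _ _ s, this]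
      linear_combination (S.PP σ (-(S.x₁ (x + S.ι z) + s)) * (S.GG σ (S.x₂ (x + S.ι z) + s) -
        φ (x + S.ι z) * (S.PP σ (S.x₂ (x + S.ι z) + s) + S.PP σ (-(S.x₂ (x + S.ι z) + s))) +
        α * S.PP σ (S.x₂ (x + S.ι z) + s))) * hw ω hω (x + S.ι z)
  refine ⟨_, k1, k2, ?_⟩
  simp only [map_add S.x₂, S.x₂_p, add_zero]
  exact Setup.AE.refl _

theorem tv₂ (hT : S.TH) (hG : S.GH G) (hΛ : S.LamAPI Λ) (hd0 : d ≠ 0) (hb : S.Bal t c s)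
    (hw : Tj1.WP G t c s) (h₁ : S.Sec d (S.PP σ)) (h₂ : S.Sec d fun y => S.PP σ (-y))
    (hσ : ∀ y, S.PP σ y = S.PP (fun j => S.x₂ (t j) + s) y) (hs : S.Sep t c cl)
    (hφ : ∀ z, φ (S.ι z) = k * z) (hΩ : ∀ ω ∈ S.Ω, φ ω = S.η (S.x₁ ω)) (α : ℂ) :
    ∃ f, S.Tame f cl ∧ Λ f cl = 0 ∧ S.AE f fun y => S.WW G t c y *
      (S.PP σ (S.x₂ y + s) * (S.GG σ (S.x₁ y + s) -
          φ (y + S.q) * (S.PP σ (S.x₁ y + s) + S.PP σ (-(S.x₁ y + s))) + α * S.PP σ (S.x₁ y + s)) -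
        S.PP σ (-(S.x₂ y + s)) * (S.GG σ (S.x₁ y + s) -
          φ y * (S.PP σ (S.x₁ y + s) + S.PP σ (-(S.x₁ y + s))) + α * S.PP σ (S.x₁ y + s))) := by
  obtain ⟨k1, k2⟩ := Tame.exa hT hG hΛ S.q S.x₂ hb.c₂ hG.shq (fun _ h => h.of_add_q) hs
    hσ (Tv.gan h₁ h₂ (Tame.an₁ s) α hφ) fun ω hω x => .of_forall fun z => by
      have := h₂.2 _ hω.2 (S.x₂ (x + S.ι z) + s)
      simp only [Setup.sl] at this ⊢
      rw [Tv.gsec hd0 h₁ h₂ _ _ _ _ hω.1 (hΩ ω hω), map_add S.x₂ _ ω, add_right_comm _ _ s, this]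
      linear_combination (S.PP σ (-(S.x₂ (x + S.ι z) + s)) * (S.GG σ (S.x₁ (x + S.ι z) + s) -
        φ (x + S.ι z) * (S.PP σ (S.x₁ (x + S.ι z) + s) + S.PP σ (-(S.x₁ (x + S.ι z) + s))) +
        α * S.PP σ (S.x₁ (x + S.ι z) + s))) * hw ω hω (x + S.ι z)
  refine ⟨_, k1, k2, ?_⟩
  simp only [map_add S.x₁, S.x₁_q, add_zero]
  exact Setup.AE.refl _

/-- Exact terms do not contribute. -/
theorem ex (hT : S.TH) (hG : S.GH G) (hΛ : S.LamAPI Λ) (hb : S.Bal t c s)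
    (hw : Tj1.WP G t c s) (h₂ : S.Sec d fun y => S.PP σ (-y))
    (hσ : ∀ y, S.PP σ y = S.PP (fun j => S.x₁ (t j) + s) y) (hs : S.Sep t c cl)
    {f : ℂ → ℂ} (hf : S.Sec d f) :
    Λ (fun y => S.WW G t c y * (S.Pm σ (S.x₁ y + s) * f (S.x₂ y + s))) cl = 0 := by
  have h2 := (Tame.exa (g := fun y => f (S.x₂ y + s)) hT hG hΛ S.p S.x₁ hb.c₁ hG.shp
    (fun _ h => h.of_add_p) hs hσ (Tame.an₂ s hf.1) (Tj1.tame hG hw h₂ hf hs).per).2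
  simpa only [Setup.Pm, sub_mul, map_add, S.x₂_p, add_zero] using h2

end Tv

end Pool.Agent.P.MP_29cb78_nt.F
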