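import Pool.Agent.P.MP_29cb78_nt.F.Tj1
import Pool.Agent.P.MP_29cb78_nt.F.Tj2
import Pool.Agent.P.MP_29cb78_nt.F.Tv

/-! The telescoping identity. -/

namespace Pool.Agent.P.MP_29cb78_nt.F

namespace Tel

variable {S : Setup} {G : S.A → ℂ} {Λ : (S.A → ℂ) → (S.A → Prop) → ℂ} {d : ℕ} {t : Fin d → S.A}
  {c : S.A} {s : ℂ} {σ : Fin d → ℂ} {θ : ℂ → ℚ} {F₁ F₂ : Finset S.A}

theorem tel (hT : S.TH) (hG : S.GH G) (hΛ : S.LamAPI Λ) {φ₁ φ₂ : S.A →+ ℂ} {k₁ k₂ : ℂ}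
    (hk : ∀ z, φ₁ (S.ι z) = k₁ * z ∧ φ₂ (S.ι z) = k₂ * z)
    (hΩ : ∀ ω ∈ S.Ω, φ₁ ω = S.η (S.x₁ ω) ∧ φ₂ ω = S.η (S.x₂ ω)) (hd0 : d ≠ 0)
    (hb : S.Bal t c s) (hw : Tj1.WP G t c s)
    (h₁ : S.Sec d (S.PP σ)) (h₂ : S.Sec d fun y => S.PP σ (-y))
    (hσ : ∀ y, S.PP σ y = S.PP (fun j => S.x₁ (t j) + s) y ∧
      S.PP σ y = S.PP (fun j => S.x₂ (t j) + s) y) (hθ : S.Thr t c θ)
    (hF₁ : S.Reps F₁ fun y => S.x₁ y - S.x₂ y ∈ S.M ∧ θ (S.x₂ y) - 1 ≤ S.kk y ∧ S.kk y < θ (S.x₂ y))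
    (hF₂ : S.Reps F₂ fun y => S.x₁ y + S.x₂ y + 2 * s ∈ S.M ∧ θ (S.x₂ y) ≤ S.kk y ∧
      S.kk y < θ (S.x₂ y) + 1) :
    S.Tame (fun y => S.WW G t c y * S.BB σ (S.x₁ y + s) (S.x₂ y + s)) (S.clT θ) ∧
    Λ (fun y => S.WW G t c y * S.BB σ (S.x₁ y + s) (S.x₂ y + s)) (S.clT θ) =
      S.κ * (∑ y ∈ F₁, (∏ j, (G (t j + c + y + S.q) * G (t j - y + S.p))) / (S.ε - 1) +
        ∑ y ∈ F₂, (∏ j, (G (t j + c + y) * G (t j - y + S.p + S.q))) / (S.ε + 1)) := by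
  obtain ⟨f₁, t₁, e₁, v₁⟩ := Tj1.tj1 (φ := φ₁ - φ₂) (k := k₁ - k₂) hT hG hΛ hb hw h₁ h₂ hσ hθ
    (fun z => by simp [hk z, sub_mul]) (fun ω hω => by simp [hΩ ω hω]) hF₁
  obtain ⟨f₂, t₂, e₂, v₂⟩ := Tj1.tj2 (φ := φ₁ + φ₂) (k := k₁ + k₂) hT hG hΛ hb hw h₁ h₂ hσ hθ
    (fun z => by simp [hk z, add_mul]) (fun ω hω => by simp [hΩ ω hω]) hF₂
  obtain ⟨f₃, t₃, v₃, e₃⟩ := Tv.tv₁ hT hG hΛ hd0 hb hw h₁ h₂ (fun y => (hσ y).1) hθ.sep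
    (fun z => (hk z).2) (fun ω hω => (hΩ ω hω).2) (-φ₁ S.q)
  obtain ⟨f₄, t₄, v₄, e₄⟩ := Tv.tv₂ hT hG hΛ hd0 hb hw h₁ h₂ (fun y => (hσ y).2) hθ.sep
    (fun z => (hk z).1) (fun ω hω => (hΩ ω hω).1) (φ₁ S.q - φ₂ S.q - φ₁ S.p)
  have e : S.AE (fun y => f₁ y + f₂ y + (f₃ y + f₄ y))
      fun y => S.WW G t c y * S.BB σ (S.x₁ y + s) (S.x₂ y + s) := by
    refine ((e₁.add e₂).add (e₃.add e₄)).trans fun x => .of_forall fun z => ?_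
    simp only [Setup.sl]
    generalize x + S.ι z = y
    rw [Setup.BB, add_sub_add_right_eq_sub,
      show S.x₁ y + s + (S.x₂ y + s) = S.x₁ y + S.x₂ y + 2 * s by ring]
    simp only [Setup.Pm, map_add, map_sub, AddMonoidHom.add_apply, AddMonoidHom.sub_apply]
    ring
  have h := (t₁.add t₂).add (t₃.add t₄)
  refine ⟨h.congr e, ?_⟩
  rw [← hΛ.congr _ _ _ h e, hΛ.add _ _ _ (t₁.add t₂) (t₃.add t₄), hΛ.add _ _ _ t₁ t₂,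
    hΛ.add _ _ _ t₃ t₄, v₁, v₂, v₃, v₄]
  ring

theorem sum₁ (hb : S.Bal t c s) : ∑ j, (S.x₁ (t j) + s) = 0 := by
  have h := congrArg S.x₁ hb.sum
  simp only [map_sum, map_add, hb.c₁, map_zero] at h
  have h2 : 2 * ∑ j, (S.x₁ (t j) + s) = 0 := by
    rw [Finset.mul_sum, ← h]
    exact Finset.sum_congr rfl fun j _ => by ring
  simpa using h2

end Tel

theorem tel_thm (hwper : S_WPER) (hosec : S_OSEC) (hphi : S_PHI) : S_TEL := by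
  intro S hT G hG Λ hΛ d t c s σ θ F₁ F₂ hd hd0 hb hσ0 hσ hθ hF₁ hF₂
  obtain ⟨φ₁, φ₂, k₁, k₂, hk, hΩ⟩ := hphi S
  obtain ⟨h₁, h₂, -⟩ := (hosec S hT).2.2.1 d σ hd hσ0
  exact Tel.tel hT hG hΛ hk hΩ hd0 hb (hwper S hT G hG d t c s hd hb) h₁ h₂ hσ hθ hF₁ hF₂

theorem ex_thm (hwper : S_WPER) (hosec : S_OSEC) : S_EX := by
  intro S hT G hG Λ hΛ d t c s f cl hd hb hf hs
  exact Tv.ex hT hG hΛ hb (hwper S hT G hG d t c s hd hb)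
    ((hosec S hT).2.2.1 d _ hd (Tel.sum₁ hb)).2.1 (fun _ => rfl) hs hf

end Pool.Agent.P.MP_29cb78_nt.F
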