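import Pool.Agent.P.MP_29cb78_nt.F.Id4Aux1
import Pool.Agent.P.MP_29cb78_nt.F.Tel

/-!
The residue identity for four balanced parameters.
-/

namespace Pool.Agent.P.MP_29cb78_nt.F

open Finset Filter Topology
open scoped Classical

namespace Id4

variable {S : Setup} {G : S.A → ℂ} {t : Fin 4 → S.A} {c : S.A} {s : ℂ} {θ : ℂ → ℚ}
  {e : Equiv.Perm (Fin 4)}

/-- The sum of the residues vanishes. -/
theorem raw (hlam : S_LAM) (htel : S_TEL) (hex : S_EX) (hres : S_RES4) (hT : S.TH) (hG : S.GH G)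
    (h₁ : ∀ j, S.x₁ (t (e j)) = S.x₂ (t j)) (he : ∀ j, e (e j) = j) (hb : S.Bal t c s)
    (H : ∀ j l, S.Lat (t j + c + t l) → S.a (S.x₂ (t j + c + t l)) < 0) (hθ : S.Thr t c θ)
    {F₁ F₂ : Finset S.A}
    (hF₁ : S.Reps F₁ fun y => S.x₁ y - S.x₂ y ∈ S.M ∧ θ (S.x₂ y) - 1 ≤ S.kk y ∧ S.kk y < θ (S.x₂ y))
    (hF₂ : S.Reps F₂ fun y => S.x₁ y + S.x₂ y + 2 * s ∈ S.M ∧ θ (S.x₂ y) ≤ S.kk y ∧
      S.kk y < θ (S.x₂ y) + 1) :
    ∑ y ∈ F₁, (∏ j, (G (t j + c + y + S.q) * G (t j - y + S.p))) / (S.ε - 1) +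
      ∑ y ∈ F₂, (∏ j, (G (t j + c + y) * G (t j - y + S.p + S.q))) / (S.ε + 1) = 0 := by
  obtain ⟨Λ, hΛ⟩ := hlam S
  have h₂ : ∀ j, S.x₂ (t (e j)) = S.x₁ (t j) := fun j => by rw [← h₁, he]
  obtain ⟨tame, e1⟩ := htel S hT G hG Λ hΛ 4 t c s (fun j => S.x₁ (t j) + s) θ F₁ F₂ (by decide)
    (by decide) hb (Tel.sum₁ hb) (fun y => ⟨rfl, by
      rw [Setup.PP, Setup.PP, ← Equiv.prod_comp e]
      simp only [h₁]⟩) hθ hF₁ hF₂
  obtain ⟨α, hα, e2⟩ := hres S hT (fun j => S.x₁ (t j) + s) (Tel.sum₁ hb) fun j hm => by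
    have h1 : S.x₂ (t (e 0) + c + t (e j)) = S.x₁ (t 0) + s + (S.x₁ (t j) + s) := by
      rw [map_add, map_add, h₂, h₂, hb.c₂]; ring
    have h2 := H (e 0) (e j) (S.lat_iff.2 (h1 ▸ hm.1))
    rw [h1, (S.mem_M.1 hm).2] at h2
    exact lt_irrefl _ h2
  have e3 := hex S hT G hG Λ hΛ 4 t c s α (S.clT θ) (by decide) hb hα hθ.sep
  rw [hΛ.congr _ _ _ tame (Setup.AE.of_eventually (fun y => S.x₁ y + s - (S.x₂ y + s) ∉ S.M ∧
    S.x₁ y + s + (S.x₂ y + s) ∉ S.M ∧ 2 * (S.x₂ y + s) ∉ S.M ∧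
    S.x₁ (t 0) + s - (S.x₂ y + s) ∉ S.M ∧ S.x₁ (t 0) + s + (S.x₂ y + s) ∉ S.M) (fun x => ?_)
    fun y hy => by rw [e2 _ _ hy.1 hy.2.1 hy.2.2.1 hy.2.2.2.1 hy.2.2.2.2]), e3] at e1
  · exact (mul_eq_zero.1 e1.symm).resolve_left S.κ_ne
  · filter_upwards [hT.disc_affine (S.x₁ x - S.x₂ x) S.ε_sub_ne,
      hT.disc_affine (S.x₁ x + S.x₂ x + 2 * s) S.ε_add_ne,
      hT.disc_affine (2 * (S.x₂ x + s)) (two_ne_zero (α := ℂ)),
      hT.disc_affine (S.x₁ (t 0) - S.x₂ x) (c := -1) (by norm_num),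
      hT.disc_affine (S.x₁ (t 0) + S.x₂ x + 2 * s) (one_ne_zero (α := ℂ))] with z a1 a2 a3 a4 a5
    simp only [map_add, Setup.x₁_ι, Setup.x₂_ι]
    refine ⟨fun h => a1 ?_, fun h => a2 ?_, fun h => a3 ?_, fun h => a4 ?_, fun h => a5 ?_⟩ <;>
      exact (congrArg (· ∈ S.M) (by ring)).mp h

/-- Moving representatives of the diagonal into the window. -/
theorem win₁ (hθ : S.Thr t c θ) {F : Finset S.A} (hF : S.DReps F) : ∃ i : S.A → ℤ,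
    S.Reps (F.image fun y => y + i y • (S.p - S.q))
      (fun y => S.x₁ y - S.x₂ y ∈ S.M ∧ θ (S.x₂ y) - 1 ≤ S.kk y ∧ S.kk y < θ (S.x₂ y)) ∧
    ∀ f : S.A → ℂ, ∑ y ∈ F.image fun y => y + i y • (S.p - S.q), f y =
      ∑ y ∈ F, f (y + i y • (S.p - S.q)) := by
  refine ⟨fun y => ⌊S.kk y - θ (S.x₂ y)⌋ + 1, ?_⟩
  generalize hi : (fun y => ⌊S.kk y - θ (S.x₂ y)⌋ + 1 : S.A → ℤ) = i
  have h0 : ∀ y ∈ F, S.x₁ (y + i y • (S.p - S.q)) - S.x₂ (y + i y • (S.p - S.q)) ∈ S.M ∧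
      θ (S.x₂ (y + i y • (S.p - S.q))) - 1 ≤ S.kk (y + i y • (S.p - S.q)) ∧
      S.kk (y + i y • (S.p - S.q)) < θ (S.x₂ (y + i y • (S.p - S.q))) := fun y hy => by
    have h3 : θ (S.x₂ (y + i y • (S.p - S.q))) = θ (S.x₂ y) := thr_eq hθ (by simpa using lat_T _)
    have h4 : S.kk (y + i y • (S.p - S.q)) = S.kk y - (⌊S.kk y - θ (S.x₂ y)⌋ + 1) := by
      simp [← hi]; ring
    rw [h3, h4]
    exact ⟨by simp [show S.x₁ y = _ from hF.mem y hy],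
      by linarith [Int.floor_le (S.kk y - θ (S.x₂ y))],
      by linarith [Int.lt_floor_add_one (S.kk y - θ (S.x₂ y))]⟩
  have h1 : ∀ x ∈ F, ∀ y ∈ F, S.Lat (x + i x • (S.p - S.q) - (y + i y • (S.p - S.q))) → x = y :=
    fun x hx y hy h => hF.inj x hx y hy (by
      have := (h.sub (lat_T (i x))).add (lat_T (i y))
      rwa [show x + i x • (S.p - S.q) - (y + i y • (S.p - S.q)) - i x • (S.p - S.q) +
        i y • (S.p - S.q) = x - y by abel] at this)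
  refine ⟨⟨?_, ?_, fun x hx => ?_⟩, fun f => sum_image fun x hx y hy h => h1 x hx y hy ?_⟩
  · simp only [mem_image]
    rintro _ ⟨y, hy, rfl⟩
    exact h0 y hy
  · simp only [mem_image]
    rintro _ ⟨x, hx, rfl⟩ _ ⟨y, hy, rfl⟩ h
    rw [h1 x hx y hy (S.lat_Ω h)]
  · obtain ⟨m0, m1, m2⟩ := S.pt_mem_Ω hx.1 S.M.zero_mem
    obtain ⟨y, hy, hl⟩ := hF.surj (x - S.pt (S.x₁ x - S.x₂ x) 0) (by simp [Setup.Diag, m1, m2])
    have hl' : S.Lat (x - (y + i y • (S.p - S.q))) := by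
      have := (hl.add (S.lat_Ω m0)).sub (lat_T (i y))
      rwa [show x - S.pt (S.x₁ x - S.x₂ x) 0 - y + S.pt (S.x₁ x - S.x₂ x) 0 - i y • (S.p - S.q) =
        x - (y + i y • (S.p - S.q)) by abel] at this
    obtain ⟨b1, b2, b3⟩ := h0 y hy
    rw [← thr_eq hθ hl'] at b2 b3
    have h5 := kk_eq hl' hx.2.1 (by linarith [hx.2.2]) b2 (by linarith)
    have h6 := (S.mem_M.1 (S.M.sub_mem hx.1 b1)).2
    refine ⟨_, mem_image_of_mem _ hy, S.mem_Ω.2 ⟨⟨hl', ?_⟩, ⟨S.lat_iff.1 hl', h5⟩⟩⟩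
    change S.a _ = 0
    simp only [map_sub S.a, map_sub S.x₁ x, map_sub S.x₂ x] at h5 h6 ⊢
    linarith
  · rw [show x + i x • (S.p - S.q) = y + i y • (S.p - S.q) from h, sub_self]
    exact S.lat_zero

theorem mem_V (hb : S.Bal t c s) {y : S.A} (hy : S.x₁ y + S.x₂ y + 2 * s = S.lam) : y ∈ S.V := by
  have h := S.diff_mem c
  rw [hb.c₁, hb.c₂] at h
  have := S.L.sub_mem (S.L.sub_mem (S.L.sub_mem S.lam_mem (S.mul_mem S.lam_mem)) h) (S.diff_mem y)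
  rw [Up.mem_V]
  exact (congrArg (· ∈ S.L) (by rw [← hy]; ring)).mp this

/-- Representatives of the shifted antidiagonal in the window. -/
theorem win₂ (hb : S.Bal t c s) (hθ : S.Thr t c θ) : ∃ F : Finset S.A,
    (∀ y ∈ F, S.x₁ y + S.x₂ y + 2 * s = S.lam) ∧ S.Reps (F.image fun y => y + S.q)
      fun y => S.x₁ y + S.x₂ y + 2 * s ∈ S.M ∧ θ (S.x₂ y) ≤ S.kk y ∧ S.kk y < θ (S.x₂ y) + 1 := by
  obtain ⟨F, f1, f2, f3⟩ := exists_reps (fun y => S.x₁ y + S.x₂ y + 2 * s = S.lam ∧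
    θ (S.x₂ (y + S.q)) ≤ S.kk (y + S.q) ∧ S.kk (y + S.q) < θ (S.x₂ (y + S.q)) + 1)
    fun y hy => mem_V hb hy.1
  have h0 : ∀ y ∈ F, S.x₁ (y + S.q) + S.x₂ (y + S.q) + 2 * s = 0 := fun y hy => by
    simp only [map_add, S.x₁_q, S.x₂_q]
    linear_combination (f1 y hy).1
  refine ⟨F, fun y hy => (f1 y hy).1, ?_, ?_, fun x hx => ?_⟩
  · simp only [mem_image]
    rintro _ ⟨y, hy, rfl⟩
    exact ⟨h0 y hy ▸ S.M.zero_mem, (f1 y hy).2⟩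
  · simp only [mem_image]
    rintro _ ⟨x, hx, rfl⟩ _ ⟨y, hy, rfl⟩ h
    rw [f2 x hx y hy (by simpa using S.lat_Ω h)]
  · obtain ⟨m0, m1, m2⟩ := S.pt_mem_Ω hx.1 S.M.zero_mem
    generalize S.pt (S.x₁ x + S.x₂ x + 2 * s) 0 = m at m0 m1 m2
    have h1 : S.x₂ (x - m - S.q + S.q) = S.x₂ x := by simp [m2]
    obtain ⟨y, hy, hl⟩ := f3 (x - m - S.q) ⟨by simp [m1, m2]; ring, by
      rw [S.kk_def, h1]; exact hx.2⟩
    have hl' : S.Lat (x - (y + S.q)) := by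
      have := hl.add (S.lat_Ω m0)
      rwa [show x - m - S.q - y + m = x - (y + S.q) by abel] at this
    obtain ⟨-, b2, b3⟩ := f1 y hy
    rw [← thr_eq hθ hl'] at b2 b3
    have h5 := kk_eq hl' hx.2.1 hx.2.2 b2 b3
    have h6 := (S.mem_M.1 hx.1).2
    have h7 := congrArg S.a (h0 y hy)
    refine ⟨_, mem_image_of_mem _ hy, S.mem_Ω.2 ⟨⟨hl', ?_⟩, ⟨S.lat_iff.1 hl', h5⟩⟩⟩
    change S.a _ = 0
    simp only [map_sub S.a, map_sub S.x₁ x, map_sub S.x₂ x, map_add S.a, map_zero] at h5 h6 h7 ⊢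
    linarith

end Id4

end Pool.Agent.P.MP_29cb78_nt.F
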