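import Pool.Agent.P.MP_29cb78_nt.F.Top

/-!
Statements of the pieces of the proof that the canonical invariants exist.
-/

namespace Pool.Agent.P.MP_29cb78_nt.F

open Filter Topology E NumberField
open scoped Classical Real

noncomputable section

/-! ### Theta functions -/

/-- Basic properties of the theta function. -/
def S_TH : Prop := ∀ S : Setup, S.TH

/-- Odd sections of degree four and six, and an addition formula. -/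
def S_OSEC : Prop := ∀ S : Setup, S.TH →
  (∀ f, S.Sec 4 f → (∀ y, f (-y) = -f y) → ∃ c : ℂ, ∀ y, f y = c * S.ϑ (2 * y)) ∧
  (∀ f α, S.Sec 6 f → (∀ y, f (-y) = -f y) → 2 * α ∉ S.M → f α = 0 →
    ∃ c : ℂ, ∀ y, f y = c * S.ff α y) ∧
  (∀ (d : ℕ) (σ : Fin d → ℂ), Even d → ∑ j, σ j = 0 →
    S.Sec d (S.PP σ) ∧ S.Sec d (fun y => S.PP σ (-y)) ∧ S.Sec d (S.Pm σ)) ∧
  (∀ α, S.Sec 6 (S.ff α)) ∧ S.Sec 4 fun y => S.ϑ (2 * y)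

/-- The kernel as an entire odd function of each variable. -/
def S_BENT : Prop := ∀ S : Setup, S.TH → ∀ (d : ℕ) (σ : Fin d → ℂ), Even d → d ≠ 0 →
  ∑ j, σ j = 0 →
  (∀ y₁ y₂, S.BB σ y₁ y₂ = S.BB σ y₂ y₁) ∧
  (∀ y₂, 2 * y₂ ∉ S.M → ∃ f, S.Sec d f ∧ (∀ y, f (-y) = -f y) ∧
    ∀ y₁, y₁ - y₂ ∉ S.M → y₁ + y₂ ∉ S.M → S.BB σ y₁ y₂ = f y₁) ∧
  ∀ a : Fin d, ∃ f, S.Sec d f ∧ (∀ y, f (-y) = -f y) ∧
    (∀ y, σ a - y ∉ S.M → σ a + y ∉ S.M →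
      S.BB σ (σ a) y = S.PP σ (σ a) * f y + S.GG σ (σ a) * S.Pm σ y) ∧
    ∀ b, b ≠ a → σ a + σ b ∉ S.M →
      f (σ b) = S.GG σ (σ b) - S.PP σ (σ b) * S.zt (σ a + σ b)

/-- The kernel for four parameters. -/
def S_RES4 : Prop := ∀ S : Setup, S.TH → ∀ σ : Fin 4 → ℂ, ∑ j, σ j = 0 →
  (∀ j, σ 0 + σ j ∉ S.M) → ∃ α, S.Sec 4 α ∧
    ∀ y₁ y₂, y₁ - y₂ ∉ S.M → y₁ + y₂ ∉ S.M → 2 * y₂ ∉ S.M → σ 0 - y₂ ∉ S.M → σ 0 + y₂ ∉ S.M →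
      S.BB σ y₁ y₂ = S.Pm σ y₁ * α y₂

/-! ### The gamma function -/

/-- The double product. -/
def S_DN : Prop := ∀ S : Setup, S.DN

/-- The theta product in the direction of `q`. -/
def S_THQ : Prop := ∀ S : Setup, S.TH →
  ∃ g, S.ExpQ g ∧ ∀ x, S.ϑ (S.x₁ x) = g x * S.θw S.q x

/-- The theta product in the direction of `p`. -/
def S_THP : Prop := ∀ S : Setup, S.TH →
  ∃ g, S.ExpQ g ∧ ∀ x, S.ϑ (S.x₂ x) = g x * S.θw S.p x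

/-- The correcting factor. -/
def S_PSI : Prop := ∀ S : Setup, S.TH → ∃ nc ψ, S.Psi nc ψ ∧
  ∀ x, ψ x * ψ (S.p + S.q - x) = (-1) ^ (S.n x - nc)

/-- The multiplier of the correcting factor in the first coordinate. -/
def S_RHO : Prop := ∀ S : Setup, S.TH → S.DN → ∀ nc ψ, S.Psi nc ψ → ∀ B : ℂ →+ ℂ →+ ℂ,
  (∀ m ∈ S.M, ∀ z, S.mult m z = Complex.exp (S.η m * z + B m m)) → ∀ m ∈ S.M, ∀ x,
    ψ (x + S.pt m 0) = Complex.exp ((S.n x - nc : ℤ) * (S.η m * S.x₁ x + B m m) -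
      S.η m * S.lam * (S.n x - nc : ℤ) * ((S.n x - nc : ℤ) + 1) / 2) * ψ x

/-- The second difference equation up to a quadratic exponential. -/
def S_GHQ : Prop := ∀ S : Setup, S.TH → S.DN → ∀ nc ψ, S.Psi nc ψ →
  (∀ x, ψ x * ψ (S.p + S.q - x) = (-1) ^ (S.n x - nc)) →
  ∃ (b : S.A →+ S.A →+ ℂ) (c : ℂ), (∀ x y, b x y = b y x) ∧ (∀ x, b S.p x = 0) ∧
    (∃ l : S.A → ℂ, ∀ z y, b (S.ι z) y = z * l y) ∧
    ∀ x, ψ (x + S.q) * S.θw S.p x = Complex.exp (b x x + c) * S.ϑ (S.x₂ x) * ψ x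

/-- The multipliers of the correcting factor. -/
def S_GHP : Prop := ∀ S : Setup, S.TH → S.DN → ∀ nc ψ, S.Psi nc ψ → ∀ ω ∈ S.Ω,
  ∃ (b : S.A →+ S.A →+ ℂ) (l : S.A →+ ℂ) (c : ℂ), (∀ x y, b x y = b y x) ∧
    ∀ x, ψ (x + ω) = Complex.exp (b x x + l x + c) * ψ x

/-- The normalised gamma function exists. -/
def S_GH : Prop := ∀ S : Setup, ∃ G, S.GH G

/-- Symmetries of the multipliers. -/
def S_QD : Prop := ∀ S : Setup, S.TH → ∀ G, S.GH G → ∀ ω ∈ S.Ω, ∃ Q, S.QD G ω Q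

/-- The contour integral on the group. -/
def S_LAM : Prop := ∀ S : Setup, ∃ Λ, S.LamAPI Λ

/-- Additive functions with the quasi-periods. -/
def S_PHI : Prop := ∀ S : Setup, ∃ (φ₁ φ₂ : S.A →+ ℂ) (k₁ k₂ : ℂ),
  (∀ z, φ₁ (S.ι z) = k₁ * z ∧ φ₂ (S.ι z) = k₂ * z) ∧
  ∀ ω ∈ S.Ω, φ₁ ω = S.η (S.x₁ ω) ∧ φ₂ ω = S.η (S.x₂ ω)

/-- The values with the convention at lattice points. -/
def S_FB : Prop := ∀ S : Setup, S.TH → ∀ G, S.GH G → S.FB G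

/-! ### The identity with four parameters -/

/-- Periodicity of the products. -/
def S_WPER : Prop := ∀ S : Setup, S.TH → ∀ G, S.GH G →
  ∀ (d : ℕ) (t : Fin d → S.A) (c : S.A) (s : ℂ), Even d → S.Bal t c s → ∀ ω ∈ S.Ω, ∀ y,
    S.WW G t c (y + ω) *
      (S.mult (S.x₁ ω) (S.x₁ y + s) ^ d * S.mult (S.x₂ ω) (S.x₂ y + s) ^ d) = S.WW G t c y

/-- Periodic products are tame. -/
def S_TAME : Prop := ∀ S : Setup, S.TH → ∀ G, S.GH G →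
  ∀ (d : ℕ) (t : Fin d → S.A) (c : S.A) (s : ℂ) (f₁ f₂ : ℂ → ℂ) (cl : S.A → Prop),
    Even d → S.Bal t c s → S.Sec d f₁ → S.Sec d f₂ → S.Sep t c cl →
    S.Tame (fun y => S.WW G t c y * (f₁ (S.x₁ y + s) * f₂ (S.x₂ y + s))) cl

/-- Exact terms do not contribute. -/
def S_EX : Prop := ∀ S : Setup, S.TH → ∀ G, S.GH G → ∀ Λ, S.LamAPI Λ →
  ∀ (d : ℕ) (t : Fin d → S.A) (c : S.A) (s : ℂ) (f : ℂ → ℂ) (cl : S.A → Prop),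
    Even d → S.Bal t c s → S.Sec d f → S.Sep t c cl →
    Λ (fun y => S.WW G t c y *
      (S.Pm (fun j => S.x₁ (t j) + s) (S.x₁ y + s) * f (S.x₂ y + s))) cl = 0

/-- The term with poles on the diagonal. -/
def S_TJ1 : Prop := ∀ S : Setup, S.TH → ∀ G, S.GH G → ∀ Λ, S.LamAPI Λ →
  ∀ (d : ℕ) (t : Fin d → S.A) (c : S.A) (s : ℂ) (σ : Fin d → ℂ) (θ : ℂ → ℚ) (φ : S.A →+ ℂ)
    (k : ℂ) (F : Finset S.A), Even d → S.Bal t c s →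
    (∀ y, S.PP σ y = S.PP (fun j => S.x₁ (t j) + s) y ∧
      S.PP σ y = S.PP (fun j => S.x₂ (t j) + s) y) →
    S.Thr t c θ → (∀ z, φ (S.ι z) = k * z) → (∀ ω ∈ S.Ω, φ ω = S.η (S.x₁ ω - S.x₂ ω)) →
    S.Reps F (fun y => S.x₁ y - S.x₂ y ∈ S.M ∧ θ (S.x₂ y) - 1 ≤ S.kk y ∧ S.kk y < θ (S.x₂ y)) →
    ∃ f, S.Tame f (S.clT θ) ∧ S.AE f (fun y => S.WW G t c y *
        (S.PP σ (S.x₁ y + s) * S.PP σ (-(S.x₂ y + s)) *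
            (S.zt (S.x₁ y - S.x₂ y) - φ (y + (S.p - S.q))) -
          S.PP σ (-(S.x₁ y + s)) * S.PP σ (S.x₂ y + s) * (S.zt (S.x₁ y - S.x₂ y) - φ y))) ∧
      Λ f (S.clT θ) =
        S.κ * ∑ y ∈ F, (∏ j, (G (t j + c + y + S.q) * G (t j - y + S.p))) / (S.ε - 1)

/-- The term with poles on the antidiagonal. -/
def S_TJ2 : Prop := ∀ S : Setup, S.TH → ∀ G, S.GH G → ∀ Λ, S.LamAPI Λ →
  ∀ (d : ℕ) (t : Fin d → S.A) (c : S.A) (s : ℂ) (σ : Fin d → ℂ) (θ : ℂ → ℚ) (φ : S.A →+ ℂ)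
    (k : ℂ) (F : Finset S.A), Even d → S.Bal t c s →
    (∀ y, S.PP σ y = S.PP (fun j => S.x₁ (t j) + s) y ∧
      S.PP σ y = S.PP (fun j => S.x₂ (t j) + s) y) →
    S.Thr t c θ → (∀ z, φ (S.ι z) = k * z) → (∀ ω ∈ S.Ω, φ ω = S.η (S.x₁ ω + S.x₂ ω)) →
    S.Reps F (fun y => S.x₁ y + S.x₂ y + 2 * s ∈ S.M ∧ θ (S.x₂ y) ≤ S.kk y ∧
      S.kk y < θ (S.x₂ y) + 1) →
    ∃ f, S.Tame f (S.clT θ) ∧ S.AE f (fun y => S.WW G t c y *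
        (S.PP σ (-(S.x₁ y + s)) * S.PP σ (-(S.x₂ y + s)) *
            (S.zt (S.x₁ y + S.x₂ y + 2 * s) - φ y) -
          S.PP σ (S.x₁ y + s) * S.PP σ (S.x₂ y + s) *
            (S.zt (S.x₁ y + S.x₂ y + 2 * s) - φ (y + (S.p + S.q))))) ∧
      Λ f (S.clT θ) =
        S.κ * ∑ y ∈ F, (∏ j, (G (t j + c + y) * G (t j - y + S.p + S.q))) / (S.ε + 1)

/-- The two exact terms. -/
def S_TV : Prop := ∀ S : Setup, S.TH → ∀ G, S.GH G → ∀ Λ, S.LamAPI Λ →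
  ∀ (d : ℕ) (t : Fin d → S.A) (c : S.A) (s : ℂ) (σ : Fin d → ℂ) (cl : S.A → Prop)
    (φ : S.A →+ ℂ) (k α : ℂ), Even d → d ≠ 0 → S.Bal t c s → ∑ j, σ j = 0 →
    (∀ y, S.PP σ y = S.PP (fun j => S.x₁ (t j) + s) y ∧
      S.PP σ y = S.PP (fun j => S.x₂ (t j) + s) y) →
    S.Sep t c cl → (∀ z, φ (S.ι z) = k * z) →
    ((∀ ω ∈ S.Ω, φ ω = S.η (S.x₂ ω)) → ∃ f, S.Tame f cl ∧ Λ f cl = 0 ∧
      S.AE f fun y => S.WW G t c y *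
        (S.PP σ (S.x₁ y + s) * (S.GG σ (S.x₂ y + s) -
            φ (y + S.p) * (S.PP σ (S.x₂ y + s) + S.PP σ (-(S.x₂ y + s))) +
            α * S.PP σ (S.x₂ y + s)) -
          S.PP σ (-(S.x₁ y + s)) * (S.GG σ (S.x₂ y + s) -
            φ y * (S.PP σ (S.x₂ y + s) + S.PP σ (-(S.x₂ y + s))) + α * S.PP σ (S.x₂ y + s)))) ∧
    ((∀ ω ∈ S.Ω, φ ω = S.η (S.x₁ ω)) → ∃ f, S.Tame f cl ∧ Λ f cl = 0 ∧
      S.AE f fun y => S.WW G t c y *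
        (S.PP σ (S.x₂ y + s) * (S.GG σ (S.x₁ y + s) -
            φ (y + S.q) * (S.PP σ (S.x₁ y + s) + S.PP σ (-(S.x₁ y + s))) +
            α * S.PP σ (S.x₁ y + s)) -
          S.PP σ (-(S.x₂ y + s)) * (S.GG σ (S.x₁ y + s) -
            φ y * (S.PP σ (S.x₁ y + s) + S.PP σ (-(S.x₁ y + s))) + α * S.PP σ (S.x₁ y + s))))

/-- The telescoping identity. -/
def S_TEL : Prop := ∀ S : Setup, S.TH → ∀ G, S.GH G → ∀ Λ, S.LamAPI Λ →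
  ∀ (d : ℕ) (t : Fin d → S.A) (c : S.A) (s : ℂ) (σ : Fin d → ℂ) (θ : ℂ → ℚ)
    (F₁ F₂ : Finset S.A), Even d → d ≠ 0 → S.Bal t c s → ∑ j, σ j = 0 →
    (∀ y, S.PP σ y = S.PP (fun j => S.x₁ (t j) + s) y ∧
      S.PP σ y = S.PP (fun j => S.x₂ (t j) + s) y) →
    S.Thr t c θ →
    S.Reps F₁ (fun y => S.x₁ y - S.x₂ y ∈ S.M ∧ θ (S.x₂ y) - 1 ≤ S.kk y ∧ S.kk y < θ (S.x₂ y)) →
    S.Reps F₂ (fun y => S.x₁ y + S.x₂ y + 2 * s ∈ S.M ∧ θ (S.x₂ y) ≤ S.kk y ∧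
      S.kk y < θ (S.x₂ y) + 1) →
    S.Tame (fun y => S.WW G t c y * S.BB σ (S.x₁ y + s) (S.x₂ y + s)) (S.clT θ) ∧
    Λ (fun y => S.WW G t c y * S.BB σ (S.x₁ y + s) (S.x₂ y + s)) (S.clT θ) =
      S.κ * (∑ y ∈ F₁, (∏ j, (G (t j + c + y + S.q) * G (t j - y + S.p))) / (S.ε - 1) +
        ∑ y ∈ F₂, (∏ j, (G (t j + c + y) * G (t j - y + S.p + S.q))) / (S.ε + 1))

/-- The symmetrised values. -/
def S_UP : Prop := ∀ S : Setup, S.TH → ∀ G, S.GH G → S.FB G →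
  (∀ x ∈ S.V, S.UU G x * S.UU G (-x) =
    S.χ (x + S.sw x) * if S.Lat x then S.ε⁻¹ ^ 2 else 1) ∧
  (∀ ω, S.Lat ω → ∃ (b : S.V →+ S.V →+ ℂ) (l : S.V →+ ℂ) (c : ℂ), (∀ x y, b x y = b y x) ∧
    ∀ x : S.V, S.UU G (x + ω) = Complex.exp (b x x + l x + c) * S.UU G x) ∧
  (∀ ω, S.Lat ω → S.Diag ω → ∃ (b : S.A →+ S.A →+ ℂ) (l : S.A →+ ℂ) (c : ℂ),
    (∀ x y, b x y = b y x) ∧
    ∀ x, S.Diag x → S.fb G (x + ω) = Complex.exp (b x x + l x + c) * S.fb G x) ∧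
  ∀ x ∈ S.V, (S.Lat x → S.a (S.x₁ x) < 0 ∧ S.a (S.x₂ x) < 0) →
    G (x + S.p) * G (S.sw x + S.p) = S.UU G x

/-- The multiplier of the function of rank two is a character. -/
def S_RPER : Prop := ∀ S : Setup, S.TH → ∀ G, S.GH G → S.FB G → ∀ α₀ α₁ β₀ β₁ : S.A,
  S.Cfg α₀ α₁ β₀ β₁ → ∀ ω y z, S.Lat ω → S.Diag ω → S.Diag y → S.Diag z →
    S.RR G α₀ α₁ β₀ β₁ (y + ω) * S.RR G α₀ α₁ β₀ β₁ z =
      S.RR G α₀ α₁ β₀ β₁ y * S.RR G α₀ α₁ β₀ β₁ (z + ω)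

/-- The inverse function and the degenerate centre. -/
def S_DEG : Prop := ∀ S : Setup, S.TH → ∀ G, S.GH G → S.FB G → ∀ α₀ α₁ β₀ β₁ : S.A,
  S.Cfg α₀ α₁ β₀ β₁ → ∀ z, S.Diag z → ∃ n : ℕ,
    S.RR G α₀ α₁ β₀ β₁ z * S.RR G β₀ β₁ α₀ α₁ z = S.ε⁻¹ ^ n ∧
    S.RR G α₀ α₁ β₀ β₁ (-(α₀ + α₁) - z) = S.RR G β₀ β₁ α₀ α₁ z ∧
    S.RR G α₀ α₁ β₀ β₁ z ^ 2 =
      S.UU G (α₀ + z) * S.UU G (α₁ + z) * S.UU G (-β₀ - z) * S.UU G (-β₁ - z)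

/-- Representatives of the diagonal exist. -/
def S_DREPS : Prop := ∀ S : Setup, ∃ F, S.DReps F

/-- The identity with four parameters. -/
def S_ID4 : Prop := ∀ S : Setup, S.TH → ∀ G, S.GH G → S.FB G → ∀ α₀ α₁ β₀ β₁ v : S.A,
  S.Cfg α₀ α₁ β₀ β₁ → S.Diag v → ¬ S.Lat (α₀ + α₁ + v) →
  ¬ (S.Lat (α₀ + α₀ + v) ∧ S.Lat (α₁ + α₁ + v) ∧ S.Lat (β₀ + β₀ + v) ∧ S.Lat (β₁ + β₁ + v)) →
  ∀ F₁, S.DReps F₁ → ∃ F₂ : Finset S.A, (∀ y ∈ F₂, y ∈ S.V ∧ y + S.sw y = v) ∧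
    (∑ y ∈ F₁, S.RR G α₀ α₁ β₀ β₁ y * S.RR G α₀ α₁ β₀ β₁ (v - y)) / (S.ε - 1) +
      (∑ y ∈ F₂, S.UU G (α₀ + y) * S.UU G (α₁ + y) * S.UU G (-β₀ - v + y) *
        S.UU G (-β₁ - v + y)) / (S.ε + 1) = 0

/-! ### Comparison of gamma functions -/

/-- The chain rule. -/
def S_COC : Prop := ∀ (S₁ S₂ S₃ : Setup) (G₁ : S₁.A → ℂ) (G₂ : S₂.A → ℂ) (G₃ : S₃.A → ℂ),
  S₁.GH G₁ → S₂.GH G₂ → S₃.GH G₃ → S₂.L = S₁.L → S₃.L = S₁.L → S₂.a = S₁.a → S₃.a = S₁.a →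
  S₃.ε = S₁.ε * S₂.ε → ∀ x₀ x₁ x₂ : ℂ, x₀ - S₁.ε * x₁ ∈ S₁.L → x₁ - S₂.ε * x₂ ∈ S₁.L →
    ∃ P, Cub1 P ∧ ∀ t : ℤ, t * x₀ ∉ S₁.L → S₃.ed G₃ (t * x₀) (t * x₂) =
      Complex.exp (P t) * (S₁.ed G₁ (t * x₀) (t * x₁) * S₂.ed G₂ (t * x₁) (t * x₂))

/-- Independence of the form, and homotheties. -/
def S_IND : Prop := ∀ (S S' : Setup) (G : S.A → ℂ) (G' : S'.A → ℂ) (α : ℂ), S.GH G → S'.GH G' →
  S'.ε = S.ε → α ≠ 0 → (∀ z, α * z ∈ S'.L ↔ z ∈ S.L) →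
  (∃ (c : ℝ) (w : ℂ), 0 < c ∧ ∀ l ∈ S.L, (S'.a (α * l) : ℝ) = c * S.a l + (w * l).re) →
  ∀ v : ℂ, (S.ε - 1) * v ∈ S.L → ∃ P, Cub1 P ∧ ∀ t : ℤ, t * v ∉ S.L →
    S'.ed G' (t * (α * v)) (t * (α * v)) = Complex.exp (P t) * S.ed G (t * v) (t * v)

/-- The distribution relation. -/
def S_DIST : Prop := ∀ (S S' : Setup) (G : S.A → ℂ) (G' : S'.A → ℂ) (n : ℕ) (I : Type)
  [Fintype I] (τ : I → ℂ) (e : Equiv.Perm I), S.GH G → S'.GH G' → S'.ε = S.ε → S.L ≤ S'.L →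
  n ≠ 0 → (∀ z, S'.a z = n * S.a z) → (∀ j, τ j ∈ S'.L) → (∀ i j, τ i - τ j ∈ S.L → i = j) →
  (∀ x ∈ S'.L, ∃ j, x - τ j ∈ S.L) → (∀ j, τ j - S.ε * τ (e j) ∈ S.L) →
  ∀ v : ℂ, (S.ε - 1) * v ∈ S.L → ∃ P, Cub1 P ∧ ∀ t : ℤ, t * v ∉ S'.L →
    ∏ j, S.ed G (t * v + τ j) (t * v + τ (e j)) = Complex.exp (P t) * S'.ed G' (t * v) (t * v)

/-- Moving the vertices of a closed configuration by lattice vectors. -/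
def S_CFG : Prop := ∀ (S : Setup) (G : S.A → ℂ) (I : Type) [Fintype I] (τ l : I → ℂ)
  (e : Equiv.Perm I), S.GH G → (∀ j, τ j - S.ε * τ (e j) ∈ S.L) → (∀ j, l j ∈ S.L) →
  ∀ v : ℂ, (S.ε - 1) * v ∈ S.L → ∃ P, Cub2 P ∧ ∀ t i : ℤ, (∀ j, t * v + τ j ∉ S.L) →
    ∏ j, S.ed G (t * v + τ j + i * l j) (t * v + τ (e j) + i * l (e j)) =
      Complex.exp (P t i) * ∏ j, S.ed G (t * v + τ j) (t * v + τ (e j))

/-- The Kronecker limit formula. -/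
def S_KLF : Prop := ∀ (S : Setup) (G : S.A → ℂ) (v : ℂ) (r : ℂ →+ ℝ) (ρ : ℝ) (N : ℕ), S.GH G →
  S.RealStr v r ρ → N ≠ 0 → N * v ∈ S.L →
    Cont (Zv S.L v r ρ) ((Real.log (‖S.AL G N v‖ ^ 2) / (12 * (N : ℝ) ^ 3) : ℝ) : ℂ)

/-- A primitive positive form on an ideal. -/
structure Prim {k : Type} [Field k] (ρ : k →+* ℝ) (σ : k →+* ℂ) (J : Ideal (𝓞 k))
    (a : ℂ →+ ℚ) : Prop where
  int : ∀ y ∈ J, ∃ n : ℤ, a (σ (y : 𝓞 k)) = n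
  one : ∃ y ∈ J, a (σ (y : 𝓞 k)) = 1
  pos : ∃ (α : ℝ) (w : ℂ), 0 < α ∧
    ∀ y ∈ J, (a (σ (y : 𝓞 k)) : ℝ) = α * ρ (y : 𝓞 k) + (w * σ (y : 𝓞 k)).re

/-- Primitive positive forms exist. -/
def S_FORM : Prop := ∀ (k : Type) [Field k] [NumberField k] (ρ : k →+* ℝ) (σ : k →+* ℂ),
  Emb ρ σ → ∀ J : Ideal (𝓞 k), J ≠ ⊥ →
    (∀ x, ¬ Mem J x → ∃ a, Prim ρ σ J a ∧ ∀ n : ℤ, a (σ x) ≠ n) ∧
    ∀ a, Prim ρ σ J a → ∀ J', J ≤ J' → ∃ (n : ℕ) (a' : ℂ →+ ℚ), n ≠ 0 ∧ Prim ρ σ J' a' ∧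
      ∀ z, a' z = n * a z

/-- Setups with a given form exist. -/
def S_MK : Prop := ∀ (k : Type) [Field k] [NumberField k] (ρ : k →+* ℝ) (σ : k →+* ℂ),
  Emb ρ σ → ∀ (J : Ideal (𝓞 k)) (u : (𝓞 k)ˣ) (a : ℂ →+ ℚ), J ≠ ⊥ → 6 < ρ (u : 𝓞 k) →
    Prim ρ σ J a → ∃ S : Setup, Fits ρ σ J u S ∧ S.a = a

/-- The real place. -/
def S_RSTR : Prop := ∀ (k : Type) [Field k] [NumberField k] (ρ : k →+* ℝ) (σ : k →+* ℂ),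
  Emb ρ σ → ∀ J u N x (S : Setup) (r : ℂ →+ ℝ), Ad ρ J u N x → Fits ρ σ J u S →
    (∀ y, r (σ y) = ρ y) → (∀ n : ℤ, S.a (σ x) ≠ n) → S.RealStr (σ x) r (ρ (u : 𝓞 k))

/-! ### Normalised values -/

/-- The extrapolation functional. -/
def S_FF : Prop :=
  (∀ N (f g : ℤ → ℂ), FF N (fun t => f t * g t) = FF N f * FF N g) ∧
  (∀ N (f g : ℤ → ℂ), (∀ j, f (tt N j) = g (tt N j) ∧ f (-tt N j) = g (-tt N j)) →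
    FF N f = FF N g) ∧
  (∀ N P, Cub1 P → FF N (fun t => Complex.exp (P t)) = 1) ∧
  (∀ N P, Cub2 P → ∏ j : Fin 4, (Complex.exp (P (tt N j) (j : ℕ)) /
    Complex.exp (P (-tt N j) (j : ℕ))) ^ cc N j = 1) ∧
  ∀ (N N' : ℕ) (f : ℤ → ℂ) (P Q : ℤ → ℂ), Cub1 P → Cub1 Q →
    (∀ j : ℤ, f (1 + j * N) = Complex.exp (P j) ∧ f (-(1 + j * N)) = Complex.exp (Q j)) →
    FF (N * N') f = FF N f ^ N' ^ 3

/-- Basic properties of the normalised values. -/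
def S_ALB : Prop := ∀ (S : Setup) (G : S.A → ℂ) (N : ℕ) (v : ℂ), S.GH G →
  (S.ε - 1) * v ∈ S.L → N * v ∈ S.L → v ∉ S.L →
    S.AL G N v ≠ 0 ∧ (∀ l ∈ S.L, S.AL G N (v + l) = S.AL G N v) ∧
    S.AL G N (-v) = (S.AL G N v)⁻¹ ∧ ∀ N' : ℕ, S.AL G (N * N') v = S.AL G N v ^ N' ^ 3

/-- The symmetrised values are the values of the square level. -/
def S_AUAL : Prop := ∀ (S S' : Setup) (G : S.A → ℂ) (G' : S'.A → ℂ) (N : ℕ) (x : S.A),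
  S.GH G → S'.GH G' → S'.L = S.L → S'.a = S.a → S'.ε = S.ε * S.ε → x ∈ S.V → S.Lat (N • x) →
    S.AU G N x = if S.Lat x then 1 else S'.AL G' N (S.x₁ x)

/-- The distribution relation up to roots of unity. -/
def S_DISTV : Prop := ∀ (S S' : Setup) (G : S.A → ℂ) (G' : S'.A → ℂ) (n N : ℕ) (I : Type)
  [Fintype I] (τ : I → ℂ), S.GH G → S'.GH G' → S'.ε = S.ε → S.L ≤ S'.L →
  n ≠ 0 → (∀ z, S'.a z = n * S.a z) → (∀ j, τ j ∈ S'.L) → (∀ i j, τ i - τ j ∈ S.L → i = j) →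
  (∀ x ∈ S'.L, ∃ j, x - τ j ∈ S.L) → (∀ j, (S.ε - 1) * τ j ∈ S.L) → N ≠ 0 →
  (∀ j, N * τ j ∈ S.L) → ∀ v : ℂ, (S.ε - 1) * v ∈ S.L → N * v ∈ S.L → v ∉ S'.L →
    ∃ m : ℕ, m ≠ 0 ∧ (∏ j, S.AL G N (v + τ j)) ^ m = S'.AL G' N v ^ m

/-- The exact distribution relation for a quotient of odd order. -/
def S_DISTX : Prop := ∀ (S S' : Setup) (G : S.A → ℂ) (G' : S'.A → ℂ) (n N : ℕ) (I : Type)
  [Fintype I] (τ : I → ℂ) (e r : Equiv.Perm I), S.GH G → S'.GH G' → S'.ε = S.ε → S.L ≤ S'.L →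
  n ≠ 0 → (∀ z, S'.a z = n * S.a z) → (∀ j, τ j ∈ S'.L) → (∀ i j, τ i - τ j ∈ S.L → i = j) →
  (∀ x ∈ S'.L, ∃ j, x - τ j ∈ S.L) → (∀ j, τ j - S.ε * τ (e j) ∈ S.L) →
  (∀ j, τ (r j) = -τ j) → (∀ j, N * τ j ∈ S.L) →
  ∀ v : ℂ, (S.ε - 1) * v ∈ S.L → N * v ∈ S.L → v ∉ S'.L →
    FF N (fun t => ∏ j, S.ed G (t * (v + τ j)) (t * (v + τ (e j)))) = S'.AL G' N v

/-! ### Valuations -/

/-- The extremal difference along an antidiagonal point. -/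
def S_TOP : Prop := ∀ (S : Setup) (G : S.A → ℂ) (O : ValuationSubring ℂ) (p N : ℕ) (τ w h : S.A)
  (Ω : O.ValueGroup), S.GH G → S.Tor p τ → O.valuation p < 1 → O.valuation (S.ε - 1) < 1 →
  N ≠ 0 → (∀ x ∈ S.V, S.Lat (N • x)) → w ∈ S.V → S.Anti h → ¬ S.Lat (h + h) →
  (∀ x ∈ S.V, O.valuation (S.AU G N (x + h)) ≤ Ω * O.valuation (S.AU G N x) ∧
    O.valuation (S.AU G N (x - h)) ≤ Ω * O.valuation (S.AU G N x)) →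
  O.valuation (S.AU G N (w + h)) = Ω * O.valuation (S.AU G N w) → 1 < Ω →
    Ω * ∏ j ∈ Finset.range p, O.valuation (S.AU G N (w + j • τ)) <
      ∏ j ∈ Finset.range p, O.valuation (S.AU G N (w + h + j • τ))

/-- The values are cubic modulo the maximal ideal. -/
def S_CUB : Prop := ∀ (S : Setup) (G : S.A → ℂ) (O : ValuationSubring ℂ) (p N : ℕ) (τ : S.A),
  S.GH G → S.Tor p τ → O.valuation p < 1 → O.valuation (S.ε - 1) < 1 →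
  N ≠ 0 → (∀ x ∈ S.V, S.Lat (N • x)) →
  (∀ x ∈ S.V, O.valuation (S.AU G N x) = 1) →
    ∀ x, S.Diag x → O.valuation (S.D4 G τ x - 1) < 1

/-- The congruence at one level. -/
def S_ECONG : Prop := ∀ (S : Setup) (G : S.A → ℂ) (p N : ℕ) (τ : S.A) (v : ℂ) (j : ℤ), S.GH G →
  S.Tor p τ → (S.ε - 1) * v ∈ S.L → N * v ∈ S.L → (∀ i : ℤ, v + i * S.x₁ τ ∉ S.L) →
    ∃ E : ℂ, S.AL G (N * p) (v + j * S.x₁ τ) ^ p ^ 3 =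
        S.AL G (N * p) v ^ p ^ 3 * E ^ (12 * (N * p) ^ 3) ∧
      ∀ O : ValuationSubring ℂ, (∀ x, S.Diag x → O.valuation (S.D4 G τ x - 1) < 1) →
        O.valuation (E - 1) < 1

/-! ### Number fields -/

/-- The invariants do not depend on the setup. -/
def S_REAL : Prop := ∀ (k : Type) [Field k] [NumberField k] (ρ : k →+* ℝ) (σ : k →+* ℂ),
  Emb ρ σ → ∃ AL, Real' ρ σ AL

/-- The formal properties. -/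
def S_INV0 : Prop := ∀ (k : Type) [Field k] [NumberField k] (ρ : k →+* ℝ) (σ : k →+* ℂ),
  Emb ρ σ → ∀ AL, Real' ρ σ AL → Inv0 ρ AL

/-- The limit formula. -/
def S_KLFK : Prop := ∀ (k : Type) [Field k] [NumberField k] (ρ : k →+* ℝ) (σ : k →+* ℂ),
  Emb ρ σ → ∀ AL, Real' ρ σ AL → ∀ J u N x (r : ℂ →+ ℝ), Ad ρ J u N x → (∀ y, r (σ y) = ρ y) →
    Cont (Zv (latt σ J) (σ x) r (ρ (u : 𝓞 k)))
      ((Real.log (‖AL J u N x‖ ^ 2) / (12 * (N : ℝ) ^ 3) : ℝ) : ℂ)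

/-- Torsion points of a good prime. -/
def S_TOR : Prop := ∀ (k : Type) [Field k] [NumberField k] (ρ : k →+* ℝ) (σ : k →+* ℂ),
  Emb ρ σ → ∀ (J P : Ideal (𝓞 k)) (u : (𝓞 k)ˣ) (p : ℕ) (S : Setup), J ≠ ⊥ → p.Prime → 5 ≤ p →
    Ideal.absNorm P = p → Ideal.span {(p : 𝓞 k), (u : 𝓞 k) - 1} = P → Fits ρ σ (P * J) u S →
    ∃ y ∈ J, y ∉ P * J ∧ (∀ z ∈ J, ∃ i : ℤ, z - i * y ∈ P * J) ∧
      S.Tor p (S.pt (σ (y : 𝓞 k)) (σ (y : 𝓞 k)))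

/-- Invariance of the valuation under the classes that are negated by the unit. -/
def S_UINV : Prop := ∀ (k : Type) [Field k] [NumberField k] (ρ : k →+* ℝ) (σ : k →+* ℂ),
  Emb ρ σ → ∀ AL, Real' ρ σ AL → Inv0 ρ AL →
  ∀ (u : (𝓞 k)ˣ) (P : Ideal (𝓞 k)) (p N : ℕ) (O : ValuationSubring ℂ), 6 < ρ (u : 𝓞 k) →
    p.Prime → 5 ≤ p → Ideal.absNorm P = p → Ideal.span {(p : 𝓞 k), (u : 𝓞 k) - 1} = P →
    Over σ O P → N ≠ 0 → (u : 𝓞 k) ^ 2 - 1 ∣ (N : 𝓞 k) →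
    ∀ (J : Ideal (𝓞 k)) (w h : k), J ≠ ⊥ → Mem J ((((u : 𝓞 k) : k) ^ 2 - 1) * w) →
      Mem J ((((u : 𝓞 k) : k) + 1) * h) → ¬ Mem J (2 * h) →
      O.valuation (if Mem J (w + h) then 1 else AL J (u * u) N (w + h)) =
        O.valuation (if Mem J w then 1 else AL J (u * u) N w)

/-- The invariants are units at good primes. -/
def S_UNIT : Prop := ∀ (k : Type) [Field k] [NumberField k] (ρ : k →+* ℝ) (σ : k →+* ℂ),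
  Emb ρ σ → ∀ AL, Real' ρ σ AL → Inv0 ρ AL →
  ∀ J u N x P p (O : ValuationSubring ℂ), Ad ρ J u N x → Good u P p → Over σ O P →
    O.valuation (AL J u N x) = 1

/-- The congruence at good primes. -/
def S_CONG : Prop := ∀ (k : Type) [Field k] [NumberField k] (ρ : k →+* ℝ) (σ : k →+* ℂ),
  Emb ρ σ → ∀ AL, Real' ρ σ AL → Inv0 ρ AL →
  ∀ J u N x P p, Ad ρ (P * J) u N x → Good u P p → ¬ p ∣ N →
    ∃ E : ℂ, (∀ O : ValuationSubring ℂ, Over σ O P → O.valuation (E - 1) < 1) ∧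
      AL J u N x = AL (P * J) u N x ^ p * E ^ (12 * N ^ 3)

end

end Pool.Agent.P.MP_29cb78_nt.F
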