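import Pool.Agent.P.MP_29cb78_nt.F.Base

/-!
One more statement: the invariants of the square level are units.
-/

namespace Pool.Agent.P.MP_29cb78_nt.F

open E NumberField

/-- The invariants of the square level are units at good primes. -/
def S_UNITSQ : Prop := ∀ (k : Type) [Field k] [NumberField k] (ρ : k →+* ℝ) (σ : k →+* ℂ),
  Emb ρ σ → ∀ AL, Real' ρ σ AL → Inv0 ρ AL →
  ∀ (J : Ideal (𝓞 k)) (u : (𝓞 k)ˣ) (N : ℕ) (x : k) (P : Ideal (𝓞 k)) (p : ℕ)
    (O : ValuationSubring ℂ), Ad ρ J (u * u) N x → 6 < ρ (u : 𝓞 k) → p.Prime → 5 ≤ p →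
    Ideal.absNorm P = p → Ideal.span {(p : 𝓞 k), (u : 𝓞 k) - 1} = P → Over σ O P →
    O.valuation (AL J (u * u) N x) = 1

end Pool.Agent.P.MP_29cb78_nt.F
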