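import Pool.Agent.P.MP_29cb78_nt.E.KCone
import Pool.Agent.P.MP_29cb78_nt.E.KErf
import Pool.Agent.P.MP_29cb78_nt.E.KGb
import Pool.Agent.P.MP_29cb78_nt.E.KIso
import Pool.Agent.P.MP_29cb78_nt.E.KKl1
import Pool.Agent.P.MP_29cb78_nt.E.KLim
import Pool.Agent.P.MP_29cb78_nt.E.KLine
import Pool.Agent.P.MP_29cb78_nt.E.KLow
import Pool.Agent.P.MP_29cb78_nt.E.KNeg
import Pool.Agent.P.MP_29cb78_nt.E.KPois
import Pool.Agent.P.MP_29cb78_nt.E.KSingle
import Pool.Agent.P.MP_29cb78_nt.E.KStrip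
import Pool.Agent.P.MP_29cb78_nt.E.KThb
import Pool.Agent.P.MP_29cb78_nt.E.KU1
import Pool.Agent.P.MP_29cb78_nt.E.KU2
import Pool.Agent.P.MP_29cb78_nt.E.KUnf
import Pool.Agent.P.MP_29cb78_nt.E.KZc
import Pool.Agent.P.MP_29cb78_nt.F.KlfAux2
import Pool.Agent.P.MP_29cb78_nt.F.KlfAux3
import Pool.Agent.P.MP_29cb78_nt.F.KlfAux4
import Pool.Agent.P.MP_29cb78_nt.F.KlfAux5
import Pool.Agent.P.MP_29cb78_nt.F.KlfAux6

/-!
The Kronecker limit formula.
-/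

namespace Pool.Agent.P.MP_29cb78_nt.F

open E

namespace Klf

theorem iso3' : K_ISO3 := k_iso3 k_pois k_est

theorem thb' : K_THB := k_thb iso3' k_low k_gb

theorem zc' : K_ZC :=
  k_zc k_ent k_sub thb' (k_unf k_single k_strip k_sub thb' k_ent) (k_tf k_erf k_low k_gb)

theorem kl1' : K_KL1 :=
  k_kl1 k_low (k_dom k_erf k_low) (k_pkg k_gb)
    (k_u1 (k_iso2 k_pois k_est) (k_row k_erf (k_iso1 k_pois k_est)))
    (k_u2 iso3' k_erf k_low k_gb) zc' k_erf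

theorem cone' : K_CONE := k_cone k_line k_jsym

theorem gams' : K_GAMS := k_gams (k_hc cone') k_jsym

theorem klf' : K_KLF :=
  k_klf k_neg (k_llb k_jsym) gams'
    (k_k7 k_neg k_ss gams' (k_step gams' (k_rs cone' k_jsym) (k_llb k_jsym))) k_dat zc' kl1'
    (k_lim k_line)

theorem AL_eq (S : Setup) (G : S.A → ℂ) (N : ℕ) (v : ℂ) :
    S.AL G N v = S.al G N v / S.al G N (-v) := by
  simp only [Setup.AL, Setup.al, FF, Setup.ed, div_zpow, Finset.prod_div_distrib, Int.cast_neg,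
    mul_neg, neg_mul]

end Klf

open Klf in
theorem klf_thm : S_KLF := by
  intro S G v r ρ N hG hR hN hv
  obtain ⟨h1, h2, h3⟩ := klf' S G v r ρ N hG hR hN hv
  rw [AL_eq, norm_div, div_pow, Real.log_div (pow_ne_zero _ (norm_ne_zero_iff.2 h1))
    (pow_ne_zero _ (norm_ne_zero_iff.2 h2))]
  exact h3

end Pool.Agent.P.MP_29cb78_nt.F
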