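import Pool.Agent.P.MP_29cb78_nt.F.Iface2

/-!
Statements of the pieces of the Kronecker limit formula that depend on the setup.
-/

namespace Pool.Agent.P.MP_29cb78_nt.F.Klf

open Filter Topology MeasureTheory Set E
open scoped Classical Real

noncomputable section

theorem mem_of_eq {L : AddSubgroup ℂ} {a b : ℂ} (h : a ∈ L) (e : b = a) : b ∈ L := e ▸ h

/-- Changes of the indices of the lines. -/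
def K_LLB : Prop := ∀ (S : Setup) (m : ℝ),
  (∀ (ζ : ℂ) (θ₁ θ₂ : ℝ), ∀ l ∈ S.L, S.LL m (ζ + l) θ₁ θ₂ = S.LL m ζ θ₁ θ₂ ∧
    (S.LLs m (ζ + l) θ₁ θ₂ ↔ S.LLs m ζ θ₁ θ₂)) ∧
  (∀ (ζ : ℂ) (θ₁ θ₂ : ℝ), (∀ b, b - ζ ∈ S.L → (S.a b : ℝ) ≠ θ₁ ∧ (S.a (b / S.ε) : ℝ) ≠ θ₂) →
    S.LL m (-ζ) (-θ₁) (-θ₂) = -S.LL m ζ θ₁ θ₂ ∧
    (S.LLs m (-ζ) (-θ₁) (-θ₂) ↔ S.LLs m ζ θ₁ θ₂)) ∧
  ∀ x : S.A, S.LLs m (S.x₁ x) (S.a (S.x₁ x) - 1 / 2) (S.a (S.x₂ x) + 1 / 2) →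
    (Summable fun k : ℤ => JJ m ((S.x₁ x + k * S.β) / S.γ)) →
    S.LS m (x + S.p) = S.LS m x - S.RS m (S.x₁ x)

/-- The zero modes of the cone. -/
def K_SS : Prop := ∀ S : Setup,
  (∃ C : ℝ, ∀ m ∈ Ioc (0 : ℝ) 1, ∀ k, |S.SS m k| ≤ C / m ^ 2) ∧
    ∀ m k k', (S.s : ℤ) ∣ k - k' → S.SS m k = S.SS m k'

/-- The cone of the double product. -/
def K_HC : Prop := ∀ (S : Setup) (x : S.A), S.Off (S.x₁ x) →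
  (∀ m : ℝ, 0 < m → Summable (S.hc m x)) ∧
  Tendsto (fun m => ∑' p, S.hc m x p - zm m (S.h x) * S.SS m (S.ν x)) (𝓝[>] 0)
    (𝓝 (-Real.log (‖S.Den x‖ ^ 2))) ∧ S.Den x ≠ 0

/-- The line sum and the gamma function. -/
def K_GAMS : Prop := ∀ (S : Setup) (x : S.A), S.Off (S.x₁ x) →
  (∀ m : ℝ, 0 < m → S.LLs m (S.x₁ x) (S.a (S.x₁ x) - 1 / 2) (S.a (S.x₂ x) + 1 / 2)) ∧
  Tendsto (fun m => S.LS m x - (zm m (S.h x) * S.SS m (S.ν x) -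
      zm m (S.h (S.p + S.q - x)) * S.SS m (S.ν (S.p + S.q - x)))) (𝓝[>] 0)
    (𝓝 (Real.log (‖S.Gam x‖ ^ 2))) ∧ S.Gam x ≠ 0

/-- A row and the theta function. -/
def K_RS : Prop := ∀ (S : Setup) (ζ : ℂ), S.Off ζ →
  (∀ m : ℝ, 0 < m → Summable fun k : ℤ => JJ m ((ζ + k * S.β) / S.γ)) ∧
  Tendsto (fun m => S.RS m ζ - (1 - Real.exp (-(2 * π * m * (S.β / S.γ).im)))⁻¹ *
      (zm m (ζ / S.γ).im + zm m ((S.β / S.γ).im - (ζ / S.γ).im))) (𝓝[>] 0)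
    (𝓝 (-Real.log (‖th0 (ζ / S.γ) (S.β / S.γ)‖ ^ 2))) ∧ th0 (ζ / S.γ) (S.β / S.γ) ≠ 0

/-- Change of the level. -/
def K_STEP : Prop := ∀ (S : Setup) (G : S.A → ℂ), S.GH G → (S.lam / S.γ).im ≠ 0 →
  ∀ x : S.A, S.Off (S.x₁ x) → ∀ k : ℤ,
    Tendsto (fun m => S.DD G m (x + k • S.p) - S.DD G m x + S.Phi m (S.x₁ x / S.γ).im k)
      (𝓝[>] 0) (𝓝 0)

/-- The limit of the extrapolated line sums. -/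
def K_K7 : Prop := ∀ (S : Setup) (G : S.A → ℂ), S.GH G → (S.lam / S.γ).im ≠ 0 →
  ∀ (v : ℂ) (N : ℕ), (S.ε - 1) * v ∈ S.L → N * v ∈ S.L → S.Off v →
    S.al G N v ≠ 0 ∧ S.al G N (-v) ≠ 0 ∧
    Tendsto (fun m => Fn N fun t => S.LS m (S.pt (t * v) (t * v) + S.p)) (𝓝[>] 0)
      (𝓝 (Real.log (‖S.al G N v‖ ^ 2) - Real.log (‖S.al G N (-v)‖ ^ 2)))

/-- Coordinates on the class of `v`. -/
def K_DAT : Prop := ∀ (S : Setup) (v : ℂ) (r : ℂ →+ ℝ) (ρ : ℝ), S.RealStr v r ρ → ∃ D : Dat,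
  D.z 1 = S.γ ∧ D.x 0 = S.a v ∧ (∀ n, D.S n - v ∈ S.L) ∧
  (∀ p : ℤ × ℤ, D.S ![p.1, 0, p.2] = S.ln v p) ∧ (∀ θ n, D.wt θ n = S.wg θ θ (D.S n)) ∧
  (∀ θ n, D.wt θ n = D.wt θ ![n 0, 0, n 2]) ∧ ∀ s, D.Z 1 s = Zv S.L v r ρ s

/-- The Kronecker limit formula. -/
def K_KLF : Prop := ∀ (S : Setup) (G : S.A → ℂ) (v : ℂ) (r : ℂ →+ ℝ) (ρ : ℝ) (N : ℕ), S.GH G →
  S.RealStr v r ρ → N ≠ 0 → N * v ∈ S.L → S.al G N v ≠ 0 ∧ S.al G N (-v) ≠ 0 ∧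
    Cont (Zv S.L v r ρ) (((Real.log (‖S.al G N v‖ ^ 2) - Real.log (‖S.al G N (-v)‖ ^ 2)) /
      (12 * (N : ℝ) ^ 3) : ℝ) : ℂ)

end

end Pool.Agent.P.MP_29cb78_nt.F.Klf
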