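import Pool.Agent.P.MP_29cb78_nt.F.Dg
import Pool.Agent.P.MP_29cb78_nt.F.Deg
import Pool.Agent.P.MP_29cb78_nt.E2.Ext

/-!
Valuations of the function of rank two and of the terms of the identity with four parameters.
-/

namespace Pool.Agent.P.MP_29cb78_nt.F

open E E2 Finset
open scoped Classical

noncomputable section

namespace Dgn

/-! ### Generalities -/

theorem div_surj {n : ℕ} (hn : n ≠ 0) : Function.Surjective fun a : Additive ℂˣ => n • a :=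
  fun b => by
    obtain ⟨z, hz⟩ := IsAlgClosed.exists_pow_nat_eq (ex b) (Nat.pos_of_ne_zero hn)
    have h0 : z ≠ 0 := by
      rintro rfl
      exact ex_ne b (by rw [← hz, zero_pow hn])
    exact ⟨lg z, by beta_reduce; rw [← lg_pow h0, hz, lg_ex]⟩

theorem baer : Module.Baer ℤ (Additive ℂˣ) := by
  let : DivisibleBy (Additive ℂˣ) ℕ := divisibleByOfSMulRightSurj _ _ div_surj
  let := AddGroup.divisibleByIntOfDivisibleByNat (Additive ℂˣ)
  exact Module.Baer.of_divisible _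

variable (O : ValuationSubring ℂ)

/-- The value group, written additively. -/
abbrev Va : Type := Additive (O.ValueGroup)ˣ

/-- Back to the value group. -/
def vx (a : Va O) : O.ValueGroup := (a.toMul : (O.ValueGroup)ˣ)

theorem vx_vl (a : Additive ℂˣ) : vx O (vl O a) = O.valuation (ex a) := rfl

theorem vx_le {a b : Va O} : vx O a ≤ vx O b ↔ a ≤ b := Iff.rfl

theorem vx_lt {a b : Va O} : vx O a < vx O b ↔ a < b := Iff.rfl

theorem vx_zero : vx O 0 = 1 := rfl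

theorem vx_add (a b : Va O) : vx O (a + b) = vx O a * vx O b := by simp [vx]

theorem vx_sum {ι : Type*} (s : Finset ι) (a : ι → Va O) :
    vx O (∑ i ∈ s, a i) = ∏ i ∈ s, vx O (a i) := by simp [vx]

theorem vx_inj : Function.Injective (vx O) := fun _ _ h =>
  le_antisymm ((vx_le O).1 h.le) ((vx_le O).1 h.ge)

theorem canc {n : ℤ} (hn : 0 < n) {a b : Va O} (h : n • a = n • b) : a = b :=
  le_antisymm ((zsmul_le_zsmul_iff_right hn).1 h.le) ((zsmul_le_zsmul_iff_right hn).1 h.ge)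

theorem vl_lg {z : ℂ} (h : O.valuation z = 1) : vl O (lg z) = 0 := by
  rw [vl_eq_zero, ex_lg (fun h0 => by simp [h0] at h), h]

theorem val_nat (n : ℕ) : O.valuation n ≤ 1 := (O.valuation_le_one_iff _).2 (natCast_mem O n)

theorem val_of_sub {z : ℂ} (h : O.valuation (z - 1) < 1) : O.valuation z = 1 := by
  have := O.valuation.map_one_add_of_lt h
  rwa [add_sub_cancel] at this

theorem val_inv_pow {z : ℂ} (h : O.valuation (z - 1) < 1) (n : ℕ) :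
    O.valuation (z⁻¹ ^ n - 1) < 1 := by
  have h0 : z ≠ 0 := fun h0 => by simp [h0] at h
  have h1 : lg z ∈ one1 O := by rwa [mem_one1, ex_lg h0]
  have := (one1 O).nsmul_mem ((one1 O).neg_mem h1) n
  rwa [mem_one1, ex_nsmul, ex_neg, ex_lg h0] at this

theorem val_add_one {z : ℂ} (h : O.valuation (z - 1) < 1) {p : ℕ} (hp : Odd p)
    (hO : O.valuation p < 1) : O.valuation (z + 1) = 1 := by
  obtain ⟨k, rfl⟩ := hp
  have h2 : O.valuation 2 = 1 := by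
    refine le_antisymm (by exact_mod_cast val_nat O 2) (not_lt.1 fun h2 => ?_)
    have h3 : O.valuation (2 * k) < 1 := by
      rw [map_mul]
      exact mul_lt_one_of_lt_of_le h2 (val_nat O k)
    have := O.valuation.map_sub_lt hO h3
    simp at this
  rw [show z + 1 = 2 + (z - 1) by ring, O.valuation.map_add_eq_of_lt_left (h2 ▸ h), h2]

theorem aff_eq {H B : Type*} [AddCommGroup H] [AddCommGroup B] {q : H → B} (hq : PolyLE 1 q)
    {y y' z z' : H} (h : y + y' = z + z') : q y + q y' = q z + q z' := by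
  have := hq (y - z) z y'
  simp only [add_sub_cancel] at this
  rw [show y' + (y - z) = z' by linear_combination (norm := abel) h] at this
  linear_combination (norm := abel) this

/-! ### The symmetrised values -/

variable {S : Setup} {G : S.A → ℂ}

/-- The transpose on `V`. -/
def swV (S : Setup) : S.V →+ S.V := (Up.swH S).codRestrict S.V fun x => Up.sw_mem x.2

theorem swV_coe (x : S.V) : (swV S x : S.A) = S.sw x := rfl

/-- The inclusion of the diagonal. -/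
def inc (S : Setup) : Dg S →+ S.V := AddSubgroup.inclusion Dg_le

theorem inc_coe (x : Dg S) : (inc S x : S.A) = x := rfl

theorem swV_inc (x : Dg S) : swV S (inc S x) = inc S x := Subtype.ext (Up.sw_diag (diag x))

theorem swV_swV (x : S.V) : swV S (swV S x) = x := Subtype.ext (Up.sw_sw x.2)

/-- The valuation of the symmetrised value. -/
def d0 (G : S.A → ℂ) (x : S.V) : Va O := vl O (lu G x)

/-- The valuation of the normalised symmetrised value. -/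
def Dv (G : S.A → ℂ) (N : ℕ) (x : S.V) : Va O := DD N (d0 O G) x

/-- The cubic defect. -/
def cb (G : S.A → ℂ) (N : ℕ) (x : S.V) : Va O := (12 * (N : ℤ) ^ 3) • d0 O G x - Dv O G N x

theorem vx_Dv (hG : S.GH G) (N : ℕ) (x : S.V) : vx O (Dv O G N x) = O.valuation (S.AU G N x) := by
  rw [AU_eq hG, ← vx_vl, ← DD_post]
  rfl

theorem d0_sw (x : S.V) : d0 O G (swV S x) = d0 O G x := by
  rw [d0, d0, lu, lu, swV_coe, Up.UU_sw G x.2]

theorem Dv_sw (N : ℕ) (x : S.V) : Dv O G N (swV S x) = Dv O G N x := by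
  rw [Dv, ← DD_pre]
  simp only [d0_sw]
  rfl

theorem cb_sw (N : ℕ) (x : S.V) : cb O G N (swV S x) = cb O G N x := by
  rw [cb, cb, d0_sw, Dv_sw]

theorem Dv_neg (N : ℕ) (x : S.V) : Dv O G N (-x) = -Dv O G N x := DD_neg _ _ _

theorem Dv_per (hG : S.GH G) (N : ℕ) (x : S.V) {w : S.V} (hw : S.Lat w) :
    Dv O G N (x + w) = Dv O G N x := DD_per N ((qcub_lu hG).post (vl O)) x hw

theorem val_χ (x : S.A) : O.valuation (S.χ x) = 1 := by simp [Setup.χ]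

theorem d0_neg (hG : S.GH G) (hε : O.valuation (S.ε - 1) < 1) (x : S.V) :
    d0 O G (-x) = -d0 O G x := by
  obtain ⟨h1, -, -, -⟩ := up_thm S (th_thm S) G hG (fbG hG)
  rw [eq_neg_iff_add_eq_zero, add_comm, d0, d0, ← map_add, lu, lu,
    ← lg_mul (UU_ne hG _) (UU_ne hG _), AddSubgroup.coe_neg, h1 x x.2]
  refine vl_lg O ?_
  rw [map_mul, val_χ, one_mul]
  split_ifs
  · exact val_of_sub O (val_inv_pow O hε 2)
  · exact map_one _

theorem cb_poly (hG : S.GH G) (hε : O.valuation (S.ε - 1) < 1) {N : ℕ}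
    (hN : ∀ x ∈ S.V, S.Lat (N • x)) : PolyLE 3 (cb O G N) :=
  DD_cubic_odd N ((qcub_lu hG).post (vl O)) (fun x => hN x x.2) (d0_neg O hG hε)

/-! ### Configurations -/

/-- The alternating sum over a configuration. -/
def sq {B : Type*} [AddCommGroup B] (a₀ a₁ b₀ b₁ : S.V) (f : S.V → B) (y : S.V) : B :=
  f (a₀ + y) + f (a₁ + y) - (f (b₀ + y) + f (b₁ + y))

variable {a₀ a₁ b₀ b₁ : S.V}

theorem cfg_sum (h : S.Cfg a₀ a₁ b₀ b₁) : a₀ + a₁ = b₀ + b₁ := Subtype.ext h.sum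

theorem cfg_sw (h : S.Cfg a₀ a₁ b₀ b₁) :
    (swV S a₀ = a₀ ∧ swV S a₁ = a₁ ∧ swV S b₀ = b₀ ∧ swV S b₁ = b₁) ∨
      (swV S a₀ = a₁ ∧ swV S a₁ = a₀ ∧ swV S b₀ = b₁ ∧ swV S b₁ = b₀) := by
  rcases h.sw with ⟨h0, h1, h2, h3⟩ | ⟨h0, h1⟩
  · exact Or.inl ⟨Subtype.ext (Up.sw_diag h0), Subtype.ext (Up.sw_diag h1),
      Subtype.ext (Up.sw_diag h2), Subtype.ext (Up.sw_diag h3)⟩
  · have e0 : swV S a₀ = a₁ := Subtype.ext h0
    have e1 : swV S b₀ = b₁ := Subtype.ext h1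
    exact Or.inr ⟨e0, by rw [← e0, swV_swV], e1, by rw [← e1, swV_swV]⟩

theorem cfg_symm (h : S.Cfg a₀ a₁ b₀ b₁) : S.Cfg b₀ b₁ a₀ a₁ where
  mem := ⟨b₀.2, b₁.2, a₀.2, a₁.2⟩
  sw := h.sw.imp (fun h => ⟨h.2.2.1, h.2.2.2, h.1, h.2.1⟩) And.symm
  sum := h.sum.symm
  cross := ⟨fun e => h.cross.1 (by simpa using e.neg), fun e => h.cross.2.2.1 (by simpa using e.neg),
    fun e => h.cross.2.1 (by simpa using e.neg), fun e => h.cross.2.2.2 (by simpa using e.neg)⟩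

theorem sq_sw {B : Type*} [AddCommGroup B] (h : S.Cfg a₀ a₁ b₀ b₁) {f : S.V → B}
    (hf : ∀ x, f (swV S x) = f x) (y : S.V) :
    sq a₀ a₁ b₀ b₁ f (swV S y) = sq a₀ a₁ b₀ b₁ f y := by
  have e : ∀ a, f (a + swV S y) = f (swV S a + y) := fun a => by
    rw [← hf, map_add, swV_swV]
  rcases cfg_sw h with ⟨h0, h1, h2, h3⟩ | ⟨h0, h1, h2, h3⟩ <;>
    simp only [sq, e, h0, h1, h2, h3, add_comm]

theorem sq_poly {B : Type*} [AddCommGroup B] (h : S.Cfg a₀ a₁ b₀ b₁) {f : S.V → B}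
    (hf : PolyLE 3 f) : PolyLE 1 (sq a₀ a₁ b₀ b₁ f) := by
  refine ((hf (a₀ - b₀) (b₀ - a₁)).shift a₁).congr fun y => ?_
  have e := cfg_sum h
  beta_reduce
  rw [sq, show y + a₁ + (b₀ - a₁) + (a₀ - b₀) = a₀ + y by abel,
    show y + a₁ + (b₀ - a₁) = b₀ + y by abel,
    show y + a₁ + (a₀ - b₀) = b₁ + y by linear_combination (norm := abel) e, add_comm y a₁]
  abel

theorem sq_cb (N : ℕ) (y : S.V) : (12 * (N : ℤ) ^ 3) • sq a₀ a₁ b₀ b₁ (d0 O G) y =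
    sq a₀ a₁ b₀ b₁ (cb O G N) y + sq a₀ a₁ b₀ b₁ (Dv O G N) y := by
  simp only [sq, cb]
  module

/-- The logarithm of the function of rank two. -/
def lr (G : S.A → ℂ) (a₀ a₁ b₀ b₁ : S.V) (z : Dg S) : Additive ℂˣ := lg (S.RR G a₀ a₁ b₀ b₁ z)

theorem vl_UU4 (hG : S.GH G) (x y z w : S.V) :
    vl O (lg (S.UU G x * S.UU G y * S.UU G z * S.UU G w)) =
      d0 O G x + d0 O G y + d0 O G z + d0 O G w := by
  have u := UU_ne hG
  rw [lg_mul (mul_ne_zero (mul_ne_zero (u _) (u _)) (u _)) (u _),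
    lg_mul (mul_ne_zero (u _) (u _)) (u _), lg_mul (u _) (u _), map_add, map_add, map_add]
  rfl

theorem two_lr (hG : S.GH G) (hε : O.valuation (S.ε - 1) < 1) (h : S.Cfg a₀ a₁ b₀ b₁)
    (z : Dg S) : 2 • vl O (lr G a₀ a₁ b₀ b₁ z) = sq a₀ a₁ b₀ b₁ (d0 O G) (inc S z) := by
  obtain ⟨n, -, -, h3⟩ := deg_thm up_thm S (th_thm S) G hG (fbG hG) _ _ _ _ h z (diag z)
  rw [← map_nsmul, lr, ← lg_pow (RR_ne hG _ _ _ _ _), h3]
  refine (vl_UU4 O hG (a₀ + inc S z) (a₁ + inc S z) (-b₀ - inc S z) (-b₁ - inc S z)).trans ?_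
  rw [← neg_add', ← neg_add', d0_neg O hG hε, d0_neg O hG hε, sq]
  abel

theorem exists_lam (hR : S_RPER) (hG : S.GH G) (h : S.Cfg a₀ a₁ b₀ b₁) :
    ∃ lam : Dg S →+ Additive ℂˣ, ∀ z, ∀ w ∈ LD S,
      lr G a₀ a₁ b₀ b₁ (z + w) = lr G a₀ a₁ b₀ b₁ z + lam w := by
  have key : ∀ z, ∀ w ∈ LD S, lr G a₀ a₁ b₀ b₁ (z + w) =
      lr G a₀ a₁ b₀ b₁ z + (lr G a₀ a₁ b₀ b₁ w - lr G a₀ a₁ b₀ b₁ 0) := fun z w hw => by
    have := congrArg lg
      (hR S (th_thm S) G hG (fbG hG) _ _ _ _ h w z (0 : Dg S) hw (diag w) (diag z) (diag 0))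
    rw [lg_mul (RR_ne hG _ _ _ _ _) (RR_ne hG _ _ _ _ _),
      lg_mul (RR_ne hG _ _ _ _ _) (RR_ne hG _ _ _ _ _), ← AddSubgroup.coe_add,
      ← AddSubgroup.coe_add, zero_add] at this
    simp only [lr]
    linear_combination (norm := abel) this
  obtain ⟨lam, hl⟩ := baer.extension_property_addMonoidHom (LD S).subtype Subtype.val_injective
    (AddMonoidHom.mk' (fun w : LD S => lr G a₀ a₁ b₀ b₁ w - lr G a₀ a₁ b₀ b₁ 0) fun x y => by
      rw [AddSubgroup.coe_add, key _ _ y.2]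
      abel)
  refine ⟨lam, fun z w hw => ?_⟩
  have e : lam w = lr G a₀ a₁ b₀ b₁ w - lr G a₀ a₁ b₀ b₁ 0 := DFunLike.congr_fun hl ⟨w, hw⟩
  rw [key z w hw, e]

theorem exists_kap (hG : S.GH G) (hε : O.valuation (S.ε - 1) < 1) (h : S.Cfg a₀ a₁ b₀ b₁)
    {N : ℕ} (hN0 : N ≠ 0) :
    ∃ κ : Additive ℂˣ, (24 * (N : ℤ) ^ 3) • vl O κ = sq a₀ a₁ b₀ b₁ (cb O G N) 0 := by
  obtain ⟨ρ, hρ⟩ := div_surj (n := 24 * N ^ 3) (by positivity) (sq a₀ a₁ b₀ b₁ (DD N (lu G)) 0)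
  refine ⟨lr G a₀ a₁ b₀ b₁ 0 - ρ, ?_⟩
  have e1 := two_lr O hG hε h 0
  have e2 := sq_cb O (G := G) (a₀ := a₀) (a₁ := a₁) (b₀ := b₀) (b₁ := b₁) N 0
  have e3 : (24 * N ^ 3) • vl O ρ = sq a₀ a₁ b₀ b₁ (Dv O G N) 0 := by
    rw [← map_nsmul, show (24 * N ^ 3) • ρ = _ from hρ]
    simp only [sq, map_sub, map_add, ← DD_post]
    rfl
  rw [map_zero] at e1
  rw [map_sub]
  linear_combination (norm := module) (12 * (N : ℤ) ^ 3) • e1 + e2 - e3

/-- The normalising data. -/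
structure Nrm (G : S.A → ℂ) (N : ℕ) (a₀ a₁ b₀ b₁ : S.V) (lam : Dg S →+ Additive ℂˣ)
    (κ : Additive ℂˣ) : Prop where
  gh : S.GH G
  eps : O.valuation (S.ε - 1) < 1
  ne : N ≠ 0
  tors : ∀ x ∈ S.V, S.Lat (N • x)
  cfg : S.Cfg a₀ a₁ b₀ b₁
  per : ∀ z, ∀ w ∈ LD S, lr G a₀ a₁ b₀ b₁ (z + w) = lr G a₀ a₁ b₀ b₁ z + lam w
  kap : (24 * (N : ℤ) ^ 3) • vl O κ = sq a₀ a₁ b₀ b₁ (cb O G N) 0

variable {O} {N : ℕ} {lam : Dg S →+ Additive ℂˣ} {κ : Additive ℂˣ}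

theorem Nrm.pos (h : Nrm O G N a₀ a₁ b₀ b₁ lam κ) : (0 : ℤ) < N := by
  exact_mod_cast Nat.pos_of_ne_zero h.ne

theorem Nrm.lam_eq (h : Nrm O G N a₀ a₁ b₀ b₁ lam κ) (z : Dg S) :
    (24 * (N : ℤ) ^ 3) • vl O (lam z) =
      sq a₀ a₁ b₀ b₁ (cb O G N) (inc S z) - sq a₀ a₁ b₀ b₁ (cb O G N) 0 := by
  have hq := sq_poly h.cfg (cb_poly O h.gh h.eps h.tors)
  let l : S.V →+ Va O := AddMonoidHom.mk'
    (fun y => sq a₀ a₁ b₀ b₁ (cb O G N) y - sq a₀ a₁ b₀ b₁ (cb O G N) 0) fun x y => by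
      have := aff_eq hq (add_zero (x + y))
      linear_combination (norm := abel) this
  have hw : N • z ∈ LD S := h.tors z (Dg_le z.2)
  have e1 := h.per 0 _ hw
  have e2 := two_lr O h.gh h.eps h.cfg (N • z)
  have e3 := two_lr O h.gh h.eps h.cfg 0
  have e4 := sq_cb O (G := G) (a₀ := a₀) (a₁ := a₁) (b₀ := b₀) (b₁ := b₁) N (inc S (N • z))
  have e5 := sq_cb O (G := G) (a₀ := a₀) (a₁ := a₁) (b₀ := b₀) (b₁ := b₁) N 0
  have e6 : sq a₀ a₁ b₀ b₁ (Dv O G N) (inc S (N • z)) = sq a₀ a₁ b₀ b₁ (Dv O G N) 0 := by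
    simp only [sq, Dv_per O h.gh N _ (w := inc S (N • z)) hw, add_zero]
  have e7 : sq a₀ a₁ b₀ b₁ (cb O G N) (inc S (N • z)) - sq a₀ a₁ b₀ b₁ (cb O G N) 0 =
      N • (sq a₀ a₁ b₀ b₁ (cb O G N) (inc S z) - sq a₀ a₁ b₀ b₁ (cb O G N) 0) := by
    rw [map_nsmul]
    exact map_nsmul l N (inc S z)
  rw [zero_add] at e1
  rw [e1, map_add, map_nsmul, map_nsmul] at e2
  rw [map_zero] at e3
  refine canc O h.pos ?_
  linear_combination (norm := module)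
    (12 * (N : ℤ) ^ 3) • e2 - (12 * (N : ℤ) ^ 3) • e3 + e4 - e5 + e6 + e7

/-- The valuation of the normalised function. -/
theorem Nrm.val (h : Nrm O G N a₀ a₁ b₀ b₁ lam κ) (z : Dg S) :
    (24 * (N : ℤ) ^ 3) • vl O (lr G a₀ a₁ b₀ b₁ z - lam z - κ) =
      sq a₀ a₁ b₀ b₁ (Dv O G N) (inc S z) := by
  have e1 := two_lr O h.gh h.eps h.cfg z
  have e2 := sq_cb O (G := G) (a₀ := a₀) (a₁ := a₁) (b₀ := b₀) (b₁ := b₁) N (inc S z)
  rw [map_sub, map_sub]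
  linear_combination (norm := module) (12 * (N : ℤ) ^ 3) • e1 + e2 - h.lam_eq z - h.kap

/-- The valuation of a normalised term of the second sum. -/
theorem Nrm.val2 (h : Nrm O G N a₀ a₁ b₀ b₁ lam κ) (v : Dg S) (y : S.V)
    (hy : y + swV S y = inc S v) :
    (12 * (N : ℤ) ^ 3) • (sq a₀ a₁ b₀ b₁ (d0 O G) y - vl O (lam v + 2 • κ)) =
      sq a₀ a₁ b₀ b₁ (Dv O G N) y := by
  have hq := sq_poly h.cfg (cb_poly O h.gh h.eps h.tors)
  have e1 := aff_eq hq (hy.trans (add_zero _).symm)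
  have e2 := sq_cb O (G := G) (a₀ := a₀) (a₁ := a₁) (b₀ := b₀) (b₁ := b₁) N y
  rw [sq_sw h.cfg (cb_sw O N)] at e1
  refine canc O two_pos ?_
  rw [map_add, map_nsmul]
  linear_combination (norm := module) 2 • e2 + e1 - h.lam_eq v - 2 • h.kap

end Dgn

end

end Pool.Agent.P.MP_29cb78_nt.F
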