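import Pool.Agent.P.MP_29cb78_nt.F.Basic

/-!
Additive maps on `A` that extend the quasi-periods.
-/

namespace Pool.Agent.P.MP_29cb78_nt.F

open E

open scoped Classical Real

noncomputable section

namespace Phi

variable (S : Setup)

lemma η_def (m : ℂ) : S.η m = 2 * π * Complex.I * S.a (m / S.ε) / (S.s * S.γ) := rfl

lemma ν_Ω {ω : S.A} (hω : ω ∈ S.Ω) : (S.ν ω : ℚ) = S.a (S.x₁ ω / S.ε) := by
  have hε := S.ε_ne
  have h : (S.x₁ ω - S.ε * S.x₂ ω) / S.ε = S.x₁ ω / S.ε - S.x₂ ω := by field_simp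
  rw [S.ν_cast, h, map_sub, (S.mem_M.1 (S.mem_Ω.1 hω).2).2, sub_zero]

lemma n_Ω {ω : S.A} (hω : ω ∈ S.Ω) {j k : ℤ}
    (h : S.x₂ ω = S.γ / S.ε * (j + k * (S.s * S.τp))) : S.n ω = -k * S.s := by
  have hε := S.ε_ne
  have hγ := S.γ_ne
  have hs := S.s_ne
  obtain ⟨i, hi⟩ := S.a_exists (S.div_mem S.lam_mem)
  have h1 : S.ε * S.x₂ ω = ((k * S.s : ℤ) : ℂ) * S.lam + j * S.γ + ((k * i : ℤ) : ℂ) * S.β := by
    rw [h, Setup.τp, Setup.τq, hi]
    push_cast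
    field_simp
    ring
  apply Int.cast_injective (α := ℚ)
  rw [S.n_cast, map_sub, (S.mem_M.1 (S.mem_Ω.1 hω).1).2, h1, S.a_comb]
  push_cast
  ring

end Phi

theorem phi_thm : S_PHI := by
  intro S
  have hε := S.ε_ne
  have hγ := S.γ_ne
  have hs := S.s_ne
  set k₂ : ℂ := S.η (S.γ / S.ε) * S.ε / S.γ with hk₂
  set m₁ : ℂ := S.γ / S.ε * (S.s * S.τp) with hm₁
  set be : ℂ := (k₂ * m₁ - S.η m₁) / S.s with hbe
  refine ⟨(AddMonoidHom.mulLeft (2 * π * Complex.I / (S.s * S.γ))).comp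
      ((Int.castAddHom ℂ).comp S.ν),
    (AddMonoidHom.mulLeft k₂).comp S.x₂ +
      (AddMonoidHom.mulLeft be).comp ((Int.castAddHom ℂ).comp S.n), 0, k₂, ?_, ?_⟩
  · intro z
    constructor <;> simp
  · intro ω hω
    constructor
    · have h : (S.ν ω : ℂ) = (S.a (S.x₁ ω / S.ε) : ℂ) := by
        rw [← Phi.ν_Ω S hω]; push_cast; rfl
      simp only [AddMonoidHom.comp_apply, AddMonoidHom.coe_mulLeft, Int.coe_castAddHom]
      rw [h, Phi.η_def]
      ring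
    · obtain ⟨j, k, h⟩ := S.mem_M_iff'.1 (S.mem_Ω.1 hω).2
      have hn := Phi.n_Ω S hω h
      have h2 : S.x₂ ω = j • (S.γ / S.ε) + k • m₁ := by
        rw [h, hm₁, zsmul_eq_mul, zsmul_eq_mul]; ring
      have h3 : S.η (S.x₂ ω) = j * S.η (S.γ / S.ε) + k * S.η m₁ := by
        rw [h2, map_add, map_zsmul, map_zsmul, zsmul_eq_mul, zsmul_eq_mul]
      simp only [AddMonoidHom.add_apply, AddMonoidHom.comp_apply, AddMonoidHom.coe_mulLeft,
        Int.coe_castAddHom]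
      rw [h3, hn, h2, hbe, zsmul_eq_mul, zsmul_eq_mul, hk₂]
      push_cast
      field_simp
      ring

end

end Pool.Agent.P.MP_29cb78_nt.F
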