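import Pool.Agent.P.MP_29cb78_nt.F.Tj1Aux1

/-! The telescoping term with poles on the diagonal. -/

namespace Pool.Agent.P.MP_29cb78_nt.F

namespace Tj1

variable {S : Setup} {G : S.A → ℂ} {Λ : (S.A → ℂ) → (S.A → Prop) → ℂ} {d : ℕ} {t : Fin d → S.A}
  {c : S.A} {s : ℂ} {σ : Fin d → ℂ} {θ : ℂ → ℚ} {φ : S.A →+ ℂ} {k : ℂ} {F : Finset S.A}

theorem tj1 (hT : S.TH) (hG : S.GH G) (hΛ : S.LamAPI Λ) (hb : S.Bal t c s) (hw : WP G t c s)
    (h₁ : S.Sec d (S.PP σ)) (h₂ : S.Sec d fun y => S.PP σ (-y))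
    (hσ : ∀ y, S.PP σ y = S.PP (fun j => S.x₁ (t j) + s) y ∧
      S.PP σ y = S.PP (fun j => S.x₂ (t j) + s) y)
    (hθ : S.Thr t c θ) (hφ : ∀ z, φ (S.ι z) = k * z)
    (hφΩ : ∀ ω ∈ S.Ω, φ ω = S.η (S.x₁ ω - S.x₂ ω))
    (hF : S.Reps F fun y => S.x₁ y - S.x₂ y ∈ S.M ∧ θ (S.x₂ y) - 1 ≤ S.kk y ∧ S.kk y < θ (S.x₂ y)) :
    ∃ f, S.Tame f (S.clT θ) ∧ S.AE f (fun y => S.WW G t c y *
        (S.PP σ (S.x₁ y + s) * S.PP σ (-(S.x₂ y + s)) *
            (S.zt (S.x₁ y - S.x₂ y) - φ (y + (S.p - S.q))) -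
          S.PP σ (-(S.x₁ y + s)) * S.PP σ (S.x₂ y + s) * (S.zt (S.x₁ y - S.x₂ y) - φ y))) ∧
      Λ f (S.clT θ) =
        S.κ * ∑ y ∈ F, (∏ j, (G (t j + c + y + S.q) * G (t j - y + S.p))) / (S.ε - 1) := by
  obtain ⟨W, hW⟩ : ∃ W : S.A → ℂ,
      W = fun y => ∏ j, (G (t j + (c + S.q) + y) * G (t j + S.p - y)) := ⟨_, rfl⟩
  have e1 : S.AE (fun y => S.WW G t c y * (S.PP σ (-(S.x₁ y + s)) * S.PP σ (S.x₂ y + s))) W := by
    rw [hW]
    refine Tj1.ae hT G t c hσ (fun y => -(S.x₁ y + s)) (fun y => S.x₂ y + s) fun j y h0 => ?_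
    rw [show t j + (c + S.q) + y = t j + c + y + S.q by abel, add_sub_right_comm, hG.shq _ h0.1,
      hG.shp _ h0.2, show S.x₁ (t j) + s + -(S.x₁ y + s) = S.x₁ (t j - y) by rw [map_sub]; ring,
      show S.x₂ (t j) + s + (S.x₂ y + s) = S.x₂ (t j + c + y) by
        rw [map_add, map_add, hb.c₂]; ring]
    ring
  have e2 : S.AE (fun y => S.WW G t c y * (S.PP σ (S.x₁ y + s) * S.PP σ (-(S.x₂ y + s))))
      fun y => W (y + (S.p - S.q)) := by
    rw [hW]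
    refine Tj1.ae hT G t c hσ (fun y => S.x₁ y + s) (fun y => -(S.x₂ y + s)) fun j y h0 => ?_
    rw [show t j + (c + S.q) + (y + (S.p - S.q)) = t j + c + y + S.p by abel,
      show t j + S.p - (y + (S.p - S.q)) = t j - y + S.q by abel, hG.shp _ h0.1, hG.shq _ h0.2,
      show S.x₂ (t j) + s + -(S.x₂ y + s) = S.x₂ (t j - y) by rw [map_sub]; ring,
      show S.x₁ (t j) + s + (S.x₁ y + s) = S.x₁ (t j + c + y) by
        rw [map_add, map_add, hb.c₁]; ring]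
    ring
  have t1 : S.Tame W (S.clT θ) := (tame hG hw h₂ h₁ hθ.sep).congr e1
  have t2 : S.Tame W fun y => S.clT θ (y - (S.p - S.q)) := by
    have := ((tame hG hw h₁ h₂ hθ.sep).congr e2).shift (-(S.p - S.q))
    simpa only [neg_add_cancel_right, ← sub_eq_add_neg, sub_add_cancel] using this
  have hc : ∀ y, S.clT θ (y - (S.p - S.q)) ↔ θ (S.x₂ y) ≤ S.kk y + 1 := fun y => by
    have := hθ.per (S.x₂ y) _ (S.L.neg_mem S.lam_mem)
    simp [Setup.clT, sub_eq_add_neg, this]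
  have h0 : 0 < S.h S.q - S.h S.p := by linarith [S.h_p_lt, S.h_p_pos]
  have hh : ∀ y, 0 + (S.x₁ - S.x₂) y ∈ S.M → S.h y = S.kk y * (S.h S.q - S.h S.p) + 0 :=
    fun y hy => by rw [add_zero]; exact S.h_diag (by simpa using hy)
  obtain ⟨k1, k2, k3⟩ := Tj1.key hT hΛ (S.x₁ - S.x₂) 0 S.ε_sub_ne (fun z => by simp; ring)
    (fun ω hω => S.M.sub_mem hω.1 hω.2) hφ hφΩ t2 t1 (Tj1.bnd hθ.bdd 1 h0 hh hc)
    (Tj1.bnd hθ.bdd 0 h0 hh fun y => by rw [add_zero]; rfl)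
    (fun x hx => by
      rw [hW] at hx
      obtain ⟨j, hj⟩ := not_forall.1 fun h => hx (Tj1.an hG t (c + S.q) S.p x h)
      rcases not_and_or.1 hj with h | h <;> rw [not_not] at h
      · exact iff_of_false (hθ.sep.lower j _ (Setup.Pole.of_add_p (by
          rwa [show t j + c + (x - (S.p - S.q)) + S.p = t j + (c + S.q) + x by abel])))
          (hθ.sep.lower j _ (Setup.Pole.of_add_q (by
          rwa [show t j + c + x + S.q = t j + (c + S.q) + x by abel])))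
      · exact iff_of_true (hθ.sep.upper j _ (Setup.Pole.of_add_q (by
          rwa [show t j - (x - (S.p - S.q)) + S.q = t j + S.p - x by abel])))
          (hθ.sep.upper j _ (Setup.Pole.of_add_p (by
          rwa [show t j - x + S.p = t j + S.p - x by abel]))))
    (fun x hx => (hc x).2 (by have : θ (S.x₂ x) ≤ S.kk x := hx; linarith)) (F := F) (by
      have : (fun y => 0 + (S.x₁ - S.x₂) y ∈ S.M ∧ S.clT θ (y - (S.p - S.q)) ∧ ¬ S.clT θ y) =
          fun y => S.x₁ y - S.x₂ y ∈ S.M ∧ θ (S.x₂ y) - 1 ≤ S.kk y ∧ S.kk y < θ (S.x₂ y) :=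
        funext fun y => propext (and_congr (by rw [zero_add]; rfl)
          (and_congr (by rw [hc, sub_le_iff_le_add]) not_le))
      rwa [this])
  obtain ⟨s1, s2⟩ := hΛ.shift' (S.p - S.q) k1
  refine ⟨_, s1.sub k2, ?_, ?_⟩
  · have := (e2.symm.mul (Setup.AE.refl fun y => S.zt (S.x₁ y - S.x₂ y) - φ (y + (S.p - S.q)))).sub
      (e1.symm.mul (Setup.AE.refl fun y => S.zt (S.x₁ y - S.x₂ y) - φ y))
    intro x
    filter_upwards [this x] with z hz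
    simp only [Setup.sl] at hz ⊢
    rw [map_add (S.x₁ - S.x₂), show (S.x₁ - S.x₂) (S.p - S.q) = 0 by simp, add_zero, zero_add,
      AddMonoidHom.sub_apply, hz]
    ring
  · rw [hΛ.sub s1 k2, s2, k3, hW]
    simp only [← add_assoc, add_right_comm _ S.q, add_sub_right_comm _ S.p]

end Tj1

end Pool.Agent.P.MP_29cb78_nt.F
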