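import Pool.Agent.P.MP_29cb78_nt.F.TameAux1

/-! A periodic product times a logarithmic derivative: tameness and residues. -/

namespace Pool.Agent.P.MP_29cb78_nt.F

open Filter Topology

namespace Tj1

variable {S : Setup}

theorem zt_shift (hT : S.TH) {m z : ℂ} (hm : m ∈ S.M) (hz : z ∉ S.M) :
    S.zt (z + m) = S.zt z + S.η m := by
  have h0 : S.ϑ z ≠ 0 := fun h => hz ((hT.zero_iff z).1 h)
  have h1 : HasDerivAt (S.mult m) (S.mult m z * S.η m) z := by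
    have := (((hasDerivAt_id z).const_mul (S.η m)).cexp).const_mul (deriv S.ϑ m / deriv S.ϑ 0)
    simp only [id, mul_one, ← mul_assoc] at this
    exact this
  have h2 := (h1.mul (hT.diff z).hasDerivAt).deriv
  have h3 : (S.mult m * S.ϑ) = fun z => S.ϑ (z + m) := funext fun z => (hT.shift m hm z).symm
  rw [h3, deriv_comp_add_const] at h2
  have := hT.mult_ne m hm z
  rw [Setup.zt, Setup.zt, h2, hT.shift m hm]
  field_simp
  ring

theorem zt_res (hT : S.TH) {m e : ℂ} (hm : m ∈ S.M) (he : e ≠ 0) :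
    Tendsto (fun z => z * S.zt (m + e * z)) (𝓝[≠] 0) (𝓝 e⁻¹) := by
  have h0 : HasDerivAt (fun z => m + e * z) e 0 := by
    simpa using ((hasDerivAt_id (0 : ℂ)).const_mul e).const_add m
  have hm' : HasDerivAt S.ϑ (deriv S.ϑ m) (m + e * 0) := by
    rw [mul_zero, add_zero]; exact (hT.diff m).hasDerivAt
  have h1 : HasDerivAt (fun z => S.ϑ (m + e * z)) (deriv S.ϑ m * e) 0 :=
    HasDerivAt.comp (h₂ := S.ϑ) 0 hm' h0
  have h2 := hasDerivAt_iff_tendsto_slope_zero.1 h1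
  have h3 : Tendsto (fun z => deriv S.ϑ (m + e * z)) (𝓝[≠] 0) (𝓝 (deriv S.ϑ m)) := by
    have : Continuous fun z => deriv S.ϑ (m + e * z) := hT.diff.deriv.continuous.comp (by fun_prop)
    simpa using (this.tendsto 0).mono_left nhdsWithin_le_nhds
  have hd := hT.deriv_ne m hm
  have h4 := h3.div h2 (mul_ne_zero hd he)
  rw [show deriv S.ϑ m / (deriv S.ϑ m * e) = e⁻¹ by field_simp] at h4
  refine h4.congr fun z => ?_
  simp only [Pi.div_apply, zero_add, mul_zero, add_zero, (hT.zero_iff m).2 hm, sub_zero,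
    smul_eq_mul, Setup.zt]
  rw [div_mul_eq_div_div_swap, div_inv_eq_mul, mul_comm]

theorem tame_mul {f g : S.A → ℂ} {cl : S.A → Prop} (h : S.Tame f cl) (h' : S.Tame g cl) :
    S.Tame (fun x => f x * g x) cl where
  mer x := (h.mer x).mul (h'.mer x)
  per ω hω := (h.per ω hω).mul (h'.per ω hω)
  clper := h.clper
  bdd := by
    obtain ⟨R, hR⟩ := h.bdd
    obtain ⟨R', hR'⟩ := h'.bdd
    refine ⟨max R R', fun x hx => ?_⟩
    have h1 := le_max_left R R'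
    have h2 := le_max_right R R'
    by_cases hf : S.Reg f x
    · have := hR' x fun hg => hx (hf.mul hg)
      exact ⟨fun c => by linarith [this.1 c], fun c => by linarith [this.2 c]⟩
    · have := hR x hf
      exact ⟨fun c => by linarith [this.1 c], fun c => by linarith [this.2 c]⟩

theorem bnd {θ : ℂ → ℚ} (hθ : ∃ R : ℚ, ∀ z, |θ z| ≤ R) (c : ℚ) {c₀ c₁ : ℝ} (h0 : 0 < c₀)
    {B cl : S.A → Prop} (hh : ∀ y, B y → S.h y = S.kk y * c₀ + c₁)
    (hc : ∀ y, cl y ↔ θ (S.x₂ y) ≤ S.kk y + c) :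
    ∃ R : ℝ, ∀ x, B x → (cl x → -R < S.h x) ∧ (¬ cl x → S.h x < R) := by
  obtain ⟨R, hR⟩ := hθ
  refine ⟨((R + |c| + 1 : ℚ) : ℝ) * c₀ + |c₁|, fun x hx => ?_⟩
  have h1 := abs_le.1 (hR (S.x₂ x))
  rw [hh x hx, hc]
  refine ⟨fun h => ?_, fun h => ?_⟩
  · have : ((-(R + |c| + 1) : ℚ) : ℝ) * c₀ < S.kk x * c₀ :=
      mul_lt_mul_of_pos_right (Rat.cast_lt.2 (by linarith [le_abs_self c, h1.1])) h0
    rw [Rat.cast_neg] at this
    linarith [neg_abs_le c₁]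
  · have : (S.kk x : ℝ) * c₀ < ((R + |c| + 1 : ℚ) : ℝ) * c₀ :=
      mul_lt_mul_of_pos_right (Rat.cast_lt.2 (by linarith [neg_abs_le c, h1.2, not_le.1 h])) h0
    linarith [le_abs_self c₁]

theorem key (hT : S.TH) {Λ : (S.A → ℂ) → (S.A → Prop) → ℂ} (hΛ : S.LamAPI Λ) {W : S.A → ℂ}
    (ℓ : S.A →+ ℂ) (u : ℂ) {e : ℂ} (he : e ≠ 0) (hℓ : ∀ z, ℓ (S.ι z) = e * z)
    (hℓΩ : ∀ ω ∈ S.Ω, ℓ ω ∈ S.M) {φ : S.A →+ ℂ} {k : ℂ} (hφ : ∀ z, φ (S.ι z) = k * z)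
    (hφΩ : ∀ ω ∈ S.Ω, φ ω = S.η (ℓ ω)) {cl cl' : S.A → Prop} (t1 : S.Tame W cl)
    (t2 : S.Tame W cl')
    (b1 : ∃ R : ℝ, ∀ x, u + ℓ x ∈ S.M → (cl x → -R < S.h x) ∧ (¬ cl x → S.h x < R))
    (b2 : ∃ R : ℝ, ∀ x, u + ℓ x ∈ S.M → (cl' x → -R < S.h x) ∧ (¬ cl' x → S.h x < R))
    (han : ∀ x, ¬ AnalyticAt ℂ (S.sl W x) 0 → (cl x ↔ cl' x)) (himp : ∀ x, cl' x → cl x)
    {F : Finset S.A} (hF : S.Reps F fun y => u + ℓ y ∈ S.M ∧ cl y ∧ ¬ cl' y) :
    S.Tame (fun y => W y * (S.zt (u + ℓ y) - φ y)) cl ∧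
    S.Tame (fun y => W y * (S.zt (u + ℓ y) - φ y)) cl' ∧
    Λ (fun y => W y * (S.zt (u + ℓ y) - φ y)) cl - Λ (fun y => W y * (S.zt (u + ℓ y) - φ y)) cl' =
      S.κ * ∑ y ∈ F, W y / e := by
  have hs : ∀ x, S.sl (fun y => S.zt (u + ℓ y) - φ y) x =
      fun z => deriv S.ϑ (u + ℓ x + e * z) / S.ϑ (u + ℓ x + e * z) - (φ x + k * z) := fun x => by
    funext z; simp only [Setup.sl, map_add, hℓ, hφ, Setup.zt, add_assoc]
  have a1 : ∀ x, AnalyticAt ℂ (fun z => deriv S.ϑ (u + ℓ x + e * z)) 0 := fun x =>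
    (hT.diff.deriv.comp (f := fun z => u + ℓ x + e * z) (by fun_prop)).analyticAt 0
  have a2 : ∀ x, AnalyticAt ℂ (fun z => S.ϑ (u + ℓ x + e * z)) 0 := fun x =>
    (hT.diff.comp (f := fun z => u + ℓ x + e * z) (by fun_prop)).analyticAt 0
  have a3 : ∀ x, AnalyticAt ℂ (fun z => φ x + k * z) 0 := fun x => by fun_prop
  have reg : ∀ x, u + ℓ x ∉ S.M → S.Reg (fun y => S.zt (u + ℓ y) - φ y) x := fun x hx =>
    Setup.Reg.of_analyticAt (by
      rw [hs]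
      exact ((a1 x).div (a2 x) (by simpa using fun h => hx ((hT.zero_iff _).1 h))).sub (a3 x))
  have tk : ∀ {c : S.A → Prop}, S.Tame W c →
      (∃ R : ℝ, ∀ x, u + ℓ x ∈ S.M → (c x → -R < S.h x) ∧ (¬ c x → S.h x < R)) →
      S.Tame (fun y => W y * (S.zt (u + ℓ y) - φ y)) c := fun t ⟨R, b⟩ => tame_mul t
    ⟨fun x => by
      rw [hs]
      exact ((a1 x).meromorphicAt.div (a2 x).meromorphicAt).sub (a3 x).meromorphicAt,
    fun ω hω => Setup.AE.of_eventually (fun y => u + ℓ y ∉ S.M)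
      (fun x => by simpa only [map_add, hℓ, add_assoc] using hT.disc_affine (u + ℓ x) he) fun y hy => by
        simp only [map_add, ← add_assoc, zt_shift hT (hℓΩ ω hω) hy, hφΩ ω hω]; ring,
    t.clper, R, fun x hx => b x (by_contra fun h => hx (reg x h))⟩
  refine ⟨tk t1 b1, tk t2 b2, hΛ.recl _ _ _ F _ (tk t1 b1) (tk t2 b2) hF.inj (fun x hx => ?_)
    fun y hy => ?_⟩
  · by_cases h : cl x ↔ cl' x
    · exact Or.inl h
    · refine Or.inr (hF.surj x ⟨by_contra fun h1 => hx ?_, by have := himp x; tauto⟩)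
      exact (Setup.Reg.of_analyticAt (by_contra fun h2 => h (han x h2))).mul (reg x h1)
  · obtain ⟨h1, h2, h3⟩ := hF.mem y hy
    refine ⟨h2, h3, ?_⟩
    have h4 : AnalyticAt ℂ (S.sl W y) 0 := by_contra fun h => h3 ((han y h).1 h2)
    have h5 : Tendsto (S.sl W y) (𝓝[≠] 0) (𝓝 (W y)) := by
      simpa using h4.continuousAt.tendsto.mono_left nhdsWithin_le_nhds
    have h6 : Tendsto (fun z : ℂ => z * (φ y + k * z)) (𝓝[≠] 0) (𝓝 0) := by
      have : Continuous fun z : ℂ => z * (φ y + k * z) := by fun_prop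
      simpa using (this.tendsto 0).mono_left nhdsWithin_le_nhds
    have h7 := h5.mul ((zt_res hT h1 he).sub h6)
    rw [sub_zero, ← div_eq_mul_inv] at h7
    refine h7.congr fun z => ?_
    simp only [Setup.sl, map_add, hℓ, hφ, add_assoc]
    ring

theorem ae (hT : S.TH) (G : S.A → ℂ) {d : ℕ} (t : Fin d → S.A) (c : S.A) {σ : Fin d → ℂ} {s : ℂ}
    (hσ : ∀ y, S.PP σ y = S.PP (fun j => S.x₁ (t j) + s) y ∧
      S.PP σ y = S.PP (fun j => S.x₂ (t j) + s) y)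
    (a b : S.A → ℂ) {F : Fin d → S.A → ℂ}
    (h : ∀ j y, ¬ S.Pole (t j + c + y) ∧ ¬ S.Pole (t j - y) →
      F j y = G (t j + c + y) * G (t j - y) *
        (S.ϑ (S.x₁ (t j) + s + a y) * S.ϑ (S.x₂ (t j) + s + b y))) :
    S.AE (fun y => S.WW G t c y * (S.PP σ (a y) * S.PP σ (b y))) fun y => ∏ j, F j y :=
  Setup.AE.of_eventually (fun y => ∀ j, ¬ S.Pole (t j + c + y) ∧ ¬ S.Pole (t j - y))
    (fun x => eventually_all.2 fun _ => (hT.not_pole_add _ x).and (hT.not_pole_sub _ x))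
    fun y hy => by
    rw [(hσ (a y)).1, (hσ (b y)).2, Finset.prod_congr rfl fun j _ => h j y (hy j)]
    simp only [Setup.WW, Setup.PP, Finset.prod_mul_distrib]

theorem an {G : S.A → ℂ} (hG : S.GH G) {d : ℕ} (t : Fin d → S.A) (u v x : S.A)
    (h : ∀ j, ¬ S.Pole (t j + u + x) ∧ ¬ S.Pole (t j + v - x)) :
    AnalyticAt ℂ (S.sl (fun y => ∏ j, (G (t j + u + y) * G (t j + v - y))) x) 0 :=
  Finset.analyticAt_fun_prod (f := fun j z => G (t j + u + (x + S.ι z)) * G (t j + v - (x + S.ι z)))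
    _ fun j _ => (hG.analyticAt_add (h j).1).mul (hG.analyticAt_sub (h j).2)

/-- The periodicity of the product. -/
def WP (G : S.A → ℂ) {d : ℕ} (t : Fin d → S.A) (c : S.A) (s : ℂ) : Prop := ∀ ω ∈ S.Ω, ∀ y,
  S.WW G t c (y + ω) * (S.mult (S.x₁ ω) (S.x₁ y + s) ^ d * S.mult (S.x₂ ω) (S.x₂ y + s) ^ d) =
    S.WW G t c y

theorem tame {G : S.A → ℂ} (hG : S.GH G) {d : ℕ} {t : Fin d → S.A} {c : S.A} {s : ℂ}
    (hw : WP G t c s) {f₁ f₂ : ℂ → ℂ} {cl : S.A → Prop} (s₁ : S.Sec d f₁) (s₂ : S.Sec d f₂)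
    (hs : S.Sep t c cl) :
    S.Tame (fun y => S.WW G t c y * (f₁ (S.x₁ y + s) * f₂ (S.x₂ y + s))) cl := by
  refine Tame.tame0 (g := fun y => f₁ (S.x₁ y + s) * f₂ (S.x₂ y + s)) hG
    (fun x => (Tame.an₁ s s₁.1 x).mul (Tame.an₂ s s₂.1 x)) hs.clper hs.lower hs.upper
    fun ω hω x => .of_forall fun z => ?_
  have h := hw ω hω (x + S.ι z)
  change S.WW G t c (x + S.ι z + ω) * _ = S.WW G t c (x + S.ι z) * _
  rw [map_add S.x₁ _ ω, map_add S.x₂ _ ω, add_right_comm _ _ s, add_right_comm _ _ s,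
    s₁.2 _ hω.1, s₂.2 _ hω.2]
  linear_combination (f₁ (S.x₁ (x + S.ι z) + s) * f₂ (S.x₂ (x + S.ι z) + s)) * h

end Tj1

end Pool.Agent.P.MP_29cb78_nt.F
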