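import Pool.Agent.P.MP_29cb78_nt.F.Defs

/-!
The canonical invariants attached to the ideals of a complex cubic field.
-/

namespace Pool.Agent.P.MP_29cb78_nt.F

open NumberField E
open scoped Classical

noncomputable section

variable {k : Type} [Field k]

/-- The element `x` of the field lies in the ideal `J`. -/
def Mem (J : Ideal (𝓞 k)) (x : k) : Prop := ∃ j ∈ J, (j : k) = x

/-- Admissible data: `x` is a nonzero class modulo `J`, fixed by `u` and killed by `N`. -/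
structure Ad (ρ : k →+* ℝ) (J : Ideal (𝓞 k)) (u : (𝓞 k)ˣ) (N : ℕ) (x : k) : Prop where
  J_ne : J ≠ ⊥
  big : 6 < ρ (u : 𝓞 k)
  N_ne : N ≠ 0
  fix : Mem J ((((u : 𝓞 k) : k) - 1) * x)
  tors : Mem J (N * x)
  not_mem : ¬ Mem J x

/-- `P` is a prime of degree one above `p` that is the greatest common divisor of `p` and
`u ^ K - 1`. -/
structure Good [NumberField k] (u : (𝓞 k)ˣ) (P : Ideal (𝓞 k)) (p : ℕ) : Prop where
  prime : p.Prime
  five : 5 ≤ p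
  norm : Ideal.absNorm P = p
  gcd : ∃ K : ℕ, K ≠ 0 ∧ Ideal.span {(p : 𝓞 k), (u : 𝓞 k) ^ K - 1} = P

/-- The valuation ring `O` of `ℂ` lies above `P`. -/
def Over (σ : k →+* ℂ) (O : ValuationSubring ℂ) (P : Ideal (𝓞 k)) : Prop :=
  ∀ y ∈ P, O.valuation (σ (y : 𝓞 k)) < 1

/-- `T` is a system of representatives of `J'` modulo `J`. -/
structure CReps (J J' : Ideal (𝓞 k)) (T : Finset k) : Prop where
  mem : ∀ τ ∈ T, Mem J' τ
  inj : ∀ τ ∈ T, ∀ τ' ∈ T, Mem J (τ - τ') → τ = τ'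
  surj : ∀ x, Mem J' x → ∃ τ ∈ T, Mem J (x - τ)

/-- The formal properties of the invariants. -/
structure Inv0 (ρ : k →+* ℝ) (AL : Ideal (𝓞 k) → (𝓞 k)ˣ → ℕ → k → ℂ) : Prop where
  ne : ∀ J u N x, Ad ρ J u N x → AL J u N x ≠ 0
  per : ∀ J u N x y, Ad ρ J u N x → Mem J (y - x) → AL J u N y = AL J u N x
  hom : ∀ J u N x (α : 𝓞 k), Ad ρ J u N x → 0 < ρ α →
    AL (Ideal.span {α} * J) u N (α * x) = AL J u N x
  neg : ∀ J u N x, Ad ρ J u N x → AL J u N (-x) = (AL J u N x)⁻¹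
  chain : ∀ J u u' N x, Ad ρ J u N x → Ad ρ J u' N x →
    AL J (u * u') N x = AL J u N x * AL J u' N x
  scale : ∀ J u N N' x, Ad ρ J u N x → N' ≠ 0 → AL J u (N * N') x = AL J u N x ^ N' ^ 3
  dist : ∀ J J' u N x (T : Finset k), J ≤ J' → CReps J J' T → Ad ρ J' u N x →
    (∀ τ ∈ T, Ad ρ J u N (x + τ)) →
    ∃ n : ℕ, n ≠ 0 ∧ (∏ τ ∈ T, AL J u N (x + τ)) ^ n = AL J' u N x ^ n

/-- All properties of the invariants. -/
structure Inv [NumberField k] (ρ : k →+* ℝ) (σ : k →+* ℂ)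
    (AL : Ideal (𝓞 k) → (𝓞 k)ˣ → ℕ → k → ℂ) : Prop extends Inv0 ρ AL where
  klf : ∀ J u N x (r : ℂ →+ ℝ), Ad ρ J u N x → (∀ y, r (σ y) = ρ y) →
    Cont (Zv (latt σ J) (σ x) r (ρ (u : 𝓞 k)))
      ((Real.log (‖AL J u N x‖ ^ 2) / (12 * (N : ℝ) ^ 3) : ℝ) : ℂ)
  unit : ∀ J u N x P p (O : ValuationSubring ℂ), Ad ρ J u N x → Good u P p → Over σ O P →
    O.valuation (AL J u N x) = 1
  cong : ∀ J u N x P p, Ad ρ (P * J) u N x → Good u P p → ¬ p ∣ N →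
    ∃ E : ℂ, (∀ O : ValuationSubring ℂ, Over σ O P → O.valuation (E - 1) < 1) ∧
      AL J u N x = AL (P * J) u N x ^ p * E ^ (12 * N ^ 3)

/-- The invariants exist. -/
def S_INV : Prop := ∀ (k : Type) [Field k] [NumberField k] (ρ : k →+* ℝ) (σ : k →+* ℂ),
  Emb ρ σ → ∃ AL, Inv ρ σ AL

/-- The setup belongs to the ideal `J` and the unit `u`, and its form is positive. -/
structure Fits (ρ : k →+* ℝ) (σ : k →+* ℂ) (J : Ideal (𝓞 k)) (u : (𝓞 k)ˣ) (S : Setup) :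
    Prop where
  L_eq : S.L = latt σ J
  ε_eq : S.ε = σ (u : 𝓞 k)
  pos : ∃ (α : ℝ) (w : ℂ), 0 < α ∧
    ∀ y ∈ J, (S.a (σ (y : 𝓞 k)) : ℝ) = α * ρ (y : 𝓞 k) + (w * σ (y : 𝓞 k)).re

/-- The family `AL` is computed by every fitting setup. -/
def Real' (ρ : k →+* ℝ) (σ : k →+* ℂ) (AL : Ideal (𝓞 k) → (𝓞 k)ˣ → ℕ → k → ℂ) : Prop :=
  ∀ J u N x (S : Setup) (G : S.A → ℂ), Ad ρ J u N x → Fits ρ σ J u S → S.GH G →
    AL J u N x = S.AL G N (σ x)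

end

end Pool.Agent.P.MP_29cb78_nt.F
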